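import Pool.Agent.H46.GT.A1a
import Pool.Agent.SLR.M8

/-!
`law_exists`: copy the proof of `SLR.exists_law` (M8) with general integrands; note that
`den Φ = dens θ` for the `θ_v` of `theta_exists_eq` (the sums of squares are `≥ 0`).
-/

set_option autoImplicit false

open PowerSeries Finset MeasureTheory

namespace Pool.Agent.GT

open Pool.Agent.OHG Pool.Agent.GPC Pool.Agent.SLR

variable {V : Type} [Fintype V] [DecidableEq V]

omit [DecidableEq V] in
private theorem a1_theta {Φ : V → ℂ → ℂ} {φ : V → ℝ⟦X⟧} (hΦ : ∀ v, Good (Φ v) (φ v)) :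
    ∃ θ : V → ℝ → ℝ, (∀ v, Theta (θ v) (φ v)) ∧ (∀ v, ∀ r : ℝ, 0 ≤ r → 0 < lapl (θ v) r) ∧
      den Φ = dens θ := by
  choose θ hθ hpos using fun v => theta_exists_eq (hΦ v)
  refine ⟨θ, hθ, fun v r hr => (hpos v r hr).2, ?_⟩
  funext X
  unfold den SLR.dens
  exact Finset.prod_congr rfl fun v _ =>
    (hpos v _ (Finset.sum_nonneg fun i _ => sq_nonneg _)).1.symm

private theorem a1_herm (D : Data V) : (lkm D).IsHermitian := by
  ext v w
  rw [Matrix.conjTranspose_apply, star_trivial]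
  unfold lkm
  rw [Matrix.of_apply, Matrix.of_apply, lk_comm]

omit [DecidableEq V] in
private theorem a1_cont (A : Matrix V V ℝ) : Continuous (qf A) := by
  unfold qf
  fun_prop

theorem den_pos {Φ : V → ℂ → ℂ} {φ : V → ℝ⟦X⟧} (hΦ : ∀ v, Good (Φ v) (φ v))
    (X : V × Fin 3 → ℝ) : 0 < den Φ X := by
  obtain ⟨θ, -, hpos, e⟩ := a1_theta hΦ
  rw [e]
  unfold SLR.dens
  exact Finset.prod_pos fun v _ => hpos v _ (Finset.sum_nonneg fun i _ => sq_nonneg _)

theorem den_integrable {Φ : V → ℂ → ℂ} {φ : V → ℝ⟦X⟧} (hΦ : ∀ v, Good (Φ v) (φ v)) :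
    Integrable (den Φ) := by
  obtain ⟨θ, hθ, -, e⟩ := a1_theta hΦ
  rw [e]
  exact dens_integrable hθ

theorem law_exists {D : Data V} (h : D.IsGraph) {Φ : V → ℂ → ℂ} {φ : V → ℝ⟦X⟧}
    (hΦ : ∀ v, Good (Φ v) (φ v)) :
    IsFiniteMeasure (law D Φ) ∧ law D Φ ≠ 0 ∧
      ∃ F : ℂ → ℂ, HG F (gpart D φ) ∧ ∃ c : ℂ, c ≠ 0 ∧ ∀ t : ℝ, 0 < t →
        charFun (law D Φ) t =
          c * ((t ^ (-(3 / 2 : ℝ) * Fintype.card V) : ℝ) : ℂ) * F (Complex.I / (4 * t)) := by
  have hI := den_integrable hΦ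
  have hd0 : ∀ X, 0 < den Φ X := den_pos hΦ
  obtain ⟨θ, hθ, hpos, e⟩ := a1_theta hΦ
  have hc := a1_cont (lkm D)⁻¹
  have hmeas : AEMeasurable (fun X : V × Fin 3 → ℝ => ENNReal.ofReal (den Φ X)) volume :=
    hI.aestronglyMeasurable.aemeasurable.ennreal_ofReal
  have hfin : IsFiniteMeasure ((volume : Measure (V × Fin 3 → ℝ)).withDensity
      fun X => ENNReal.ofReal (den Φ X)) := isFiniteMeasure_withDensity_ofReal hI.2
  unfold law
  refine ⟨?_, ?_, fun h => ∫ u in {u : V → ℝ | ∀ v, 0 < u v},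
    ((∏ v, θ v (u v) : ℝ) : ℂ) * Kf (lkm D) h u, hg_G (isKer h) hθ, ?_⟩
  · infer_instance
  · intro h0
    have h1 := congrArg (fun m => m Set.univ) h0
    simp only [Measure.coe_zero, Pi.zero_apply] at h1
    rw [Measure.map_apply hc.measurable MeasurableSet.univ, Set.preimage_univ,
      withDensity_apply _ MeasurableSet.univ, Measure.restrict_univ,
      lintegral_eq_zero_iff' hmeas] at h1
    have h2 : ∀ᵐ X : V × Fin 3 → ℝ, False := by
      filter_upwards [h1] with X hX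
      have h3 : ENNReal.ofReal (den Φ X) = 0 := hX
      rw [ENNReal.ofReal_eq_zero] at h3
      exact absurd (hd0 X) (not_lt.2 h3)
    rw [Filter.eventually_false_iff_eq_bot, ae_eq_bot] at h2
    exact (NeZero.ne (volume : Measure (V × Fin 3 → ℝ))) h2
  · obtain ⟨c, hc0, hk⟩ := kernel_gauss (lkm D) (a1_herm D) (lkm_det h)
    refine ⟨c, hc0, ?_⟩
    intro t ht
    rw [charFun_apply_real, integral_map hc.aemeasurable (by
      refine Continuous.aestronglyMeasurable ?_
      fun_prop), integral_withDensity_eq_integral_toReal_smul₀ hmeas (by simp)]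
    have e1 : ∀ X : V × Fin 3 → ℝ, (ENNReal.ofReal (den Φ X)).toReal •
        Complex.exp (t * (qf (lkm D)⁻¹ X : ℝ) * Complex.I) =
        ((dens θ X : ℝ) : ℂ) * Complex.exp (Complex.I * ((t * qf (lkm D)⁻¹ X : ℝ) : ℂ)) := by
      intro X
      rw [ENNReal.toReal_ofReal (hd0 X).le, Complex.real_smul, e]
      push_cast
      congr 2
      ring
    simp only [e1]
    rw [← dens_fubini hθ (fun X => t * qf (lkm D)⁻¹ X) (by fun_prop)]
    have hms : MeasurableSet {u : V → ℝ | ∀ v, 0 < u v} := by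
      have : {u : V → ℝ | ∀ v, 0 < u v} = ⋂ v, {u | 0 < u v} := by
        ext u
        simp
      rw [this]
      exact MeasurableSet.iInter fun v => measurableSet_lt measurable_const (measurable_pi_apply v)
    rw [← integral_const_mul]
    refine setIntegral_congr_fun hms fun u hu => ?_
    have h1 := hk t u ht hu
    have e2 : ∀ X : V × Fin 3 → ℝ,
        Complex.exp (-((∑ v, u v * ∑ i, X (v, i) ^ 2 : ℝ) : ℂ) +
          Complex.I * ((t * qf (lkm D)⁻¹ X : ℝ) : ℂ)) =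
        Complex.exp (-((∑ v, u v * ∑ i, X (v, i) ^ 2 : ℝ) : ℂ) +
          Complex.I * t * ((qf (lkm D)⁻¹ X : ℝ) : ℂ)) := by
      intro X
      congr 2
      push_cast
      ring
    simp only [e2, h1]
    ring

end Pool.Agent.GT
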