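import Pool.Agent.H46.GT.Defs
import Pool.Agent.SLR.M5
import Pool.Agent.GPC.F3
import Pool.Agent.GPC.K8

/-!
`hg_G`: copy the proofs of `GPC.diff_F` (F1) and `GPC.hg_F` (F3) with `node D` replaced by a general
family `φ` (they use nothing about `node`). `theta_exists_eq`: as `SLR.theta_exists_pos` (M5); the
value `lapl θ r = Re Φ(r)` is `h4` there.
-/

set_option autoImplicit false

open PowerSeries Finset MeasureTheory

namespace Pool.Agent.GT

open Pool.Agent.OHG Pool.Agent.GPC Pool.Agent.SLR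

variable {V : Type} [Fintype V] [DecidableEq V]

omit [DecidableEq V] in
private theorem a1a_meas : MeasurableSet {u : V → ℝ | ∀ v, 0 < u v} := by
  rw [Set.ofPred_forall]
  exact MeasurableSet.iInter fun v => measurableSet_lt measurable_const (measurable_pi_apply v)

private theorem a1a_int {θ : V → ℝ → ℝ} {φ : V → ℝ⟦X⟧} (hθ : ∀ v, Theta (θ v) (φ v)) :
    Integrable (fun u : V → ℝ => ∏ v, |θ v (u v)|)
      (volume.restrict {u : V → ℝ | ∀ v, 0 < u v}) := by
  have h := theta_integrable hθ 0 0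
  have h2 : (fun u : V → ℝ => (∏ v, |θ v (u v)|) * (1 + ∑ v, u v) ^ 0 *
      ∏ v, (u v) ^ (-(0 : ℝ))) = fun u : V → ℝ => ∏ v, |θ v (u v)| := by
    funext u
    simp
  rw [h2] at h
  exact h

private theorem a1a_aesm {D : Data V} {K : ℂ → (V → ℝ) → ℂ} (hK : IsKer D K) {θ : V → ℝ → ℝ}
    {φ : V → ℝ⟦X⟧} (hθ : ∀ v, Theta (θ v) (φ v)) {h : ℂ} (hh : h ∈ UH) :
    AEStronglyMeasurable (fun u : V → ℝ => ((∏ v, θ v (u v) : ℝ) : ℂ) * K h u)
      (volume.restrict {u : V → ℝ | ∀ v, 0 < u v}) := by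
  refine ContinuousOn.aestronglyMeasurable ?_ a1a_meas
  refine ContinuousOn.mul ?_ (hK.cont h hh)
  refine (Complex.continuous_ofReal.comp ?_).continuousOn
  exact continuous_finsetProd _ fun v _ => (hθ v).cont.comp (continuous_apply v)

private theorem a1a_diff {D : Data V} {K : ℂ → (V → ℝ) → ℂ} (hK : IsKer D K) {θ : V → ℝ → ℝ}
    {φ : V → ℝ⟦X⟧} (hθ : ∀ v, Theta (θ v) (φ v)) :
    DifferentiableOn ℂ (fun h => ∫ u in {u : V → ℝ | ∀ v, 0 < u v},
      ((∏ v, θ v (u v) : ℝ) : ℂ) * K h u) UH := by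
  intro h0 hh0
  have him : 0 < h0.im := hh0
  set r : ℝ := h0.im / 4 with hr
  have hr0 : 0 < r := by positivity
  set N : ℕ := 2 * Fintype.card V with hN
  set M : ℝ := ((‖h0‖ + 2 * r) / (h0.im / 2)) ^ N with hM
  have hM0 : 0 ≤ M := by positivity
  have hIm : ∀ z : ℂ, ‖z - h0‖ ≤ 2 * r → h0.im / 2 ≤ z.im := by
    intro z hz
    have h1 : |(z - h0).im| ≤ ‖z - h0‖ := Complex.abs_im_le_norm _
    rw [Complex.sub_im] at h1
    have h2 := (abs_le.mp (h1.trans hz)).1
    linarith
  have hUH : ∀ z : ℂ, ‖z - h0‖ ≤ 2 * r → z ∈ UH := by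
    intro z hz
    have := hIm z hz
    show 0 < z.im
    linarith
  have hKb : ∀ z : ℂ, ‖z - h0‖ ≤ 2 * r → ∀ u : V → ℝ, (∀ v, 0 < u v) → ‖K z u‖ ≤ M := by
    intro z hz u hu
    refine (hK.bound z (hUH z hz) u hu).trans ?_
    have h1 := hIm z hz
    have h2 : ‖z‖ ≤ ‖h0‖ + 2 * r := by
      have := norm_add_le (z - h0) h0
      rw [sub_add_cancel] at this
      linarith
    have h3 : 0 < z.im := by linarith
    have h4 : ‖z‖ / z.im ≤ (‖h0‖ + 2 * r) / (h0.im / 2) := by
      apply div_le_div₀ _ h2 (by linarith) h1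
      positivity
    exact pow_le_pow_left₀ (by positivity) h4 _
  have hmem : ∀ᵐ u : V → ℝ ∂(volume.restrict {u : V → ℝ | ∀ v, 0 < u v}), ∀ v, 0 < u v :=
    ae_restrict_mem a1a_meas
  have hnorm : ∀ u : V → ℝ, ‖((∏ v, θ v (u v) : ℝ) : ℂ)‖ = ∏ v, |θ v (u v)| := by
    intro u
    rw [Complex.norm_real, Real.norm_eq_abs, Finset.abs_prod]
  have hderiv : ∀ u : V → ℝ, (∀ v, 0 < u v) → ∀ z : ℂ, z ∈ Metric.ball h0 r →
      HasDerivAt (fun h => K h u) (deriv (fun h => K h u) z) z ∧
        ‖deriv (fun h => K h u) z‖ ≤ M / r := by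
    intro u hu z hz
    have hz1 : ‖z - h0‖ < r := by rwa [Metric.mem_ball, dist_eq_norm] at hz
    have hd : ∀ y : ℂ, ‖y - z‖ ≤ r → ‖y - h0‖ ≤ 2 * r := by
      intro y hy
      have := norm_add_le (y - z) (z - h0)
      rw [sub_add_sub_cancel] at this
      linarith
    have hopen : IsOpen UH := isOpen_lt continuous_const Complex.continuous_im
    have hdiff : ∀ y : ℂ, ‖y - z‖ ≤ r → DifferentiableAt ℂ (fun h => K h u) y := fun y hy =>
      (hK.diff u hu).differentiableAt (hopen.mem_nhds (hUH y (hd y hy)))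
    refine ⟨(hdiff z (by simpa using hr0.le)).hasDerivAt, ?_⟩
    refine Complex.norm_deriv_le_of_forall_mem_sphere_norm_le hr0 ?_ ?_
    · refine DifferentiableOn.diffContOnCl fun y hy => ?_
      refine (hdiff y ?_).differentiableWithinAt
      have := Metric.closure_ball_subset_closedBall hy
      rwa [Metric.mem_closedBall, dist_eq_norm] at this
    · intro y hy
      rw [mem_sphere_iff_norm] at hy
      exact hKb y (hd y hy.le) u hu
  have hself : ‖h0 - h0‖ ≤ 2 * r := by simpa using hr0.le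
  have key := hasDerivAt_integral_of_dominated_loc_of_deriv_le
    (μ := volume.restrict {u : V → ℝ | ∀ v, 0 < u v}) (x₀ := h0) (s := Metric.ball h0 r)
    (F := fun (h : ℂ) (u : V → ℝ) => ((∏ v, θ v (u v) : ℝ) : ℂ) * K h u)
    (F' := fun (h : ℂ) (u : V → ℝ) => ((∏ v, θ v (u v) : ℝ) : ℂ) * deriv (fun h => K h u) h)
    (bound := fun u => (∏ v, |θ v (u v)|) * (M / r))
    (Metric.ball_mem_nhds h0 hr0) ?_ ?_ ?_ ?_ ?_ ?_
  · exact key.2.differentiableAt.differentiableWithinAt
  · filter_upwards [Metric.ball_mem_nhds h0 hr0] with z hz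
    refine a1a_aesm hK hθ (hUH z ?_)
    rw [Metric.mem_ball, dist_eq_norm] at hz
    linarith
  · refine Integrable.mono' ((a1a_int hθ).mul_const M) (a1a_aesm hK hθ hh0) ?_
    filter_upwards [hmem] with u hu
    rw [norm_mul, hnorm]
    exact mul_le_mul_of_nonneg_left (hKb h0 hself u hu)
      (Finset.prod_nonneg fun v _ => abs_nonneg _)
  · have hlim : ∀ᵐ u : V → ℝ ∂(volume.restrict {u : V → ℝ | ∀ v, 0 < u v}),
        Filter.Tendsto (fun n : ℕ => ((∏ v, θ v (u v) : ℝ) : ℂ) *
          ((((r / (n + 2) : ℝ) : ℂ))⁻¹ * (K (h0 + ((r / (n + 2) : ℝ) : ℂ)) u - K h0 u)))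
          Filter.atTop (nhds (((∏ v, θ v (u v) : ℝ) : ℂ) * deriv (fun h => K h u) h0)) := by
      filter_upwards [hmem] with u hu
      refine Filter.Tendsto.const_mul _ ?_
      have h1 := (hderiv u hu h0 (Metric.mem_ball_self hr0)).1
      rw [hasDerivAt_iff_tendsto_slope_zero] at h1
      have h2 : Filter.Tendsto (fun n : ℕ => ((r / (n + 2) : ℝ) : ℂ)) Filter.atTop
          (nhdsWithin 0 {0}ᶜ) := by
        rw [tendsto_nhdsWithin_iff]
        constructor
        · have h3 : Filter.Tendsto (fun n : ℕ => r / ((n : ℝ) + 2)) Filter.atTop (nhds 0) := by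
            apply Filter.Tendsto.const_div_atTop
            exact Filter.tendsto_atTop_add_const_right _ _ tendsto_natCast_atTop_atTop
          have h4 := (Complex.continuous_ofReal.tendsto 0).comp h3
          rw [Complex.ofReal_zero] at h4
          exact h4
        · refine Filter.Eventually.of_forall fun n => ?_
          simp only [Set.mem_compl_iff, Set.mem_singleton_iff]
          have : r / ((n : ℝ) + 2) ≠ 0 := by positivity
          exact_mod_cast this
      exact h1.comp h2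
    refine aestronglyMeasurable_of_tendsto_ae Filter.atTop (fun n => ?_) hlim
    have hr2 : ‖(h0 + ((r / (n + 2) : ℝ) : ℂ)) - h0‖ ≤ 2 * r := by
      rw [add_sub_cancel_left, Complex.norm_real, Real.norm_eq_abs, abs_of_pos (by positivity)]
      rw [div_le_iff₀ (by positivity)]
      have : (0 : ℝ) ≤ n := Nat.cast_nonneg n
      nlinarith
    have ha := a1a_aesm hK hθ (hUH _ hr2)
    have hb := a1a_aesm hK hθ hh0
    have hc := (ha.sub hb).const_mul ((((r / (n + 2) : ℝ) : ℂ))⁻¹)
    refine hc.congr (Filter.Eventually.of_forall fun u => ?_)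
    simp only [Pi.sub_apply]
    ring
  · filter_upwards [hmem] with u hu
    intro z hz
    rw [norm_mul, hnorm]
    exact mul_le_mul_of_nonneg_left (hderiv u hu z hz).2
      (Finset.prod_nonneg fun v _ => abs_nonneg _)
  · exact (a1a_int hθ).mul_const _
  · filter_upwards [hmem] with u hu
    intro z hz
    exact (hderiv u hu z hz).1.const_mul _

omit [DecidableEq V] in
private theorem a1a_f3_open : IsOpen {u : V → ℝ | ∀ v, 0 < u v} := by
  rw [Set.ofPred_forall]
  exact isOpen_iInter_of_finite fun v => isOpen_lt continuous_const (continuous_apply v)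

omit [DecidableEq V] in
private theorem a1a_f3_cont {θ : V → ℝ → ℝ} {φ : V → ℝ⟦X⟧} (hθ : ∀ v, Theta (θ v) (φ v)) :
    Continuous (fun u : V → ℝ => ∏ v, θ v (u v)) :=
  continuous_finsetProd _ fun v _ => (hθ v).cont.comp (continuous_apply v)

private theorem a1a_f3_int_pow {θ : V → ℝ → ℝ} {φ : V → ℝ⟦X⟧} (hθ : ∀ v, Theta (θ v) (φ v)) (n : ℕ) :
    IntegrableOn (fun u : V → ℝ => (∏ v, |θ v (u v)|) * (1 + ∑ v, u v) ^ n)
      {u : V → ℝ | ∀ v, 0 < u v} := by
  have h := theta_integrable hθ n 0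
  simpa using h

private theorem a1a_f3_int_term {θ : V → ℝ → ℝ} {φ : V → ℝ⟦X⟧} (hθ : ∀ v, Theta (θ v) (φ v))
    (j : V → ℕ) :
    IntegrableOn (fun u : V → ℝ => ∏ v, (θ v (u v) * ((-u v) ^ j v / ((j v).factorial : ℝ))))
      {u : V → ℝ | ∀ v, 0 < u v} := by
  refine Integrable.mono' (a1a_f3_int_pow hθ (∑ v, j v)) ?_ ?_
  · refine Continuous.aestronglyMeasurable ?_
    refine continuous_finsetProd _ fun v _ => ?_
    exact ((hθ v).cont.comp (continuous_apply v)).mul
      ((((continuous_apply v).neg).pow _).div_const _)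
  · refine (ae_restrict_iff' a1a_f3_open.measurableSet).mpr (Filter.Eventually.of_forall fun u hu => ?_)
    have hu' : ∀ v, 0 < u v := hu
    rw [Real.norm_eq_abs, Finset.abs_prod, ← Finset.prod_pow_eq_pow_sum,
      ← Finset.prod_mul_distrib]
    refine Finset.prod_le_prod (fun v _ => abs_nonneg _) fun v _ => ?_
    rw [abs_mul]
    refine mul_le_mul_of_nonneg_left ?_ (abs_nonneg _)
    rw [abs_div, abs_pow, abs_neg, abs_of_pos (hu' v), Nat.abs_cast]
    have h1 : u v ≤ 1 + ∑ w, u w := by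
      have := Finset.single_le_sum (f := u) (fun w _ => (hu' w).le) (Finset.mem_univ v)
      linarith
    calc u v ^ j v / ((j v).factorial : ℝ) ≤ u v ^ j v :=
          div_le_self (pow_nonneg (hu' v).le _) (by exact_mod_cast (j v).factorial_pos)
      _ ≤ (1 + ∑ w, u w) ^ j v := pow_le_pow_left₀ (hu' v).le h1 _

private theorem a1a_f3_kap_eq {D : Data V} {θ : V → ℝ → ℝ} (k : ℕ) (u : V → ℝ) :
    (∏ v, θ v (u v)) * kap D k u = ∑ j ∈ (univ : Finset V).piAntidiag k,
      (∏ v, (θ v (u v) * ((-u v) ^ j v / ((j v).factorial : ℝ)))) * moment D j := by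
  unfold kap
  rw [Finset.mul_sum]
  refine Finset.sum_congr rfl fun j _ => ?_
  rw [Finset.prod_mul_distrib, mul_assoc]

private theorem a1a_f3_kap_int {D : Data V} {θ : V → ℝ → ℝ}
    {φ : V → ℝ⟦X⟧} (hθ : ∀ v, Theta (θ v) (φ v)) (k : ℕ) :
    IntegrableOn (fun u : V → ℝ => (∏ v, θ v (u v)) * kap D k u)
      {u : V → ℝ | ∀ v, 0 < u v} := by
  simp only [a1a_f3_kap_eq]
  refine integrable_finsetSum _ fun j _ => ?_
  exact (a1a_f3_int_term hθ j).mul_const _

private theorem a1a_f3_coeff {D : Data V} {θ : V → ℝ → ℝ}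
    {φ : V → ℝ⟦X⟧} (hθ : ∀ v, Theta (θ v) (φ v)) (k : ℕ) :
    ∫ u in {u : V → ℝ | ∀ v, 0 < u v}, (∏ v, θ v (u v)) * kap D k u = coeff k (gpart D φ) := by
  simp only [a1a_f3_kap_eq]
  rw [integral_finsetSum _ fun j _ => (a1a_f3_int_term hθ j).mul_const _]
  unfold gpart
  rw [coeff_mk]
  refine Finset.sum_congr rfl fun j _ => ?_
  rw [integral_mul_const,
    pos_prod (fun v x => θ v x * ((-x) ^ j v / ((j v).factorial : ℝ)))]
  congr 1
  refine Finset.prod_congr rfl fun v _ => ?_
  have h1 : ∀ x : ℝ, θ v x * ((-x) ^ j v / ((j v).factorial : ℝ)) =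
      ((-1) ^ j v / ((j v).factorial : ℝ)) * (x ^ j v * θ v x) := by
    intro x
    rw [neg_pow]
    ring
  simp only [h1]
  rw [integral_const_mul, (hθ v).moment (j v)]
  have h2 : ((j v).factorial : ℝ) ≠ 0 := by positivity
  have h3 : ((-1 : ℝ) ^ j v) * (-1) ^ j v = 1 := by
    rw [← mul_pow]
    norm_num
  field_simp
  rw [pow_two, h3, one_mul]

theorem hg_G {D : Data V} {K : ℂ → (V → ℝ) → ℂ} (hK : IsKer D K) {θ : V → ℝ → ℝ} {φ : V → ℝ⟦X⟧}
    (hθ : ∀ v, Theta (θ v) (φ v)) :
    HG (fun h => ∫ u in {u : V → ℝ | ∀ v, 0 < u v}, ((∏ v, θ v (u v) : ℝ) : ℂ) * K h u)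
      (gpart D φ) := by
  refine ⟨a1a_diff hK hθ, ?_⟩
  obtain ⟨C₀, R₀, hT⟩ := hK.taylor
  obtain ⟨C₁, R₁, hF⟩ := theta_factorial hθ
  refine ⟨|C₀| * C₁, |R₀| * R₁, 2 * Fintype.card V, fun n h hh _ => ?_⟩
  have him : 0 < h.im := hh
  have hr : 0 ≤ ‖h‖ / h.im := by positivity
  set S : Set (V → ℝ) := {u : V → ℝ | ∀ v, 0 < u v} with hS
  have hSm : MeasurableSet S := a1a_f3_open.measurableSet
  -- integrability of the first term
  have hKint : IntegrableOn (fun u : V → ℝ => ((∏ v, θ v (u v) : ℝ) : ℂ) * K h u) S := by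
    refine Integrable.mono' ((a1a_f3_int_pow hθ 0).const_mul ((‖h‖ / h.im) ^ (2 * Fintype.card V)))
      ?_ ?_
    · refine ContinuousOn.aestronglyMeasurable ?_ hSm
      exact (Complex.continuous_ofReal.comp (a1a_f3_cont hθ)).continuousOn.mul (hK.cont h hh)
    · refine (ae_restrict_iff' hSm).mpr (Filter.Eventually.of_forall fun u hu => ?_)
      rw [norm_mul, Complex.norm_real, Real.norm_eq_abs, Finset.abs_prod, pow_zero, mul_one,
        mul_comm]
      exact mul_le_mul_of_nonneg_right (hK.bound h hh u hu)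
        (Finset.prod_nonneg fun v _ => abs_nonneg _)
  have hterm : ∀ k, IntegrableOn (fun u : V → ℝ => ((∏ v, θ v (u v) : ℝ) : ℂ) *
      (((kap D k u : ℝ) : ℂ) * h ^ k)) S := by
    intro k
    have h1 : (fun u : V → ℝ => ((∏ v, θ v (u v) : ℝ) : ℂ) * (((kap D k u : ℝ) : ℂ) * h ^ k)) =
        fun u => (((∏ v, θ v (u v)) * kap D k u : ℝ) : ℂ) * h ^ k := by
      funext u
      push_cast
      ring
    rw [h1]
    exact ((a1a_f3_kap_int hθ k).ofReal (𝕜 := ℂ)).mul_const _
  have hval : ∀ k, ∫ u in S, ((∏ v, θ v (u v) : ℝ) : ℂ) * (((kap D k u : ℝ) : ℂ) * h ^ k) =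
      ((coeff k (gpart D φ) : ℝ) : ℂ) * h ^ k := by
    intro k
    have h1 : (fun u : V → ℝ => ((∏ v, θ v (u v) : ℝ) : ℂ) * (((kap D k u : ℝ) : ℂ) * h ^ k)) =
        fun u => (((∏ v, θ v (u v)) * kap D k u : ℝ) : ℂ) * h ^ k := by
      funext u
      push_cast
      ring
    rw [h1, integral_mul_const, integral_complex_ofReal, a1a_f3_coeff hθ k]
  have hsum : ∑ k ∈ range n, ((coeff k (gpart D φ) : ℝ) : ℂ) * h ^ k =
      ∫ u in S, ∑ k ∈ range n, ((∏ v, θ v (u v) : ℝ) : ℂ) * (((kap D k u : ℝ) : ℂ) * h ^ k) := by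
    rw [integral_finsetSum _ fun k _ => hterm k]
    exact Finset.sum_congr rfl fun k _ => (hval k).symm
  rw [hsum, ← integral_sub hKint (integrable_finsetSum _ fun k _ => hterm k)]
  -- the bound
  have hSn : IntegrableOn (fun u : V → ℝ => (∏ v, |θ v (u v)|) * (∑ v, u v) ^ n) S := by
    refine Integrable.mono' (a1a_f3_int_pow hθ n) ?_ ?_
    · refine Continuous.aestronglyMeasurable ?_
      refine Continuous.mul ?_ ?_
      · exact continuous_finsetProd _ fun v _ =>
          ((hθ v).cont.comp (continuous_apply v)).abs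
      · exact (continuous_finsetSum _ fun v _ => continuous_apply v).pow n
    · refine (ae_restrict_iff' hSm).mpr (Filter.Eventually.of_forall fun u hu => ?_)
      have hu' : ∀ v, 0 < u v := hu
      have h0 : 0 ≤ ∑ v, u v := Finset.sum_nonneg fun v _ => (hu' v).le
      have hp : 0 ≤ ∏ v, |θ v (u v)| := Finset.prod_nonneg fun v _ => abs_nonneg _
      rw [Real.norm_of_nonneg (mul_nonneg hp (pow_nonneg h0 _))]
      exact mul_le_mul_of_nonneg_left (pow_le_pow_left₀ h0 (by linarith) _) hp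
  set B : ℝ := |C₀| * (|R₀| * ‖h‖) ^ n * (‖h‖ / h.im) ^ (2 * Fintype.card V) with hB
  have hB0 : 0 ≤ B := by positivity
  refine le_trans (norm_integral_le_of_norm_le (hSn.const_mul B) ?_) ?_
  · refine (ae_restrict_iff' hSm).mpr (Filter.Eventually.of_forall fun u hu => ?_)
    have hu' : ∀ v, 0 < u v := hu
    have h0 : 0 ≤ ∑ v, u v := Finset.sum_nonneg fun v _ => (hu' v).le
    have hp : 0 ≤ ∏ v, |θ v (u v)| := Finset.prod_nonneg fun v _ => abs_nonneg _
    have h1 : ((∏ v, θ v (u v) : ℝ) : ℂ) * K h u -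
        ∑ k ∈ range n, ((∏ v, θ v (u v) : ℝ) : ℂ) * (((kap D k u : ℝ) : ℂ) * h ^ k) =
        ((∏ v, θ v (u v) : ℝ) : ℂ) * (K h u - ∑ k ∈ range n, ((kap D k u : ℝ) : ℂ) * h ^ k) := by
      rw [mul_sub, Finset.mul_sum]
    rw [h1, norm_mul, Complex.norm_real, Real.norm_eq_abs, Finset.abs_prod]
    have h2 := hT n h u hh hu'
    have h3 : C₀ * (R₀ * ‖h‖ * ∑ v, u v) ^ n * (‖h‖ / h.im) ^ (2 * Fintype.card V) ≤
        B * (∑ v, u v) ^ n := by
      have h4 : C₀ * (R₀ * ‖h‖ * ∑ v, u v) ^ n ≤ |C₀| * (|R₀| * ‖h‖ * ∑ v, u v) ^ n := by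
        refine le_trans (le_abs_self _) ?_
        rw [abs_mul, abs_pow, abs_mul, abs_mul, abs_of_nonneg (norm_nonneg h),
          abs_of_nonneg h0]
      calc C₀ * (R₀ * ‖h‖ * ∑ v, u v) ^ n * (‖h‖ / h.im) ^ (2 * Fintype.card V)
          ≤ |C₀| * (|R₀| * ‖h‖ * ∑ v, u v) ^ n * (‖h‖ / h.im) ^ (2 * Fintype.card V) :=
            mul_le_mul_of_nonneg_right h4 (pow_nonneg hr _)
        _ = B * (∑ v, u v) ^ n := by
            rw [hB, mul_pow _ (∑ v, u v)]
            ring
    calc (∏ v, |θ v (u v)|) * ‖K h u - ∑ k ∈ range n, ((kap D k u : ℝ) : ℂ) * h ^ k‖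
        ≤ (∏ v, |θ v (u v)|) * (B * (∑ v, u v) ^ n) :=
          mul_le_mul_of_nonneg_left (h2.trans h3) hp
      _ = B * ((∏ v, |θ v (u v)|) * (∑ v, u v) ^ n) := by ring
  · rw [integral_const_mul]
    calc B * ∫ u in S, (∏ v, |θ v (u v)|) * (∑ v, u v) ^ n
        ≤ B * (C₁ * R₁ ^ n * n.factorial) := mul_le_mul_of_nonneg_left (hF n) hB0
      _ = |C₀| * C₁ * (|R₀| * R₁) ^ n * n.factorial * ‖h‖ ^ n *
          (‖h‖ / h.im) ^ (2 * Fintype.card V) := by
            rw [hB, mul_pow, mul_pow]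
            ring

private theorem a1a_m5_rpow {c q : ℝ} (hc : 0 < c) (hq : 0 < q) :
    ∃ K : ℝ, 0 ≤ K ∧ ∀ u : ℝ, 0 < u → u ^ (-q) * Real.exp (-(c / Real.sqrt u)) ≤ K := by
  obtain ⟨n, hn⟩ := exists_nat_ge (2 * q)
  refine ⟨1 + n.factorial / c ^ n, by positivity, fun u hu => ?_⟩
  have hK : 0 ≤ (n.factorial : ℝ) / c ^ n := by positivity
  rcases le_or_gt 1 u with h1 | h1
  · have e1 : u ^ (-q) ≤ 1 := Real.rpow_le_one_of_one_le_of_nonpos h1 (by linarith)
    have e2 : Real.exp (-(c / Real.sqrt u)) ≤ 1 := Real.exp_le_one_iff.2 (by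
      have : 0 ≤ c / Real.sqrt u := by positivity
      linarith)
    have e3 := mul_le_mul e1 e2 (Real.exp_pos _).le zero_le_one
    linarith
  · set s : ℝ := u ^ (-(1 / 2) : ℝ) with hs
    have hs1 : 1 ≤ s := Real.one_le_rpow_of_pos_of_le_one_of_nonpos hu h1.le (by norm_num)
    have hs0 : 0 ≤ s := by linarith
    have e1 : c / Real.sqrt u = c * s := by
      rw [hs, Real.rpow_neg hu.le, Real.sqrt_eq_rpow, div_eq_mul_inv]
    have e2 : u ^ (-q) = s ^ (2 * q) := by
      rw [hs, ← Real.rpow_mul hu.le]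
      congr 1
      ring
    have e3 : s ^ (2 * q) ≤ s ^ n := by
      rw [← Real.rpow_natCast]
      exact Real.rpow_le_rpow_of_exponent_le hs1 hn
    have e4 := Real.pow_div_factorial_le_exp (c * s) (by positivity) n
    have e5 : s ^ n ≤ n.factorial / c ^ n * Real.exp (c * s) := by
      have hcn : 0 < c ^ n := by positivity
      have hf : (0 : ℝ) < n.factorial := by positivity
      rw [mul_pow] at e4
      calc s ^ n = n.factorial / c ^ n * (c ^ n * s ^ n / n.factorial) := by field_simp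
        _ ≤ n.factorial / c ^ n * Real.exp (c * s) := by gcongr
    rw [e1, e2, Real.exp_neg]
    calc s ^ (2 * q) * (Real.exp (c * s))⁻¹
        ≤ (n.factorial / c ^ n * Real.exp (c * s)) * (Real.exp (c * s))⁻¹ := by
          gcongr
          exact e3.trans e5
      _ = n.factorial / c ^ n := by
          rw [mul_assoc, mul_inv_cancel₀ (Real.exp_pos _).ne', mul_one]
      _ ≤ 1 + n.factorial / c ^ n := by linarith

private theorem a1a_m5_theta {Φ : ℂ → ℂ} {φ : ℝ⟦X⟧} (hΦ : Good Φ φ) :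
    Theta (fun u : ℝ => (thc Φ (-1) u).re) φ := by
  obtain ⟨C, c, hc, hb⟩ := thc_bound hΦ
  have hcont := thc_cont hΦ
  have hθc : Continuous fun u : ℝ => (thc Φ (-1) u).re := Complex.continuous_re.comp hcont
  have hC : 0 ≤ C := by
    have h1 := (norm_nonneg _).trans (hb 1 one_pos)
    exact nonneg_of_mul_nonneg_left h1 (Real.exp_pos _)
  -- bounds
  have hb1 : ∀ u : ℝ, 0 < u → |(thc Φ (-1) u).re| ≤ C * Real.exp (-c * u - c / Real.sqrt u) :=
    fun u hu => (Complex.abs_re_le_norm _).trans (hb u hu)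
  have hb2 : ∀ u : ℝ, 0 < u → ‖thc Φ (-1) u‖ ≤ C * Real.exp (-c * u) := by
    intro u hu
    refine (hb u hu).trans ?_
    gcongr
    have : 0 ≤ c / Real.sqrt u := by positivity
    linarith
  -- integrability of u ^ j * thc
  have hij : ∀ j : ℕ, Integrable (fun u : ℝ => (u : ℂ) ^ j * thc Φ (-1) u)
      (volume.restrict (Set.Ioi 0)) := by
    intro j
    have h1 := (integrableOn_rpow_mul_exp_neg_mul_rpow (s := j) (p := 1) (b := c)
      (by have : (0 : ℝ) ≤ j := Nat.cast_nonneg j; linarith) one_pos hc).const_mul C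
    refine Integrable.mono' h1 ?_ ?_
    · have : Continuous fun u : ℝ => (u : ℂ) ^ j * thc Φ (-1) u := by fun_prop
      exact this.aestronglyMeasurable
    · refine (ae_restrict_iff' measurableSet_Ioi).2 (Filter.Eventually.of_forall fun u hu => ?_)
      have hu0 : 0 < u := hu
      rw [norm_mul, norm_pow, Complex.norm_real, Real.norm_eq_abs, abs_of_pos hu0,
        Real.rpow_natCast, Real.rpow_one]
      calc u ^ j * ‖thc Φ (-1) u‖ ≤ u ^ j * (C * Real.exp (-c * u)) := by
            gcongr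
            exact hb2 u hu0
        _ = _ := by ring
  refine ⟨hθc, ⟨C, c, hc, hb1⟩, fun j => ?_, fun q hq => ?_⟩
  · -- moments
    have h1 := thc_moment hΦ j
    have h2 := integral_re (hij j)
    have h3 : ∀ u : ℝ, RCLike.re ((u : ℂ) ^ j * thc Φ (-1) u) = u ^ j * (thc Φ (-1) u).re := by
      intro u
      rw [RCLike.re_to_complex, ← Complex.ofReal_pow, Complex.re_ofReal_mul]
    simp_rw [h3] at h2
    rw [h2, h1, RCLike.re_to_complex]
    have h4 : ((-1 : ℂ) ^ j * (j.factorial : ℂ) * ((coeff j φ : ℝ) : ℂ)) =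
        (((-1 : ℝ) ^ j * (j.factorial : ℝ) * coeff j φ : ℝ) : ℂ) := by
      push_cast
      ring
    rw [h4, Complex.ofReal_re]
  · -- positivity
    obtain ⟨K, hK0, hK⟩ := a1a_m5_rpow hc hq
    -- integrability of u ^ (-q) * θ
    have hbq : ∀ u : ℝ, 0 < u → u ^ (-q) * |(thc Φ (-1) u).re| ≤ C * K * Real.exp (-c * u) := by
      intro u hu
      have h1 := hK u hu
      calc u ^ (-q) * |(thc Φ (-1) u).re|
          ≤ u ^ (-q) * (C * Real.exp (-c * u - c / Real.sqrt u)) := by
            gcongr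
            exact hb1 u hu
        _ = C * (u ^ (-q) * Real.exp (-(c / Real.sqrt u))) * Real.exp (-c * u) := by
            rw [sub_eq_add_neg, Real.exp_add]
            ring
        _ ≤ C * K * Real.exp (-c * u) := by gcongr
    have hexp : IntegrableOn (fun u : ℝ => Real.exp (-c * u)) (Set.Ioi 0) :=
      integrableOn_exp_mul_Ioi (a := -c) (by linarith) 0
    have hqm : Measurable fun u : ℝ => (thc Φ (-1) u).re := hθc.measurable
    have hintq : IntegrableOn (fun u : ℝ => u ^ (-q) * |(thc Φ (-1) u).re|) (Set.Ioi 0) := by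
      refine Integrable.mono' (hexp.const_mul (C * K)) ?_ ?_
      · exact ((measurable_id.pow_const (-q)).mul hqm.abs).aestronglyMeasurable
      · refine (ae_restrict_iff' measurableSet_Ioi).2 (Filter.Eventually.of_forall fun u hu => ?_)
        have hu0 : 0 < u := hu
        rw [Real.norm_eq_abs, abs_of_nonneg (by positivity)]
        exact hbq u hu0
    have hΓ := Real.Gamma_pos_of_pos hq
    -- Fubini
    set f : ℝ × ℝ → ℝ := fun p =>
      p.2 ^ (q - 1) * Real.exp (-(p.1 * p.2)) * (thc Φ (-1) p.1).re with hf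
    have hfm : Measurable f := by
      have h1 : Measurable fun p : ℝ × ℝ => (thc Φ (-1) p.1).re := hqm.comp measurable_fst
      have h2 : Measurable fun p : ℝ × ℝ => p.2 ^ (q - 1) := measurable_snd.pow_const _
      exact (h2.mul (by fun_prop)).mul h1
    have hgam : ∀ u : ℝ, 0 < u →
        ∫ y in Set.Ioi (0 : ℝ), y ^ (q - 1) * Real.exp (-(u * y)) = u ^ (-q) * Real.Gamma q := by
      intro u hu
      rw [Real.integral_rpow_mul_exp_neg_mul_Ioi hq hu, one_div, Real.inv_rpow hu.le,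
        Real.rpow_neg hu.le]
    have hgi : ∀ u : ℝ, 0 < u →
        IntegrableOn (fun y : ℝ => y ^ (q - 1) * Real.exp (-(u * y))) (Set.Ioi 0) := by
      intro u hu
      have h1 := integrableOn_rpow_mul_exp_neg_mul_rpow (s := q - 1) (p := 1) (b := u)
        (by linarith) one_pos hu
      simp_rw [Real.rpow_one, neg_mul] at h1
      exact h1
    have hI : Integrable f ((volume.restrict (Set.Ioi (0 : ℝ))).prod
        (volume.restrict (Set.Ioi (0 : ℝ)))) := by
      rw [integrable_prod_iff hfm.aestronglyMeasurable]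
      refine ⟨?_, ?_⟩
      · refine (ae_restrict_iff' measurableSet_Ioi).2 (Filter.Eventually.of_forall fun u hu => ?_)
        exact (hgi u hu).mul_const (thc Φ (-1) u).re
      · refine (hintq.mul_const (Real.Gamma q)).congr ?_
        refine (ae_restrict_iff' measurableSet_Ioi).2 (Filter.Eventually.of_forall fun u hu => ?_)
        have hu0 : 0 < u := hu
        have h1 : ∫ y in Set.Ioi (0 : ℝ), ‖f (u, y)‖ =
            ∫ y in Set.Ioi (0 : ℝ),
              y ^ (q - 1) * Real.exp (-(u * y)) * |(thc Φ (-1) u).re| := by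
          refine setIntegral_congr_fun measurableSet_Ioi fun y hy => ?_
          have hy0 : 0 < y := hy
          simp only [hf]
          rw [Real.norm_eq_abs, abs_mul, abs_mul, abs_of_pos (Real.exp_pos _),
            abs_of_pos (Real.rpow_pos_of_pos hy0 _)]
        simp only
        rw [h1, integral_mul_const, hgam u hu0]
        ring
    have hswap := integral_integral_swap (f := fun u y => f (u, y)) hI
    -- the left side
    have hL : ∫ u in Set.Ioi (0 : ℝ), ∫ y in Set.Ioi (0 : ℝ), f (u, y) =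
        Real.Gamma q * ∫ u in Set.Ioi (0 : ℝ), u ^ (-q) * (thc Φ (-1) u).re := by
      rw [← integral_const_mul]
      refine setIntegral_congr_fun measurableSet_Ioi fun u hu => ?_
      simp only [hf]
      rw [integral_mul_const, hgam u hu]
      ring
    -- the inner integral on the right side
    have hin : ∀ y : ℝ, 0 < y → ∫ u in Set.Ioi (0 : ℝ), f (u, y) =
        y ^ (q - 1) * (Φ (y : ℂ)).re := by
      intro y hy
      have h1 := thc_laplace hΦ hy.le
      have h2 : Integrable (fun u : ℝ => Complex.exp (-(u * y)) * thc Φ (-1) u)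
          (volume.restrict (Set.Ioi 0)) := by
        have h3 := (hij 0).norm
        refine h3.mono' ?_ ?_
        · have : Continuous fun u : ℝ => Complex.exp (-(u * y)) * thc Φ (-1) u := by fun_prop
          exact this.aestronglyMeasurable
        · refine (ae_restrict_iff' measurableSet_Ioi).2
            (Filter.Eventually.of_forall fun u hu => ?_)
          have hu0 : 0 < u := hu
          rw [norm_mul, Complex.norm_exp]
          have e1 : (-((u : ℂ) * (y : ℂ))).re = -(u * y) := by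
            rw [← Complex.ofReal_mul, ← Complex.ofReal_neg, Complex.ofReal_re]
          rw [e1]
          have e2 : Real.exp (-(u * y)) ≤ 1 := Real.exp_le_one_iff.2 (by
            have : 0 < u * y := by positivity
            linarith)
          calc Real.exp (-(u * y)) * ‖thc Φ (-1) u‖ ≤ 1 * ‖thc Φ (-1) u‖ := by gcongr
            _ = _ := by simp
      have h4 := integral_re h2
      have h5 : ∀ u : ℝ, RCLike.re (Complex.exp (-(u * y)) * thc Φ (-1) u) =
          Real.exp (-(u * y)) * (thc Φ (-1) u).re := by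
        intro u
        have e3 : Complex.exp (-((u : ℂ) * (y : ℂ))) = ((Real.exp (-(u * y)) : ℝ) : ℂ) := by
          push_cast
          ring_nf
        rw [RCLike.re_to_complex, e3, Complex.re_ofReal_mul]
      simp_rw [h5] at h4
      rw [h1, RCLike.re_to_complex] at h4
      rw [← h4, ← integral_const_mul]
      refine setIntegral_congr_fun measurableSet_Ioi fun u hu => ?_
      simp only [hf]
      ring
    have hR : ∫ y in Set.Ioi (0 : ℝ), ∫ u in Set.Ioi (0 : ℝ), f (u, y) =
        ∫ y in Set.Ioi (0 : ℝ), y ^ (q - 1) * (Φ (y : ℂ)).re :=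
      setIntegral_congr_fun measurableSet_Ioi fun y hy => hin y hy
    have hpos : 0 < ∫ y in Set.Ioi (0 : ℝ), y ^ (q - 1) * (Φ (y : ℂ)).re := by
      have hp : ∀ y : ℝ, 0 < y → 0 < y ^ (q - 1) * (Φ (y : ℂ)).re := by
        intro y hy
        obtain ⟨t, ht, hΦt⟩ := hΦ.pos y hy.le
        rw [hΦt, Complex.ofReal_re]
        exact mul_pos (Real.rpow_pos_of_pos hy _) ht
      have hint : IntegrableOn (fun y : ℝ => y ^ (q - 1) * (Φ (y : ℂ)).re) (Set.Ioi 0) := by
        refine hI.integral_prod_right.congr ?_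
        exact (ae_restrict_iff' measurableSet_Ioi).2
          (Filter.Eventually.of_forall fun y hy => hin y hy)
      rw [setIntegral_pos_iff_support_of_nonneg_ae ?_ hint]
      · have h1 : Set.Ioi (0 : ℝ) ⊆
            Function.support (fun y : ℝ => y ^ (q - 1) * (Φ (y : ℂ)).re) ∩ Set.Ioi 0 :=
          fun y hy => ⟨(hp y hy).ne', hy⟩
        refine lt_of_lt_of_le ?_ (measure_mono h1)
        rw [Real.volume_Ioi]
        exact ENNReal.coe_lt_top
      · exact (ae_restrict_iff' measurableSet_Ioi).2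
          (Filter.Eventually.of_forall fun y hy => (hp y hy).le)
    rw [hL, hR] at hswap
    rw [← hswap] at hpos
    exact (mul_pos_iff_of_pos_left hΓ).1 hpos

theorem theta_exists_eq {Φ : ℂ → ℂ} {φ : ℝ⟦X⟧} (hΦ : Good Φ φ) :
    ∃ θ : ℝ → ℝ, Theta θ φ ∧ ∀ r : ℝ, 0 ≤ r → lapl θ r = (Φ (r : ℂ)).re ∧ 0 < lapl θ r := by
  refine ⟨fun u => (thc Φ (-1) u).re, a1a_m5_theta hΦ, fun r hr => ?_⟩
  obtain ⟨C, c, hc, hb⟩ := thc_bound hΦ
  have hcont := thc_cont hΦ
  have hC : 0 ≤ C := by
    have h1 := (norm_nonneg _).trans (hb 1 one_pos)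
    exact nonneg_of_mul_nonneg_left h1 (Real.exp_pos _)
  have hb2 : ∀ u : ℝ, 0 < u → ‖thc Φ (-1) u‖ ≤ C * Real.exp (-c * u) := by
    intro u hu
    refine (hb u hu).trans ?_
    gcongr
    have : 0 ≤ c / Real.sqrt u := by positivity
    linarith
  have h1 := thc_laplace hΦ hr
  have h2 : Integrable (fun u : ℝ => Complex.exp (-(u * r)) * thc Φ (-1) u)
      (volume.restrict (Set.Ioi 0)) := by
    have hexp : IntegrableOn (fun u : ℝ => Real.exp (-c * u)) (Set.Ioi 0) :=
      integrableOn_exp_mul_Ioi (a := -c) (by linarith) 0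
    refine Integrable.mono' (hexp.const_mul C) ?_ ?_
    · have : Continuous fun u : ℝ => Complex.exp (-(u * r)) * thc Φ (-1) u := by fun_prop
      exact this.aestronglyMeasurable
    · refine (ae_restrict_iff' measurableSet_Ioi).2 (Filter.Eventually.of_forall fun u hu => ?_)
      have hu0 : 0 < u := hu
      rw [norm_mul, Complex.norm_exp]
      have e1 : (-((u : ℂ) * (r : ℂ))).re = -(u * r) := by
        rw [← Complex.ofReal_mul, ← Complex.ofReal_neg, Complex.ofReal_re]
      rw [e1]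
      have e2 : Real.exp (-(u * r)) ≤ 1 := Real.exp_le_one_iff.2 (by
        have : 0 ≤ u * r := by positivity
        linarith)
      calc Real.exp (-(u * r)) * ‖thc Φ (-1) u‖ ≤ 1 * (C * Real.exp (-c * u)) := by
            gcongr
            exact hb2 u hu0
        _ = _ := by ring
  have h4 := integral_re h2
  have h5 : ∀ u : ℝ, RCLike.re (Complex.exp (-(u * r)) * thc Φ (-1) u) =
      Real.exp (-(u * r)) * (thc Φ (-1) u).re := by
    intro u
    have e3 : Complex.exp (-((u : ℂ) * (r : ℂ))) = ((Real.exp (-(u * r)) : ℝ) : ℂ) := by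
      push_cast
      ring_nf
    rw [RCLike.re_to_complex, e3, Complex.re_ofReal_mul]
  simp_rw [h5] at h4
  obtain ⟨t, ht, hΦt⟩ := hΦ.pos r hr
  rw [h1, RCLike.re_to_complex, hΦt, Complex.ofReal_re] at h4
  unfold lapl
  rw [h4]
  refine ⟨?_, ht⟩
  rw [hΦt, Complex.ofReal_re]

end Pool.Agent.GT
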