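import Pool.Agent.H46.GT.A1
import Pool.Agent.SLR.M11
import Pool.Agent.GPC.U4

/-!
`gpart_eq`: both functions `F`, `F'` of `law_exists` satisfy `F (i τ) = c F' (i τ)` for `τ > 0` (compare the
characteristic functions of the two laws); let `τ → 0` in the expansions (`HG.bound` at `h = i τ`,
where `‖h‖ / h.im = 1`): all coefficients agree up to the factor `c`, and `c = 1` from the
coefficients of degree `0`, which are `1`.
`law_eq`: `HG.unique` (U4), then `SLR.eq_smul_of_charFun` (M11).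
-/

set_option autoImplicit false

open PowerSeries Finset MeasureTheory

namespace Pool.Agent.GT

open Pool.Agent.OHG Pool.Agent.GPC Pool.Agent.SLR

variable {V : Type} [Fintype V] [DecidableEq V]

private theorem a1c_charFun_smul (r : NNReal) (ν : Measure ℝ) (t : ℝ) :
    charFun (r • ν) t = (r : ℂ) * charFun ν t := by
  rw [charFun_apply, charFun_apply, integral_smul_nnreal_measure]
  rfl

private theorem a1c_moment_zero (D : Data V) : moment D 0 = 1 := by
  unfold moment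
  simp

private theorem a1c_gpart_zero (D : Data V) {φ : V → ℝ⟦X⟧} (h0 : ∀ v, coeff 0 (φ v) = 1) :
    coeff 0 (gpart D φ) = 1 := by
  unfold gpart
  rw [coeff_mk]
  have : (univ : Finset V).piAntidiag 0 = {0} := by simp
  rw [this, Finset.sum_singleton, a1c_moment_zero]
  simp only [Pi.zero_apply, h0, Finset.prod_const_one, mul_one]

/-- The coefficients from the values on the imaginary axis. -/
private theorem a1c_coeff {F F' : ℂ → ℂ} {s s' : ℝ⟦X⟧} (hF : HG F s) (hF' : HG F' s') {κ : ℂ}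
    (h : ∀ τ : ℝ, 0 < τ → F (Complex.I * τ) = κ * F' (Complex.I * τ)) (n : ℕ) :
    ((coeff n s : ℝ) : ℂ) = κ * ((coeff n s' : ℝ) : ℂ) := by
  obtain ⟨C₁, R₁, A₁, h1⟩ := hF.bound
  obtain ⟨C₂, R₂, A₂, h2⟩ := hF'.bound
  induction n using Nat.strong_induction_on with
  | _ n ih =>
    set δ : ℂ := ((coeff n s : ℝ) : ℂ) - κ * ((coeff n s' : ℝ) : ℂ) with hδ
    set M : ℝ := C₁ * R₁ ^ (n + 1) * (n + 1).factorial + ‖κ‖ * (C₂ * R₂ ^ (n + 1) *
      (n + 1).factorial) with hM
    have key : ∀ τ : ℝ, 0 < τ → τ ≤ 1 → ‖δ‖ ≤ M * τ := by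
      intro τ ht ht1
      have hn : ‖Complex.I * (τ : ℂ)‖ = τ := by
        rw [norm_mul, Complex.norm_I, one_mul, Complex.norm_real, Real.norm_eq_abs,
          abs_of_pos ht]
      have him : (Complex.I * (τ : ℂ)).im = τ := by simp
      have hU : Complex.I * (τ : ℂ) ∈ UH := by
        change 0 < (Complex.I * (τ : ℂ)).im
        rw [him]
        exact ht
      have e1 := h1 (n + 1) _ hU (by rw [hn]; exact ht1)
      have e2 := h2 (n + 1) _ hU (by rw [hn]; exact ht1)
      rw [hn, him, div_self ht.ne', one_pow, mul_one] at e1 e2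
      have hsum : (∑ k ∈ range (n + 1), ((coeff k s : ℝ) : ℂ) * (Complex.I * τ) ^ k) -
          κ * (∑ k ∈ range (n + 1), ((coeff k s' : ℝ) : ℂ) * (Complex.I * τ) ^ k) =
          δ * (Complex.I * τ) ^ n := by
        rw [Finset.mul_sum, ← Finset.sum_sub_distrib, Finset.sum_range_succ,
          Finset.sum_eq_zero, zero_add, hδ]
        · ring
        · intro k hk
          rw [ih k (Finset.mem_range.mp hk)]
          ring
      have e3 : δ * (Complex.I * τ) ^ n =
          κ * (F' (Complex.I * τ) -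
            ∑ k ∈ range (n + 1), ((coeff k s' : ℝ) : ℂ) * (Complex.I * τ) ^ k) -
          (F (Complex.I * τ) -
            ∑ k ∈ range (n + 1), ((coeff k s : ℝ) : ℂ) * (Complex.I * τ) ^ k) := by
        rw [← hsum, h τ ht]
        ring
      have e4 : ‖δ‖ * τ ^ n ≤ M * τ * τ ^ n := by
        calc ‖δ‖ * τ ^ n = ‖δ * (Complex.I * τ) ^ n‖ := by rw [norm_mul, norm_pow, hn]
          _ ≤ ‖κ‖ * (C₂ * R₂ ^ (n + 1) * (n + 1).factorial * τ ^ (n + 1)) +
              C₁ * R₁ ^ (n + 1) * (n + 1).factorial * τ ^ (n + 1) := by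
            rw [e3]
            refine (norm_sub_le _ _).trans (add_le_add ?_ e1)
            rw [norm_mul]
            exact mul_le_mul_of_nonneg_left e2 (norm_nonneg _)
          _ = M * τ * τ ^ n := by
            rw [hM]
            ring
      exact le_of_mul_le_mul_right e4 (pow_pos ht n)
    have hδ0 : ‖δ‖ ≤ 0 := by
      have l1 : Filter.Tendsto (fun τ : ℝ => M * τ) (nhdsWithin 0 (Set.Ioi 0)) (nhds (M * 0)) :=
        ((continuous_const.mul continuous_id).tendsto 0).mono_left nhdsWithin_le_nhds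
      rw [mul_zero] at l1
      refine ge_of_tendsto l1 ?_
      have h3 : Set.Ioc (0 : ℝ) 1 ∈ nhdsWithin (0 : ℝ) (Set.Ioi 0) :=
        Ioc_mem_nhdsGT (by norm_num)
      filter_upwards [h3] with τ hτ using key τ hτ.1 hτ.2
    have hδ1 : δ = 0 := norm_eq_zero.mp (le_antisymm hδ0 (norm_nonneg _))
    exact sub_eq_zero.mp hδ1

theorem gpart_eq {D D' : Data V} (h : D.IsGraph) (h' : D'.IsGraph) {Φ Φ' : V → ℂ → ℂ}
    {φ φ' : V → ℝ⟦X⟧} (hΦ : ∀ v, Good (Φ v) (φ v)) (hΦ' : ∀ v, Good (Φ' v) (φ' v))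
    (h0 : ∀ v, coeff 0 (φ v) = 1) (h0' : ∀ v, coeff 0 (φ' v) = 1) {r : NNReal}
    (hr : law D Φ = r • law D' Φ') : gpart D φ = gpart D' φ' := by
  obtain ⟨_, hne, F, hF, c, hc, hch⟩ := law_exists h hΦ
  obtain ⟨_, _, F', hF', c', hc', hch'⟩ := law_exists h' hΦ'
  have hκ : ∀ τ : ℝ, 0 < τ → F (Complex.I * τ) = ((r : ℂ) * c' / c) * F' (Complex.I * τ) := by
    intro τ hτ
    have ht : 0 < 1 / (4 * τ) := by positivity
    have e1 := hch (1 / (4 * τ)) ht
    rw [hr, a1c_charFun_smul, hch' (1 / (4 * τ)) ht] at e1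
    have e2 : Complex.I / (4 * ((1 / (4 * τ) : ℝ) : ℂ)) = Complex.I * τ := by
      have : (τ : ℂ) ≠ 0 := by exact_mod_cast hτ.ne'
      push_cast
      field_simp
    rw [e2] at e1
    have hp : (((1 / (4 * τ)) ^ (-(3 / 2 : ℝ) * Fintype.card V) : ℝ) : ℂ) ≠ 0 := by
      exact_mod_cast (Real.rpow_pos_of_pos ht _).ne'
    have e3 : (((1 / (4 * τ)) ^ (-(3 / 2 : ℝ) * Fintype.card V) : ℝ) : ℂ) *
        (c * F (Complex.I * τ)) = (((1 / (4 * τ)) ^ (-(3 / 2 : ℝ) * Fintype.card V) : ℝ) : ℂ) *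
        ((r : ℂ) * c' * F' (Complex.I * τ)) := by
      linear_combination -e1
    have e4 := mul_left_cancel₀ hp e3
    rw [div_mul_eq_mul_div, eq_div_iff hc]
    linear_combination e4
  have h1 := a1c_coeff hF hF' hκ 0
  rw [a1c_gpart_zero D h0, a1c_gpart_zero D' h0', Complex.ofReal_one, mul_one] at h1
  ext n
  have h2 := a1c_coeff hF hF' hκ n
  rw [← h1, one_mul] at h2
  exact_mod_cast h2

/-- Conversely, equal series give proportional laws. -/
theorem law_eq {D D' : Data V} (h : D.IsGraph) (h' : D'.IsGraph) {Φ Φ' : V → ℂ → ℂ}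
    {φ φ' : V → ℝ⟦X⟧} (hΦ : ∀ v, Good (Φ v) (φ v)) (hΦ' : ∀ v, Good (Φ' v) (φ' v))
    (hp : gpart D φ = gpart D' φ') : ∃ r : NNReal, r ≠ 0 ∧ law D Φ = r • law D' Φ' := by
  obtain ⟨hf, hne, F, hF, c, hc, hch⟩ := law_exists h hΦ
  obtain ⟨hf', hne', F', hF', c', hc', hch'⟩ := law_exists h' hΦ'
  rw [← hp] at hF'
  refine eq_smul_of_charFun (c := c / c') hne hne' fun t ht => ?_
  have hU : Complex.I / (4 * (t : ℂ)) ∈ UH := by
    have e : Complex.I / (4 * (t : ℂ)) = Complex.I * ((1 / (4 * t) : ℝ) : ℂ) := by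
      push_cast
      ring
    change 0 < (Complex.I / (4 * (t : ℂ))).im
    rw [e]
    have : 0 < 1 / (4 * t) := by positivity
    simpa using this
  rw [hch t ht, hch' t ht, HG.unique hF hF' _ hU]
  field_simp

end Pool.Agent.GT
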