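import Mathlib

/-!
Stieltjes moment problem with exponential moments of `√|y|`.
Proof: it suffices to treat `s = 1` (map by `y ↦ s y`). Let `f(z) = ∫ cosh (z √y) dμ(y)`; it is
holomorphic in the strip `|Re z| < c`, and near `0` it is `∑ z ^ (2 n) / (2 n)! ∫ y ^ n dμ`. So the
same functions for `μ` and `ν` agree near `0`, hence in the strip, hence on the imaginary axis:
`∫ cos (t √y) dμ = ∫ cos (t √y) dν`. Thus the (finite) images of `μ` and `ν` under the two maps
`y ↦ √y` and `y ↦ - √y`, added up, have equal characteristic functions, so they are equal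
(`Measure.ext_of_charFun`), and so are their images `μ + μ`, `ν + ν` under `x ↦ x ^ 2`. (Alternatively
use `ProbabilityTheory.complexMGF`, `analyticOn_complexMGF`, `Measure.ext_of_complexMGF_eq` for the
symmetrised measures.)
-/

set_option autoImplicit false

open MeasureTheory

namespace Pool.Agent.GT

open ProbabilityTheory Filter Topology

private noncomputable def a2X (y : ℝ) : ℝ := Real.sqrt |y|

private theorem a2X_meas : Measurable a2X := by
  unfold a2X
  fun_prop

private theorem a2X_negm : Measurable (fun y => -a2X y) := a2X_meas.neg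

/-- The symmetrised law of `√|y|`. -/
private noncomputable def a2sym (μ : Measure ℝ) : Measure ℝ :=
  μ.map a2X + μ.map (fun y => -a2X y)

private theorem a2sym_fin (μ : Measure ℝ) [IsFiniteMeasure μ] : IsFiniteMeasure (a2sym μ) := by
  unfold a2sym
  infer_instance

private theorem a2_dom {μ : Measure ℝ} {c : ℝ}
    (hμi : Integrable (fun y => Real.exp (c * Real.sqrt |y|)) μ) {t : ℝ} (ht : |t| ≤ c) :
    Integrable (fun y => Real.exp (t * a2X y)) μ := by
  refine hμi.mono' ?_ ?_
  · have := a2X_meas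
    exact (by fun_prop : Measurable fun y => Real.exp (t * a2X y)).aestronglyMeasurable
  · refine Filter.Eventually.of_forall fun y => ?_
    rw [Real.norm_eq_abs, abs_of_pos (Real.exp_pos _)]
    apply Real.exp_le_exp.mpr
    have h1 : 0 ≤ Real.sqrt |y| := Real.sqrt_nonneg _
    have h2 : t ≤ c := (le_abs_self t).trans ht
    exact mul_le_mul_of_nonneg_right h2 h1

private theorem a2_intm {μ : Measure ℝ} {c : ℝ}
    (hμi : Integrable (fun y => Real.exp (c * Real.sqrt |y|)) μ) {t : ℝ} (ht : |t| ≤ c) :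
    Integrable (fun x => Real.exp (t * x)) (μ.map a2X) ∧
      Integrable (fun x => Real.exp (t * x)) (μ.map (fun y => -a2X y)) := by
  have hX := a2X_meas
  constructor
  · rw [integrable_map_measure (by fun_prop) hX.aemeasurable]
    exact a2_dom hμi ht
  · rw [integrable_map_measure (by fun_prop) a2X_negm.aemeasurable]
    have h1 := a2_dom hμi (t := -t) (by rwa [abs_neg])
    refine h1.congr (Filter.Eventually.of_forall fun y => ?_)
    simp only [Function.comp_apply]
    ring_nf

private theorem a2_set1 {μ : Measure ℝ} {c : ℝ}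
    (hμi : Integrable (fun y => Real.exp (c * Real.sqrt |y|)) μ) :
    Set.Ioo (-c) c ⊆ interior (integrableExpSet id (μ.map a2X)) ∧
    Set.Ioo (-c) c ⊆ interior (integrableExpSet id (μ.map (fun y => -a2X y))) ∧
    Set.Ioo (-c) c ⊆ interior (integrableExpSet id (a2sym μ)) := by
  refine ⟨interior_maximal ?_ isOpen_Ioo, interior_maximal ?_ isOpen_Ioo,
    interior_maximal ?_ isOpen_Ioo⟩
  · intro t ht
    exact (a2_intm hμi (abs_le.mpr ⟨ht.1.le, ht.2.le⟩)).1
  · intro t ht
    exact (a2_intm hμi (abs_le.mpr ⟨ht.1.le, ht.2.le⟩)).2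
  · intro t ht
    have h1 := a2_intm hμi (abs_le.mpr ⟨ht.1.le, ht.2.le⟩)
    exact h1.1.add_measure h1.2

private theorem a2_abs {μ : Measure ℝ} {s : ℝ} (hs : s = 1 ∨ s = -1)
    (hμ : μ {y | s * y < 0} = 0) : ∀ᵐ y ∂μ, |y| = s * y := by
  have h1 : ∀ᵐ y ∂μ, ¬ (s * y < 0) := by
    rw [ae_iff]
    simpa using hμ
  filter_upwards [h1] with y hy
  push Not at hy
  rcases hs with rfl | rfl
  · rw [one_mul] at hy ⊢
    exact abs_of_nonneg hy
  · rw [neg_one_mul] at hy ⊢
    exact abs_of_nonpos (by linarith)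

private theorem a2_moment {μ : Measure ℝ} [IsFiniteMeasure μ] {s : ℝ} (hs : s = 1 ∨ s = -1)
    (hμ : μ {y | s * y < 0} = 0) {c : ℝ} (hc : 0 < c)
    (hμi : Integrable (fun y => Real.exp (c * Real.sqrt |y|)) μ) (n : ℕ) :
    ∫ x, x ^ n ∂(a2sym μ) = if Even n then 2 * (s ^ (n / 2) * ∫ y, y ^ (n / 2) ∂μ) else 0 := by
  have hX := a2X_meas
  have h0 : (0 : ℝ) ∈ Set.Ioo (-c) c := ⟨by linarith, hc⟩
  obtain ⟨s1, s2, -⟩ := a2_set1 hμi
  have i1 : Integrable (fun x : ℝ => x ^ n) (μ.map a2X) :=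
    integrable_pow_of_mem_interior_integrableExpSet (s1 h0) n
  have i2 : Integrable (fun x : ℝ => x ^ n) (μ.map (fun y => -a2X y)) :=
    integrable_pow_of_mem_interior_integrableExpSet (s2 h0) n
  unfold a2sym
  rw [integral_add_measure i1 i2, integral_map hX.aemeasurable (by fun_prop),
    integral_map a2X_negm.aemeasurable (by fun_prop)]
  by_cases hn : Even n
  · rw [if_pos hn]
    obtain ⟨k, rfl⟩ := hn
    have hk : (k + k) / 2 = k := by omega
    rw [hk]
    have e1 : ∀ y : ℝ, a2X y ^ (k + k) = |y| ^ k := by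
      intro y
      unfold a2X
      rw [← two_mul, pow_mul, Real.sq_sqrt (abs_nonneg y)]
    have e2 : ∀ y : ℝ, (-a2X y) ^ (k + k) = |y| ^ k := by
      intro y
      rw [← e1 y, Even.neg_pow ⟨k, rfl⟩]
    simp only [e1, e2]
    have e3 : ∫ y, |y| ^ k ∂μ = s ^ k * ∫ y, y ^ k ∂μ := by
      rw [← integral_const_mul]
      refine integral_congr_ae ?_
      filter_upwards [a2_abs hs hμ] with y hy
      rw [hy, mul_pow]
    rw [e3]
    ring
  · rw [if_neg hn]
    have hodd : Odd n := Nat.not_even_iff_odd.mp hn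
    have e2 : ∀ y : ℝ, (-a2X y) ^ n = -(a2X y ^ n) := fun y => hodd.neg_pow _
    simp only [e2]
    rw [integral_neg]
    ring

theorem stieltjes {μ ν : Measure ℝ} [IsFiniteMeasure μ] [IsFiniteMeasure ν] {s : ℝ}
    (hs : s = 1 ∨ s = -1) (hμ : μ {y | s * y < 0} = 0) (hν : ν {y | s * y < 0} = 0) {c : ℝ}
    (hc : 0 < c) (hμi : Integrable (fun y => Real.exp (c * Real.sqrt |y|)) μ)
    (hνi : Integrable (fun y => Real.exp (c * Real.sqrt |y|)) ν)
    (h : ∀ n : ℕ, ∫ y, y ^ n ∂μ = ∫ y, y ^ n ∂ν) : μ = ν := by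
  have hX := a2X_meas
  have := a2sym_fin μ
  have := a2sym_fin ν
  have h0 : (0 : ℝ) ∈ Set.Ioo (-c) c := ⟨by linarith, hc⟩
  obtain ⟨-, -, sμ⟩ := a2_set1 hμi
  obtain ⟨-, -, sν⟩ := a2_set1 hνi
  have hmom : ∀ n, ∫ x, x ^ n ∂(a2sym μ) = ∫ x, x ^ n ∂(a2sym ν) := by
    intro n
    rw [a2_moment hs hμ hc hμi, a2_moment hs hν hc hνi, h]
  -- the strip
  set S : Set ℂ := {z | z.re ∈ Set.Ioo (-c) c} with hS
  have hSpre : IsPreconnected S := by
    have h1 : S = Complex.re ⁻¹' Set.Ioo (-c) c := rfl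
    rw [h1]
    exact ((convex_Ioo (-c) c).is_linear_preimage Complex.reLm.isLinear).isPreconnected
  have aμ : AnalyticOnNhd ℂ (complexMGF id (a2sym μ)) S :=
    analyticOnNhd_complexMGF.mono fun z hz => sμ hz
  have aν : AnalyticOnNhd ℂ (complexMGF id (a2sym ν)) S :=
    analyticOnNhd_complexMGF.mono fun z hz => sν hz
  have hz0 : (0 : ℂ) ∈ S := by
    show (0 : ℂ).re ∈ Set.Ioo (-c) c
    rw [Complex.zero_re]
    exact h0
  have hder : ∀ n, iteratedDeriv n (complexMGF id (a2sym μ)) 0 =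
      iteratedDeriv n (complexMGF id (a2sym ν)) 0 := by
    intro n
    rw [iteratedDeriv_complexMGF (sμ hz0), iteratedDeriv_complexMGF (sν hz0)]
    have e1 : ∀ x : ℝ, ((id x : ℝ) : ℂ) ^ n * Complex.exp (0 * ((id x : ℝ) : ℂ)) =
        ((x ^ n : ℝ) : ℂ) := by
      intro x
      simp
    simp only [e1]
    rw [integral_complex_ofReal, integral_complex_ofReal, hmom n]
  have hev : complexMGF id (a2sym μ) =ᶠ[𝓝 0] complexMGF id (a2sym ν) := by
    have p1 := (aμ 0 hz0).hasFPowerSeriesAt
    have p2 := (aν 0 hz0).hasFPowerSeriesAt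
    have p3 : (fun n : ℕ => iteratedDeriv n (complexMGF id (a2sym μ)) 0 / (n.factorial : ℂ)) =
        fun n : ℕ => iteratedDeriv n (complexMGF id (a2sym ν)) 0 / (n.factorial : ℂ) := by
      funext n
      rw [hder]
    rw [p3] at p1
    have p4 := p1.sub p2
    rw [sub_self] at p4
    filter_upwards [p4.eventually_eq_zero] with z hz
    exact sub_eq_zero.mp hz
  have heq := aμ.eqOn_of_preconnected_of_eventuallyEq aν hSpre hz0 hev
  have hsym : a2sym μ = a2sym ν := by
    apply Measure.ext_of_charFun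
    funext t
    rw [← complexMGF_id_mul_I, ← complexMGF_id_mul_I]
    apply heq
    show ((t : ℂ) * Complex.I).re ∈ Set.Ioo (-c) c
    have e1 : ((t : ℂ) * Complex.I).re = 0 := by simp
    rw [e1]
    exact h0
  -- back to `μ`, `ν`
  have hback : ∀ (ρ : Measure ℝ), ρ {y | s * y < 0} = 0 →
      (a2sym ρ).map (fun x => s * x ^ 2) = ρ + ρ := by
    intro ρ hρ
    have hg : Measurable fun x : ℝ => s * x ^ 2 := by fun_prop
    unfold a2sym
    rw [Measure.map_add _ _ hg, Measure.map_map hg hX, Measure.map_map hg a2X_negm]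
    have e1 : ((fun x : ℝ => s * x ^ 2) ∘ a2X) =ᵐ[ρ] id := by
      filter_upwards [a2_abs hs hρ] with y hy
      simp only [Function.comp_apply, id_eq]
      unfold a2X
      rw [Real.sq_sqrt (abs_nonneg y), hy, ← mul_assoc]
      rcases hs with rfl | rfl
      · ring
      · ring
    have e2 : ((fun x : ℝ => s * x ^ 2) ∘ fun y => -a2X y) =ᵐ[ρ] id := by
      filter_upwards [e1] with y hy
      rw [← hy]
      simp only [Function.comp_apply]
      ring
    rw [Measure.map_congr e1, Measure.map_congr e2, Measure.map_id]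
  have hfin : μ + μ = ν + ν := by
    rw [← hback μ hμ, ← hback ν hν, hsym]
  ext A hA
  have h1 : (μ + μ) A = (ν + ν) A := by rw [hfin]
  rw [Measure.add_apply, Measure.add_apply, ← two_mul, ← two_mul] at h1
  exact (ENNReal.mul_right_inj two_ne_zero ENNReal.ofNat_ne_top).mp h1

end Pool.Agent.GT
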