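import Pool.Agent.H46.GT.A1

/-!
`∫_0^∞ r ^ (2k+2) Φ(r²) dr = ∫_0^∞ ∫_0^∞ r ^ (2k+2) e^{-u r²} θ(u) du dr` and
`∫_0^∞ r ^ (2k+2) e^{-u r²} dr = (1/2) Γ(k + 3/2) u^{-(k + 3/2)}` (Fubini; `Theta.bound` gives the integrability of
`u^{-(k+3/2)} |θ(u)|`, compare `GPC.theta_integrable`).
-/

set_option autoImplicit false

open PowerSeries Finset MeasureTheory

namespace Pool.Agent.GT

open Pool.Agent.OHG Pool.Agent.GPC Pool.Agent.SLR

/-- `y ^ k ≤ k! a ^ (-k) exp (a y)` -/
private theorem a3b_pow_le {a y : ℝ} (ha : 0 < a) (hy : 0 ≤ y) (k : ℕ) :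
    y ^ k ≤ (k.factorial : ℝ) * (a⁻¹) ^ k * Real.exp (a * y) := by
  have h1 := Real.pow_div_factorial_le_exp (a * y) (mul_nonneg ha.le hy) k
  rw [div_le_iff₀ (by positivity), mul_pow] at h1
  calc y ^ k = (a⁻¹) ^ k * (a ^ k * y ^ k) := by
        rw [inv_pow, ← mul_assoc, inv_mul_cancel₀ (pow_ne_zero _ ha.ne'), one_mul]
    _ ≤ (a⁻¹) ^ k * (Real.exp (a * y) * (k.factorial : ℝ)) :=
        mul_le_mul_of_nonneg_left h1 (by positivity)
    _ = (k.factorial : ℝ) * (a⁻¹) ^ k * Real.exp (a * y) := by ring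

/-- one-dimensional integrability -/
private theorem a3b_one {θ : ℝ → ℝ} {φ : ℝ⟦X⟧} (hθ : Theta θ φ) (n : ℕ) (q : ℝ) :
    IntegrableOn (fun x : ℝ => |θ x| * (1 + x) ^ n * x ^ (-q)) (Set.Ioi 0) := by
  obtain ⟨C, c, hc, hb⟩ := hθ.bound
  obtain ⟨m, hm⟩ := exists_nat_ge |q|
  have hC : 0 ≤ C := by
    have := hb 1 one_pos
    have h2 : 0 ≤ C * Real.exp (-c * 1 - c / Real.sqrt 1) := (abs_nonneg _).trans this
    exact nonneg_of_mul_nonneg_left h2 (Real.exp_pos _)
  set A : ℝ := (n.factorial : ℝ) * ((c / 4)⁻¹) ^ n * Real.exp (c / 4) with hA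
  set B1 : ℝ := (m.factorial : ℝ) * ((c / 4)⁻¹) ^ m with hB1
  set B2 : ℝ := ((2 * m).factorial : ℝ) * (c⁻¹) ^ (2 * m) with hB2
  have hA0 : 0 ≤ A := by rw [hA]; positivity
  have hB10 : 0 ≤ B1 := by rw [hB1]; positivity
  have hB20 : 0 ≤ B2 := by rw [hB2]; positivity
  have hdom : IntegrableOn (fun x : ℝ => C * A * (B1 + B2) * Real.exp (-(c / 4) * x))
      (Set.Ioi 0) := (exp_neg_integrableOn_Ioi 0 (by positivity : 0 < c / 4)).const_mul _
  refine hdom.mono' ?_ ?_
  · apply Measurable.aestronglyMeasurable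
    exact ((hθ.cont.measurable.norm).mul ((measurable_const.add measurable_id).pow_const n)).mul
      (measurable_id.pow_const (-q))
  · refine (ae_restrict_iff' measurableSet_Ioi).2 (Filter.Eventually.of_forall fun x hx => ?_)
    have hx0 : (0 : ℝ) < x := hx
    rw [Real.norm_eq_abs, abs_of_nonneg (by positivity)]
    have h1 : |θ x| ≤ C * Real.exp (-c * x - c / Real.sqrt x) := hb x hx0
    have h2 : (1 + x) ^ n ≤ A * Real.exp (c / 4 * x) := by
      have := a3b_pow_le (a := c / 4) (y := 1 + x) (by positivity) (by positivity) n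
      rw [mul_add, mul_one, Real.exp_add] at this
      rw [hA]
      linarith
    have hs : 0 < Real.sqrt x := Real.sqrt_pos.2 hx0
    have h3 : x ^ (-q) ≤ x ^ m + (x⁻¹) ^ m := by
      rcases le_total 1 x with h | h
      · have : x ^ (-q) ≤ x ^ (m : ℝ) := by
          apply Real.rpow_le_rpow_of_exponent_le h
          exact ((neg_le_abs q).trans hm)
        rw [Real.rpow_natCast] at this
        have h0 : 0 ≤ (x⁻¹) ^ m := by positivity
        linarith
      · have : x ^ (-q) ≤ x ^ (-(m : ℝ)) := by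
          apply Real.rpow_le_rpow_of_exponent_ge hx0 h
          have := (le_abs_self q).trans hm
          linarith
        have e : x ^ (-(m : ℝ)) = (x⁻¹) ^ m := by
          rw [Real.rpow_neg hx0.le, Real.rpow_natCast, inv_pow]
        rw [e] at this
        have h0 : 0 ≤ x ^ m := by positivity
        linarith
    have h4 : x ^ m ≤ B1 * Real.exp (c / 4 * x) :=
      a3b_pow_le (a := c / 4) (by positivity) hx0.le m
    have h5 : (x⁻¹) ^ m ≤ B2 * Real.exp (c / Real.sqrt x) := by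
      have := a3b_pow_le (a := c) (y := 1 / Real.sqrt x) hc (by positivity) (2 * m)
      have e : (1 / Real.sqrt x) ^ (2 * m) = (x⁻¹) ^ m := by
        rw [pow_mul, div_pow, one_pow, Real.sq_sqrt hx0.le, one_div]
      rw [e, mul_one_div] at this
      exact this
    have h6 : 1 ≤ Real.exp (c / Real.sqrt x) := Real.one_le_exp (by positivity)
    have h7 : 1 ≤ Real.exp (c / 4 * x) := Real.one_le_exp (by positivity)
    have h8 : x ^ (-q) ≤ (B1 + B2) * (Real.exp (c / 4 * x) * Real.exp (c / Real.sqrt x)) := by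
      have h9 : B1 * Real.exp (c / 4 * x) ≤
          B1 * (Real.exp (c / 4 * x) * Real.exp (c / Real.sqrt x)) :=
        mul_le_mul_of_nonneg_left (le_mul_of_one_le_right (Real.exp_pos _).le h6) hB10
      have h10 : B2 * Real.exp (c / Real.sqrt x) ≤
          B2 * (Real.exp (c / 4 * x) * Real.exp (c / Real.sqrt x)) :=
        mul_le_mul_of_nonneg_left (le_mul_of_one_le_left (Real.exp_pos _).le h7) hB20
      rw [add_mul]
      linarith
    have hx1 : 0 ≤ (1 + x) ^ n := by positivity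
    have hx2 : 0 ≤ x ^ (-q) := by positivity
    calc |θ x| * (1 + x) ^ n * x ^ (-q)
        ≤ (C * Real.exp (-c * x - c / Real.sqrt x)) * (A * Real.exp (c / 4 * x)) *
          ((B1 + B2) * (Real.exp (c / 4 * x) * Real.exp (c / Real.sqrt x))) :=
          mul_le_mul (mul_le_mul h1 h2 hx1 (by positivity)) h8 hx2 (by positivity)
      _ = C * A * (B1 + B2) * (Real.exp (-c * x - c / Real.sqrt x) * Real.exp (c / 4 * x) *
            (Real.exp (c / 4 * x) * Real.exp (c / Real.sqrt x))) := by ring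
      _ = C * A * (B1 + B2) * Real.exp (-(c / 2) * x) := by
          rw [← Real.exp_add, ← Real.exp_add, ← Real.exp_add]
          congr 2
          ring
      _ ≤ C * A * (B1 + B2) * Real.exp (-(c / 4) * x) := by
          apply mul_le_mul_of_nonneg_left _ (by positivity)
          apply Real.exp_le_exp.2
          nlinarith

private theorem a3b_inner {u : ℝ} (hu : 0 < u) (k : ℕ) :
    ∫ r in Set.Ioi (0 : ℝ), r ^ (2 * k + 2) * Real.exp (-(u * r ^ 2)) =
      Real.Gamma (k + 3 / 2) / 2 * u ^ (-((k : ℝ) + 3 / 2)) := by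
  have h := integral_rpow_mul_exp_neg_mul_rpow (p := 2) (q := 2 * k + 2) (b := u) (by norm_num)
    (by have : (0 : ℝ) ≤ k := Nat.cast_nonneg k
        linarith) hu
  have e : ∀ r : ℝ, r ^ (2 * k + 2) * Real.exp (-(u * r ^ 2)) =
      r ^ (2 * (k : ℝ) + 2) * Real.exp (-u * r ^ (2 : ℝ)) := by
    intro r
    have h1 : r ^ (2 * (k : ℝ) + 2) = r ^ (2 * k + 2) := by
      rw [← Real.rpow_natCast]
      push_cast
      rfl
    have h2 : r ^ (2 : ℝ) = r ^ 2 := by
      rw [← Real.rpow_natCast]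
      norm_num
    rw [h1, h2, neg_mul]
  simp only [e]
  rw [h]
  have e1 : (2 * (k : ℝ) + 2 + 1) / 2 = k + 3 / 2 := by ring
  have e2 : -(2 * (k : ℝ) + 2 + 1) / 2 = -((k : ℝ) + 3 / 2) := by ring
  rw [e1, e2]
  ring

private theorem a3b_inner_int {u : ℝ} (hu : 0 < u) (k : ℕ) :
    IntegrableOn (fun r : ℝ => r ^ (2 * k + 2) * Real.exp (-(u * r ^ 2))) (Set.Ioi 0) := by
  have h := integrableOn_rpow_mul_exp_neg_mul_rpow (p := 2) (s := 2 * k + 2) (b := u)
    (by have : (0 : ℝ) ≤ k := Nat.cast_nonneg k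
        linarith) (by norm_num) hu
  have e : (fun r : ℝ => r ^ (2 * k + 2) * Real.exp (-(u * r ^ 2))) =
      fun r : ℝ => r ^ (2 * (k : ℝ) + 2) * Real.exp (-u * r ^ (2 : ℝ)) := by
    funext r
    have h1 : r ^ (2 * (k : ℝ) + 2) = r ^ (2 * k + 2) := by
      rw [← Real.rpow_natCast]
      push_cast
      rfl
    have h2 : r ^ (2 : ℝ) = r ^ 2 := by
      rw [← Real.rpow_natCast]
      norm_num
    rw [h1, h2, neg_mul]
  rw [e]
  exact h

private theorem a3b_prod {φ : ℝ⟦X⟧} {θ : ℝ → ℝ} (hθ : Theta θ φ) (k : ℕ) :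
    Integrable (Function.uncurry fun u r : ℝ =>
      r ^ (2 * k + 2) * (Real.exp (-(u * r ^ 2)) * θ u))
      ((volume.restrict (Set.Ioi (0 : ℝ))).prod (volume.restrict (Set.Ioi (0 : ℝ)))) := by
  have hm : Measurable (Function.uncurry fun u r : ℝ =>
      r ^ (2 * k + 2) * (Real.exp (-(u * r ^ 2)) * θ u)) := by
    have h1 := hθ.cont.measurable
    unfold Function.uncurry
    fun_prop
  rw [integrable_prod_iff hm.aestronglyMeasurable]
  constructor
  · refine (ae_restrict_iff' measurableSet_Ioi).2 (Filter.Eventually.of_forall fun u hu => ?_)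
    have h := (a3b_inner_int (u := u) hu k).mul_const (θ u)
    refine h.congr (Filter.Eventually.of_forall fun r => ?_)
    simp only [Function.uncurry]
    ring
  · have h0 := (a3b_one hθ 0 ((k : ℝ) + 3 / 2)).const_mul (Real.Gamma (k + 3 / 2) / 2)
    refine h0.congr ?_
    refine (ae_restrict_iff' measurableSet_Ioi).2 (Filter.Eventually.of_forall fun u hu => ?_)
    have e : ∀ r : ℝ, r ∈ Set.Ioi (0 : ℝ) → ‖Function.uncurry (fun u r : ℝ =>
        r ^ (2 * k + 2) * (Real.exp (-(u * r ^ 2)) * θ u)) (u, r)‖ =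
        |θ u| * (r ^ (2 * k + 2) * Real.exp (-(u * r ^ 2))) := by
      intro r hr
      have hr0 : (0 : ℝ) < r := hr
      simp only [Function.uncurry, Real.norm_eq_abs]
      rw [abs_mul, abs_mul, Real.abs_exp, abs_of_pos (pow_pos hr0 _)]
      ring
    simp only
    rw [setIntegral_congr_fun measurableSet_Ioi e, integral_const_mul, a3b_inner hu k]
    ring

theorem theta_rad {Φ : ℂ → ℂ} {φ : ℝ⟦X⟧} {θ : ℝ → ℝ} (hθ : Theta θ φ)
    (hl : ∀ r : ℝ, 0 ≤ r → lapl θ r = (Φ (r : ℂ)).re) (k : ℕ) :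
    ∫ u in Set.Ioi (0 : ℝ), u ^ (-((k : ℝ) + 3 / 2)) * θ u =
      2 / Real.Gamma (k + 3 / 2) * rad Φ k := by
  have hk : (0 : ℝ) ≤ k := Nat.cast_nonneg k
  have hG : 0 < Real.Gamma (k + 3 / 2) := Real.Gamma_pos_of_pos (by linarith)
  have hsw := integral_integral_swap (a3b_prod hθ k)
  have h1 : ∫ u in Set.Ioi (0 : ℝ), ∫ r in Set.Ioi (0 : ℝ),
      r ^ (2 * k + 2) * (Real.exp (-(u * r ^ 2)) * θ u) =
      Real.Gamma (k + 3 / 2) / 2 * ∫ u in Set.Ioi (0 : ℝ), u ^ (-((k : ℝ) + 3 / 2)) * θ u := by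
    rw [← integral_const_mul]
    refine setIntegral_congr_fun measurableSet_Ioi fun u hu => ?_
    have e : ∀ r : ℝ, r ^ (2 * k + 2) * (Real.exp (-(u * r ^ 2)) * θ u) =
        θ u * (r ^ (2 * k + 2) * Real.exp (-(u * r ^ 2))) := fun r => by ring
    simp only [e]
    rw [integral_const_mul, a3b_inner hu k]
    ring
  have h2 : ∫ r in Set.Ioi (0 : ℝ), ∫ u in Set.Ioi (0 : ℝ),
      r ^ (2 * k + 2) * (Real.exp (-(u * r ^ 2)) * θ u) = rad Φ k := by
    unfold rad
    refine setIntegral_congr_fun measurableSet_Ioi fun r _ => ?_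
    rw [integral_const_mul, ← hl (r ^ 2) (sq_nonneg r)]
    rfl
  rw [h1, h2] at hsw
  rw [← hsw]
  field_simp

/-- The constants: `π ^ (3/2) · 2 / Γ(k + 3/2) / (4 π)` is rational, `1` for `k = 0` and `2/3` for `k = 1`. -/
theorem gamma_rat : ∃ g : ℕ → ℚ, g 0 = 1 ∧ g 1 = 2 / 3 ∧ ∀ k : ℕ,
    Real.pi ^ (3 / 2 : ℝ) * (2 / Real.Gamma (k + 3 / 2)) = 4 * Real.pi * (g k : ℝ) := by
  refine ⟨fun k => 2 ^ k / ((2 * k + 1).doubleFactorial : ℚ), ?_, ?_, fun k => ?_⟩
  · norm_num [Nat.doubleFactorial]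
  · norm_num [Nat.doubleFactorial]
  · have h := Real.Gamma_nat_add_half (k + 1)
    have e : (((k + 1 : ℕ) : ℝ) + 1 / 2) = (k : ℝ) + 3 / 2 := by
      push_cast
      ring
    have e2 : 2 * (k + 1) - 1 = 2 * k + 1 := by omega
    rw [e, e2] at h
    have hp : 0 < Real.pi := Real.pi_pos
    have hs : 0 < Real.sqrt Real.pi := Real.sqrt_pos.mpr hp
    have h3 : Real.pi ^ (3 / 2 : ℝ) = Real.pi * Real.sqrt Real.pi := by
      rw [Real.sqrt_eq_rpow, ← Real.rpow_one_add' hp.le (by norm_num)]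
      norm_num
    have hd : (0 : ℝ) < ((2 * k + 1).doubleFactorial : ℝ) := by
      exact_mod_cast Nat.doubleFactorial_pos (2 * k + 1)
    rw [h, h3]
    push_cast
    field_simp
    ring

end Pool.Agent.GT
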