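import Pool.Agent.H46.GT.A3a
import Pool.Agent.H46.GT.A3b
import Pool.Agent.GPC.K6d

/-!
The moments of the law. `∫ y ^ n d(law) = ∫ (qf Q X) ^ n den Φ X dX`, `Q = L⁻¹` (`integral_map`,
`integral_withDensity`). With `θ_v` from `theta_exists_eq` and `dens θ X = ∫ ∏ θ_v(u_v) e^{-∑ u_v |X_v|²} du` over
`u_v > 0` (as in SLR.M6) and Fubini (`gauss_moment_le`, `theta_integrable`) this is
`∫ ∏ θ_v(u_v) (∫ (qf Q X) ^ n e^{-∑ u_v |X_v|²} dX) du`; insert `gauss_moment` (for `Q`, rational because `L` is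
an integral matrix with non-zero determinant, `lkm_det`), `pos_prod` (GPC.F0) and `theta_rad`; the constants are in
`gamma_rat`: `q n j · ∏_v g (j v)`.
-/

set_option autoImplicit false

open PowerSeries Finset MeasureTheory

namespace Pool.Agent.GT

open Pool.Agent.OHG Pool.Agent.GPC Pool.Agent.SLR

variable {V : Type} [Fintype V] [DecidableEq V]

private lemma A3_meas : MeasurableSet {u : V → ℝ | ∀ v, 0 < u v} := by
  have : {u : V → ℝ | ∀ v, 0 < u v} = ⋂ v, {u : V → ℝ | 0 < u v} := by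
    ext u
    simp
  rw [this]
  exact MeasurableSet.iInter fun v => measurableSet_lt measurable_const (measurable_pi_apply v)

private lemma A3_bound {u : V → ℝ} (hu : ∀ v, 0 < u v) {n : ℕ} {j : V → ℕ} (hj : ∀ v, j v ≤ n) :
    ∏ v, (u v) ^ (-((j v : ℝ) + 3 / 2)) ≤
      (1 + ∑ v, u v) ^ (n * Fintype.card V) * ∏ v, (u v) ^ (-((n : ℝ) + 3 / 2)) := by
  have h0 : ∀ v, u v ≤ 1 + ∑ v, u v := by
    intro v
    have := Finset.single_le_sum (f := u) (fun w _ => (hu w).le) (Finset.mem_univ v)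
    linarith
  have h1 : 1 ≤ 1 + ∑ v, u v := by
    have := Finset.sum_nonneg (f := u) (s := univ) fun w _ => (hu w).le
    linarith
  have h2 : (1 + ∑ v, u v) ^ (n * Fintype.card V) * ∏ v, (u v) ^ (-((n : ℝ) + 3 / 2)) =
      ∏ v, ((1 + ∑ v, u v) ^ n * (u v) ^ (-((n : ℝ) + 3 / 2))) := by
    rw [Finset.prod_mul_distrib, Finset.prod_const, Finset.card_univ, pow_mul]
  rw [h2]
  refine Finset.prod_le_prod (fun v _ => Real.rpow_nonneg (hu v).le _) fun v _ => ?_
  have h3 : (u v) ^ (-((j v : ℝ) + 3 / 2)) = (u v) ^ (n - j v) * (u v) ^ (-((n : ℝ) + 3 / 2)) := by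
    rw [← Real.rpow_natCast, ← Real.rpow_add (hu v), Nat.cast_sub (hj v)]
    congr 1
    ring
  rw [h3]
  apply mul_le_mul_of_nonneg_right _ (Real.rpow_nonneg (hu v).le _)
  calc (u v) ^ (n - j v) ≤ (1 + ∑ v, u v) ^ (n - j v) := pow_le_pow_left₀ (hu v).le (h0 v) _
    _ ≤ (1 + ∑ v, u v) ^ n := pow_le_pow_right₀ h1 (Nat.sub_le _ _)

private lemma A3_le {n : ℕ} {j : V → ℕ} (hj : j ∈ (univ : Finset V).piAntidiag n) (v : V) :
    j v ≤ n := by
  rw [mem_piAntidiag] at hj
  rw [← hj.1]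
  exact Finset.single_le_sum (f := j) (fun _ _ => Nat.zero_le _) (Finset.mem_univ v)

private lemma A3_int {θ : V → ℝ → ℝ} {φ : V → ℝ⟦X⟧} (hθ : ∀ v, Theta (θ v) (φ v)) {n : ℕ}
    {j : V → ℕ} (hj : j ∈ (univ : Finset V).piAntidiag n) :
    IntegrableOn (fun u : V → ℝ => (∏ v, |θ v (u v)|) * ∏ v, (u v) ^ (-((j v : ℝ) + 3 / 2)))
      {u : V → ℝ | ∀ v, 0 < u v} := by
  refine (theta_integrable hθ (n * Fintype.card V) ((n : ℝ) + 3 / 2)).mono' ?_ ?_
  · apply Measurable.aestronglyMeasurable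
    apply Measurable.mul
    · apply Finset.measurable_prod
      intro v _
      exact ((hθ v).cont.measurable.comp (measurable_pi_apply v)).norm
    · apply Finset.measurable_prod
      intro v _
      exact (measurable_pi_apply v).pow_const _
  · refine (ae_restrict_iff' A3_meas).2 (Filter.Eventually.of_forall fun u hu => ?_)
    have hu0 : ∀ v, 0 < u v := hu
    have hp1 : 0 ≤ ∏ v, |θ v (u v)| := Finset.prod_nonneg fun v _ => abs_nonneg _
    have hp2 : 0 ≤ ∏ v, (u v) ^ (-((j v : ℝ) + 3 / 2)) :=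
      Finset.prod_nonneg fun v _ => Real.rpow_nonneg (hu0 v).le _
    rw [Real.norm_eq_abs, abs_of_nonneg (mul_nonneg hp1 hp2), mul_assoc]
    exact mul_le_mul_of_nonneg_left (A3_bound hu0 (A3_le hj)) hp1

private lemma A3_int' {θ : V → ℝ → ℝ} {φ : V → ℝ⟦X⟧} (hθ : ∀ v, Theta (θ v) (φ v)) {n : ℕ}
    {j : V → ℕ} (hj : j ∈ (univ : Finset V).piAntidiag n) :
    IntegrableOn (fun u : V → ℝ => ∏ v, ((u v) ^ (-((j v : ℝ) + 3 / 2)) * θ v (u v)))
      {u : V → ℝ | ∀ v, 0 < u v} := by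
  refine (A3_int hθ hj).mono' ?_ ?_
  · apply Measurable.aestronglyMeasurable
    apply Finset.measurable_prod
    intro v _
    exact ((measurable_pi_apply v).pow_const _).mul
      ((hθ v).cont.measurable.comp (measurable_pi_apply v))
  · refine (ae_restrict_iff' A3_meas).2 (Filter.Eventually.of_forall fun u hu => ?_)
    have hu0 : ∀ v, 0 < u v := hu
    rw [Real.norm_eq_abs, Finset.abs_prod, ← Finset.prod_mul_distrib]
    refine le_of_eq (Finset.prod_congr rfl fun v _ => ?_)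
    rw [abs_mul, abs_of_nonneg (Real.rpow_nonneg (hu0 v).le _), mul_comm]

private noncomputable def A3G (θ : V → ℝ → ℝ) (A : Matrix V V ℝ) (n : ℕ) (u : V → ℝ)
    (X : V × Fin 3 → ℝ) : ℝ :=
  (∏ v, θ v (u v)) * (qf A X ^ n * Real.exp (-(∑ v, u v * ∑ i, X (v, i) ^ 2)))

private lemma A3_qcont (A : Matrix V V ℝ) : Continuous (qf A) := by
  unfold qf
  fun_prop

private lemma A3_cont {θ : V → ℝ → ℝ} {φ : V → ℝ⟦X⟧} (hθ : ∀ v, Theta (θ v) (φ v))
    (A : Matrix V V ℝ) (n : ℕ) : Continuous (Function.uncurry (A3G θ A n)) := by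
  unfold A3G Function.uncurry
  refine Continuous.mul ?_ (Continuous.mul ?_ ?_)
  · exact continuous_finsetProd _ fun v _ => (hθ v).cont.comp
      ((continuous_apply v).comp continuous_fst)
  · exact ((A3_qcont A).comp continuous_snd).pow n
  · refine Real.continuous_exp.comp (Continuous.neg ?_)
    refine continuous_finsetSum _ fun v _ => ?_
    refine Continuous.mul ((continuous_apply v).comp continuous_fst) ?_
    exact continuous_finsetSum _ fun i _ => ((continuous_apply (v, i)).comp continuous_snd).pow 2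

private lemma A3_fub {θ : V → ℝ → ℝ} {φ : V → ℝ⟦X⟧} (hθ : ∀ v, Theta (θ v) (φ v))
    (A : Matrix V V ℝ) (n : ℕ) (hI : ∀ u : V → ℝ, (∀ v, 0 < u v) →
      Integrable (fun X : V × Fin 3 → ℝ =>
        qf A X ^ n * Real.exp (-(∑ v, u v * ∑ i, X (v, i) ^ 2)))) :
    Integrable (Function.uncurry (A3G θ A n))
      ((volume.restrict {u : V → ℝ | ∀ v, 0 < u v}).prod volume) := by
  rw [integrable_prod_iff (A3_cont hθ A n).aestronglyMeasurable]
  obtain ⟨C, hC⟩ := gauss_moment_le A n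
  constructor
  · filter_upwards [self_mem_ae_restrict A3_meas] with u hu
    exact (hI u hu).const_mul (∏ v, θ v (u v))
  · have h1 : IntegrableOn (fun u : V → ℝ => C * ∑ j ∈ (univ : Finset V).piAntidiag n,
        (∏ v, |θ v (u v)|) * ∏ v, (u v) ^ (-((j v : ℝ) + 3 / 2)))
        {u : V → ℝ | ∀ v, 0 < u v} :=
      (integrable_finsetSum _ fun j hj => A3_int hθ hj).const_mul C
    refine h1.mono' ?_ ?_
    · exact (A3_cont hθ A n).aestronglyMeasurable.norm.integral_prod_right'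
    · filter_upwards [self_mem_ae_restrict A3_meas] with u hu
      have hp1 : 0 ≤ ∏ v, |θ v (u v)| := Finset.prod_nonneg fun v _ => abs_nonneg _
      rw [Real.norm_eq_abs, abs_of_nonneg (integral_nonneg fun X => norm_nonneg _)]
      simp only [Function.uncurry, A3G, norm_mul, Real.norm_eq_abs, Real.abs_exp, abs_pow,
        Finset.abs_prod]
      rw [integral_const_mul, ← Finset.mul_sum]
      calc (∏ v, |θ v (u v)|) * ∫ X : V × Fin 3 → ℝ,
            |qf A X| ^ n * Real.exp (-(∑ v, u v * ∑ i, X (v, i) ^ 2))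
          ≤ (∏ v, |θ v (u v)|) * (C * ∑ j ∈ (univ : Finset V).piAntidiag n,
              ∏ v, (u v) ^ (-((j v : ℝ) + 3 / 2))) := mul_le_mul_of_nonneg_left (hC u hu) hp1
        _ = _ := by ring

private lemma A3_dens (θ : V → ℝ → ℝ) (X : V × Fin 3 → ℝ) :
    dens θ X = ∫ u in {u : V → ℝ | ∀ v, 0 < u v},
      (∏ v, θ v (u v)) * Real.exp (-(∑ v, u v * ∑ i, X (v, i) ^ 2)) := by
  unfold SLR.dens lapl
  rw [← pos_prod (fun v x => Real.exp (-(x * ∑ i, X (v, i) ^ 2)) * θ v x)]
  refine integral_congr_ae (Filter.Eventually.of_forall fun u => ?_)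
  simp only
  rw [Finset.prod_mul_distrib, mul_comm, ← Real.exp_sum, Finset.sum_neg_distrib]

private lemma A3_rat {D : Data V} (v w : V) : ∃ x : ℚ, (lkm D)⁻¹ v w = x := by
  have h1 : lkm D = (Matrix.of fun v w => (D.lk v w : ℚ)).map (Rat.castHom ℝ) := by
    ext v w
    simp [lkm]
  refine ⟨(Matrix.of fun v w => (D.lk v w : ℚ))⁻¹ v w, ?_⟩
  rw [h1, Matrix.inv_def, Matrix.inv_def, Ring.inverse_eq_inv', Ring.inverse_eq_inv',
    Matrix.smul_apply, Matrix.smul_apply, ← RingHom.mapMatrix_apply, ← RingHom.map_det,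
    ← RingHom.map_adjugate]
  simp [RingHom.mapMatrix_apply, Matrix.map_apply]

private lemma A3_herm (D : Data V) : ((lkm D)⁻¹).IsHermitian := by
  apply Matrix.IsHermitian.inv
  ext v w
  rw [Matrix.conjTranspose_apply, star_trivial]
  unfold lkm
  rw [Matrix.of_apply, Matrix.of_apply, lk_comm]

theorem law_moment {D : Data V} (h : D.IsGraph) : ∃ q : ℕ → (V → ℕ) → ℚ,
    q 0 0 = 1 ∧ (∀ v, (q 1 (Pi.single v 1) : ℝ) = (lkm D)⁻¹ v v) ∧
    ∀ (Φ : V → ℂ → ℂ) (φ : V → ℝ⟦X⟧), (∀ v, Good (Φ v) (φ v)) → ∀ n : ℕ,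
      ∫ y, y ^ n ∂(law D Φ) = (4 * Real.pi) ^ Fintype.card V *
        ∑ j ∈ (univ : Finset V).piAntidiag n, (q n j : ℝ) * ∏ v, rad (Φ v) (j v) := by
  obtain ⟨q0, hq0, hq1, hq⟩ := gauss_moment (A3_herm D) (A3_rat (D := D))
  obtain ⟨g, hg0, hg1, hg⟩ := gamma_rat
  refine ⟨fun n j => q0 n j * ∏ v, g (j v), ?_, fun v => ?_, ?_⟩
  · simp [hq0, hg0]
  · have h1 : ∏ w, g ((Pi.single v 1 : V → ℕ) w) = 2 / 3 := by
      rw [Finset.prod_eq_single v]
      · simp [hg1]
      · intro w _ hw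
        simp [hw, hg0]
      · simp
    simp only
    rw [h1]
    push_cast
    rw [hq1 v]
    ring
  · intro Φ φ hΦ n
    choose θ hθ hl using fun v => theta_exists_eq (hΦ v)
    have hden : den Φ = dens θ := by
      funext X
      unfold den SLR.dens
      refine Finset.prod_congr rfl fun v _ => ?_
      exact ((hl v _ (Finset.sum_nonneg fun i _ => sq_nonneg _)).1).symm
    have hI := dens_integrable hθ
    have hd0 : ∀ X, 0 < dens θ X := by
      intro X
      unfold SLR.dens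
      exact Finset.prod_pos fun v _ => (hl v _ (Finset.sum_nonneg fun i _ => sq_nonneg _)).2
    have hc := A3_qcont (lkm D)⁻¹
    have hmeas : AEMeasurable (fun X : V × Fin 3 → ℝ => ENNReal.ofReal (dens θ X)) volume :=
      hI.aestronglyMeasurable.aemeasurable.ennreal_ofReal
    unfold law
    rw [hden, integral_map hc.aemeasurable (by
      refine Continuous.aestronglyMeasurable ?_
      fun_prop), integral_withDensity_eq_integral_toReal_smul₀ hmeas (by simp)]
    have hF := A3_fub hθ (lkm D)⁻¹ n fun u hu => (hq n u hu).1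
    have hsw := integral_integral_swap hF
    have e1 : ∀ X : V × Fin 3 → ℝ, (ENNReal.ofReal (dens θ X)).toReal • (qf (lkm D)⁻¹ X) ^ n =
        ∫ u in {u : V → ℝ | ∀ v, 0 < u v}, A3G θ (lkm D)⁻¹ n u X := by
      intro X
      rw [ENNReal.toReal_ofReal (hd0 X).le, smul_eq_mul, A3_dens, ← integral_mul_const]
      refine integral_congr_ae (Filter.Eventually.of_forall fun u => ?_)
      simp only [A3G]
      ring
    simp only [e1]
    rw [← hsw]
    have e2 : ∫ u in {u : V → ℝ | ∀ v, 0 < u v}, ∫ X, A3G θ (lkm D)⁻¹ n u X =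
        ∫ u in {u : V → ℝ | ∀ v, 0 < u v}, (Real.pi ^ (3 / 2 : ℝ)) ^ Fintype.card V *
          ∑ j ∈ (univ : Finset V).piAntidiag n, (q0 n j : ℝ) *
            ∏ v, ((u v) ^ (-((j v : ℝ) + 3 / 2)) * θ v (u v)) := by
      refine setIntegral_congr_fun A3_meas fun u hu => ?_
      simp only [A3G]
      rw [integral_const_mul, (hq n u hu).2]
      simp only [Finset.prod_mul_distrib]
      rw [← mul_assoc, mul_comm (∏ v, θ v (u v)), mul_assoc]
      congr 1
      rw [Finset.mul_sum]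
      refine Finset.sum_congr rfl fun j _ => ?_
      ring
    rw [e2, integral_const_mul, integral_finsetSum _ fun j hj => (A3_int' hθ hj).const_mul _]
    have e3 : ∀ j ∈ (univ : Finset V).piAntidiag n,
        ∫ u in {u : V → ℝ | ∀ v, 0 < u v}, (q0 n j : ℝ) *
          ∏ v, ((u v) ^ (-((j v : ℝ) + 3 / 2)) * θ v (u v)) =
        (q0 n j : ℝ) * ∏ v, (2 / Real.Gamma (j v + 3 / 2) * rad (Φ v) (j v)) := by
      intro j _
      rw [integral_const_mul, pos_prod (fun v x => x ^ (-((j v : ℝ) + 3 / 2)) * θ v x)]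
      congr 1
      refine Finset.prod_congr rfl fun v _ => ?_
      exact theta_rad (hθ v) (fun r hr => (hl v r hr).1) (j v)
    rw [Finset.sum_congr rfl e3, Finset.mul_sum, Finset.mul_sum]
    refine Finset.sum_congr rfl fun j _ => ?_
    have e4 : (Real.pi ^ (3 / 2 : ℝ)) ^ Fintype.card V *
        ∏ v, (2 / Real.Gamma (j v + 3 / 2) * rad (Φ v) (j v)) =
        (4 * Real.pi) ^ Fintype.card V * ((∏ v, (g (j v) : ℝ)) * ∏ v, rad (Φ v) (j v)) := by
      rw [← Finset.card_univ, ← Finset.prod_const, ← Finset.prod_const, ← Finset.prod_mul_distrib,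
        ← Finset.prod_mul_distrib, ← Finset.prod_mul_distrib]
      refine Finset.prod_congr rfl fun v _ => ?_
      rw [← mul_assoc, hg (j v)]
      ring
    push_cast
    calc (Real.pi ^ (3 / 2 : ℝ)) ^ Fintype.card V *
          ((q0 n j : ℝ) * ∏ v, (2 / Real.Gamma (j v + 3 / 2) * rad (Φ v) (j v)))
        = (q0 n j : ℝ) * ((Real.pi ^ (3 / 2 : ℝ)) ^ Fintype.card V *
            ∏ v, (2 / Real.Gamma (j v + 3 / 2) * rad (Φ v) (j v))) := by ring
      _ = _ := by
        rw [e4]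
        ring

end Pool.Agent.GT
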