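import Pool.Agent.H46.GT.Defs
import Pool.Agent.GPC.K5c

/-!
Gaussian moments of a quadratic form with rational coefficients. By scaling `X_v = W_v / √(2 u_v)`:
`∫ (qf A X) ^ n e^{-∑ u_v |X_v|²} dX = (2π)^{3N/2} ∏ (2 u_v)^{-3/2} · 2^{-n} · gm (Am A (1/u)) n`, and
`gm (Am A w) n`, `w_v = 1 / u_v > 0`, is a polynomial in the `w_v` whose coefficients are rational polynomials in the
entries of `A` (the proof of `GPC.gm_eq` (K5c) for a general symmetric matrix instead of `lkm D`: `gauss_poly`, `fischer`,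
and `lapM A` preserves the polynomials with rational coefficients). Alternatively expand
`(qf A X) ^ n` by multinomials and use the one-dimensional moments `∫ x^{2m} e^{-u x²} dx = Γ(m + 1/2) u^{-m-1/2}`
(odd moments vanish), `Γ(m + 1/2) / √π` rational.
-/

set_option autoImplicit false

open PowerSeries Finset MeasureTheory

namespace Pool.Agent.GT

open Pool.Agent.OHG Pool.Agent.GPC Pool.Agent.SLR

variable {V : Type} [Fintype V] [DecidableEq V]

private noncomputable def a3_r : ℕ → ℚ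
  | 0 => 1
  | 1 => 0
  | (k + 2) => ((k : ℚ) + 1) / 2 * a3_r k

private theorem a3_r_odd : ∀ k : ℕ, ¬ Even k → a3_r k = 0
  | 0, h => absurd ⟨0, rfl⟩ h
  | 1, _ => by rw [a3_r]
  | (k + 2), h => by
    have h1 : ¬ Even k := fun h2 => h (h2.add (by norm_num))
    rw [a3_r, a3_r_odd k h1, mul_zero]

private noncomputable def a3_M (u : ℝ) (k : ℕ) : ℝ := ∫ x : ℝ, x ^ k * Real.exp (-(u * x ^ 2))

private theorem a3_int1 {u : ℝ} (hu : 0 < u) (k : ℕ) :
    Integrable (fun x : ℝ => x ^ k * Real.exp (-(u * x ^ 2))) := by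
  have h := integrable_rpow_mul_exp_neg_mul_sq (b := u) hu (s := (k : ℝ))
    (by have : (0 : ℝ) ≤ k := Nat.cast_nonneg k
        linarith)
  refine h.congr (ae_of_all _ fun x => ?_)
  simp only [Real.rpow_natCast]
  congr 2
  ring

private theorem a3_rec {u : ℝ} (hu : 0 < u) (k : ℕ) :
    2 * u * a3_M u (k + 1) = k * a3_M u (k - 1) := by
  have hd : ∀ x : ℝ, HasDerivAt (fun x : ℝ => x ^ k * Real.exp (-(u * x ^ 2)))
      (k * (x ^ (k - 1) * Real.exp (-(u * x ^ 2))) -
        2 * u * (x ^ (k + 1) * Real.exp (-(u * x ^ 2)))) x := by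
    intro x
    have h1 : HasDerivAt (fun x : ℝ => x ^ k) (k * x ^ (k - 1)) x := hasDerivAt_pow k x
    have h2 : HasDerivAt (fun x : ℝ => -(u * x ^ 2)) (-(2 * u * x)) x := by
      have := ((hasDerivAt_pow 2 x).const_mul u).neg
      refine this.congr_deriv ?_
      push_cast
      ring
    have h3 := h1.mul h2.exp
    refine h3.congr_deriv ?_
    rw [pow_succ]
    ring
  have h0 := integral_eq_zero_of_hasDerivAt_of_integrable hd
    (((a3_int1 hu (k - 1)).const_mul (k : ℝ)).sub ((a3_int1 hu (k + 1)).const_mul (2 * u)))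
    (a3_int1 hu k)
  rw [integral_sub ((a3_int1 hu (k - 1)).const_mul (k : ℝ))
    ((a3_int1 hu (k + 1)).const_mul (2 * u)), integral_const_mul, integral_const_mul] at h0
  unfold a3_M
  linarith

private theorem a3_M_eq {u : ℝ} (hu : 0 < u) : ∀ k : ℕ,
    a3_M u k = Real.sqrt Real.pi * (a3_r k : ℝ) * u ^ (-((k : ℝ) + 1) / 2)
  | 0 => by
    have h1 : a3_M u 0 = ∫ x : ℝ, Real.exp (-u * x ^ 2) := by
      unfold a3_M
      congr 1
      ext x
      rw [pow_zero, one_mul]
      congr 1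
      ring
    have h2 : u ^ (-(((0 : ℕ) : ℝ) + 1) / 2) = (Real.sqrt u)⁻¹ := by
      rw [Real.sqrt_eq_rpow, ← Real.rpow_neg hu.le]
      congr 1
      push_cast
      ring
    rw [h1, integral_gaussian, Real.sqrt_div Real.pi_pos.le, h2, a3_r]
    push_cast
    rw [mul_one, div_eq_mul_inv]
  | 1 => by
    have h1 := a3_rec hu 0
    rw [Nat.cast_zero, zero_mul] at h1
    have h2 : a3_M u 1 = 0 := by
      rcases mul_eq_zero.1 h1 with h | h
      · exact absurd h (by positivity)
      · exact h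
    rw [h2, a3_r]
    push_cast
    ring
  | (k + 2) => by
    have h1 := a3_rec hu (k + 1)
    rw [Nat.add_sub_cancel, a3_M_eq hu k] at h1
    have h2 : u ^ (-((k : ℝ) + 1) / 2) = u * u ^ (-(((k + 2 : ℕ) : ℝ) + 1) / 2) := by
      have h3 : (-((k : ℝ) + 1) / 2) = 1 + (-(((k + 2 : ℕ) : ℝ) + 1) / 2) := by
        push_cast
        ring
      rw [h3, Real.rpow_add hu, Real.rpow_one]
    rw [h2] at h1
    rw [a3_r]
    have h4 : a3_M u (k + 2) * (2 * u) = (Real.sqrt Real.pi * ((((k : ℚ) + 1) / 2 * a3_r k : ℚ) : ℝ) *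
        u ^ (-(((k + 2 : ℕ) : ℝ) + 1) / 2)) * (2 * u) := by
      push_cast at h1 ⊢
      linear_combination h1
    exact mul_right_cancel₀ (by positivity) h4

section general

variable {s : Type} [Fintype s]

private theorem a3_mon (w : s → ℝ) (m : s →₀ ℕ) (c : ℝ) (W : s → ℝ) :
    MvPolynomial.eval W (MvPolynomial.monomial m c) * Real.exp (-(∑ a, w a * W a ^ 2)) =
      c * ∏ a, (W a ^ m a * Real.exp (-(w a * W a ^ 2))) := by
  rw [MvPolynomial.eval_monomial, Finsupp.prod_fintype _ _ (by simp), Finset.prod_mul_distrib,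
    ← Real.exp_sum, Finset.sum_neg_distrib, mul_assoc]

private theorem a3_integrable {w : s → ℝ} (hw : ∀ a, 0 < w a) (q : MvPolynomial s ℝ) :
    Integrable (fun W : s → ℝ => MvPolynomial.eval W q * Real.exp (-(∑ a, w a * W a ^ 2))) := by
  induction q using MvPolynomial.induction_on' with
  | monomial m c =>
    simp_rw [a3_mon]
    exact (Integrable.fintype_prod (μ := fun _ : s => (volume : Measure ℝ))
      (f := fun a x => x ^ m a * Real.exp (-(w a * x ^ 2))) fun a => a3_int1 (hw a) (m a)).const_mul c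
  | add p q hp hq =>
    simp_rw [map_add, add_mul]
    exact hp.add hq

private theorem a3_int_mon (w : s → ℝ) (m : s →₀ ℕ) (c : ℝ) :
    ∫ W : s → ℝ, MvPolynomial.eval W (MvPolynomial.monomial m c) *
      Real.exp (-(∑ a, w a * W a ^ 2)) = c * ∏ a, a3_M (w a) (m a) := by
  simp_rw [a3_mon]
  rw [integral_const_mul]
  congr 1
  exact integral_fintype_prod_volume_eq_prod (𝕜 := ℝ)
    (fun (a : s) (x : ℝ) => x ^ m a * Real.exp (-(w a * x ^ 2)))

end general

private noncomputable def a3_w (j : V → ℕ) (m : V × Fin 3 →₀ ℕ) : ℚ :=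
  if ∀ v, ∑ i, m (v, i) = 2 * j v then ∏ a, a3_r (m a) else 0

private noncomputable def a3_J (j : V → ℕ) : MvPolynomial (V × Fin 3) ℚ →ₗ[ℚ] ℚ :=
  (MvPolynomial.basisMonomials (V × Fin 3) ℚ).constr ℚ (a3_w j)

omit [DecidableEq V] in
private theorem a3_J_mon (j : V → ℕ) (m : V × Fin 3 →₀ ℕ) (c : ℚ) :
    a3_J j (MvPolynomial.monomial m c) = c * a3_w j m := by
  have h1 : (MvPolynomial.monomial m c : MvPolynomial (V × Fin 3) ℚ) =
      c • (MvPolynomial.basisMonomials (V × Fin 3) ℚ) m := by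
    rw [MvPolynomial.coe_basisMonomials, MvPolynomial.smul_monomial, smul_eq_mul, mul_one]
  rw [h1, map_smul, a3_J, Module.Basis.constr_basis, smul_eq_mul]

omit [DecidableEq V] in
private theorem a3_J_eq (j : V → ℕ) (p : MvPolynomial (V × Fin 3) ℚ) :
    a3_J j p = ∑ m ∈ p.support, p.coeff m * a3_w j m := by
  conv_lhs => rw [p.as_sum]
  rw [map_sum]
  exact Finset.sum_congr rfl fun m _ => a3_J_mon j m _

private theorem a3_pi (N : ℕ) :
    Real.sqrt Real.pi ^ (N * 3) = (Real.pi ^ (3 / 2 : ℝ)) ^ N := by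
  rw [mul_comm, pow_mul]
  congr 1
  rw [Real.sqrt_eq_rpow, ← Real.rpow_natCast, ← Real.rpow_mul Real.pi_pos.le]
  congr 1
  norm_num

private theorem a3_prod {n : ℕ} {u : V → ℝ} (hu : ∀ v, 0 < u v) {m : V × Fin 3 →₀ ℕ}
    (hm : ∑ a, m a = 2 * n) :
    ∏ a : V × Fin 3, a3_M (u a.1) (m a) = (Real.pi ^ (3 / 2 : ℝ)) ^ Fintype.card V *
      ∑ j ∈ (univ : Finset V).piAntidiag n, (a3_w j m : ℝ) * ∏ v, (u v) ^ (-((j v : ℝ) + 3 / 2)) := by
  by_cases he : ∀ a, Even (m a)
  · have he' : ∀ a, ∃ k, m a = 2 * k := fun a => (even_iff_exists_two_mul.1 (he a))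
    choose k hk using he'
    set j₀ : V → ℕ := fun v => ∑ i, k (v, i) with hj₀
    have h1 : ∀ v, ∑ i, m (v, i) = 2 * j₀ v := by
      intro v
      rw [hj₀, Finset.mul_sum]
      exact Finset.sum_congr rfl fun i _ => hk _
    have h2 : j₀ ∈ (univ : Finset V).piAntidiag n := by
      rw [Finset.mem_piAntidiag]
      refine ⟨?_, fun v _ => mem_univ v⟩
      have h3 : ∑ v, 2 * j₀ v = 2 * n := by
        rw [← hm, Fintype.sum_prod_type]
        exact Finset.sum_congr rfl fun v _ => (h1 v).symm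
      rw [← Finset.mul_sum] at h3
      have h4 : ∑ v, j₀ v = n := by omega
      exact h4
    rw [Finset.sum_eq_single j₀]
    · unfold a3_w
      rw [if_pos h1]
      have h4 : ∀ a : V × Fin 3, a3_M (u a.1) (m a) =
          Real.sqrt Real.pi * ((a3_r (m a) : ℝ) * (u a.1) ^ (-(k a : ℝ) - 1 / 2)) := by
        intro a
        rw [a3_M_eq (hu a.1), mul_assoc]
        congr 3
        rw [hk a]
        push_cast
        ring
      simp_rw [h4]
      rw [Finset.prod_mul_distrib, Finset.prod_mul_distrib, Finset.prod_const, Finset.card_univ,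
        Fintype.card_prod, Fintype.card_fin, a3_pi]
      congr 1
      push_cast
      congr 1
      rw [Fintype.prod_prod_type]
      refine Finset.prod_congr rfl fun v _ => ?_
      simp only [Fin.prod_univ_three]
      rw [← Real.rpow_add (hu v), ← Real.rpow_add (hu v)]
      congr 1
      rw [hj₀]
      push_cast
      rw [Fin.sum_univ_three]
      ring
    · intro j _ hj
      unfold a3_w
      rw [if_neg]
      · simp
      · intro h5
        apply hj
        funext v
        have := h5 v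
        rw [h1 v] at this
        omega
    · intro h5
      exact absurd h2 h5
  · rw [not_forall] at he
    obtain ⟨a, ha⟩ := he
    have h1 : ∏ a : V × Fin 3, a3_M (u a.1) (m a) = 0 := by
      apply Finset.prod_eq_zero (mem_univ a)
      rw [a3_M_eq (hu a.1), a3_r_odd _ ha]
      simp
    have h2 : ∀ j : V → ℕ, a3_w j m = 0 := by
      intro j
      unfold a3_w
      split_ifs
      · exact Finset.prod_eq_zero (mem_univ a) (a3_r_odd _ ha)
      · rfl
    rw [h1]
    simp [h2]

private theorem a3_main {n : ℕ} {u : V → ℝ} (hu : ∀ v, 0 < u v) {p : MvPolynomial (V × Fin 3) ℚ}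
    (hp : p.IsHomogeneous (2 * n)) :
    ∫ W : V × Fin 3 → ℝ, MvPolynomial.eval W (MvPolynomial.map (algebraMap ℚ ℝ) p) *
      Real.exp (-(∑ a : V × Fin 3, u a.1 * W a ^ 2)) =
      (Real.pi ^ (3 / 2 : ℝ)) ^ Fintype.card V *
        ∑ j ∈ (univ : Finset V).piAntidiag n, (a3_J j p : ℝ) * ∏ v, (u v) ^ (-((j v : ℝ) + 3 / 2)) := by
  have h1 : ∀ W : V × Fin 3 → ℝ, MvPolynomial.eval W (MvPolynomial.map (algebraMap ℚ ℝ) p) *
      Real.exp (-(∑ a : V × Fin 3, u a.1 * W a ^ 2)) =
      ∑ m ∈ p.support, MvPolynomial.eval W (MvPolynomial.monomial m ((p.coeff m : ℚ) : ℝ)) *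
        Real.exp (-(∑ a : V × Fin 3, u a.1 * W a ^ 2)) := by
    intro W
    rw [← Finset.sum_mul]
    congr 1
    conv_lhs => rw [p.as_sum]
    rw [map_sum, map_sum]
    refine Finset.sum_congr rfl fun m _ => ?_
    rw [MvPolynomial.map_monomial]
    rfl
  simp_rw [h1]
  rw [integral_finsetSum _ fun m _ => a3_integrable (w := fun a : V × Fin 3 => u a.1)
    (fun a => hu a.1) _]
  have h2 : ∀ m ∈ p.support, ∫ W : V × Fin 3 → ℝ,
      MvPolynomial.eval W (MvPolynomial.monomial m ((p.coeff m : ℚ) : ℝ)) *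
        Real.exp (-(∑ a : V × Fin 3, u a.1 * W a ^ 2)) =
      ((p.coeff m : ℚ) : ℝ) * ((Real.pi ^ (3 / 2 : ℝ)) ^ Fintype.card V *
      ∑ j ∈ (univ : Finset V).piAntidiag n, (a3_w j m : ℝ) *
        ∏ v, (u v) ^ (-((j v : ℝ) + 3 / 2))) := by
    intro m hm
    rw [a3_int_mon (fun a : V × Fin 3 => u a.1)]
    congr 1
    apply a3_prod hu
    have h3 := hp (MvPolynomial.mem_support_iff.1 hm)
    rw [← h3, Finsupp.weight_apply, Finsupp.sum_fintype _ _ (by simp)]
    simp
  rw [Finset.sum_congr rfl h2]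
  have h4 : ∀ j : V → ℕ, (a3_J j p : ℝ) = ∑ m ∈ p.support, ((p.coeff m : ℚ) : ℝ) * (a3_w j m : ℝ) := by
    intro j
    rw [a3_J_eq]
    push_cast
    rfl
  simp_rw [h4, Finset.mul_sum, Finset.sum_mul]
  rw [Finset.sum_comm]
  simp_rw [Finset.mul_sum]
  refine Finset.sum_congr rfl fun j _ => Finset.sum_congr rfl fun m _ => ?_
  ring

private noncomputable def a3_Q (a : V → V → ℚ) : MvPolynomial (V × Fin 3) ℚ :=
  ∑ v, ∑ w, MvPolynomial.C (a v w) * ∑ i : Fin 3, MvPolynomial.X (v, i) * MvPolynomial.X (w, i)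

omit [DecidableEq V] in
private theorem a3_hom (a : V → V → ℚ) : (a3_Q a).IsHomogeneous 2 := by
  unfold a3_Q
  refine MvPolynomial.IsHomogeneous.sum _ _ _ fun v _ => ?_
  refine MvPolynomial.IsHomogeneous.sum _ _ _ fun w _ => ?_
  have h := (MvPolynomial.isHomogeneous_C (V × Fin 3) (a v w)).mul
    (MvPolynomial.IsHomogeneous.sum (univ : Finset (Fin 3))
      (fun i => (MvPolynomial.X (v, i) * MvPolynomial.X (w, i) : MvPolynomial (V × Fin 3) ℚ)) 2
      fun i _ => by
        have := (MvPolynomial.isHomogeneous_X ℚ (v, i)).mul (MvPolynomial.isHomogeneous_X ℚ (w, i))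
        simpa using this)
  simpa using h

omit [DecidableEq V] in
private theorem a3_qf {A : Matrix V V ℝ} {a : V → V → ℚ} (ha : ∀ v w, A v w = a v w)
    (W : V × Fin 3 → ℝ) :
    qf A W = MvPolynomial.eval W (MvPolynomial.map (algebraMap ℚ ℝ) (a3_Q a)) := by
  simp only [qf, a3_Q, map_sum, map_mul, MvPolynomial.map_C, MvPolynomial.map_X,
    MvPolynomial.eval_C, MvPolynomial.eval_X, ha, eq_ratCast]

omit [DecidableEq V] in
private theorem a3_exp (u : V → ℝ) (X : V × Fin 3 → ℝ) :
    ∑ v, u v * ∑ i, X (v, i) ^ 2 = ∑ a : V × Fin 3, u a.1 * X a ^ 2 := by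
  rw [Fintype.sum_prod_type]
  exact Finset.sum_congr rfl fun v _ => by rw [Finset.mul_sum]

private theorem a3_J_XX (j : V → ℕ) (a b : V × Fin 3) :
    a3_J j (MvPolynomial.X a * MvPolynomial.X b) =
      if a = b then (if j = Pi.single a.1 1 then 1 / 2 else 0) else 0 := by
  have h1 : (MvPolynomial.X a * MvPolynomial.X b : MvPolynomial (V × Fin 3) ℚ) =
      MvPolynomial.monomial (Finsupp.single a 1 + Finsupp.single b 1) 1 := by
    rw [MvPolynomial.X, MvPolynomial.X, MvPolynomial.monomial_mul, one_mul]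
  rw [h1, a3_J_mon, one_mul]
  unfold a3_w
  by_cases h3 : a = b
  · subst h3
    rw [if_pos rfl, ← Finsupp.single_add]
    by_cases h4 : j = Pi.single a.1 1
    · rw [if_pos h4, if_pos]
      · rw [Finset.prod_eq_single a]
        · rw [Finsupp.single_eq_same]
          norm_num [a3_r]
        · intro c _ hc
          rw [Finsupp.single_eq_of_ne hc, a3_r]
        · intro h
          exact absurd (mem_univ a) h
      · intro v
        rw [h4]
        by_cases hv : v = a.1
        · subst hv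
          rw [Pi.single_eq_same, Finset.sum_eq_single a.2]
          · rw [Prod.mk.eta, Finsupp.single_eq_same]
          · intro i _ hi
            rw [Finsupp.single_eq_of_ne]
            intro h6
            exact hi (congrArg Prod.snd h6)
          · intro h
            exact absurd (mem_univ _) h
        · rw [Pi.single_eq_of_ne hv, mul_zero]
          refine Finset.sum_eq_zero fun i _ => ?_
          rw [Finsupp.single_eq_of_ne]
          intro h6
          exact hv (congrArg Prod.fst h6)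
    · rw [if_neg h4, if_neg]
      intro h2
      apply h4
      funext v
      have h5 := h2 v
      by_cases hv : v = a.1
      · subst hv
        rw [Pi.single_eq_same]
        rw [Finset.sum_eq_single a.2] at h5
        · rw [Prod.mk.eta, Finsupp.single_eq_same] at h5
          omega
        · intro i _ hi
          rw [Finsupp.single_eq_of_ne]
          intro h6
          exact hi (congrArg Prod.snd h6)
        · intro h
          exact absurd (mem_univ _) h
      · rw [Pi.single_eq_of_ne hv]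
        rw [Finset.sum_eq_zero] at h5
        · omega
        · intro i _
          rw [Finsupp.single_eq_of_ne]
          intro h6
          exact hv (congrArg Prod.fst h6)
  · rw [if_neg h3]
    have h7 : ∏ c, a3_r ((Finsupp.single a 1 + Finsupp.single b 1 : V × Fin 3 →₀ ℕ) c) = 0 := by
      apply Finset.prod_eq_zero (mem_univ a)
      rw [Finsupp.add_apply, Finsupp.single_eq_same, Finsupp.single_eq_of_ne h3, add_zero, a3_r]
    rw [h7]
    split_ifs <;> rfl

theorem gauss_moment {A : Matrix V V ℝ} (hA : A.IsHermitian) (hq : ∀ v w, ∃ x : ℚ, A v w = x) :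
    ∃ q : ℕ → (V → ℕ) → ℚ, q 0 0 = 1 ∧ (∀ v, (q 1 (Pi.single v 1) : ℝ) = 3 / 2 * A v v) ∧
      ∀ (n : ℕ) (u : V → ℝ), (∀ v, 0 < u v) →
        Integrable (fun X : V × Fin 3 → ℝ =>
          qf A X ^ n * Real.exp (-(∑ v, u v * ∑ i, X (v, i) ^ 2))) ∧
        ∫ X : V × Fin 3 → ℝ, qf A X ^ n * Real.exp (-(∑ v, u v * ∑ i, X (v, i) ^ 2)) =
          (Real.pi ^ (3 / 2 : ℝ)) ^ Fintype.card V * ∑ j ∈ (univ : Finset V).piAntidiag n,
            (q n j : ℝ) * ∏ v, (u v) ^ (-((j v : ℝ) + 3 / 2)) := by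
  choose a ha using hq
  refine ⟨fun n j => a3_J j (a3_Q a ^ n), ?_, ?_, ?_⟩
  · show a3_J 0 (a3_Q a ^ 0) = 1
    rw [pow_zero]
    have h1 : (1 : MvPolynomial (V × Fin 3) ℚ) = MvPolynomial.monomial 0 1 := rfl
    rw [h1, a3_J_mon, one_mul]
    unfold a3_w
    rw [if_pos (by intro v; simp)]
    exact Finset.prod_eq_one fun b _ => by rw [Finsupp.coe_zero, Pi.zero_apply, a3_r]
  · intro v
    show ((a3_J (Pi.single v 1) (a3_Q a ^ 1) : ℚ) : ℝ) = 3 / 2 * A v v
    rw [pow_one]
    have h1 : a3_J (Pi.single v 1) (a3_Q a) = 3 / 2 * a v v := by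
      unfold a3_Q
      rw [map_sum]
      have h2 : ∀ x : V, a3_J (Pi.single v 1) (∑ w, MvPolynomial.C (a x w) *
          ∑ i : Fin 3, MvPolynomial.X (x, i) * MvPolynomial.X (w, i)) =
          if x = v then 3 / 2 * a v v else 0 := by
        intro x
        rw [map_sum, Finset.sum_eq_single x]
        · rw [← MvPolynomial.smul_eq_C_mul, map_smul, map_sum]
          simp only [a3_J_XX, if_true]
          by_cases hx : x = v
          · subst hx
            simp
            ring
          · have h3 : (Pi.single v 1 : V → ℕ) ≠ Pi.single x 1 := by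
              intro h3
              have h4 := congrFun h3 x
              rw [Pi.single_eq_of_ne hx, Pi.single_eq_same] at h4
              exact absurd h4 (by norm_num)
            simp only [if_neg hx, if_neg h3, Finset.sum_const_zero, smul_zero]
        · intro w _ hw
          rw [← MvPolynomial.smul_eq_C_mul, map_smul, map_sum, Finset.sum_eq_zero, smul_zero]
          intro i _
          rw [a3_J_XX, if_neg]
          intro h3
          exact hw (congrArg Prod.fst h3).symm
        · intro h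
          exact absurd (mem_univ _) h
      rw [Finset.sum_congr rfl fun x _ => h2 x, Finset.sum_ite_eq' univ v, if_pos (mem_univ v)]
    rw [h1, ha v v]
    push_cast
    rfl
  · intro n u hu
    have h1 : ∀ X : V × Fin 3 → ℝ, qf A X ^ n * Real.exp (-(∑ v, u v * ∑ i, X (v, i) ^ 2)) =
        MvPolynomial.eval X (MvPolynomial.map (algebraMap ℚ ℝ) (a3_Q a ^ n)) *
          Real.exp (-(∑ b : V × Fin 3, u b.1 * X b ^ 2)) := by
      intro X
      rw [a3_qf ha, map_pow, map_pow, a3_exp]
    simp_rw [h1]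
    refine ⟨a3_integrable (w := fun b : V × Fin 3 => u b.1) (fun b => hu b.1) _, ?_⟩
    exact a3_main hu ((a3_hom a).pow n)

omit [DecidableEq V] in
private theorem a3_le (A : Matrix V V ℝ) (X : V × Fin 3 → ℝ) :
    |qf A X| ≤ (∑ v, ∑ w, |A v w|) * ∑ v, ∑ i, X (v, i) ^ 2 := by
  unfold qf
  refine (Finset.abs_sum_le_sum_abs _ _).trans ?_
  rw [Finset.sum_mul]
  refine Finset.sum_le_sum fun v _ => ?_
  refine (Finset.abs_sum_le_sum_abs _ _).trans ?_
  rw [Finset.sum_mul]
  refine Finset.sum_le_sum fun w _ => ?_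
  rw [abs_mul]
  refine mul_le_mul_of_nonneg_left ?_ (abs_nonneg _)
  have h1 : ∀ x : V, ∑ i, X (x, i) ^ 2 ≤ ∑ v, ∑ i, X (v, i) ^ 2 := fun x =>
    Finset.single_le_sum (f := fun v => ∑ i, X (v, i) ^ 2)
      (fun v _ => Finset.sum_nonneg fun i _ => sq_nonneg _) (mem_univ x)
  have h2 := h1 v
  have h3 := h1 w
  rw [abs_le]
  rw [Fin.sum_univ_three] at h2 h3 ⊢
  constructor
  · nlinarith [sq_nonneg (X (v, 0) + X (w, 0)), sq_nonneg (X (v, 1) + X (w, 1)),
      sq_nonneg (X (v, 2) + X (w, 2))]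
  · nlinarith [sq_nonneg (X (v, 0) - X (w, 0)), sq_nonneg (X (v, 1) - X (w, 1)),
      sq_nonneg (X (v, 2) - X (w, 2))]

/-- A bound which suffices for Fubini. -/
theorem gauss_moment_le (A : Matrix V V ℝ) (n : ℕ) : ∃ C : ℝ, ∀ u : V → ℝ, (∀ v, 0 < u v) →
    ∫ X : V × Fin 3 → ℝ, |qf A X| ^ n * Real.exp (-(∑ v, u v * ∑ i, X (v, i) ^ 2)) ≤
      C * ∑ j ∈ (univ : Finset V).piAntidiag n, ∏ v, (u v) ^ (-((j v : ℝ) + 3 / 2)) := by
  obtain ⟨q, -, -, hq⟩ := gauss_moment (V := V) (A := 1) Matrix.isHermitian_one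
    (fun v w => by
      by_cases h : v = w
      · exact ⟨1, by rw [h, Matrix.one_apply_eq]; norm_num⟩
      · exact ⟨0, by rw [Matrix.one_apply_ne h]; norm_num⟩)
  have hone : ∀ X : V × Fin 3 → ℝ, qf (1 : Matrix V V ℝ) X = ∑ v, ∑ i, X (v, i) ^ 2 := by
    intro X
    unfold qf
    refine Finset.sum_congr rfl fun v _ => ?_
    rw [Finset.sum_eq_single v]
    · rw [Matrix.one_apply_eq, one_mul]
      exact Finset.sum_congr rfl fun i _ => (sq _).symm
    · intro w _ hw
      rw [Matrix.one_apply_ne (Ne.symm hw), zero_mul]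
    · intro h
      exact absurd (mem_univ v) h
  set K : ℝ := ∑ v, ∑ w, |A v w| with hK
  have hK0 : 0 ≤ K := Finset.sum_nonneg fun v _ => Finset.sum_nonneg fun w _ => abs_nonneg _
  refine ⟨K ^ n * ((Real.pi ^ (3 / 2 : ℝ)) ^ Fintype.card V *
    ∑ j ∈ (univ : Finset V).piAntidiag n, |(q n j : ℝ)|), fun u hu => ?_⟩
  obtain ⟨hi, he⟩ := hq n u hu
  have hpi : 0 ≤ (Real.pi ^ (3 / 2 : ℝ)) ^ Fintype.card V := by
    have := Real.pi_pos
    positivity
  have hpos : ∀ j : V → ℕ, 0 ≤ ∏ v, (u v) ^ (-((j v : ℝ) + 3 / 2)) := fun j =>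
    Finset.prod_nonneg fun v _ => Real.rpow_nonneg (hu v).le _
  calc ∫ X : V × Fin 3 → ℝ, |qf A X| ^ n * Real.exp (-(∑ v, u v * ∑ i, X (v, i) ^ 2))
      ≤ ∫ X : V × Fin 3 → ℝ, K ^ n * (qf (1 : Matrix V V ℝ) X ^ n *
          Real.exp (-(∑ v, u v * ∑ i, X (v, i) ^ 2))) := by
        refine integral_mono_of_nonneg (ae_of_all _ fun X => ?_) (hi.const_mul _)
          (ae_of_all _ fun X => ?_)
        · have := Real.exp_pos (-(∑ v, u v * ∑ i, X (v, i) ^ 2))
          show (0 : ℝ) ≤ |qf A X| ^ n * Real.exp (-(∑ v, u v * ∑ i, X (v, i) ^ 2))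
          positivity
        · show |qf A X| ^ n * Real.exp (-(∑ v, u v * ∑ i, X (v, i) ^ 2)) ≤
            K ^ n * (qf (1 : Matrix V V ℝ) X ^ n * Real.exp (-(∑ v, u v * ∑ i, X (v, i) ^ 2)))
          rw [← mul_assoc, ← mul_pow, hone]
          exact mul_le_mul_of_nonneg_right (pow_le_pow_left₀ (abs_nonneg _) (a3_le A X) n)
            (Real.exp_pos _).le
    _ = K ^ n * ((Real.pi ^ (3 / 2 : ℝ)) ^ Fintype.card V *
          ∑ j ∈ (univ : Finset V).piAntidiag n,
            (q n j : ℝ) * ∏ v, (u v) ^ (-((j v : ℝ) + 3 / 2))) := by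
        rw [integral_const_mul, he]
    _ ≤ K ^ n * ((Real.pi ^ (3 / 2 : ℝ)) ^ Fintype.card V *
          ((∑ j ∈ (univ : Finset V).piAntidiag n, |(q n j : ℝ)|) *
            ∑ j ∈ (univ : Finset V).piAntidiag n, ∏ v, (u v) ^ (-((j v : ℝ) + 3 / 2)))) := by
        refine mul_le_mul_of_nonneg_left (mul_le_mul_of_nonneg_left ?_ hpi) (pow_nonneg hK0 n)
        rw [Finset.mul_sum]
        refine Finset.sum_le_sum fun j hj => ?_
        refine mul_le_mul_of_nonneg_right ?_ (hpos j)
        exact (le_abs_self _).trans (Finset.single_le_sum (f := fun j => |(q n j : ℝ)|)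
          (fun j _ => abs_nonneg _) hj)
    _ = _ := by ring

end Pool.Agent.GT
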