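import Pool.Agent.H46.GT.A1c
import Pool.Agent.SLR.M7
import Pool.Agent.SLR.M9

/-!
`|qf Q X| ≤ C ∑ |X_v|²` and `Good.decay` gives `Φ_v(|X_v|²) ≤ C e^{-ε |X_v|}`; so for small `c`
`e^{c √|qf Q X|} den Φ X ≤ C ∏_v e^{-ε/2 |X_v|}`, which is integrable. The support statement is
`SLR.law_null` (M7) with `SLR.definite_iff` (M9).
-/

set_option autoImplicit false

open PowerSeries Finset MeasureTheory

namespace Pool.Agent.GT

open Pool.Agent.OHG Pool.Agent.GPC Pool.Agent.SLR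

variable {V : Type} [Fintype V] [DecidableEq V]

private theorem A4_exp_abs {a : ℝ} (ha : 0 < a) :
    Integrable (fun x : ℝ => Real.exp (-a * |x|)) := by
  set m : ℝ := min 1 (a ^ 2 / 2) with hm
  have hm0 : 0 < m := by positivity
  refine (integrable_inv_one_add_sq.const_mul m⁻¹).mono' ?_ ?_
  · exact (by fun_prop : Continuous fun x : ℝ => Real.exp (-a * |x|)).aestronglyMeasurable
  · refine Filter.Eventually.of_forall fun x => ?_
    rw [Real.norm_eq_abs, abs_of_pos (Real.exp_pos _), ← mul_inv, neg_mul, Real.exp_neg]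
    have h1 := Real.quadratic_le_exp_of_nonneg (x := a * |x|) (by positivity)
    have h2 : m * (1 + x ^ 2) ≤ Real.exp (a * |x|) := by
      refine le_trans ?_ h1
      have h3 : m ≤ 1 := min_le_left _ _
      have h4 : m ≤ a ^ 2 / 2 := min_le_right _ _
      have h5 : (a * |x|) ^ 2 / 2 = a ^ 2 / 2 * x ^ 2 := by
        rw [mul_pow, sq_abs]
        ring
      rw [h5]
      have h6 : 0 ≤ a * |x| := by positivity
      nlinarith [mul_le_mul_of_nonneg_right h4 (sq_nonneg x)]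
    exact inv_anti₀ (by positivity) h2

private theorem A4_prod {ι : Type} [Fintype ι] {a : ℝ} (ha : 0 < a) :
    Integrable (fun X : ι → ℝ => ∏ i, Real.exp (-a * |X i|)) :=
  Integrable.fintype_prod (f := fun _ : ι => fun x : ℝ => Real.exp (-a * |x|))
    fun _ => A4_exp_abs ha

private theorem A4_cs (x y : Fin 3 → ℝ) :
    |∑ i, x i * y i| ≤ Real.sqrt (∑ i, x i ^ 2) * Real.sqrt (∑ i, y i ^ 2) := by
  rw [← Real.sqrt_mul (Finset.sum_nonneg fun i _ => sq_nonneg _)]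
  exact Real.abs_le_sqrt (Finset.sum_mul_sq_le_sq_mul_sq _ _ _)

omit [DecidableEq V] in
private theorem A4_qf (B : Matrix V V ℝ) (X : V × Fin 3 → ℝ) :
    |qf B X| ≤ (∑ v, ∑ w, |B v w|) * (∑ v, Real.sqrt (∑ i, X (v, i) ^ 2)) ^ 2 := by
  set R : V → ℝ := fun v => Real.sqrt (∑ i, X (v, i) ^ 2) with hR
  have hR0 : ∀ v, 0 ≤ R v := fun v => Real.sqrt_nonneg _
  have hRT : ∀ v, R v ≤ ∑ w, R w := fun v =>
    Finset.single_le_sum (fun w _ => hR0 w) (Finset.mem_univ v)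
  unfold qf
  refine (Finset.abs_sum_le_sum_abs _ _).trans ?_
  rw [Finset.sum_mul]
  refine Finset.sum_le_sum fun v _ => ?_
  refine (Finset.abs_sum_le_sum_abs _ _).trans ?_
  rw [Finset.sum_mul]
  refine Finset.sum_le_sum fun w _ => ?_
  rw [abs_mul]
  refine mul_le_mul_of_nonneg_left ?_ (abs_nonneg _)
  refine (A4_cs _ _).trans ?_
  rw [sq]
  exact mul_le_mul (hRT v) (hRT w) (hR0 w) (Finset.sum_nonneg fun u _ => hR0 u)

private theorem A4_norm (x : Fin 3 → ℝ) : (1 / 3) * ∑ i, |x i| ≤ Real.sqrt (∑ i, x i ^ 2) := by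
  have h : ∀ i, |x i| ≤ Real.sqrt (∑ i, x i ^ 2) := by
    intro i
    refine Real.abs_le_sqrt ?_
    exact Finset.single_le_sum (f := fun i => x i ^ 2) (fun j _ => sq_nonneg _)
      (Finset.mem_univ i)
  have h1 : ∑ i, |x i| ≤ ∑ _i : Fin 3, Real.sqrt (∑ i, x i ^ 2) :=
    Finset.sum_le_sum fun i _ => h i
  rw [Finset.sum_const, Finset.card_univ, Fintype.card_fin, nsmul_eq_mul] at h1
  push_cast at h1
  linarith

omit [DecidableEq V] in
private theorem A4_cont (A : Matrix V V ℝ) : Continuous (qf A) := by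
  unfold qf
  fun_prop

private theorem A4_den {Φ : V → ℂ → ℂ} {φ : V → ℝ⟦X⟧} (hΦ : ∀ v, Good (Φ v) (φ v)) :
    ∃ C ε : ℝ, 0 < ε ∧ ∀ X : V × Fin 3 → ℝ,
      den Φ X ≤ C * Real.exp (-ε * ∑ v, Real.sqrt (∑ i, X (v, i) ^ 2)) := by
  choose C e he hC using fun v => (hΦ v).decay
  have hC0 : ∀ v, 0 ≤ C v := by
    intro v
    have h1 := (norm_nonneg _).trans (hC v 0 (by norm_num))
    simpa using h1
  set ε : ℝ := (∑ v, (e v)⁻¹ + 1)⁻¹ with hε
  have hpos : 0 ≤ ∑ v, (e v)⁻¹ := Finset.sum_nonneg fun v _ => (inv_pos.2 (he v)).le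
  have hε0 : 0 < ε := by positivity
  have hεe : ∀ v, ε ≤ e v := by
    intro v
    have h1 : (e v)⁻¹ ≤ ∑ v, (e v)⁻¹ + 1 := by
      have := Finset.single_le_sum (f := fun v => (e v)⁻¹) (fun v _ => (inv_pos.2 (he v)).le)
        (Finset.mem_univ v)
      linarith
    have h2 := inv_anti₀ (inv_pos.2 (he v)) h1
    rwa [inv_inv] at h2
  refine ⟨∏ v, C v, ε, hε0, fun X => ?_⟩
  unfold den
  have h1 : ∀ v, (Φ v ((∑ i, X (v, i) ^ 2 : ℝ) : ℂ)).re ≤
      C v * Real.exp (-ε * Real.sqrt (∑ i, X (v, i) ^ 2)) := by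
    intro v
    have h0 : 0 ≤ ∑ i, X (v, i) ^ 2 := Finset.sum_nonneg fun i _ => sq_nonneg _
    refine (Complex.re_le_norm _).trans ?_
    refine (hC v _ ?_).trans ?_
    · rw [Complex.ofReal_re]
      linarith
    · rw [Complex.norm_real, Real.norm_eq_abs, abs_of_nonneg h0]
      refine mul_le_mul_of_nonneg_left (Real.exp_le_exp.2 ?_) (hC0 v)
      have h3 := Real.sqrt_nonneg (∑ i, X (v, i) ^ 2)
      nlinarith [hεe v]
  have h2 : ∀ v, 0 ≤ (Φ v ((∑ i, X (v, i) ^ 2 : ℝ) : ℂ)).re := by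
    intro v
    obtain ⟨t, ht, ht'⟩ := (hΦ v).pos (∑ i, X (v, i) ^ 2)
      (Finset.sum_nonneg fun i _ => sq_nonneg _)
    rw [ht', Complex.ofReal_re]
    exact ht.le
  refine (Finset.prod_le_prod (fun v _ => h2 v) fun v _ => h1 v).trans (le_of_eq ?_)
  rw [Finset.prod_mul_distrib, ← Real.exp_sum, Finset.mul_sum]

theorem law_exp {D : Data V} (h : D.IsGraph) {Φ : V → ℂ → ℂ} {φ : V → ℝ⟦X⟧}
    (hΦ : ∀ v, Good (Φ v) (φ v)) :
    ∃ c : ℝ, 0 < c ∧ Integrable (fun y => Real.exp (c * Real.sqrt |y|)) (law D Φ) := by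
  obtain ⟨C, ε, hε, hden⟩ := A4_den hΦ
  set B : Matrix V V ℝ := (lkm D)⁻¹ with hB
  set M : ℝ := ∑ v, ∑ w, |B v w| with hM
  have hM0 : 0 ≤ M := Finset.sum_nonneg fun v _ => Finset.sum_nonneg fun w _ => abs_nonneg _
  set c : ℝ := ε / (2 * (Real.sqrt M + 1)) with hc
  have hs0 : 0 ≤ Real.sqrt M := Real.sqrt_nonneg _
  have hc0 : 0 < c := by positivity
  have hcM : c * Real.sqrt M ≤ ε / 2 := by
    rw [hc, div_mul_eq_mul_div, div_le_iff₀ (by positivity)]
    nlinarith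
  have hint := den_integrable hΦ
  have hC0 : 0 ≤ C := by
    have h1 := (den_pos hΦ 0).le.trans (hden 0)
    by_contra hneg
    push Not at hneg
    nlinarith [Real.exp_pos (-ε * ∑ v, Real.sqrt (∑ i, (0 : V × Fin 3 → ℝ) (v, i) ^ 2))]
  refine ⟨c, hc0, ?_⟩
  have hg : Continuous fun y : ℝ => Real.exp (c * Real.sqrt |y|) := by fun_prop
  unfold law
  rw [integrable_map_measure hg.aestronglyMeasurable (A4_cont B).measurable.aemeasurable]
  rw [integrable_withDensity_iff_integrable_smul₀'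
    hint.aestronglyMeasurable.aemeasurable.ennreal_ofReal
    (Filter.Eventually.of_forall fun X => ENNReal.ofReal_lt_top)]
  have hdom := (A4_prod (ι := V × Fin 3) (a := ε / 6) (by positivity)).const_mul C
  refine hdom.mono' ?_ ?_
  · have h1 : AEStronglyMeasurable (fun X : V × Fin 3 → ℝ =>
        (ENNReal.ofReal (den Φ X)).toReal) volume :=
      hint.aestronglyMeasurable.aemeasurable.ennreal_ofReal.ennreal_toReal.aestronglyMeasurable
    exact h1.smul (hg.comp (A4_cont B)).aestronglyMeasurable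
  · refine Filter.Eventually.of_forall fun X => ?_
    have hd0 := (den_pos hΦ X).le
    set R : V → ℝ := fun v => Real.sqrt (∑ i, X (v, i) ^ 2) with hR
    have hT0 : 0 ≤ ∑ v, R v := Finset.sum_nonneg fun v _ => Real.sqrt_nonneg _
    show ‖(ENNReal.ofReal (den Φ X)).toReal • Real.exp (c * Real.sqrt |qf B X|)‖ ≤ _
    rw [ENNReal.toReal_ofReal hd0, smul_eq_mul, Real.norm_eq_abs,
      abs_of_nonneg (mul_nonneg hd0 (Real.exp_pos _).le)]
    have h1 : Real.sqrt |qf B X| ≤ Real.sqrt M * ∑ v, R v := by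
      have h2 := Real.sqrt_le_sqrt (A4_qf B X)
      rwa [Real.sqrt_mul hM0, Real.sqrt_sq hT0] at h2
    have h2 : c * Real.sqrt |qf B X| ≤ ε / 2 * ∑ v, R v := by
      calc c * Real.sqrt |qf B X| ≤ c * (Real.sqrt M * ∑ v, R v) :=
            mul_le_mul_of_nonneg_left h1 hc0.le
        _ = (c * Real.sqrt M) * ∑ v, R v := by ring
        _ ≤ ε / 2 * ∑ v, R v := mul_le_mul_of_nonneg_right hcM hT0
    have h3 : (1 / 3) * ∑ a, |X a| ≤ ∑ v, R v := by
      rw [Fintype.sum_prod_type, Finset.mul_sum]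
      exact Finset.sum_le_sum fun v _ => A4_norm fun i => X (v, i)
    calc den Φ X * Real.exp (c * Real.sqrt |qf B X|)
        ≤ (C * Real.exp (-ε * ∑ v, R v)) * Real.exp (ε / 2 * ∑ v, R v) :=
          mul_le_mul (hden X) (Real.exp_le_exp.2 h2) (Real.exp_pos _).le
            (mul_nonneg hC0 (Real.exp_pos _).le)
      _ = C * Real.exp (-(ε / 2) * ∑ v, R v) := by
          rw [mul_assoc, ← Real.exp_add]
          congr 2
          ring
      _ ≤ C * Real.exp (∑ a, -(ε / 6) * |X a|) := by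
          refine mul_le_mul_of_nonneg_left (Real.exp_le_exp.2 ?_) hC0
          rw [← Finset.mul_sum]
          nlinarith
      _ = C * ∏ a, Real.exp (-(ε / 6) * |X a|) := by rw [Real.exp_sum]

theorem law_supp {n : ℕ} {D : Data (Fin (n + 1))} (h : D.IsGraph) {s : ℤ} (hs : s = 1 ∨ s = -1)
    (hd : Definite s ⟨n, D, h⟩) {Φ : Fin (n + 1) → ℂ → ℂ} {φ : Fin (n + 1) → ℝ⟦X⟧}
    (hΦ : ∀ v, Good (Φ v) (φ v)) : (law D Φ) {y | (s : ℝ) * y < 0} = 0 :=
  law_null (den_integrable hΦ) ((definite_iff hs ⟨n, D, h⟩).1 hd)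

/-- The diagonal entries of `L⁻¹` have the sign `s`. -/
theorem inv_diag {n : ℕ} {D : Data (Fin (n + 1))} (h : D.IsGraph) {s : ℤ} (hs : s = 1 ∨ s = -1)
    (hd : Definite s ⟨n, D, h⟩) (v : Fin (n + 1)) : 0 < (s : ℝ) * (lkm D)⁻¹ v v := by
  have hdet : (lkm D).det ≠ 0 := lkm_det h
  have hu : IsUnit (lkm D).det := isUnit_iff_ne_zero.2 hdet
  have hmul : lkm D * (lkm D)⁻¹ = 1 := Matrix.mul_nonsing_inv _ hu
  set B := (lkm D)⁻¹ with hB
  have h1 : ∀ w, ∑ u, lkm D w u * B u v = if w = v then 1 else 0 := by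
    intro w
    have := congrFun (congrFun hmul w) v
    rwa [Matrix.mul_apply, Matrix.one_apply] at this
  have hx : (fun u => B u v) ≠ 0 := by
    intro h0
    have h2 := h1 v
    rw [if_pos rfl] at h2
    have h3 : ∀ u, B u v = 0 := fun u => congrFun h0 u
    simp [h3] at h2
  have h4 := hd (fun u => B u v) hx
  have h5 : ∑ w, ∑ u, (s : ℝ) * (D.lk w u : ℝ) * B w v * B u v = (s : ℝ) * B v v := by
    have h6 : ∀ w, ∑ u, (s : ℝ) * (D.lk w u : ℝ) * B w v * B u v =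
        (s : ℝ) * B w v * (if w = v then 1 else 0) := by
      intro w
      rw [← h1 w, Finset.mul_sum]
      refine Finset.sum_congr rfl fun u _ => ?_
      show (s : ℝ) * (D.lk w u : ℝ) * B w v * B u v = (s : ℝ) * B w v * ((D.lk w u : ℝ) * B u v)
      ring
    rw [Finset.sum_congr rfl fun w _ => h6 w]
    simp
  rw [← h5]
  exact h4

end Pool.Agent.GT
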