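import Pool.Agent.H46.GT.B1a

/-!
The integrals `∫_0^∞ r ^ k sinh (a r / 2) / sinh (r / 2) dr`, `k` even, and with `cosh`, `k` odd, for
`|a| < 1`; both are `k! π ^ (k+1) Q_k(tan (π a / 2))`.
Proof: induction on `k` from `int_sinh_zero`: differentiate in `a` under the integral sign
(`hasDerivAt_integral_of_dominated_loc_of_deriv_le`, domination by `sinh_bound`, `cosh_bound` times powers of `r`):
the derivative of `sinh (a r / 2)` is `r / 2 cosh (a r / 2)`; the derivative of the right hand side is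
`k! π ^ (k+1) Q_k'(tan) (1 + tan²) π / 2 = (1/2) (k+1)! π ^ (k+2) Q_{k+1}(tan)` (both sides are defined for all `a` in
the open interval `(-1, 1)`, where `cos (π a / 2) ≠ 0`).
-/

set_option autoImplicit false

open MeasureTheory

namespace Pool.Agent.GT

/-- `sinh` for even `k`, `cosh` for odd `k` -/
private noncomputable def B1F (k : ℕ) (x : ℝ) : ℝ := if Even k then Real.sinh x else Real.cosh x

private theorem B1F_even {k : ℕ} (hk : Even k) (x : ℝ) : B1F k x = Real.sinh x := if_pos hk

private theorem B1F_odd {k : ℕ} (hk : Odd k) (x : ℝ) : B1F k x = Real.cosh x :=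
  if_neg (Nat.not_even_iff_odd.2 hk)

private theorem B1F_deriv (k : ℕ) (x : ℝ) : HasDerivAt (B1F k) (B1F (k + 1) x) x := by
  rcases Nat.even_or_odd k with hk | hk
  · have h1 : B1F k = Real.sinh := funext fun y => B1F_even hk y
    rw [h1, B1F_odd hk.add_one]
    exact Real.hasDerivAt_sinh x
  · have h1 : B1F k = Real.cosh := funext fun y => B1F_odd hk y
    rw [h1, B1F_even hk.add_one]
    exact Real.hasDerivAt_cosh x

private theorem B1F_meas (k : ℕ) : Measurable (B1F k) := by
  rcases Nat.even_or_odd k with hk | hk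
  · have h1 : B1F k = Real.sinh := funext fun y => B1F_even hk y
    rw [h1]
    exact Real.measurable_sinh
  · have h1 : B1F k = Real.cosh := funext fun y => B1F_odd hk y
    rw [h1]
    exact Real.measurable_cosh

/-- the integrand -/
private noncomputable def B1f (k : ℕ) (a r : ℝ) : ℝ :=
  r ^ k * (B1F k (a * r / 2) / Real.sinh (r / 2))

private theorem B1f_meas (k : ℕ) (a : ℝ) : Measurable (B1f k a) := by
  unfold B1f
  exact (measurable_id.pow_const k).mul
    (((B1F_meas k).comp ((measurable_const.mul measurable_id).div_const 2)).div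
      (Real.measurable_sinh.comp (measurable_id.div_const 2)))

private theorem B1f_bound (k : ℕ) {c : ℝ} (hc : 0 ≤ c) (hc1 : c < 1) :
    ∃ C : ℝ, 0 ≤ C ∧ ∀ a r : ℝ, |a| ≤ c → 0 < r →
      |B1f k a r| ≤ C * ((1 + r) * r ^ (k - 1) * Real.exp (-((1 - c) / 2 * r))) := by
  rcases Nat.even_or_odd k with hk | hk
  · obtain ⟨C, hC⟩ := sinh_bound hc hc1
    refine ⟨|C|, abs_nonneg C, fun a r ha hr => ?_⟩
    have h1 := hC a r ha hr
    have h2 : |B1f k a r| = r ^ k * |Real.sinh (a * r / 2) / Real.sinh (r / 2)| := by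
      unfold B1f
      rw [B1F_even hk, abs_mul, abs_of_nonneg (pow_nonneg hr.le k)]
    have h3 : r ^ k ≤ (1 + r) * r ^ (k - 1) := by
      rcases Nat.eq_zero_or_pos k with h0 | h0
      · subst h0
        simp only [pow_zero, Nat.zero_sub, mul_one]
        linarith
      · have h4 : r ^ k = r * r ^ (k - 1) := by
          rw [← pow_succ', Nat.sub_add_cancel h0]
        rw [h4]
        exact mul_le_mul_of_nonneg_right (by linarith) (pow_nonneg hr.le _)
    have h5 : 0 ≤ Real.exp (-((1 - c) / 2 * r)) := (Real.exp_pos _).le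
    have h6 : C * Real.exp (-((1 - c) / 2 * r)) ≤ |C| * Real.exp (-((1 - c) / 2 * r)) :=
      mul_le_mul_of_nonneg_right (le_abs_self C) h5
    rw [h2]
    calc r ^ k * |Real.sinh (a * r / 2) / Real.sinh (r / 2)|
        ≤ r ^ k * (|C| * Real.exp (-((1 - c) / 2 * r))) :=
          mul_le_mul_of_nonneg_left (h1.trans h6) (pow_nonneg hr.le k)
      _ ≤ ((1 + r) * r ^ (k - 1)) * (|C| * Real.exp (-((1 - c) / 2 * r))) :=
          mul_le_mul_of_nonneg_right h3 (mul_nonneg (abs_nonneg C) h5)
      _ = |C| * ((1 + r) * r ^ (k - 1) * Real.exp (-((1 - c) / 2 * r))) := by ring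
  · obtain ⟨C, hC⟩ := cosh_bound hc hc1
    refine ⟨|C|, abs_nonneg C, fun a r ha hr => ?_⟩
    have h1 := hC a r ha hr
    have h0 : 0 < k := hk.pos
    have h4 : r ^ k = r ^ (k - 1) * r := by
      rw [← pow_succ, Nat.sub_add_cancel h0]
    have h2 : |B1f k a r| =
        r ^ (k - 1) * |r * (Real.cosh (a * r / 2) / Real.sinh (r / 2))| := by
      unfold B1f
      rw [B1F_odd hk, h4, mul_assoc, abs_mul, abs_of_nonneg (pow_nonneg hr.le _)]
    have h5 : 0 ≤ (1 + r) * Real.exp (-((1 - c) / 2 * r)) :=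
      mul_nonneg (by linarith) (Real.exp_pos _).le
    have h6 : C * (1 + r) * Real.exp (-((1 - c) / 2 * r)) ≤
        |C| * ((1 + r) * Real.exp (-((1 - c) / 2 * r))) := by
      rw [mul_assoc]
      exact mul_le_mul_of_nonneg_right (le_abs_self C) h5
    rw [h2]
    calc r ^ (k - 1) * |r * (Real.cosh (a * r / 2) / Real.sinh (r / 2))|
        ≤ r ^ (k - 1) * (|C| * ((1 + r) * Real.exp (-((1 - c) / 2 * r)))) :=
          mul_le_mul_of_nonneg_left (h1.trans h6) (pow_nonneg hr.le _)
      _ = |C| * ((1 + r) * r ^ (k - 1) * Real.exp (-((1 - c) / 2 * r))) := by ring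

private theorem B1_int_exp (j : ℕ) {b : ℝ} (hb : 0 < b) :
    IntegrableOn (fun r : ℝ => r ^ j * Real.exp (-(b * r))) (Set.Ioi 0) := by
  have h1 := integrableOn_rpow_mul_exp_neg_mul_rpow (p := 1) (s := j) (b := b)
    (by have : (0 : ℝ) ≤ j := Nat.cast_nonneg j
        linarith) one_pos hb
  refine h1.congr_fun (fun r _ => ?_) measurableSet_Ioi
  simp only [Real.rpow_natCast, Real.rpow_one, neg_mul]

private theorem B1_int_dom (C : ℝ) (j : ℕ) {b : ℝ} (hb : 0 < b) :
    IntegrableOn (fun r : ℝ => C * ((1 + r) * r ^ j * Real.exp (-(b * r)))) (Set.Ioi 0) := by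
  have h1 : IntegrableOn (fun r : ℝ => C * (r ^ j * Real.exp (-(b * r)) +
      r ^ (j + 1) * Real.exp (-(b * r)))) (Set.Ioi 0) :=
    ((B1_int_exp j hb).add (B1_int_exp (j + 1) hb)).const_mul C
  refine h1.congr_fun (fun r _ => ?_) measurableSet_Ioi
  ring

private theorem B1_int (k : ℕ) {a : ℝ} (ha : |a| < 1) : IntegrableOn (B1f k a) (Set.Ioi 0) := by
  obtain ⟨C, hC0, hC⟩ := B1f_bound k (abs_nonneg a) ha
  have hb : 0 < (1 - |a|) / 2 := by linarith
  refine (B1_int_dom C (k - 1) hb).mono' (B1f_meas k a).aestronglyMeasurable ?_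
  refine (ae_restrict_iff' measurableSet_Ioi).2 (Filter.Eventually.of_forall fun r hr => ?_)
  exact hC a r le_rfl hr

/-- differentiation under the integral sign -/
private theorem B1_deriv (k : ℕ) {a : ℝ} (ha : |a| < 1) :
    HasDerivAt (fun a => ∫ r in Set.Ioi (0 : ℝ), B1f k a r)
      (∫ r in Set.Ioi (0 : ℝ), 1 / 2 * B1f (k + 1) a r) a := by
  set c : ℝ := (1 + |a|) / 2 with hc
  have hc0 : 0 ≤ c := by positivity
  have hc1 : c < 1 := by rw [hc]; linarith
  have hac : |a| < c := by rw [hc]; linarith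
  obtain ⟨C, hC0, hC⟩ := B1f_bound (k + 1) hc0 hc1
  have hs : {x : ℝ | |x| ≤ c} ∈ nhds a := by
    have h1 : {x : ℝ | |x| < c} ∈ nhds a :=
      (isOpen_lt continuous_abs continuous_const).mem_nhds hac
    refine Filter.mem_of_superset h1 fun x hx => ?_
    have h2 : |x| < c := hx
    exact h2.le
  have hb : 0 < (1 - c) / 2 := by linarith
  refine (hasDerivAt_integral_of_dominated_loc_of_deriv_le (μ := volume.restrict (Set.Ioi 0))
    (F := fun a r => B1f k a r) (F' := fun a r => 1 / 2 * B1f (k + 1) a r)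
    (bound := fun r => C * ((1 + r) * r ^ (k + 1 - 1) * Real.exp (-((1 - c) / 2 * r)))) hs
    (Filter.Eventually.of_forall fun x => (B1f_meas k x).aestronglyMeasurable)
    (B1_int k ha) ((B1f_meas (k + 1) a).const_mul _).aestronglyMeasurable ?_
    (B1_int_dom C (k + 1 - 1) hb) ?_).2
  · refine (ae_restrict_iff' measurableSet_Ioi).2 (Filter.Eventually.of_forall fun r hr x hx => ?_)
    have h1 := hC x r hx hr
    rw [Real.norm_eq_abs, abs_mul]
    have h2 : |(1 : ℝ) / 2| * |B1f (k + 1) x r| ≤ |B1f (k + 1) x r| := by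
      have h3 : |(1 : ℝ) / 2| = 1 / 2 := abs_of_pos (by norm_num)
      rw [h3]
      have := abs_nonneg (B1f (k + 1) x r)
      linarith
    exact h2.trans h1
  · refine (ae_restrict_iff' measurableSet_Ioi).2 (Filter.Eventually.of_forall fun r _ x _ => ?_)
    have h1 : HasDerivAt (fun x : ℝ => x * r / 2) (r / 2) x := by
      have := ((hasDerivAt_id x).mul_const r).div_const 2
      simpa using this
    have h2 := (B1F_deriv k (x * r / 2)).comp x h1
    have h3 := (h2.div_const (Real.sinh (r / 2))).const_mul (r ^ k)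
    refine h3.congr_deriv ?_
    unfold B1f
    ring

/-- the right hand side -/
private noncomputable def B1G (k : ℕ) (a : ℝ) : ℝ :=
  k.factorial * Real.pi ^ (k + 1) * Polynomial.aeval (Real.tan (Real.pi * a / 2)) (Qp k)

private theorem B1_cos {a : ℝ} (ha : |a| < 1) : Real.cos (Real.pi * a / 2) ≠ 0 := by
  have hπ := Real.pi_pos
  rw [abs_lt] at ha
  refine (Real.cos_pos_of_mem_Ioo ⟨?_, ?_⟩).ne'
  · nlinarith
  · nlinarith

private theorem B1G_deriv (k : ℕ) {a : ℝ} (ha : |a| < 1) :
    HasDerivAt (B1G k) (1 / 2 * B1G (k + 1) a) a := by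
  have hcos := B1_cos ha
  have h1 : HasDerivAt (fun x : ℝ => Real.pi * x / 2) (Real.pi / 2) a := by
    have := ((hasDerivAt_id a).const_mul Real.pi).div_const 2
    simpa using this
  have h2 := (Real.hasDerivAt_tan hcos).comp a h1
  have h3 : HasDerivAt (fun x : ℝ => Polynomial.aeval x (Qp k))
      (Polynomial.aeval (Real.tan (Real.pi * a / 2)) (Polynomial.derivative (Qp k)))
      (Real.tan (Real.pi * a / 2)) := Polynomial.hasDerivAt_aeval _ _
  have h4 := (h3.comp a h2).const_mul ((k.factorial : ℝ) * Real.pi ^ (k + 1))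
  refine h4.congr_deriv ?_
  unfold B1G
  have h5 : Polynomial.aeval (Real.tan (Real.pi * a / 2)) (Qp (k + 1)) =
      1 / ((k : ℝ) + 1) * ((1 + Real.tan (Real.pi * a / 2) ^ 2) *
        Polynomial.aeval (Real.tan (Real.pi * a / 2)) (Polynomial.derivative (Qp k))) := by
    show Polynomial.aeval (Real.tan (Real.pi * a / 2)) (Polynomial.C (1 / ((k : ℚ) + 1)) *
      ((1 + Polynomial.X ^ 2) * Polynomial.derivative (Qp k))) = _
    rw [map_mul, map_mul, map_add, map_one, map_pow, Polynomial.aeval_X, Polynomial.aeval_C]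
    congr 1
    simp
  have h6 : 1 / Real.cos (Real.pi * a / 2) ^ 2 = 1 + Real.tan (Real.pi * a / 2) ^ 2 := by
    rw [Real.tan_eq_sin_div_cos, div_pow]
    field_simp
    linarith [Real.sin_sq_add_cos_sq (Real.pi * a / 2)]
  rw [h5, Nat.factorial_succ]
  push_cast
  rw [h6]
  have hk : (k : ℝ) + 1 ≠ 0 := by positivity
  field_simp
  ring

private theorem B1_main (k : ℕ) : ∀ a : ℝ, |a| < 1 →
    ∫ r in Set.Ioi (0 : ℝ), B1f k a r = B1G k a := by
  induction k with
  | zero =>
    intro a ha
    have h1 := int_sinh_zero ha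
    unfold B1G
    have h2 : ∀ r, B1f 0 a r = Real.sinh (a * r / 2) / Real.sinh (r / 2) := by
      intro r
      unfold B1f
      rw [B1F_even (by decide), pow_zero, one_mul]
    simp only [h2]
    rw [h1]
    simp [Qp]
  | succ k ih =>
    intro a ha
    have h1 := B1_deriv k ha
    have h2 := B1G_deriv k ha
    have h3 : (fun a => ∫ r in Set.Ioi (0 : ℝ), B1f k a r) =ᶠ[nhds a] B1G k := by
      have h4 : {x : ℝ | |x| < 1} ∈ nhds a :=
        (isOpen_lt continuous_abs continuous_const).mem_nhds ha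
      exact Filter.mem_of_superset h4 fun x hx => ih x hx
    have h5 := (h1.congr_of_eventuallyEq h3.symm).unique h2
    rw [integral_const_mul] at h5
    linarith

theorem int_sinh {a : ℝ} (ha : |a| < 1) {k : ℕ} (hk : Even k) :
    IntegrableOn (fun r : ℝ => r ^ k * (Real.sinh (a * r / 2) / Real.sinh (r / 2))) (Set.Ioi 0) ∧
    ∫ r in Set.Ioi (0 : ℝ), r ^ k * (Real.sinh (a * r / 2) / Real.sinh (r / 2)) =
      k.factorial * Real.pi ^ (k + 1) * Polynomial.aeval (Real.tan (Real.pi * a / 2)) (Qp k) := by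
  have h1 : (fun r : ℝ => r ^ k * (Real.sinh (a * r / 2) / Real.sinh (r / 2))) = B1f k a := by
    funext r
    unfold B1f
    rw [B1F_even hk]
  rw [h1]
  exact ⟨B1_int k ha, B1_main k a ha⟩

theorem int_cosh {a : ℝ} (ha : |a| < 1) {k : ℕ} (hk : Odd k) :
    IntegrableOn (fun r : ℝ => r ^ k * (Real.cosh (a * r / 2) / Real.sinh (r / 2))) (Set.Ioi 0) ∧
    ∫ r in Set.Ioi (0 : ℝ), r ^ k * (Real.cosh (a * r / 2) / Real.sinh (r / 2)) =
      k.factorial * Real.pi ^ (k + 1) * Polynomial.aeval (Real.tan (Real.pi * a / 2)) (Qp k) := by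
  have h1 : (fun r : ℝ => r ^ k * (Real.cosh (a * r / 2) / Real.sinh (r / 2))) = B1f k a := by
    funext r
    unfold B1f
    rw [B1F_odd hk]
  rw [h1]
  exact ⟨B1_int k ha, B1_main k a ha⟩

/-- The parity of `Q_k`, with that of the derivative. -/
private theorem B1_parity (k : ℕ) : (Qp k).comp (-Polynomial.X) =
    (-1) ^ (k + 1) * Qp k := by
  induction k with
  | zero => simp [Qp]
  | succ k ih =>
    have h1 := congrArg Polynomial.derivative ih
    rw [Polynomial.derivative_comp] at h1
    have h2 : Polynomial.derivative (((-1 : Polynomial ℚ)) ^ (k + 1) * Qp k) =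
        (-1) ^ (k + 1) * Polynomial.derivative (Qp k) := by
      have e1 : ((-1 : Polynomial ℚ)) ^ (k + 1) = Polynomial.C ((-1) ^ (k + 1)) := by simp
      rw [e1, Polynomial.derivative_C_mul]
    rw [h2] at h1
    have h3 : (Polynomial.derivative (Qp k)).comp (-Polynomial.X) =
        (-1) ^ (k + 2) * Polynomial.derivative (Qp k) := by
      have h4 : Polynomial.derivative (-Polynomial.X : Polynomial ℚ) = -1 := by simp
      rw [h4] at h1
      have h5 : (Polynomial.derivative (Qp k)).comp (-Polynomial.X) =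
          -(-1 * (Polynomial.derivative (Qp k)).comp (-Polynomial.X)) := by ring
      rw [h5, h1]
      ring
    show (Polynomial.C (1 / ((k : ℚ) + 1)) * ((1 + Polynomial.X ^ 2) *
      Polynomial.derivative (Qp k))).comp (-Polynomial.X) = (-1) ^ (k + 1 + 1) *
      (Polynomial.C (1 / ((k : ℚ) + 1)) * ((1 + Polynomial.X ^ 2) * Polynomial.derivative (Qp k)))
    rw [Polynomial.mul_comp, Polynomial.mul_comp, h3, Polynomial.C_comp, Polynomial.add_comp,
      Polynomial.pow_comp, Polynomial.X_comp, Polynomial.one_comp]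
    ring

/-- The parity of `Q_k`. -/
theorem Qp_neg (k : ℕ) (x : ℝ) : Polynomial.aeval (-x) (Qp k) =
    (-1) ^ (k + 1) * Polynomial.aeval x (Qp k) := by
  have h1 := congrArg (Polynomial.aeval x) (B1_parity k)
  rw [Polynomial.aeval_comp, map_neg, Polynomial.aeval_X, map_mul, map_pow, map_neg, map_one] at h1
  exact h1

end Pool.Agent.GT
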