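import Pool.Agent.H46.GT.Basic

/-!
The first integral. `1 / sinh (r/2) = 2 ∑_n e^{-(n + 1/2) r}`, so for `|a| < 1`
`sinh (a r/2) / sinh (r/2) = ∑_n (e^{-(n + x) r} - e^{-(n + 1 - x) r})`, `x = 1/2 - a/2 ∈ (0, 1)`; integrate term by
term: `∑_n (1 / (n + x) - 1 / (n + 1 - x)) = π cot (π x)` (Mittag-Leffler series, `cot_series_rep`, partial sums)
and `cot (π x) = tan (π a / 2)`. (By symmetry one may assume `0 ≤ a`: then all terms are `≥ 0`.)
Bounds: `|sinh (a r/2)| / sinh (r/2) ≤ C e^{-(1 - |a|) r/2}` and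
`r cosh (a r/2) / sinh (r/2) ≤ C (1 + r) e^{-(1 - |a|) r/2}`.
-/

set_option autoImplicit false

open MeasureTheory

namespace Pool.Agent.GT

private theorem b1a_term (x r : ℝ) (hr : 0 < r) :
    HasSum (fun n : ℕ => Real.exp (-((n : ℝ) + x) * r) - Real.exp (-((n : ℝ) + (1 - x)) * r))
      (Real.sinh ((1 - 2 * x) * r / 2) / Real.sinh (r / 2)) := by
  have h1 : Real.exp (-r) < 1 := by
    rw [Real.exp_lt_one_iff]
    linarith
  have h2 := hasSum_geometric_of_lt_one (Real.exp_pos (-r)).le h1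
  have h3 := h2.mul_left (Real.exp (-(x * r)) - Real.exp (-((1 - x) * r)))
  have e1 : (fun n : ℕ => Real.exp (-((n : ℝ) + x) * r) - Real.exp (-((n : ℝ) + (1 - x)) * r)) =
      fun n : ℕ => (Real.exp (-(x * r)) - Real.exp (-((1 - x) * r))) * Real.exp (-r) ^ n := by
    funext n
    rw [← Real.exp_nat_mul, sub_mul, ← Real.exp_add, ← Real.exp_add]
    congr 1
    · congr 1
      ring
    · congr 1
      ring
  rw [e1]
  have e2 : Real.sinh ((1 - 2 * x) * r / 2) / Real.sinh (r / 2) =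
      (Real.exp (-(x * r)) - Real.exp (-((1 - x) * r))) * (1 - Real.exp (-r))⁻¹ := by
    have h4 : 0 < Real.sinh (r / 2) := Real.sinh_pos_iff.2 (by linarith)
    have h5 : (1 - Real.exp (-r)) ≠ 0 := by linarith
    rw [← div_eq_mul_inv, div_eq_div_iff h4.ne' h5, Real.sinh_eq, Real.sinh_eq]
    have a1 : Real.exp ((1 - 2 * x) * r / 2) = Real.exp (r / 2) * Real.exp (-(x * r)) := by
      rw [← Real.exp_add]
      congr 1
      ring
    have a2 : Real.exp (-((1 - 2 * x) * r / 2)) = Real.exp (r / 2) * Real.exp (-((1 - x) * r)) := by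
      rw [← Real.exp_add]
      congr 1
      ring
    have a3 : Real.exp (-(r / 2)) = Real.exp (r / 2) * Real.exp (-r) := by
      rw [← Real.exp_add]
      congr 1
      ring
    rw [a1, a2, a3]
    ring
  rw [e2]
  exact h3

private theorem b1a_sum {x : ℝ} (hx0 : 0 < x) (hx : x ≤ 1 / 2) :
    HasSum (fun n : ℕ => 1 / ((n : ℝ) + x) - 1 / ((n : ℝ) + (1 - x)))
      (Real.pi * (Real.cos (Real.pi * x) / Real.sin (Real.pi * x))) := by
  have hnn : ∀ n : ℕ, 0 ≤ 1 / ((n : ℝ) + x) - 1 / ((n : ℝ) + (1 - x)) := by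
    intro n
    have hn : (0 : ℝ) ≤ n := Nat.cast_nonneg n
    rw [sub_nonneg]
    exact one_div_le_one_div_of_le (by linarith) (by linarith)
  have hz : (x : ℂ) ∈ Complex.integerComplement := by
    rw [Complex.mem_integerComplement_iff]
    rintro ⟨n, hn⟩
    have h1 : (n : ℝ) = x := by exact_mod_cast hn
    have h2 : (0 : ℝ) < n := by rw [h1]; exact hx0
    have h3 : (n : ℝ) < 1 := by rw [h1]; linarith
    have h4 : 0 < n := by exact_mod_cast h2
    have h5 : n < 1 := by exact_mod_cast h3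
    omega
  have hT := tendsto_logDeriv_euler_cot_sub hz
  have hps : ∀ N : ℕ, (((∑ n ∈ Finset.range N,
      (1 / ((n : ℝ) + x) - 1 / ((n : ℝ) + (1 - x)))) : ℝ) : ℂ) =
      1 / (x : ℂ) + ∑ j ∈ Finset.range N, cotTerm (x : ℂ) j - 1 / ((x : ℂ) + N) := by
    intro N
    induction N with
    | zero => simp
    | succ N ih =>
      rw [Finset.sum_range_succ, Complex.ofReal_add, ih, Finset.sum_range_succ]
      unfold cotTerm
      have e : (x : ℂ) - ((N : ℂ) + 1) = -((N : ℂ) + (1 - (x : ℂ))) := by ring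
      rw [e]
      push_cast
      have e3 : (1 : ℂ) / -((N : ℂ) + (1 - (x : ℂ))) = -(1 / ((N : ℂ) + (1 - (x : ℂ)))) := by
        rw [div_neg]
      rw [e3, add_comm (N : ℂ) (x : ℂ)]
      ring
  have h0 : Filter.Tendsto (fun N : ℕ => (1 : ℂ) / ((x : ℂ) + N)) Filter.atTop (nhds 0) := by
    have h1 : Filter.Tendsto (fun N : ℕ => (1 : ℝ) / (x + N)) Filter.atTop (nhds 0) := by
      refine Filter.Tendsto.div_atTop tendsto_const_nhds ?_
      exact Filter.tendsto_atTop_add_const_left _ _ tendsto_natCast_atTop_atTop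
    have h2 := (Complex.continuous_ofReal.tendsto 0).comp h1
    rw [Complex.ofReal_zero] at h2
    refine h2.congr fun N => ?_
    simp
  have hlim : Filter.Tendsto (fun N : ℕ => (((∑ n ∈ Finset.range N,
      (1 / ((n : ℝ) + x) - 1 / ((n : ℝ) + (1 - x)))) : ℝ) : ℂ)) Filter.atTop
      (nhds ((Real.pi * (Real.cos (Real.pi * x) / Real.sin (Real.pi * x)) : ℝ) : ℂ)) := by
    have h1 := (hT.const_add (1 / (x : ℂ))).sub h0
    have e : (1 / (x : ℂ)) + (Real.pi * Complex.cot (Real.pi * x) - 1 / (x : ℂ)) - 0 =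
        ((Real.pi * (Real.cos (Real.pi * x) / Real.sin (Real.pi * x)) : ℝ) : ℂ) := by
      unfold Complex.cot
      push_cast
      ring
    rw [e] at h1
    refine h1.congr fun N => ?_
    rw [hps N]
  have hlimR : Filter.Tendsto (fun N : ℕ => (∑ n ∈ Finset.range N,
      (1 / ((n : ℝ) + x) - 1 / ((n : ℝ) + (1 - x))))) Filter.atTop
      (nhds (Real.pi * (Real.cos (Real.pi * x) / Real.sin (Real.pi * x)))) := by
    have h1 := (Complex.continuous_re.tendsto _).comp hlim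
    rw [Complex.ofReal_re] at h1
    refine h1.congr fun N => ?_
    rw [Function.comp_apply, Complex.ofReal_re]
  exact (hasSum_iff_tendsto_nat_of_nonneg hnn _).2 hlimR

private theorem b1a_int {c : ℝ} (hc : 0 < c) :
    ∫ r in Set.Ioi (0 : ℝ), Real.exp (-c * r) = 1 / c := by
  rw [integral_exp_mul_Ioi (by linarith), mul_zero, Real.exp_zero, neg_div_neg_eq]

private theorem b1a_main {x : ℝ} (hx0 : 0 < x) (hx : x ≤ 1 / 2) :
    ∫ r in Set.Ioi (0 : ℝ), Real.sinh ((1 - 2 * x) * r / 2) / Real.sinh (r / 2) =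
      Real.pi * (Real.cos (Real.pi * x) / Real.sin (Real.pi * x)) := by
  have hi : ∀ n : ℕ, IntegrableOn (fun r : ℝ => Real.exp (-((n : ℝ) + x) * r))
      (Set.Ioi (0 : ℝ)) := by
    intro n
    have hn : (0 : ℝ) ≤ n := Nat.cast_nonneg n
    exact integrableOn_exp_mul_Ioi (by linarith) 0
  have hi' : ∀ n : ℕ, IntegrableOn (fun r : ℝ => Real.exp (-((n : ℝ) + (1 - x)) * r))
      (Set.Ioi (0 : ℝ)) := by
    intro n
    have hn : (0 : ℝ) ≤ n := Nat.cast_nonneg n
    exact integrableOn_exp_mul_Ioi (by linarith) 0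
  have hval : ∀ n : ℕ, ∫ r in Set.Ioi (0 : ℝ), (Real.exp (-((n : ℝ) + x) * r) -
      Real.exp (-((n : ℝ) + (1 - x)) * r)) = 1 / ((n : ℝ) + x) - 1 / ((n : ℝ) + (1 - x)) := by
    intro n
    have hn : (0 : ℝ) ≤ n := Nat.cast_nonneg n
    rw [integral_sub (hi n) (hi' n), b1a_int (by linarith), b1a_int (by linarith)]
  have hnorm : ∀ n : ℕ, ∫ r in Set.Ioi (0 : ℝ), ‖Real.exp (-((n : ℝ) + x) * r) -
      Real.exp (-((n : ℝ) + (1 - x)) * r)‖ = 1 / ((n : ℝ) + x) - 1 / ((n : ℝ) + (1 - x)) := by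
    intro n
    rw [← hval n]
    refine setIntegral_congr_fun measurableSet_Ioi fun r hr => ?_
    have hr' : (0 : ℝ) < r := hr
    show ‖_‖ = _
    rw [Real.norm_eq_abs, abs_of_nonneg]
    rw [sub_nonneg]
    refine Real.exp_le_exp.2 ?_
    nlinarith
  have hS := b1a_sum hx0 hx
  have h1 := hasSum_integral_of_summable_integral_norm
    (μ := volume.restrict (Set.Ioi (0 : ℝ)))
    (F := fun (n : ℕ) (r : ℝ) => Real.exp (-((n : ℝ) + x) * r) -
      Real.exp (-((n : ℝ) + (1 - x)) * r)) (fun n => (hi n).sub (hi' n)) (by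
      have e : (fun n : ℕ => ∫ r in Set.Ioi (0 : ℝ), ‖Real.exp (-((n : ℝ) + x) * r) -
        Real.exp (-((n : ℝ) + (1 - x)) * r)‖) =
        fun n : ℕ => 1 / ((n : ℝ) + x) - 1 / ((n : ℝ) + (1 - x)) := funext hnorm
      rw [e]
      exact hS.summable)
  have e : (fun n : ℕ => ∫ r in Set.Ioi (0 : ℝ), (Real.exp (-((n : ℝ) + x) * r) -
        Real.exp (-((n : ℝ) + (1 - x)) * r))) =
        fun n : ℕ => 1 / ((n : ℝ) + x) - 1 / ((n : ℝ) + (1 - x)) := funext hval
  rw [e] at h1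
  have h2 := hS.unique h1
  rw [h2]
  refine setIntegral_congr_fun measurableSet_Ioi fun r hr => ?_
  exact (b1a_term x r hr).tsum_eq.symm

private theorem b1a_nonneg {a : ℝ} (ha0 : 0 ≤ a) (ha : a < 1) :
    ∫ r in Set.Ioi (0 : ℝ), Real.sinh (a * r / 2) / Real.sinh (r / 2) =
      Real.pi * Real.tan (Real.pi * a / 2) := by
  have h := b1a_main (x := (1 - a) / 2) (by linarith) (by linarith)
  have e1 : (1 - 2 * ((1 - a) / 2)) = a := by ring
  rw [e1] at h
  rw [h]
  have e2 : Real.pi * ((1 - a) / 2) = Real.pi / 2 - Real.pi * a / 2 := by ring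
  rw [e2, Real.cos_pi_div_two_sub, Real.sin_pi_div_two_sub, Real.tan_eq_sin_div_cos]

theorem int_sinh_zero {a : ℝ} (ha : |a| < 1) :
    ∫ r in Set.Ioi (0 : ℝ), Real.sinh (a * r / 2) / Real.sinh (r / 2) =
      Real.pi * Real.tan (Real.pi * a / 2) := by
  rw [abs_lt] at ha
  rcases le_total 0 a with h | h
  · exact b1a_nonneg h ha.2
  · have h1 := b1a_nonneg (a := -a) (by linarith) (by linarith)
    have e : (fun r : ℝ => Real.sinh (-a * r / 2) / Real.sinh (r / 2)) =
        fun r : ℝ => -(Real.sinh (a * r / 2) / Real.sinh (r / 2)) := by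
      funext r
      rw [show -a * r / 2 = -(a * r / 2) by ring, Real.sinh_neg, neg_div]
    rw [e, integral_neg, show Real.pi * -a / 2 = -(Real.pi * a / 2) by ring, Real.tan_neg] at h1
    linarith

private theorem b1a_abs {a c r : ℝ} (ha : |a| ≤ c) (hr : 0 < r) : |a * r / 2| ≤ c * r / 2 := by
  rw [abs_div, abs_mul, abs_of_pos hr, abs_of_pos (by norm_num : (0 : ℝ) < 2)]
  have := mul_le_mul_of_nonneg_right ha hr.le
  linarith

theorem sinh_bound {c : ℝ} (hc : 0 ≤ c) (hc1 : c < 1) : ∃ C : ℝ, ∀ a r : ℝ, |a| ≤ c → 0 < r →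
    |Real.sinh (a * r / 2) / Real.sinh (r / 2)| ≤ C * Real.exp (-((1 - c) / 2 * r)) := by
  refine ⟨1, fun a r ha hr => ?_⟩
  have h4 : 0 < Real.sinh (r / 2) := Real.sinh_pos_iff.2 (by linarith)
  rw [abs_div, abs_of_pos h4, div_le_iff₀ h4, one_mul]
  have h1 : |Real.sinh (a * r / 2)| ≤ Real.sinh (c * r / 2) := by
    rw [Real.abs_sinh]
    exact Real.sinh_le_sinh.2 (b1a_abs ha hr)
  refine h1.trans ?_
  rw [Real.sinh_eq, Real.sinh_eq]
  have a1 : Real.exp (-((1 - c) / 2 * r)) * ((Real.exp (r / 2) - Real.exp (-(r / 2))) / 2) =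
      (Real.exp (c * r / 2) - Real.exp ((c - 2) * r / 2)) / 2 := by
    have b1 : Real.exp (c * r / 2) = Real.exp (-((1 - c) / 2 * r)) * Real.exp (r / 2) := by
      rw [← Real.exp_add]
      congr 1
      ring
    have b2 : Real.exp ((c - 2) * r / 2) =
        Real.exp (-((1 - c) / 2 * r)) * Real.exp (-(r / 2)) := by
      rw [← Real.exp_add]
      congr 1
      ring
    rw [b1, b2]
    ring
  rw [a1]
  have a2 : Real.exp ((c - 2) * r / 2) ≤ Real.exp (-(c * r / 2)) := by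
    refine Real.exp_le_exp.2 ?_
    nlinarith
  linarith

theorem cosh_bound {c : ℝ} (hc : 0 ≤ c) (hc1 : c < 1) : ∃ C : ℝ, ∀ a r : ℝ, |a| ≤ c → 0 < r →
    |r * (Real.cosh (a * r / 2) / Real.sinh (r / 2))| ≤
      C * (1 + r) * Real.exp (-((1 - c) / 2 * r)) := by
  refine ⟨2, fun a r ha hr => ?_⟩
  have h4 : 0 < Real.sinh (r / 2) := Real.sinh_pos_iff.2 (by linarith)
  have h5 : 0 < Real.cosh (a * r / 2) := Real.cosh_pos _
  rw [abs_of_pos (by positivity), ← mul_div_assoc, div_le_iff₀ h4]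
  have h1 : Real.cosh (a * r / 2) ≤ Real.exp (c * r / 2) := by
    have h2 := b1a_abs ha hr
    have h3 : Real.cosh (a * r / 2) = Real.cosh |a * r / 2| := (Real.cosh_abs _).symm
    rw [h3]
    have h6 : Real.cosh |a * r / 2| ≤ Real.exp |a * r / 2| := by
      rw [Real.cosh_eq]
      have : Real.exp (-|a * r / 2|) ≤ Real.exp |a * r / 2| :=
        Real.exp_le_exp.2 (by linarith [abs_nonneg (a * r / 2)])
      linarith
    exact h6.trans (Real.exp_le_exp.2 h2)
  have h2 : r * Real.cosh (a * r / 2) ≤ r * Real.exp (c * r / 2) :=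
    mul_le_mul_of_nonneg_left h1 hr.le
  refine h2.trans ?_
  have h6 : 2 * (1 + r) * Real.exp (-((1 - c) / 2 * r)) * Real.sinh (r / 2) =
      Real.exp (c * r / 2) * ((1 + r) * (1 - Real.exp (-r))) := by
    have b1 : Real.exp (c * r / 2) = Real.exp (-((1 - c) / 2 * r)) * Real.exp (r / 2) := by
      rw [← Real.exp_add]
      congr 1
      ring
    have b2 : Real.exp (r / 2) * Real.exp (-r) = Real.exp (-(r / 2)) := by
      rw [← Real.exp_add]
      congr 1
      ring
    rw [Real.sinh_eq, b1, ← b2]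
    ring
  rw [h6]
  have h7 : r ≤ (1 + r) * (1 - Real.exp (-r)) := by
    have h8 := Real.add_one_le_exp r
    have h9 : Real.exp r * Real.exp (-r) = 1 := by
      rw [← Real.exp_add, add_neg_cancel, Real.exp_zero]
    have h10 := Real.exp_pos (-r)
    nlinarith
  have h8 := Real.exp_pos (c * r / 2)
  nlinarith

end Pool.Agent.GT
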