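import Pool.Agent.H46.GT.C1b
import Pool.Agent.H46.GT.B1

/-!
The radial moments of the twisted integrands. For `r > 0`:
`Re tPhi l s (r²) = ∏_p (sinh (t_p r / 2) / (t_p r / 2)) · (r / 2) / sinh (r / 2)` (`GPC.Sa_sq`), with
`t_p = tw l s p ∈ (0, 1)`. One leaf: the integrand is
`t⁻¹ r ^ (2k+2) sinh (t r/2) / sinh (r/2)`, `int_sinh`. Two leaves `t, u` with `t + u < 1`:
`(t u)⁻¹ r ^ (2k+1) (cosh ((t+u) r/2) - cosh ((t-u) r/2)) / sinh (r/2)`, `int_cosh`.
Then replace `tan (π t / 2)` by `± tan (π s / (2 p))` (periodicity and parity of `tan`, `Qp_neg`):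
`t = |s_p| / p` with `s_p = s` modulo `2 p`; if the sum of the two parameters is `> 1`, then
`t = 1 - A`, `u = 1 - B` with `tan (π (2 - A - B) / 2) = - tan (π (A + B) / 2)`. The polynomials `Qp k`
with odd `k` are even, so signs do not matter in the case of two leaves (up to one common sign
`±`, which goes into `c`). Checked numerically.
-/

set_option autoImplicit false

open PowerSeries Finset MeasureTheory

namespace Pool.Agent.GT

open Pool.Agent.OHG Pool.Agent.GPC Pool.Agent.SLR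

private theorem b2_th (s : ℤ) {p : ℕ} (hp : 2 ≤ p) : ∃ ε : ℝ, (ε = 1 ∨ ε = -1) ∧
    ∃ m : ℤ, th s p = ε * ((s : ℝ) / p + 2 * m) := by
  have hp0 : (p : ℝ) ≠ 0 := by
    have : p ≠ 0 := by omega
    exact_mod_cast this
  obtain ⟨m, hm⟩ : ((2 * p : ℕ) : ℤ) ∣ Int.bmod s (2 * p) - s := Int.dvd_bmod_sub_self
  have hb : ((Int.bmod s (2 * p) : ℤ) : ℝ) = s + 2 * p * m := by
    have h1 : Int.bmod s (2 * p) = s + ((2 * p : ℕ) : ℤ) * m := by linarith
    rw [h1]
    push_cast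
    ring
  have h2 : ((s : ℝ) + 2 * p * m) / p = (s : ℝ) / p + 2 * m := by
    field_simp
  unfold th
  rw [hb]
  rcases le_total 0 ((s : ℝ) + 2 * p * m) with h | h
  · refine ⟨1, Or.inl rfl, m, ?_⟩
    rw [abs_of_nonneg h, h2, one_mul]
  · refine ⟨-1, Or.inr rfl, m, ?_⟩
    rw [abs_of_nonpos h, neg_div, h2, neg_one_mul]

private theorem b2_tan (x : ℝ) (m : ℤ) : Real.tan (Real.pi * (x + 2 * m) / 2) =
    Real.tan (Real.pi * x / 2) := by
  have e : Real.pi * (x + 2 * m) / 2 = Real.pi * x / 2 + m * Real.pi := by ring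
  rw [e, Real.tan_add_int_mul_pi]

private theorem b2_tanε {ε : ℝ} (hε : ε = 1 ∨ ε = -1) (x : ℝ) :
    Real.tan (Real.pi * (ε * x) / 2) = ε * Real.tan (Real.pi * x / 2) := by
  rcases hε with rfl | rfl
  · rw [one_mul, one_mul]
  · have e : Real.pi * (-1 * x) / 2 = -(Real.pi * x / 2) := by ring
    rw [e, Real.tan_neg, neg_one_mul]

private theorem b2_even {k : ℕ} (hk : Odd k) {ε : ℝ} (hε : ε = 1 ∨ ε = -1) (x : ℝ) :
    Polynomial.aeval (ε * x) (Qp k) = Polynomial.aeval x (Qp k) := by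
  rcases hε with rfl | rfl
  · rw [one_mul]
  · rw [neg_one_mul, Qp_neg, Even.neg_one_pow hk.add_one, one_mul]

private theorem b2_odd {k : ℕ} (hk : Even k) {ε : ℝ} (hε : ε = 1 ∨ ε = -1) (x : ℝ) :
    Polynomial.aeval (ε * x) (Qp k) = ε * Polynomial.aeval x (Qp k) := by
  rcases hε with rfl | rfl
  · rw [one_mul, one_mul]
  · rw [neg_one_mul, Qp_neg, Odd.neg_one_pow hk.add_one]

private theorem b2_Sa {t r : ℝ} (ht : t ≠ 0) (hr : 0 < r) :
    Sa (t / 2) ((r ^ 2 : ℝ) : ℂ) = ((Real.sinh (t * r / 2) / (t * r / 2) : ℝ) : ℂ) := by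
  rw [Complex.ofReal_pow, Sa_sq (div_ne_zero ht two_ne_zero) (by exact_mod_cast hr.ne')]
  push_cast
  rw [show (t : ℂ) / 2 * r = t * r / 2 by ring]

private theorem b2_tPhi {l : Finset ℕ} {s : ℤ} (h : ∀ p ∈ l, tw l s p ≠ 0) {r : ℝ} (hr : 0 < r) :
    (tPhi l s ((r ^ 2 : ℝ) : ℂ)).re =
      (∏ p ∈ l, Real.sinh (tw l s p * r / 2) / (tw l s p * r / 2)) *
        ((r / 2) / Real.sinh (r / 2)) := by
  unfold tPhi
  have h1 : ∏ p ∈ l, Sa (tw l s p / 2) ((r ^ 2 : ℝ) : ℂ) =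
      ((∏ p ∈ l, Real.sinh (tw l s p * r / 2) / (tw l s p * r / 2) : ℝ) : ℂ) := by
    rw [Complex.ofReal_prod]
    exact Finset.prod_congr rfl fun p hp => b2_Sa (h p hp) hr
  have h2 := b2_Sa (t := 1) one_ne_zero hr
  rw [one_mul] at h2
  rw [h1, h2, ← Complex.ofReal_inv, ← Complex.ofReal_mul, Complex.ofReal_re, inv_div]

theorem rad_zero_leaf (s : ℤ) (k : ℕ) : rad (tPhi ∅ s) k =
    1 / 2 * (2 * k + 3).factorial * Real.pi ^ (2 * k + 4) *
      Polynomial.aeval (0 : ℝ) (Qp (2 * k + 3)) := by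
  unfold rad
  have h := (int_cosh (a := 0) (by norm_num) (k := 2 * k + 3) ⟨k + 1, by ring⟩).2
  rw [mul_zero, zero_div, Real.tan_zero] at h
  have e : ∫ r in Set.Ioi (0 : ℝ), r ^ (2 * k + 2) * (tPhi ∅ s ((r ^ 2 : ℝ) : ℂ)).re =
      ∫ r in Set.Ioi (0 : ℝ), 1 / 2 *
        (r ^ (2 * k + 3) * (Real.cosh (0 * r / 2) / Real.sinh (r / 2))) := by
    refine setIntegral_congr_fun measurableSet_Ioi fun r hr => ?_
    have hr' : 0 < r := hr
    have h1 : (∅ : Finset ℕ) = ∅ := rfl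
    have h3 : (tPhi ∅ s ((r ^ 2 : ℝ) : ℂ)).re = r / 2 / Real.sinh (r / 2) := by
      rw [b2_tPhi (l := ∅) (by simp) hr', Finset.prod_empty, one_mul]
    have hs : Real.sinh (r / 2) ≠ 0 := (Real.sinh_pos_iff.2 (by positivity)).ne'
    simp only [h3, zero_mul, zero_div, Real.cosh_zero]
    field_simp
    ring
  rw [e, integral_const_mul, h]
  ring

theorem rad_one_leaf {p : ℕ} (hp : 2 ≤ p) {s : ℤ} (hs : CopL {p} s) : ∃ c : ℝ, c ≠ 0 ∧ ∀ k : ℕ,
    rad (tPhi {p} s) k = c * (2 * k + 2).factorial * Real.pi ^ (2 * k + 3) *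
      Polynomial.aeval (Real.tan (Real.pi * s / (2 * p))) (Qp (2 * k + 2)) := by
  have hcop := hs.2 p (Finset.mem_singleton_self p)
  have h0 := th_pos hp hcop
  have h1 := th_lt_one hp hcop
  have htw : tw {p} s p = th s p := by
    unfold tw
    rw [Finset.sum_singleton, if_pos h1]
  obtain ⟨ε, hε, m, hm⟩ := b2_th s hp
  have hε0 : ε ≠ 0 := by
    rcases hε with rfl | rfl <;> norm_num
  refine ⟨(th s p)⁻¹ * ε, mul_ne_zero (inv_ne_zero h0.ne') hε0, fun k => ?_⟩
  have h := (int_sinh (a := th s p) (by rw [abs_of_pos h0]; exact h1) (k := 2 * k + 2)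
    ⟨k + 1, by ring⟩).2
  unfold rad
  have e : ∫ r in Set.Ioi (0 : ℝ), r ^ (2 * k + 2) * (tPhi {p} s ((r ^ 2 : ℝ) : ℂ)).re =
      ∫ r in Set.Ioi (0 : ℝ), (th s p)⁻¹ *
        (r ^ (2 * k + 2) * (Real.sinh (th s p * r / 2) / Real.sinh (r / 2))) := by
    refine setIntegral_congr_fun measurableSet_Ioi fun r hr => ?_
    have hr' : 0 < r := hr
    have h3 : (tPhi {p} s ((r ^ 2 : ℝ) : ℂ)).re =
        Real.sinh (th s p * r / 2) / (th s p * r / 2) * (r / 2 / Real.sinh (r / 2)) := by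
      rw [b2_tPhi (l := {p}) ?_ hr', Finset.prod_singleton, htw]
      intro p' hp'
      rw [Finset.mem_singleton.1 hp', htw]
      exact h0.ne'
    have hs : Real.sinh (r / 2) ≠ 0 := (Real.sinh_pos_iff.2 (by positivity)).ne'
    simp only [h3]
    have h0' := h0.ne'
    field_simp
  rw [e, integral_const_mul, h]
  have ht : Real.tan (Real.pi * th s p / 2) = ε * Real.tan (Real.pi * s / (2 * p)) := by
    rw [hm, b2_tanε hε, b2_tan]
    congr 2
    have hp0 : (p : ℝ) ≠ 0 := by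
      have : p ≠ 0 := by omega
      exact_mod_cast this
    field_simp
  rw [ht, b2_odd ⟨k + 1, by ring⟩ hε]
  ring

theorem rad_two_leaves {p q : ℕ} (hp : 2 ≤ p) (hq : 2 ≤ q) (hpq : Nat.Coprime p q) {s : ℤ}
    (hs : CopL {p, q} s) : ∃ c : ℝ, c ≠ 0 ∧ ∀ k : ℕ,
    rad (tPhi {p, q} s) k = c * (2 * k + 1).factorial * Real.pi ^ (2 * k + 2) *
      (Polynomial.aeval (Real.tan (Real.pi * s * (1 / p + 1 / q) / 2)) (Qp (2 * k + 1)) -
        Polynomial.aeval (Real.tan (Real.pi * s * (1 / p - 1 / q) / 2)) (Qp (2 * k + 1))) := by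
  have hpq' : p ≠ q := by
    rintro rfl
    rw [Nat.coprime_self] at hpq
    omega
  have hNd : Nd {p, q} := by
    refine ⟨Finset.card_le_two, ?_, ?_⟩
    · intro a ha
      rcases Finset.mem_insert.1 ha with rfl | ha
      · exact hp
      · rw [Finset.mem_singleton.1 ha]
        exact hq
    · intro a ha b hb hab
      have ha' : a = p ∨ a = q := by simpa using ha
      have hb' : b = p ∨ b = q := by simpa using hb
      rcases ha' with h1 | h1 <;> rcases hb' with h2 | h2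
      · exact absurd (h1.trans h2.symm) hab
      · rw [h1, h2]
        exact hpq
      · rw [h1, h2]
        exact hpq.symm
      · exact absurd (h1.trans h2.symm) hab
  have hp1 : p ∈ ({p, q} : Finset ℕ) := Finset.mem_insert_self _ _
  have hq1 : q ∈ ({p, q} : Finset ℕ) := Finset.mem_insert_of_mem (Finset.mem_singleton_self _)
  have hA := tw_pos hNd hs hp1
  have hB := tw_pos hNd hs hq1
  have hAB := sum_tw_lt hNd hs
  rw [Finset.sum_pair hpq'] at hAB
  obtain ⟨ε, hε, m, hm⟩ := b2_th s hp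
  obtain ⟨δ, hδ, n, hn⟩ := b2_th s hq
  -- the two tangents
  have key : ∀ k : ℕ, Odd k → ∀ σ : ℝ, (σ = 1 ∨ σ = -1) →
      Polynomial.aeval (Real.tan (Real.pi * (th s p + σ * th s q) / 2)) (Qp k) =
      Polynomial.aeval (Real.tan (Real.pi * ((s : ℝ) / p + σ * (ε * δ) * ((s : ℝ) / q)) / 2))
        (Qp k) := by
    intro k hk σ hσ
    have hε2 : ε * ε = 1 := by
      rcases hε with rfl | rfl <;> norm_num
    obtain ⟨j, hj⟩ : ∃ j : ℤ, σ * (ε * δ) * n + m = j := by
      rcases hσ with rfl | rfl <;> rcases hε with rfl | rfl <;> rcases hδ with rfl | rfl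
      · exact ⟨n + m, by push_cast; ring⟩
      · exact ⟨-n + m, by push_cast; ring⟩
      · exact ⟨-n + m, by push_cast; ring⟩
      · exact ⟨n + m, by push_cast; ring⟩
      · exact ⟨-n + m, by push_cast; ring⟩
      · exact ⟨n + m, by push_cast; ring⟩
      · exact ⟨n + m, by push_cast; ring⟩
      · exact ⟨-n + m, by push_cast; ring⟩
    have e : th s p + σ * th s q =
        ε * (((s : ℝ) / p + σ * (ε * δ) * ((s : ℝ) / q)) + 2 * j) := by
      rw [hm, hn, ← hj]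
      linear_combination (-(σ * δ * ((s : ℝ) / q + 2 * n))) * hε2
    rw [e, b2_tanε hε, b2_even hk hε, b2_tan]
  have key2 : ∀ k : ℕ, Odd k → ∀ σ : ℝ, (σ = 1 ∨ σ = -1) →
      Polynomial.aeval (Real.tan (Real.pi * (tw {p, q} s p + σ * tw {p, q} s q) / 2)) (Qp k) =
      Polynomial.aeval (Real.tan (Real.pi * ((s : ℝ) / p + σ * (ε * δ) * ((s : ℝ) / q)) / 2))
        (Qp k) := by
    intro k hk σ hσ
    rw [← key k hk σ hσ]
    unfold tw
    split_ifs with h
    · rfl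
    · rcases hσ with rfl | rfl
      · have e : (1 - th s p + 1 * (1 - th s q)) = -1 * ((th s p + 1 * th s q) + 2 * ((-1 : ℤ) : ℝ)) := by
          push_cast
          ring
        rw [e, b2_tanε (Or.inr rfl), b2_even hk (Or.inr rfl), b2_tan]
      · have e : (1 - th s p + -1 * (1 - th s q)) = -1 * (th s p + -1 * th s q) := by
          ring
        rw [e, b2_tanε (Or.inr rfl), b2_even hk (Or.inr rfl)]
  set A := tw {p, q} s p with hAdef
  set B := tw {p, q} s q with hBdef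
  have hεδ : ε * δ = 1 ∨ ε * δ = -1 := by
    rcases hε with rfl | rfl <;> rcases hδ with rfl | rfl <;> norm_num
  have hεδ0 : ε * δ ≠ 0 := by
    rcases hεδ with h | h <;> rw [h] <;> norm_num
  refine ⟨(A * B)⁻¹ * (ε * δ), mul_ne_zero (inv_ne_zero (mul_ne_zero hA.ne' hB.ne')) hεδ0,
    fun k => ?_⟩
  have hk : Odd (2 * k + 1) := ⟨k, rfl⟩
  have h1 := int_cosh (a := A + 1 * B) (by rw [one_mul, abs_of_pos (by positivity)]; exact hAB) hk
  have h2 := int_cosh (a := A + -1 * B) (by rw [abs_lt]; constructor <;> linarith) hk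
  rw [key2 _ hk 1 (Or.inl rfl)] at h1
  rw [key2 _ hk (-1) (Or.inr rfl)] at h2
  unfold rad
  have e : ∫ r in Set.Ioi (0 : ℝ), r ^ (2 * k + 2) * (tPhi {p, q} s ((r ^ 2 : ℝ) : ℂ)).re =
      ∫ r in Set.Ioi (0 : ℝ), (A * B)⁻¹ *
        (r ^ (2 * k + 1) * (Real.cosh ((A + 1 * B) * r / 2) / Real.sinh (r / 2)) -
          r ^ (2 * k + 1) * (Real.cosh ((A + -1 * B) * r / 2) / Real.sinh (r / 2))) := by
    refine setIntegral_congr_fun measurableSet_Ioi fun r hr => ?_
    have hr' : 0 < r := hr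
    have h3 : (tPhi {p, q} s ((r ^ 2 : ℝ) : ℂ)).re =
        (Real.sinh (A * r / 2) / (A * r / 2) * (Real.sinh (B * r / 2) / (B * r / 2))) *
          (r / 2 / Real.sinh (r / 2)) := by
      rw [b2_tPhi (l := {p, q}) ?_ hr', Finset.prod_pair hpq']
      intro p' hp'
      rcases Finset.mem_insert.1 hp' with rfl | hp'
      · exact hA.ne'
      · rw [Finset.mem_singleton.1 hp']
        exact hB.ne'
    have hs : Real.sinh (r / 2) ≠ 0 := (Real.sinh_pos_iff.2 (by positivity)).ne'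
    have h4 : Real.cosh ((A + 1 * B) * r / 2) - Real.cosh ((A + -1 * B) * r / 2) =
        2 * (Real.sinh (A * r / 2) * Real.sinh (B * r / 2)) := by
      rw [show (A + 1 * B) * r / 2 = A * r / 2 + B * r / 2 by ring,
        show (A + -1 * B) * r / 2 = A * r / 2 - B * r / 2 by ring, Real.cosh_add, Real.cosh_sub]
      ring
    simp only [h3]
    have h5 : r ^ (2 * k + 1) * (Real.cosh ((A + 1 * B) * r / 2) / Real.sinh (r / 2)) -
          r ^ (2 * k + 1) * (Real.cosh ((A + -1 * B) * r / 2) / Real.sinh (r / 2)) =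
        r ^ (2 * k + 1) * (2 * (Real.sinh (A * r / 2) * Real.sinh (B * r / 2))) /
          Real.sinh (r / 2) := by
      rw [← h4]
      ring
    rw [h5]
    have hA' := hA.ne'
    have hB' := hB.ne'
    field_simp
    ring
  rw [e, integral_const_mul, integral_sub h1.1 h2.1, h1.2, h2.2]
  have t1 : ∀ σ : ℝ, Real.pi * ((s : ℝ) / p + σ * ((s : ℝ) / q)) / 2 =
      Real.pi * s * (1 / p + σ * (1 / q)) / 2 := by
    intro σ
    ring
  rw [t1, t1]
  rcases hεδ with h | h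
  · rw [h]
    have e1 : Real.pi * (s : ℝ) * (1 / p + 1 * 1 * (1 / q)) / 2 = Real.pi * s * (1 / p + 1 / q) / 2 := by
      ring
    have e2 : Real.pi * (s : ℝ) * (1 / p + -1 * 1 * (1 / q)) / 2 = Real.pi * s * (1 / p - 1 / q) / 2 := by
      ring
    rw [e1, e2]
    ring
  · rw [h]
    have e1 : Real.pi * (s : ℝ) * (1 / p + 1 * -1 * (1 / q)) / 2 = Real.pi * s * (1 / p - 1 / q) / 2 := by
      ring
    have e2 : Real.pi * (s : ℝ) * (1 / p + -1 * -1 * (1 / q)) / 2 = Real.pi * s * (1 / p + 1 / q) / 2 := by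
      ring
    rw [e1, e2]
    ring

end Pool.Agent.GT
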