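import Mathlib

/-!
Conjugation of a rational polynomial relation between roots of unity: `zt M 1` is a primitive root of
unity of order `M`, its minimal polynomial over `ℚ` is the cyclotomic polynomial, which has the root `zt M s`
(`IsPrimitiveRoot`, `Polynomial.cyclotomic_eq_minpoly_rat`), so it divides `A`.
-/

set_option autoImplicit false

namespace Pool.Agent.GT

/-- `e ^ {2 π i s / M}`. -/
noncomputable def zt (M : ℕ) (s : ℤ) : ℂ := Complex.exp (2 * Real.pi * Complex.I * s / M)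

theorem zt_primitive {M : ℕ} [NeZero M] {s : ℤ} (hs : IsCoprime s (M : ℤ)) :
    IsPrimitiveRoot (zt M s) M := by
  have h := Complex.isPrimitiveRoot_exp_of_isCoprime s M (NeZero.ne M) hs
  unfold zt
  rwa [mul_div_assoc]

theorem aeval_conj {M : ℕ} [NeZero M] {A : Polynomial ℚ}
    (h : Polynomial.aeval (zt M 1) A = 0) {s : ℤ} (hs : IsCoprime s (M : ℤ)) :
    Polynomial.aeval (zt M s) A = 0 := by
  have h1 : minpoly ℚ (zt M 1) ∣ A := minpoly.dvd ℚ _ h
  have h2 := Polynomial.cyclotomic_eq_minpoly_rat (zt_primitive (M := M) (s := 1) isCoprime_one_left)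
    (Nat.pos_of_ne_zero (NeZero.ne M))
  have h3 := Polynomial.cyclotomic_eq_minpoly_rat (zt_primitive hs)
    (Nat.pos_of_ne_zero (NeZero.ne M))
  rw [← h2, h3] at h1
  exact minpoly.dvd_iff.1 h1

private theorem b3a_sum (x : ℂ) (n : ℕ) : (1 - x) ^ 2 * ∑ j ∈ Finset.range n, (j : ℂ) * x ^ j =
    x - n * x ^ n + (n - 1) * x ^ (n + 1) := by
  induction n with
  | zero => simp
  | succ n ih =>
    rw [Finset.sum_range_succ, mul_add, ih]
    push_cast
    ring

private theorem b3a_inv {x : ℂ} {M : ℕ} (hM : (M : ℂ) ≠ 0) (hx : x ^ M = 1) (h1 : x ≠ 1) :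
    (1 - x)⁻¹ = -(1 / (M : ℂ)) * ∑ j ∈ Finset.range M, (j : ℂ) * x ^ j := by
  have h2 : 1 - x ≠ 0 := sub_ne_zero.2 (Ne.symm h1)
  have h3 := b3a_sum x M
  rw [show x ^ (M + 1) = x ^ M * x from pow_succ x M, hx] at h3
  have h4 : (1 - x) * ((1 - x) * ∑ j ∈ Finset.range M, (j : ℂ) * x ^ j) = (1 - x) * (-M) := by
    rw [← mul_assoc, ← sq, h3]
    ring
  have h5 := mul_left_cancel₀ h2 h4
  have h6 : (1 - x) * (-(1 / (M : ℂ)) * ∑ j ∈ Finset.range M, (j : ℂ) * x ^ j) = 1 := by
    calc (1 - x) * (-(1 / (M : ℂ)) * ∑ j ∈ Finset.range M, (j : ℂ) * x ^ j)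
        = -(1 / (M : ℂ)) * ((1 - x) * ∑ j ∈ Finset.range M, (j : ℂ) * x ^ j) := by ring
      _ = -(1 / (M : ℂ)) * (-M) := by rw [h5]
      _ = 1 := by field_simp
  exact inv_eq_of_mul_eq_one_right h6

/-- The tangent of a rational multiple of `π` is `-i` times a rational polynomial in the root of unity: for
`w = e ^ {2 i y}`, `w ≠ -1`, `tan y = -i (w - 1) / (w + 1)`, and `1 / (w + 1)` is a polynomial in `w` (`M` even,
`w ^ M = 1`: for `x = -w` one has `x ^ M = 1`, `x ≠ 1` and `(1 - x) ∑_{j < M} j x ^ j = -M`). -/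
theorem tan_poly {M : ℕ} [NeZero M] (hM : Even M) (a : ℕ) : ∃ R : Polynomial ℚ,
    ∀ s : ℤ, zt M s ^ a ≠ -1 →
      Complex.tan (Real.pi * s * a / M) = -Complex.I * Polynomial.aeval (zt M s) R := by
  have hM0 : (M : ℂ) ≠ 0 := by exact_mod_cast NeZero.ne M
  refine ⟨(Polynomial.X ^ a - 1) * (Polynomial.C (-(1 / (M : ℚ))) *
    ∑ j ∈ Finset.range M, (j : Polynomial ℚ) * (-Polynomial.X ^ a) ^ j), fun s hs => ?_⟩
  set w : ℂ := zt M s ^ a with hw
  have hwM : w ^ M = 1 := by
    rw [hw, ← pow_mul, mul_comm, pow_mul]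
    have : zt M s ^ M = 1 := by
      unfold zt
      rw [← Complex.exp_nat_mul, mul_div_cancel₀ _ hM0]
      rw [show 2 * (Real.pi : ℂ) * Complex.I * (s : ℂ) = (s : ℂ) * (2 * Real.pi * Complex.I) by ring]
      exact Complex.exp_int_mul_two_pi_mul_I s
    rw [this, one_pow]
  set u : ℂ := Complex.exp ((Real.pi * s * a / M : ℂ) * Complex.I) with hu
  have hu0 : u ≠ 0 := Complex.exp_ne_zero _
  have huw : u ^ 2 = w := by
    rw [hu, hw]
    unfold zt
    rw [← Complex.exp_nat_mul, ← Complex.exp_nat_mul]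
    congr 1
    push_cast
    ring
  have hw1 : w + 1 ≠ 0 := by
    intro h
    exact hs (eq_neg_of_add_eq_zero_left h)
  have htan : Complex.tan (Real.pi * s * a / M) = -Complex.I * ((w - 1) * (w + 1)⁻¹) := by
    rw [Complex.tan, Complex.sin, Complex.cos, neg_mul, Complex.exp_neg, ← hu, ← huw]
    have h1 : u ^ 2 + 1 ≠ 0 := by rw [huw]; exact hw1
    have h2 : u + u⁻¹ ≠ 0 := by
      intro h
      apply h1
      have : u * (u + u⁻¹) = 0 := by rw [h, mul_zero]
      rw [mul_add, mul_inv_cancel₀ hu0] at this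
      linear_combination this
    field_simp
    ring
  rw [htan]
  congr 1
  rw [map_mul, map_sub, map_pow, Polynomial.aeval_X, map_one, ← hw]
  congr 1
  have hx : (-w) ^ M = 1 := by rw [hM.neg_pow, hwM]
  have hx1 : -w ≠ 1 := by
    intro h
    apply hw1
    linear_combination -h
  have h3 := b3a_inv hM0 hx hx1
  rw [show (1 : ℂ) - -w = w + 1 by ring] at h3
  rw [h3]
  simp [map_sum, ← hw]

end Pool.Agent.GT
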