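import Pool.Agent.H46.GT.B2
import Pool.Agent.H46.GT.B3a

/-!
The radial moments are, up to a factor which does not depend on `k`, values at `ζ ^ s`,
`ζ = e ^ {2 π i / M}`, of polynomials with rational coefficients which do not depend on `s`.
Let `w = e ^ {i π s / p} = (ζ ^ s) ^ {M / (2 p)}`; then `tan (π s / (2 p)) = -i (w - 1) / (w + 1)` (`tan_poly` of B3a),
`w ≠ -1`, `w` is a root of unity of order dividing `M`, and `1 / (w + 1)` is a polynomial in `w` with
rational coefficients: for `x = -w ≠ 1` with `x ^ M = 1` (`M` is even): `1 / (1 - x) =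
-(1 / M) ∑_{j < M} j x ^ j` (check the sign). The same for `1 / p ± 1 / q`, `w = (ζ ^ s) ^ {M/(2p) ± M/(2q)}`.
`Qp (2 k + 2)` is an odd polynomial, so `Qp(-i y) = -i · R(y)` with `R` rational; `Qp (2 k + 1)` is even,
so `Qp(-i y)` is a rational polynomial in `y`. The factor `-i` goes into `c`.
(So no `i` is needed inside the polynomials, and `M` need only be even.)
-/

set_option autoImplicit false

open PowerSeries Finset MeasureTheory

namespace Pool.Agent.GT

open Pool.Agent.OHG Pool.Agent.GPC Pool.Agent.SLR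

private lemma b3_Qp (k : ℕ) : ∃ P : Polynomial ℚ,
    ((Qp k).map (algebraMap ℚ ℂ)).comp (Polynomial.C (-Complex.I) * Polynomial.X) =
      Polynomial.C (if Even k then -Complex.I else 1) * P.map (algebraMap ℚ ℂ) := by
  induction k with
  | zero => exact ⟨Polynomial.X, by simp [Qp]⟩
  | succ k ih =>
    obtain ⟨P, hP⟩ := ih
    set q : Polynomial ℂ := Polynomial.C (-Complex.I) * Polynomial.X with hq
    set Q : Polynomial ℂ := (Qp k).map (algebraMap ℚ ℂ) with hQ
    set u : ℂ := if Even k then -Complex.I else 1 with hu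
    have h1 : Polynomial.C (-Complex.I) * (Polynomial.derivative Q).comp q =
        Polynomial.C u * (Polynomial.derivative P).map (algebraMap ℚ ℂ) := by
      have h2 := congrArg Polynomial.derivative hP
      have hdq : Polynomial.derivative q = Polynomial.C (-Complex.I) := by
        rw [hq]; simp
      rw [Polynomial.derivative_comp, hdq] at h2
      rw [h2, Polynomial.derivative_C_mul, Polynomial.derivative_map]
    have h3 : (Polynomial.derivative Q).comp q =
        Polynomial.C (Complex.I * u) * (Polynomial.derivative P).map (algebraMap ℚ ℂ) := by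
      have h4 := congrArg (fun x => Polynomial.C Complex.I * x) h1
      simp only [← mul_assoc, ← Polynomial.C_mul] at h4
      rw [show Complex.I * -Complex.I = 1 by simp] at h4
      simpa using h4
    have h5 : ((Qp (k + 1)).map (algebraMap ℚ ℂ)).comp q =
        Polynomial.C (1 / ((k : ℂ) + 1)) * ((1 + q ^ 2) * (Polynomial.derivative Q).comp q) := by
      simp only [Qp, Polynomial.map_mul, Polynomial.map_C, Polynomial.map_add, Polynomial.map_one,
        Polynomial.map_pow, Polynomial.map_X, Polynomial.mul_comp, Polynomial.C_comp,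
        Polynomial.add_comp, Polynomial.one_comp, Polynomial.pow_comp, Polynomial.X_comp,
        ← Polynomial.derivative_map, hQ]
      simp
    have h6 : q ^ 2 = - Polynomial.X ^ 2 := by
      rw [hq, mul_pow, ← Polynomial.C_pow]
      simp
    have hc : algebraMap ℚ ℂ (1 / ((k : ℚ) + 1)) = 1 / ((k : ℂ) + 1) := by simp
    by_cases hk : Even k
    · refine ⟨Polynomial.C (1 / ((k : ℚ) + 1)) * ((1 - Polynomial.X ^ 2) *
        Polynomial.derivative P), ?_⟩
      have hk1 : ¬ Even (k + 1) := by
        intro h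
        exact (Nat.even_add_one.mp h) hk
      rw [h5, h3, h6, hu, if_pos hk, if_neg hk1]
      rw [show Complex.I * -Complex.I = 1 by simp]
      simp only [Polynomial.map_mul, Polynomial.map_C, Polynomial.map_sub, Polynomial.map_one,
        Polynomial.map_pow, Polynomial.map_X]
      rw [hc, Polynomial.C_1]
      ring
    · refine ⟨-(Polynomial.C (1 / ((k : ℚ) + 1)) * ((1 - Polynomial.X ^ 2) *
        Polynomial.derivative P)), ?_⟩
      have hk1 : Even (k + 1) := Nat.even_add_one.mpr hk
      rw [h5, h3, h6, hu, if_neg hk, if_pos hk1]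
      simp only [Polynomial.map_mul, Polynomial.map_C, Polynomial.map_sub, Polynomial.map_one,
        Polynomial.map_pow, Polynomial.map_X, Polynomial.map_neg]
      rw [hc, mul_one, Polynomial.C_neg]
      ring

private lemma b3_aeval (k : ℕ) : ∃ P : Polynomial ℚ, ∀ y : ℂ,
    Polynomial.aeval (-Complex.I * y) (Qp k) =
      (if Even k then -Complex.I else 1) * Polynomial.aeval y P := by
  obtain ⟨P, hP⟩ := b3_Qp k
  refine ⟨P, fun y => ?_⟩
  have h := congrArg (Polynomial.eval y) hP
  rw [Polynomial.eval_comp, Polynomial.eval_mul, Polynomial.eval_mul, Polynomial.eval_C,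
    Polynomial.eval_C, Polynomial.eval_X, Polynomial.eval_map_algebraMap,
    Polynomial.eval_map_algebraMap] at h
  exact h

private lemma b3_cast (x : ℝ) (Q : Polynomial ℚ) :
    ((Polynomial.aeval x Q : ℝ) : ℂ) = Polynomial.aeval (x : ℂ) Q := by
  have h := Polynomial.aeval_algebraMap_apply ℂ x Q
  exact h.symm

private lemma b3_ne {M : ℕ} [NeZero M] {s : ℤ} (hs : IsCoprime s (M : ℤ)) {a : ℕ}
    (ha : ¬ M ∣ 2 * a) : zt M s ^ a ≠ -1 := by
  intro h
  apply ha
  have h1 := zt_primitive hs
  rw [← h1.pow_eq_one_iff_dvd, mul_comm, pow_mul, h]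
  norm_num

/-- The value of `Q_k` at a tangent. -/
private lemma b3_tan {M : ℕ} [NeZero M] (hM : Even M) (a : ℕ) (ha : ¬ M ∣ 2 * a) (k : ℕ) :
    ∃ P : Polynomial ℚ, ∀ s : ℤ, IsCoprime s (M : ℤ) → ∀ x : ℝ, x = Real.pi * s * a / M →
      ((Polynomial.aeval (Real.tan x) (Qp k) : ℝ) : ℂ) =
        (if Even k then -Complex.I else 1) * Polynomial.aeval (zt M s) P := by
  obtain ⟨R, hR⟩ := tan_poly hM a
  obtain ⟨P, hP⟩ := b3_aeval k
  refine ⟨P.comp R, fun s hs x hx => ?_⟩
  rw [b3_cast]
  have h1 : ((Real.tan x : ℝ) : ℂ) = -Complex.I * Polynomial.aeval (zt M s) R := by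
    rw [← hR s (b3_ne hs ha), Complex.ofReal_tan, hx]
    push_cast
    rfl
  rw [h1, hP, Polynomial.aeval_comp]

private lemma b3_copl {M : ℕ} {l : Finset ℕ} (hM : ∀ p ∈ l, 2 * p ∣ M) (h2 : 4 ∣ M) {s : ℤ}
    (hs : IsCoprime s (M : ℤ)) : CopL l s := by
  constructor
  · have h3 : IsCoprime s 2 :=
      IsCoprime.of_isCoprime_of_dvd_right hs (by exact_mod_cast (dvd_trans (by norm_num) h2 : 2 ∣ M))
    rw [← Int.not_even_iff_odd]
    intro h4
    have h5 : (2 : ℤ) ∣ s := even_iff_two_dvd.mp h4
    have h6 := h3.isUnit_of_dvd' h5 dvd_rfl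
    rw [Int.isUnit_iff] at h6
    omega
  · intro p hp
    exact IsCoprime.of_isCoprime_of_dvd_right hs
      (by exact_mod_cast (dvd_trans (Dvd.intro_left 2 rfl) (hM p hp) : p ∣ M))

theorem node_galois {M : ℕ} [NeZero M] {l : Finset ℕ} (hl : Nd l) (hM : ∀ p ∈ l, 2 * p ∣ M)
    (h2 : 4 ∣ M) :
    ∃ ψ : ℕ → Polynomial ℚ, ∀ s : ℤ, IsCoprime s (M : ℤ) → ∃ c : ℂ, c ≠ 0 ∧ ∀ k : ℕ,
      ((rad (tPhi l s) k : ℝ) : ℂ) =
        c * (Real.pi : ℂ) ^ (2 * k + 4 - l.card) * Polynomial.aeval (zt M s) (ψ k) := by
  have hM0 : M ≠ 0 := NeZero.ne M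
  have hMpos : 0 < M := Nat.pos_of_ne_zero hM0
  have hev : Even M := even_iff_two_dvd.mpr (dvd_trans (by norm_num) h2)
  have hcard := hl.card
  have hcop := fun s hs => b3_copl (s := s) hM h2 hs
  have hMR : (M : ℝ) ≠ 0 := by exact_mod_cast hM0
  rcases (by omega : l.card = 0 ∨ l.card = 1 ∨ l.card = 2) with h0 | h1 | h2c
  · -- no leaf
    rw [Finset.card_eq_zero] at h0
    subst h0
    refine ⟨fun k => Polynomial.C (1 / 2 * ((2 * k + 3).factorial : ℚ) * (Qp (2 * k + 3)).eval 0),
      fun s hs => ⟨1, one_ne_zero, fun k => ?_⟩⟩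
    rw [rad_zero_leaf]
    push_cast
    rw [b3_cast, Polynomial.aeval_C]
    have h3 : Polynomial.aeval ((0 : ℝ) : ℂ) (Qp (2 * k + 3)) =
        algebraMap ℚ ℂ ((Qp (2 * k + 3)).eval 0) := by
      have := Polynomial.aeval_algebraMap_apply ℂ (0 : ℚ) (Qp (2 * k + 3))
      rw [map_zero] at this
      rw [Complex.ofReal_zero, this, Polynomial.coe_aeval_eq_eval]
    rw [h3]
    simp only [Finset.card_empty, tsub_zero, map_mul, map_div₀, map_one, map_ofNat, map_natCast]
    ring
  · -- one leaf
    obtain ⟨p, rfl⟩ := Finset.card_eq_one.mp h1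
    have hp := hl.two_le p (by simp)
    obtain ⟨a, ha⟩ := hM p (by simp)
    have hdvd : ¬ M ∣ 2 * a := by
      intro hd
      have h4 : 0 < a := by
        rcases Nat.eq_zero_or_pos a with h | h
        · subst h; simp at ha; omega
        · exact h
      have h5 := Nat.le_of_dvd (by omega) hd
      rw [ha] at h5
      nlinarith
    choose P hP using fun k => b3_tan hev a hdvd (2 * k + 2)
    refine ⟨fun k => Polynomial.C ((2 * k + 2).factorial : ℚ) * P k, fun s hs => ?_⟩
    obtain ⟨c, hc0, hc⟩ := rad_one_leaf hp (hcop s hs)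
    refine ⟨c * -Complex.I, mul_ne_zero (by exact_mod_cast hc0) (by simp), fun k => ?_⟩
    rw [hc k]
    push_cast
    have hx : Real.pi * s / (2 * p) = Real.pi * s * a / M := by
      have hpR : (p : ℝ) ≠ 0 := by
        have : p ≠ 0 := by omega
        exact_mod_cast this
      have haR : (M : ℝ) = 2 * p * a := by exact_mod_cast ha
      have ha0 : (a : ℝ) ≠ 0 := by
        intro h
        rw [h, mul_zero] at haR
        exact hMR haR
      rw [haR]
      field_simp
    rw [hP k s hs _ hx, if_pos (by exact ⟨k + 1, by ring⟩)]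
    simp only [Finset.card_singleton, map_mul, Polynomial.aeval_C, map_natCast]
    rw [show 2 * k + 4 - 1 = 2 * k + 3 by omega]
    ring
  · -- two leaves
    obtain ⟨p, q, hpq, hlpq⟩ := Finset.card_eq_two.mp h2c
    obtain ⟨p, q, hlt, hlpq⟩ : ∃ p q : ℕ, p < q ∧ l = {p, q} := by
      rcases Nat.lt_or_gt_of_ne hpq with h | h
      · exact ⟨p, q, h, hlpq⟩
      · exact ⟨q, p, h, by rw [hlpq, Finset.pair_comm]⟩
    subst hlpq
    have hp := hl.two_le p (by simp)
    have hq := hl.two_le q (by simp)
    have hcpq := hl.cop p (by simp) q (by simp) hlt.ne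
    obtain ⟨a, ha⟩ := hM p (by simp)
    obtain ⟨b, hb⟩ := hM q (by simp)
    have hb0 : 0 < b := by
      rcases Nat.eq_zero_or_pos b with h | h
      · subst h; simp at hb; omega
      · exact h
    have hab : b < a := by
      by_contra hcon
      have h4 : a ≤ b := not_lt.mp hcon
      have : 2 * p * a < 2 * q * b := by
        calc 2 * p * a ≤ 2 * p * b := Nat.mul_le_mul_left _ h4
          _ < 2 * q * b := by
            apply Nat.mul_lt_mul_of_pos_right _ hb0
            omega
      omega
    have hndvd : ¬ p ∣ q := by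
      intro h
      have := Nat.Coprime.eq_one_of_dvd hcpq h
      omega
    have hd1 : ¬ M ∣ 2 * (a + b) := by
      rintro ⟨t, ht⟩
      apply hndvd
      have h5 : M * (q + p) = M * (t * p * q) := by
        calc M * (q + p) = M * q + M * p := by ring
          _ = (2 * p * a) * q + (2 * q * b) * p := by rw [← ha, ← hb]
          _ = (2 * (a + b)) * p * q := by ring
          _ = M * t * p * q := by rw [ht]
          _ = _ := by ring
      have h6 := Nat.eq_of_mul_eq_mul_left hMpos h5
      have h7 : p ∣ q + p := ⟨t * q, by rw [h6]; ring⟩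
      exact (Nat.dvd_add_left dvd_rfl).mp h7
    have hd2 : ¬ M ∣ 2 * (a - b) := by
      rintro ⟨t, ht⟩
      apply hndvd
      have h4 : a = (a - b) + b := by omega
      have h5 : M * q = M * (t * p * q + p) := by
        calc M * q = (2 * p * a) * q := by rw [← ha]
          _ = (2 * (a - b)) * p * q + (2 * q * b) * p := by
            conv_lhs => rw [h4]
            ring
          _ = M * t * p * q + M * p := by rw [ht, ← hb]
          _ = _ := by ring
      have h6 := Nat.eq_of_mul_eq_mul_left hMpos h5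
      exact ⟨t * q + 1, by rw [mul_add, mul_one]; nlinarith⟩
    choose P hP using fun k => b3_tan hev (a + b) hd1 (2 * k + 1)
    choose P' hP' using fun k => b3_tan hev (a - b) hd2 (2 * k + 1)
    refine ⟨fun k => Polynomial.C ((2 * k + 1).factorial : ℚ) * (P k - P' k), fun s hs => ?_⟩
    obtain ⟨c, hc0, hc⟩ := rad_two_leaves hp hq hcpq (hcop s hs)
    refine ⟨c, by exact_mod_cast hc0, fun k => ?_⟩
    rw [hc k]
    push_cast
    have hpR : (p : ℝ) ≠ 0 := by
      have : p ≠ 0 := by omega
      exact_mod_cast this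
    have hqR : (q : ℝ) ≠ 0 := by
      have : q ≠ 0 := by omega
      exact_mod_cast this
    have haR : (M : ℝ) = 2 * p * a := by exact_mod_cast ha
    have hbR : (M : ℝ) = 2 * q * b := by exact_mod_cast hb
    have e1 : (1 : ℝ) / p = 2 * a / M := by
      rw [haR]
      have ha0 : (a : ℝ) ≠ 0 := by
        intro h
        rw [h, mul_zero] at haR
        exact hMR haR
      field_simp
    have e2 : (1 : ℝ) / q = 2 * b / M := by
      rw [hbR]
      have hb0' : (b : ℝ) ≠ 0 := by exact_mod_cast hb0.ne'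
      field_simp
    have hx1 : Real.pi * s * (1 / p + 1 / q) / 2 = Real.pi * s * ((a + b : ℕ) : ℝ) / M := by
      rw [e1, e2]; push_cast; ring
    have hx2 : Real.pi * s * (1 / p - 1 / q) / 2 = Real.pi * s * ((a - b : ℕ) : ℝ) / M := by
      rw [e1, e2, Nat.cast_sub hab.le]; ring
    have hodd : ¬ Even (2 * k + 1) := by
      rw [Nat.not_even_iff_odd]; exact ⟨k, rfl⟩
    rw [hP k s hs _ hx1, hP' k s hs _ hx2, if_neg hodd]
    rw [Finset.card_pair hlt.ne]
    simp only [map_mul, Polynomial.aeval_C, map_natCast, map_sub]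
    rw [show 2 * k + 4 - 2 = 2 * k + 2 by omega]
    ring

end Pool.Agent.GT
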