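import Pool.Agent.H46.GT.B3
import Pool.Agent.H46.GT.A3

/-!
The twisted moments are proportional. Let `N = n + 1` and `S_k^D(s) = ∑_j q_k(j) ∏_v rad (Φ_v^s) (j_v)`
(`law_moment`); by `node_galois` it is `C_D(s) π ^ (2 k + 4 N - ∑_v |leaf v|) Ψ_k^D(ζ^s)`, where
`C_D(s) = ∏_v c_v(s) ≠ 0` and `Ψ_k^D = ∑_j q_k(j) ∏_v ψ_{v, j_v}` is a polynomial with rational
coefficients, and `∑_v |leaf v| = N + 2` for both diagrams (`sum_card_leaf`). From
`S_k^D(1) = r S_k^{D'}(1)` for all `k` we get `Ψ_k^D(ζ) Ψ_0^{D'}(ζ) = Ψ_k^{D'}(ζ) Ψ_0^D(ζ)`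
(`S_0 > 0` for both, `r ≠ 0`), so the same at `ζ^s` by `aeval_conj`, and therefore
`S_k^D(s) S_0^{D'}(s) = S_k^{D'}(s) S_0^D(s)`.
-/

set_option autoImplicit false

open PowerSeries Finset MeasureTheory

namespace Pool.Agent.GT

open Pool.Agent.OHG Pool.Agent.GPC Pool.Agent.SLR

private theorem b4_form {V : Type} [Fintype V] [DecidableEq V] {D : Data V} (h : D.IsGraph)
    (ht : Tri D) (hV : 2 ≤ Fintype.card V) {M : ℕ} [NeZero M] (h4 : 4 ∣ M)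
    (hM : ∀ v, ∀ p ∈ D.leaf v, 2 * p ∣ M) :
    ∃ Ψ : ℕ → Polynomial ℚ, ∀ s : ℤ, Cop D s → IsCoprime s (M : ℤ) →
      0 < ∫ y, y ^ 0 ∂(tlaw D s) ∧ ∃ C : ℂ, C ≠ 0 ∧ ∀ k : ℕ,
        ((∫ y, y ^ k ∂(tlaw D s) : ℝ) : ℂ) =
          C * (Real.pi : ℂ) ^ (2 * k) * Polynomial.aeval (zt M s) (Ψ k) := by
  obtain ⟨q, hq0, _, hq⟩ := law_moment h
  choose ψ hψ using fun v => node_galois (M := M) (nd_leaf h ht hV v) (hM v) h4
  refine ⟨fun n => ∑ j ∈ (univ : Finset V).piAntidiag n,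
    Polynomial.C (q n j) * ∏ v, ψ v (j v), fun s hs hsM => ?_⟩
  have hlaw := hq (fun v => tPhi (D.leaf v) s) (fun v => tphi (D.leaf v) s)
    (fun v => good_tPhi (nd_leaf h ht hV v) (hs v))
  choose c hc0 hc using fun v => hψ v s hsM
  refine ⟨?_, ?_⟩
  · show 0 < ∫ y, y ^ 0 ∂(law D fun v => tPhi (D.leaf v) s)
    rw [hlaw 0]
    have e : (univ : Finset V).piAntidiag 0 = {0} := by
      simp
    rw [e, Finset.sum_singleton, hq0]
    have h1 : 0 < ∏ v, rad (tPhi (D.leaf v) s) ((0 : V → ℕ) v) :=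
      Finset.prod_pos fun v _ => rad_pos (nd_leaf h ht hV v) (hs v) _
    have h2 : 0 < (4 * Real.pi) ^ Fintype.card V := by
      have := Real.pi_pos
      positivity
    have h3 : ((1 : ℚ) : ℝ) = 1 := by norm_num
    rw [h3, one_mul]
    exact mul_pos h2 h1
  · have hpi : (Real.pi : ℂ) ≠ 0 := by
      exact_mod_cast Real.pi_ne_zero
    refine ⟨(4 * (Real.pi : ℂ)) ^ Fintype.card V *
      ((∏ v, c v) * (Real.pi : ℂ) ^ (∑ v, (4 - (D.leaf v).card))), ?_, fun k => ?_⟩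
    · refine mul_ne_zero (pow_ne_zero _ (mul_ne_zero (by norm_num) hpi)) (mul_ne_zero ?_ (pow_ne_zero _ hpi))
      exact Finset.prod_ne_zero_iff.mpr fun v _ => hc0 v
    · show ((∫ y, y ^ k ∂(law D fun v => tPhi (D.leaf v) s) : ℝ) : ℂ) = _
      rw [hlaw k]
      push_cast
      rw [map_sum, Finset.mul_sum, Finset.mul_sum]
      refine Finset.sum_congr rfl fun j hj => ?_
      rw [map_mul, Polynomial.aeval_C, map_prod]
      have hj' : ∑ v, j v = k := (Finset.mem_piAntidiag.mp hj).1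
      have h1 : ∏ v, ((rad (tPhi (D.leaf v) s) (j v) : ℝ) : ℂ) =
          (∏ v, c v) * ((Real.pi : ℂ) ^ (2 * k) * (Real.pi : ℂ) ^ (∑ v, (4 - (D.leaf v).card))) *
            ∏ v, Polynomial.aeval (zt M s) (ψ v (j v)) := by
        have h2 : ∀ v, ((rad (tPhi (D.leaf v) s) (j v) : ℝ) : ℂ) =
            c v * ((Real.pi : ℂ) ^ (2 * j v) * (Real.pi : ℂ) ^ (4 - (D.leaf v).card)) *
              Polynomial.aeval (zt M s) (ψ v (j v)) := by
          intro v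
          rw [hc v (j v)]
          have h3 : 2 * j v + 4 - (D.leaf v).card = 2 * j v + (4 - (D.leaf v).card) := by
            have := (nd_leaf h ht hV v).card
            omega
          rw [h3, pow_add]
        rw [Finset.prod_congr rfl fun v _ => h2 v, Finset.prod_mul_distrib,
          Finset.prod_mul_distrib, Finset.prod_mul_distrib, Finset.prod_pow_eq_pow_sum,
          Finset.prod_pow_eq_pow_sum, ← Finset.mul_sum, hj']
      have h5 : (algebraMap ℚ ℂ) (q k j) = ((q k j : ℚ) : ℂ) := rfl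
      rw [h1, h5]
      ring

theorem twist_moments {n : ℕ} (hn : 1 ≤ n) {D D' : Data (Fin (n + 1))} (h : D.IsGraph)
    (h' : D'.IsGraph) (ht : Tri D) (ht' : Tri D') {r : ℝ} (hr : r ≠ 0)
    (hm : ∀ k : ℕ, ∫ y, y ^ k ∂(tlaw D 1) = r * ∫ y, y ^ k ∂(tlaw D' 1)) {s : ℤ} (hs : Cop D s)
    (hs' : Cop D' s) :
    ∃ r' : ℝ, 0 < r' ∧ ∀ k : ℕ, ∫ y, y ^ k ∂(tlaw D s) = r' * ∫ y, y ^ k ∂(tlaw D' s) := by
  have hV : 2 ≤ Fintype.card (Fin (n + 1)) := by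
    rw [Fintype.card_fin]
    omega
  obtain ⟨M, hMdef⟩ : ∃ M : ℕ, M = 4 * ((∏ v, ∏ p ∈ D.leaf v, p) * ∏ v, ∏ p ∈ D'.leaf v, p) :=
    ⟨_, rfl⟩
  have hM0 : M ≠ 0 := by
    rw [hMdef]
    refine mul_ne_zero (by norm_num) (mul_ne_zero ?_ ?_)
    · refine Finset.prod_ne_zero_iff.mpr fun v _ => Finset.prod_ne_zero_iff.mpr fun p hp => ?_
      have := (nd_leaf h ht hV v).two_le p hp
      omega
    · refine Finset.prod_ne_zero_iff.mpr fun v _ => Finset.prod_ne_zero_iff.mpr fun p hp => ?_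
      have := (nd_leaf h' ht' hV v).two_le p hp
      omega
  have : NeZero M := ⟨hM0⟩
  have h4 : 4 ∣ M := by
    rw [hMdef]
    exact Dvd.intro _ rfl
  have hMD : ∀ v, ∀ p ∈ D.leaf v, 2 * p ∣ M := by
    intro v p hp
    rw [hMdef]
    refine mul_dvd_mul (by norm_num) ?_
    exact dvd_mul_of_dvd_left (dvd_trans (Finset.dvd_prod_of_mem (fun p : ℕ => p) hp)
      (Finset.dvd_prod_of_mem (fun v => ∏ p ∈ D.leaf v, p) (Finset.mem_univ v))) _
  have hMD' : ∀ v, ∀ p ∈ D'.leaf v, 2 * p ∣ M := by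
    intro v p hp
    rw [hMdef]
    refine mul_dvd_mul (by norm_num) ?_
    exact dvd_mul_of_dvd_right (dvd_trans (Finset.dvd_prod_of_mem (fun p : ℕ => p) hp)
      (Finset.dvd_prod_of_mem (fun v => ∏ p ∈ D'.leaf v, p) (Finset.mem_univ v))) _
  have hcop : IsCoprime s (M : ℤ) := by
    rw [hMdef]
    push_cast
    refine IsCoprime.mul_right ?_ (IsCoprime.mul_right ?_ ?_)
    · obtain ⟨a, ha⟩ := (hs 0).1
      have h2 : IsCoprime s (2 : ℤ) := ⟨1, -a, by rw [ha]; ring⟩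
      have h3 := IsCoprime.mul_right h2 h2
      norm_num at h3
      exact h3
    · exact IsCoprime.prod_right fun v _ => IsCoprime.prod_right fun p hp => (hs v).2 p hp
    · exact IsCoprime.prod_right fun v _ => IsCoprime.prod_right fun p hp => (hs' v).2 p hp
  have hone : IsCoprime (1 : ℤ) (M : ℤ) := isCoprime_one_left
  have hc1 : Cop D 1 := fun v => ⟨odd_one, fun p _ => isCoprime_one_left⟩
  have hc1' : Cop D' 1 := fun v => ⟨odd_one, fun p _ => isCoprime_one_left⟩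
  obtain ⟨Ψ, hΨ⟩ := b4_form h ht hV h4 hMD
  obtain ⟨Ψ', hΨ'⟩ := b4_form h' ht' hV h4 hMD'
  obtain ⟨_, C, hC, hCk⟩ := hΨ 1 hc1 hone
  obtain ⟨_, C', hC', hCk'⟩ := hΨ' 1 hc1' hone
  obtain ⟨hp, E, hE, hEk⟩ := hΨ s hs hcop
  obtain ⟨hp', E', hE', hEk'⟩ := hΨ' s hs' hcop
  have hpi : (Real.pi : ℂ) ≠ 0 := by
    exact_mod_cast Real.pi_ne_zero
  have key : ∀ k, Polynomial.aeval (zt M 1) (Ψ k) =
      (r : ℂ) * C' / C * Polynomial.aeval (zt M 1) (Ψ' k) := by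
    intro k
    have h1 : ((∫ y, y ^ k ∂(tlaw D 1) : ℝ) : ℂ) = (r : ℂ) * ((∫ y, y ^ k ∂(tlaw D' 1) : ℝ) : ℂ) := by
      rw [hm k]
      push_cast
      ring
    rw [hCk k, hCk' k] at h1
    have h2 : (Real.pi : ℂ) ^ (2 * k) ≠ 0 := pow_ne_zero _ hpi
    have h3 : (C * (Real.pi : ℂ) ^ (2 * k)) ≠ 0 := mul_ne_zero hC h2
    apply mul_left_cancel₀ h3
    rw [h1]
    field_simp
  have hA : ∀ k, Polynomial.aeval (zt M 1) (Ψ k * Ψ' 0 - Ψ' k * Ψ 0) = 0 := by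
    intro k
    rw [map_sub, map_mul, map_mul, key k, key 0]
    ring
  have hB : ∀ k, Polynomial.aeval (zt M s) (Ψ k) * Polynomial.aeval (zt M s) (Ψ' 0) =
      Polynomial.aeval (zt M s) (Ψ' k) * Polynomial.aeval (zt M s) (Ψ 0) := by
    intro k
    have h1 := aeval_conj (hA k) hcop
    rw [map_sub, map_mul, map_mul] at h1
    exact sub_eq_zero.mp h1
  refine ⟨(∫ y, y ^ 0 ∂(tlaw D s)) / ∫ y, y ^ 0 ∂(tlaw D' s), div_pos hp hp', fun k => ?_⟩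
  have hfin : (∫ y, y ^ k ∂(tlaw D s)) * ∫ y, y ^ 0 ∂(tlaw D' s) =
      (∫ y, y ^ 0 ∂(tlaw D s)) * ∫ y, y ^ k ∂(tlaw D' s) := by
    have h1 : (((∫ y, y ^ k ∂(tlaw D s)) * ∫ y, y ^ 0 ∂(tlaw D' s) : ℝ) : ℂ) =
        (((∫ y, y ^ 0 ∂(tlaw D s)) * ∫ y, y ^ k ∂(tlaw D' s) : ℝ) : ℂ) := by
      rw [Complex.ofReal_mul, Complex.ofReal_mul, hEk k, hEk' 0, hEk 0, hEk' k]
      linear_combination E * (Real.pi : ℂ) ^ (2 * k) * E' * (Real.pi : ℂ) ^ (2 * 0) * hB k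
    exact_mod_cast h1
  rw [div_mul_eq_mul_div, eq_div_iff hp'.ne']
  exact hfin

end Pool.Agent.GT
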