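import Pool.Agent.H46.GT.B4
import Pool.Agent.H46.GT.A2
import Pool.Agent.H46.GT.A4

/-!
The twisted series agree. `part D = part D'` gives proportional laws at `s = 1` (`tpart_one`, `law_eq`),
hence proportional moments, hence proportional twisted moments (`twist_moments`), hence proportional
twisted laws (`stieltjes`, applied to `tlaw D s` and `r' • tlaw D' s`, with `law_exp`, `law_supp`), hence
`tpart D s = tpart D' s` (`gpart_eq`, `tphi_zero`). The second statement: the quotient of the moments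
of degree `1` and `0` of `tlaw D s` is `∑_v (L⁻¹)_vv rho (leaf v) s` by `law_moment`.
-/

set_option autoImplicit false

open PowerSeries Finset MeasureTheory

namespace Pool.Agent.GT

open Pool.Agent.OHG Pool.Agent.GPC Pool.Agent.SLR

variable {V : Type} [Fintype V] [DecidableEq V]

private theorem b5_mem (j : V → ℕ) (n : ℕ) : j ∈ (univ : Finset V).piAntidiag n ↔ ∑ v, j v = n := by
  rw [mem_piAntidiag]
  simp

private theorem b5_sum_single (v : V) (k : ℕ) : ∑ w, (Pi.single v k : V → ℕ) w = k := by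
  rw [sum_eq_single v]
  · simp
  · intro w _ hw
    exact Pi.single_eq_of_ne hw _
  · intro h
    exact absurd (mem_univ v) h

private theorem b5_eq {j : V → ℕ} (h : ∑ v, j v = 1) : ∃ v, j = Pi.single v 1 := by
  obtain ⟨v, -, hv⟩ : ∃ v ∈ (univ : Finset V), j v ≠ 0 := by
    by_contra hcon
    push Not at hcon
    rw [sum_eq_zero hcon] at h
    omega
  refine ⟨v, ?_⟩
  have h1 := Finset.add_sum_erase univ j (mem_univ v)
  rw [h] at h1
  have h2 : ∑ w ∈ univ.erase v, j w = 0 := by omega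
  have h3 : j v = 1 := by omega
  funext w
  by_cases hw : w = v
  · subst hw
    rw [h3, Pi.single_eq_same]
  · rw [Pi.single_eq_of_ne hw]
    exact (sum_eq_zero_iff.mp h2) w (mem_erase.2 ⟨hw, mem_univ w⟩)

private theorem b5_sum_one (F : (V → ℕ) → ℝ) :
    ∑ j ∈ (univ : Finset V).piAntidiag 1, F j = ∑ v, F (Pi.single v 1) := by
  symm
  refine sum_bij (fun v _ => Pi.single v 1) ?_ ?_ ?_ ?_
  · intro v _
    rw [b5_mem, b5_sum_single]
  · intro v _ w _ hvw
    by_contra hne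
    have := congrFun hvw v
    simp [Pi.single_eq_of_ne hne] at this
  · intro j hj
    rw [b5_mem] at hj
    obtain ⟨v, rfl⟩ := b5_eq hj
    exact ⟨v, mem_univ v, rfl⟩
  · intro v _
    rfl

/-- The quotient of the first two moments. -/
private theorem b5_quot {D : Data V} (h : D.IsGraph) {s : ℤ} (hnd : ∀ v, Nd (D.leaf v))
    (hs : Cop D s) :
    ∃ m₀ : ℝ, m₀ ≠ 0 ∧ ∫ y, y ^ 0 ∂(tlaw D s) = m₀ ∧
      ∫ y, y ^ 1 ∂(tlaw D s) = m₀ * ∑ v, (lkm D)⁻¹ v v * rho (D.leaf v) s := by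
  obtain ⟨q, hq0, hq1, hq⟩ := law_moment h
  have hg : ∀ v, Good (tPhi (D.leaf v) s) (tphi (D.leaf v) s) := fun v =>
    good_tPhi (hnd v) (hs v)
  have hr : ∀ v, rad (tPhi (D.leaf v) s) 0 ≠ 0 := fun v => (rad_pos (hnd v) (hs v) 0).ne'
  refine ⟨(4 * Real.pi) ^ Fintype.card V * ∏ v, rad (tPhi (D.leaf v) s) 0, ?_, ?_, ?_⟩
  · refine mul_ne_zero (pow_ne_zero _ ?_) (Finset.prod_ne_zero_iff.2 fun v _ => hr v)
    exact mul_ne_zero four_ne_zero Real.pi_ne_zero
  · rw [tlaw, hq _ _ hg 0, Finset.piAntidiag_zero, Finset.sum_singleton, hq0]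
    simp
  · rw [tlaw, hq _ _ hg 1, b5_sum_one, mul_assoc]
    refine congrArg (fun x => (4 * Real.pi) ^ Fintype.card V * x) ?_
    rw [Finset.mul_sum]
    refine Finset.sum_congr rfl fun v _ => ?_
    rw [hq1 v]
    have h1 : ∏ w, rad (tPhi (D.leaf w) s) ((Pi.single v 1 : V → ℕ) w) =
        (∏ w, rad (tPhi (D.leaf w) s) 0) * rho (D.leaf v) s := by
      rw [← Finset.mul_prod_erase univ _ (mem_univ v),
        ← Finset.mul_prod_erase univ (fun w => rad (tPhi (D.leaf w) s) 0) (mem_univ v),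
        Pi.single_eq_same, rho]
      have h2 : ∏ w ∈ univ.erase v, rad (tPhi (D.leaf w) s) ((Pi.single v 1 : V → ℕ) w) =
          ∏ w ∈ univ.erase v, rad (tPhi (D.leaf w) s) 0 := by
        refine Finset.prod_congr rfl fun w hw => ?_
        rw [Pi.single_eq_of_ne (Finset.mem_erase.1 hw).1]
      rw [h2]
      have h3 := hr v
      field_simp
    rw [h1]
    ring

private theorem b5_exp_mono {μ : Measure ℝ} {c c' : ℝ} (hc : c ≤ c')
    (h : Integrable (fun y => Real.exp (c' * Real.sqrt |y|)) μ) :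
    Integrable (fun y => Real.exp (c * Real.sqrt |y|)) μ := by
  refine h.mono' ?_ (Filter.Eventually.of_forall fun y => ?_)
  · exact Continuous.aestronglyMeasurable (by fun_prop)
  · rw [Real.norm_of_nonneg (Real.exp_pos _).le]
    exact Real.exp_le_exp.2 (mul_le_mul_of_nonneg_right hc (Real.sqrt_nonneg _))

theorem twisted {n : ℕ} (hn : 1 ≤ n) {D D' : Data (Fin (n + 1))} (h : D.IsGraph)
    (h' : D'.IsGraph) (ht : Tri D) (ht' : Tri D') {s₀ : ℤ} (hs₀ : s₀ = 1 ∨ s₀ = -1)
    (hd : Definite s₀ ⟨n, D, h⟩) (hd' : Definite s₀ ⟨n, D', h'⟩) (hp : part D = part D') {s : ℤ}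
    (hs : Cop D s) (hs' : Cop D' s) :
    tpart D s = tpart D' s ∧
      ∑ v, (lkm D)⁻¹ v v * rho (D.leaf v) s = ∑ v, (lkm D')⁻¹ v v * rho (D'.leaf v) s := by
  have hV : 2 ≤ Fintype.card (Fin (n + 1)) := by
    rw [Fintype.card_fin]
    omega
  have hnd := nd_leaf h ht hV
  have hnd' := nd_leaf h' ht' hV
  have hone : ∀ E : Data (Fin (n + 1)), Cop E 1 := fun E v => ⟨odd_one, fun p _ => isCoprime_one_left⟩
  have hg : ∀ (t : ℤ), Cop D t → ∀ v, Good (tPhi (D.leaf v) t) (tphi (D.leaf v) t) := fun t hc v =>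
    good_tPhi (hnd v) (hc v)
  have hg' : ∀ (t : ℤ), Cop D' t → ∀ v, Good (tPhi (D'.leaf v) t) (tphi (D'.leaf v) t) :=
    fun t hc v => good_tPhi (hnd' v) (hc v)
  have hp1 : gpart D (fun v => tphi (D.leaf v) 1) = gpart D' (fun v => tphi (D'.leaf v) 1) := by
    have h1 := tpart_one h ht hV
    have h2 := tpart_one h' ht' hV
    unfold tpart at h1 h2
    rw [h1, h2, hp]
  obtain ⟨r, hr, hlaw⟩ := law_eq h h' (hg 1 (hone D)) (hg' 1 (hone D')) hp1
  have hm : ∀ k : ℕ, ∫ y, y ^ k ∂(tlaw D 1) = (r : ℝ) * ∫ y, y ^ k ∂(tlaw D' 1) := by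
    intro k
    unfold tlaw
    rw [hlaw, integral_smul_nnreal_measure, NNReal.smul_def, smul_eq_mul]
  have hr0 : (r : ℝ) ≠ 0 := by exact_mod_cast hr
  obtain ⟨r', hr', hm'⟩ := twist_moments hn h h' ht ht' hr0 hm hs hs'
  have hs₀' : (s₀ : ℝ) = 1 ∨ (s₀ : ℝ) = -1 := by
    rcases hs₀ with rfl | rfl
    · left
      norm_num
    · right
      norm_num
  -- the twisted laws are proportional
  have hlaws : tlaw D s = (Real.toNNReal r') • tlaw D' s := by
    have hfin := (law_exists h (hg s hs)).1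
    have hfin' := (law_exists h' (hg' s hs')).1
    obtain ⟨c, hc, hci⟩ := law_exp h (hg s hs)
    obtain ⟨c', hc', hci'⟩ := law_exp h' (hg' s hs')
    have hf1 : IsFiniteMeasure (tlaw D s) := hfin
    have hf2 : IsFiniteMeasure (tlaw D' s) := hfin'
    have hf3 : IsFiniteMeasure ((Real.toNNReal r') • tlaw D' s) := inferInstance
    refine stieltjes hs₀' (law_supp h hs₀ hd (hg s hs)) ?_ (lt_min hc hc')
      (b5_exp_mono (min_le_left c c') hci) ?_ ?_
    · rw [Measure.smul_apply]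
      have h1 : (tlaw D' s) {y | (s₀ : ℝ) * y < 0} = 0 := law_supp h' hs₀ hd' (hg' s hs')
      rw [h1, smul_zero]
    · have h1 : Integrable (fun y => Real.exp (min c c' * Real.sqrt |y|)) (tlaw D' s) :=
        b5_exp_mono (min_le_right c c') hci'
      exact h1.smul_measure_nnreal
    · intro k
      rw [hm' k, integral_smul_nnreal_measure, NNReal.smul_def, smul_eq_mul,
        Real.coe_toNNReal _ hr'.le]
  refine ⟨gpart_eq h h' (hg s hs) (hg' s hs') (fun v => tphi_zero _ _) (fun v => tphi_zero _ _)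
    hlaws, ?_⟩
  obtain ⟨a, ha, ha0, ha1⟩ := b5_quot h hnd hs
  obtain ⟨a', ha', ha0', ha1'⟩ := b5_quot h' hnd' hs'
  have e0 := hm' 0
  have e1 := hm' 1
  rw [ha0, ha0'] at e0
  rw [ha1, ha1', e0, mul_assoc] at e1
  exact mul_left_cancel₀ ha' (mul_left_cancel₀ hr'.ne' e1)

end Pool.Agent.GT
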