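import Mathlib

/-!
# Galois twisting of the Ohtsuki series: arithmetic definitions

`l` is the finite set of the leaf weights at a node of valence three, `s` an integer prime to all of
them (and odd).
-/

set_option autoImplicit false

open Finset

namespace Pool.Agent.GT

/-- `|s'| / p`, where `s'` is the representative of `s` modulo `2 p` in `[-p, p)`. -/
noncomputable def th (s : ℤ) (p : ℕ) : ℝ := |((Int.bmod s (2 * p) : ℤ) : ℝ)| / p

/-- The twisted parameters: `th s p` if their sum is less than `1`, otherwise `1 - th s p`. -/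
noncomputable def tw (l : Finset ℕ) (s : ℤ) (p : ℕ) : ℝ :=
  if ∑ q ∈ l, th s q < 1 then th s p else 1 - th s p

/-- The coefficient of degree one of the twisted integrand. -/
noncomputable def b (l : Finset ℕ) (s : ℤ) : ℝ := (∑ p ∈ l, tw l s p ^ 2 - 1) / 24

/-- The leaf weights at a node of valence three of a diagram with at least two nodes. -/
structure Nd (l : Finset ℕ) : Prop where
  card : l.card ≤ 2
  two_le : ∀ p ∈ l, 2 ≤ p
  cop : ∀ p ∈ l, ∀ q ∈ l, p ≠ q → Nat.Coprime p q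

/-- Some leaf weight is at least `4`. -/
def Big (l : Finset ℕ) : Prop := ∃ p ∈ l, 4 ≤ p

/-- `s` is odd and prime to all elements of `l`. -/
def CopL (l : Finset ℕ) (s : ℤ) : Prop := Odd s ∧ ∀ p ∈ l, IsCoprime s (p : ℤ)

/-- `s' = ± s` modulo `2 p`. -/
def Eqv (p : ℕ) (s s' : ℤ) : Prop := (2 * p : ℤ) ∣ s' - s ∨ (2 * p : ℤ) ∣ s' + s

/-- The representative of a unit modulo `M`. -/
def iv {M : ℕ} (g : (ZMod M)ˣ) : ℤ := ((g : ZMod M).val : ℤ)

theorem iv_one {M : ℕ} [NeZero M] : (M : ℤ) ∣ iv (1 : (ZMod M)ˣ) - 1 := by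
  rw [← ZMod.intCast_zmod_eq_zero_iff_dvd]
  unfold iv
  push_cast
  rw [ZMod.natCast_zmod_val]
  simp

theorem iv_mul {M : ℕ} [NeZero M] (g h : (ZMod M)ˣ) : (M : ℤ) ∣ iv (g * h) - iv g * iv h := by
  rw [← ZMod.intCast_zmod_eq_zero_iff_dvd]
  unfold iv
  push_cast
  rw [ZMod.natCast_zmod_val, ZMod.natCast_zmod_val, ZMod.natCast_zmod_val]
  simp

theorem iv_inv {M : ℕ} [NeZero M] (g : (ZMod M)ˣ) : (M : ℤ) ∣ iv g * iv g⁻¹ - 1 := by
  have h1 := iv_mul g g⁻¹
  have h2 := iv_one (M := M)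
  rw [mul_inv_cancel] at h1
  have h3 := dvd_sub h2 h1
  have e : iv (1 : (ZMod M)ˣ) - 1 - (iv (1 : (ZMod M)ˣ) - iv g * iv g⁻¹) = iv g * iv g⁻¹ - 1 := by
    ring
  rwa [e] at h3

/-- The units which are `± 1` modulo `2 p` for all `p ∈ l`. -/
def subA (M : ℕ) [NeZero M] (l : Finset ℕ) : Subgroup (ZMod M)ˣ where
  carrier := {g | ∀ p ∈ l, 2 * p ∣ M → Eqv p 1 (iv g)}
  one_mem' := by
    intro p _ hM
    left
    exact dvd_trans (by exact_mod_cast hM) iv_one
  mul_mem' := by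
    intro g h hg hh p hp hM
    have hg' := hg p hp hM
    have hh' := hh p hp hM
    have h1 : (2 * p : ℤ) ∣ iv (g * h) - iv g * iv h := dvd_trans (by exact_mod_cast hM) (iv_mul g h)
    rcases hg' with ⟨a, ha⟩ | ⟨a, ha⟩ <;> rcases hh' with ⟨c, hc⟩ | ⟨c, hc⟩ <;>
      obtain ⟨d, hd⟩ := h1
    · left
      exact ⟨d + a * iv h + c, by linear_combination hd + iv h * ha + hc⟩
    · right
      exact ⟨d + a * iv h + c, by linear_combination hd + iv h * ha + hc⟩
    · right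
      exact ⟨d + a * iv h - c, by linear_combination hd + iv h * ha - hc⟩
    · left
      exact ⟨d + a * iv h - c, by linear_combination hd + iv h * ha - hc⟩
  inv_mem' := by
    intro g hg p hp hM
    have hg' := hg p hp hM
    have h1 : (2 * p : ℤ) ∣ iv g * iv g⁻¹ - 1 := dvd_trans (by exact_mod_cast hM) (iv_inv g)
    obtain ⟨d, hd⟩ := h1
    rcases hg' with ⟨a, ha⟩ | ⟨a, ha⟩
    · left
      exact ⟨d - a * iv g⁻¹, by linear_combination hd - iv g⁻¹ * ha⟩
    · right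
      exact ⟨a * iv g⁻¹ - d, by linear_combination iv g⁻¹ * ha - hd⟩

theorem mem_subA {M : ℕ} [NeZero M] {l : Finset ℕ} {g : (ZMod M)ˣ} :
    g ∈ subA M l ↔ ∀ p ∈ l, 2 * p ∣ M → Eqv p 1 (iv g) := Iff.rfl

/-- The polynomials `Q_k` with `(d/dx)^k tan = k! Q_k(tan)`. -/
noncomputable def Qp : ℕ → Polynomial ℚ
  | 0 => Polynomial.X
  | k + 1 => Polynomial.C (1 / ((k : ℚ) + 1)) * ((1 + Polynomial.X ^ 2) *
      Polynomial.derivative (Qp k))

end Pool.Agent.GT
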