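import Pool.Agent.H46.GT.Basic

/-!
Elementary facts about `th`, `tw`. For `th_pos`: `s' = Int.bmod s (2 p)` lies in `[-p, p)` and is
congruent to `s` modulo `2 p`; it is not `0` and not `-p` because `s` is prime to `p ≥ 2`.
`sum_tw_lt`: for `l = {p, q}` the sum `|s_p| / p + |s_q| / q` is not `1`, since otherwise
`p ∣ |s_p| q`, so `p ∣ s_p`. `th_eqv`: the representative of `-s` is `-s'` (if `s' ≠ -p`).
-/

set_option autoImplicit false

open Finset

namespace Pool.Agent.GT

private theorem c1_bmod (s : ℤ) {p : ℕ} (hp : 0 < p) : -(p : ℤ) ≤ Int.bmod s (2 * p) ∧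
    Int.bmod s (2 * p) < p ∧ (2 * p : ℤ) ∣ Int.bmod s (2 * p) - s := by
  have h1 := Int.le_bmod (x := s) (m := 2 * p) (by omega)
  have h2 := Int.bmod_lt (x := s) (m := 2 * p) (by omega)
  have h3 : ((2 * p : ℕ) : ℤ) ∣ Int.bmod s (2 * p) - s := Int.dvd_bmod_sub_self
  push_cast at h1 h2 h3
  exact ⟨by omega, by omega, h3⟩

/-- A multiple of `n` of absolute value less than `n` is zero. -/
private theorem c1_zero {n x : ℤ} (h : n ∣ x) (h1 : -n < x) (h2 : x < n) : x = 0 :=
  Int.eq_zero_of_abs_lt_dvd h (abs_lt.mpr ⟨h1, h2⟩)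

private theorem c1_not_dvd {s : ℤ} {p : ℕ} (hp : 2 ≤ p) (hs : IsCoprime s (p : ℤ)) :
    ¬ (p : ℤ) ∣ s := by
  intro h
  have h1 : IsUnit (p : ℤ) := hs.isUnit_of_dvd' h dvd_rfl
  rw [Int.isUnit_iff] at h1
  omega

private theorem c1_bmod_ne {s : ℤ} {p : ℕ} (hp : 2 ≤ p) (hs : IsCoprime s (p : ℤ)) :
    Int.bmod s (2 * p) ≠ 0 ∧ Int.bmod s (2 * p) ≠ -(p : ℤ) := by
  obtain ⟨h1, h2, a, h3⟩ := c1_bmod s (p := p) (by omega)
  constructor
  · intro h
    apply c1_not_dvd hp hs
    rw [h] at h3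
    exact ⟨-(2 * a), by linear_combination (-1) * h3⟩
  · intro h
    apply c1_not_dvd hp hs
    rw [h] at h3
    exact ⟨-1 - 2 * a, by linear_combination (-1) * h3⟩

theorem th_pos {s : ℤ} {p : ℕ} (hp : 2 ≤ p) (hs : IsCoprime s (p : ℤ)) : 0 < th s p := by
  have h := (c1_bmod_ne hp hs).1
  have hp' : (0 : ℝ) < p := by
    have : 0 < p := by omega
    exact_mod_cast this
  unfold th
  exact div_pos (abs_pos.mpr (by exact_mod_cast h)) hp'

theorem th_lt_one {s : ℤ} {p : ℕ} (hp : 2 ≤ p) (hs : IsCoprime s (p : ℤ)) : th s p < 1 := by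
  have h := (c1_bmod_ne hp hs).2
  obtain ⟨h1, h2, h3⟩ := c1_bmod s (p := p) (by omega)
  have hp' : (0 : ℝ) < p := by
    have : 0 < p := by omega
    exact_mod_cast this
  unfold th
  rw [div_lt_one hp']
  have h4 : |Int.bmod s (2 * p)| < (p : ℤ) := abs_lt.mpr ⟨by omega, h2⟩
  exact_mod_cast h4

/-- `th s p` is an odd multiple of `1 / p` for odd `s`. -/
theorem th_eq {s : ℤ} {p : ℕ} (hp : 2 ≤ p) (ho : Odd s) (hs : IsCoprime s (p : ℤ)) :
    ∃ m : ℕ, Odd m ∧ m < p ∧ th s p = (m : ℝ) / p ∧ Eqv p s (m : ℤ) := by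
  obtain ⟨h0, h0'⟩ := c1_bmod_ne hp hs
  obtain ⟨h1, h2, h3⟩ := c1_bmod s (p := p) (by omega)
  refine ⟨(Int.bmod s (2 * p)).natAbs, ?_, ?_, ?_, ?_⟩
  · rw [Int.natAbs_odd]
    obtain ⟨a, ha⟩ := h3
    obtain ⟨k, hk⟩ := ho
    exact ⟨k + p * a, by linear_combination ha + hk⟩
  · omega
  · unfold th
    rw [← Int.cast_abs, Int.abs_eq_natAbs, Int.cast_natCast]
  · rcases le_total 0 (Int.bmod s (2 * p)) with h | h
    · left
      rw [Int.natAbs_of_nonneg h]
      exact h3
    · right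
      rw [Int.ofNat_natAbs_of_nonpos h]
      obtain ⟨a, ha⟩ := h3
      exact ⟨-a, by linear_combination (-1) * ha⟩

/-- The value of `th`, if a representative is known. -/
theorem th_of {s : ℤ} {p m : ℕ} (hm : m < p) (h : Eqv p s (m : ℤ)) : th s p = (m : ℝ) / p := by
  obtain ⟨h1, h2, h3⟩ := c1_bmod s (p := p) (by omega)
  have h4 : |Int.bmod s (2 * p)| = (m : ℤ) := by
    rcases h with h | h
    · have h5 : (2 * p : ℤ) ∣ (m : ℤ) - Int.bmod s (2 * p) := by
        obtain ⟨a, ha⟩ := h3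
        obtain ⟨c, hc⟩ := h
        exact ⟨c - a, by linear_combination hc - ha⟩
      have h6 := c1_zero h5 (by omega) (by omega)
      have h7 : Int.bmod s (2 * p) = m := by linarith
      rw [h7]
      exact abs_of_nonneg (by positivity)
    · have h5 : (2 * p : ℤ) ∣ (m : ℤ) + Int.bmod s (2 * p) := by
        obtain ⟨a, ha⟩ := h3
        obtain ⟨c, hc⟩ := h
        exact ⟨c + a, by linear_combination hc + ha⟩
      have h6 := c1_zero h5 (by omega) (by omega)
      have h7 : Int.bmod s (2 * p) = -(m : ℤ) := by linarith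
      rw [h7, abs_neg]
      exact abs_of_nonneg (by positivity)
  unfold th
  rw [← Int.cast_abs, h4, Int.cast_natCast]

theorem th_one {p : ℕ} (hp : 2 ≤ p) : th 1 p = 1 / p := by
  have h := th_of (s := 1) (p := p) (m := 1) (by omega) (Or.inl (by simp))
  rw [h]
  norm_cast

theorem th_eqv {s s' : ℤ} {p : ℕ} (h : Eqv p s s') : th s' p = th s p := by
  rcases Nat.eq_zero_or_pos p with hp | hp
  · subst hp
    unfold th
    simp
  obtain ⟨h1, h2, a, h3⟩ := c1_bmod s hp
  obtain ⟨h1', h2', a', h3'⟩ := c1_bmod s' hp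
  have h4 : |Int.bmod s' (2 * p)| = |Int.bmod s (2 * p)| := by
    rcases h with ⟨c, hc⟩ | ⟨c, hc⟩
    · have h5 : (2 * p : ℤ) ∣ Int.bmod s' (2 * p) - Int.bmod s (2 * p) :=
        ⟨a' + c - a, by linear_combination h3' + hc - h3⟩
      have h6 := c1_zero h5 (by omega) (by omega)
      have h7 : Int.bmod s' (2 * p) = Int.bmod s (2 * p) := by linarith
      rw [h7]
    · have h5 : (2 * p : ℤ) ∣ Int.bmod s' (2 * p) + Int.bmod s (2 * p) :=
        ⟨a' + c + a, by linear_combination h3' + hc + h3⟩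
      rcases eq_or_ne (Int.bmod s' (2 * p) + Int.bmod s (2 * p)) (-(2 * p)) with h8 | h8
      · have h9 : Int.bmod s' (2 * p) = Int.bmod s (2 * p) := by omega
        rw [h9]
      · have h6 := c1_zero h5 (by omega) (by omega)
        have h7 : Int.bmod s' (2 * p) = -Int.bmod s (2 * p) := by linarith
        rw [h7, abs_neg]
  unfold th
  rw [← Int.cast_abs, ← Int.cast_abs, h4]

theorem tw_eqv {l : Finset ℕ} {s s' : ℤ} (h : ∀ p ∈ l, Eqv p s s') {p : ℕ} (hp : p ∈ l) :
    tw l s' p = tw l s p := by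
  have h1 : ∑ q ∈ l, th s' q = ∑ q ∈ l, th s q := Finset.sum_congr rfl fun q hq => th_eqv (h q hq)
  unfold tw
  rw [h1, th_eqv (h p hp)]

theorem b_eqv {l : Finset ℕ} {s s' : ℤ} (h : ∀ p ∈ l, Eqv p s s') : b l s' = b l s := by
  unfold b
  rw [Finset.sum_congr rfl fun p hp => by rw [tw_eqv h hp]]

theorem tw_pos {l : Finset ℕ} (hl : Nd l) {s : ℤ} (hs : CopL l s) {p : ℕ} (hp : p ∈ l) :
    0 < tw l s p := by
  have h1 := th_pos (hl.two_le p hp) (hs.2 p hp)
  have h2 := th_lt_one (hl.two_le p hp) (hs.2 p hp)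
  unfold tw
  split_ifs
  · exact h1
  · linarith

theorem tw_lt_one {l : Finset ℕ} (hl : Nd l) {s : ℤ} (hs : CopL l s) {p : ℕ} (hp : p ∈ l) :
    tw l s p < 1 := by
  have h1 := th_pos (hl.two_le p hp) (hs.2 p hp)
  have h2 := th_lt_one (hl.two_le p hp) (hs.2 p hp)
  unfold tw
  split_ifs
  · exact h2
  · linarith

theorem sum_tw_lt {l : Finset ℕ} (hl : Nd l) {s : ℤ} (hs : CopL l s) : ∑ p ∈ l, tw l s p < 1 := by
  by_cases hc : ∑ p ∈ l, th s p < 1
  · have h1 : ∑ p ∈ l, tw l s p = ∑ p ∈ l, th s p := by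
      refine Finset.sum_congr rfl fun p _ => ?_
      unfold tw
      rw [if_pos hc]
    rw [h1]
    exact hc
  have h1 : ∑ p ∈ l, tw l s p = ∑ p ∈ l, (1 - th s p) := by
    refine Finset.sum_congr rfl fun p _ => ?_
    unfold tw
    rw [if_neg hc]
  rw [h1]
  have hcard := hl.card
  have h2 : l.card = 0 ∨ l.card = 1 ∨ l.card = 2 := by omega
  rcases h2 with h2 | h2 | h2
  · rw [Finset.card_eq_zero] at h2
    subst h2
    exact absurd (by simp) hc
  · rw [Finset.card_eq_one] at h2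
    obtain ⟨p, h2⟩ := h2
    subst h2
    exfalso
    apply hc
    rw [Finset.sum_singleton]
    exact th_lt_one (hl.two_le p (by simp)) (hs.2 p (by simp))
  · rw [Finset.card_eq_two] at h2
    obtain ⟨p, q, hpq, h2⟩ := h2
    subst h2
    have hp2 := hl.two_le p (by simp)
    have hq2 := hl.two_le q (by simp)
    have hcop := hl.cop p (by simp) q (by simp) hpq
    obtain ⟨m, hm, hmp, hm1, -⟩ := th_eq hp2 hs.1 (hs.2 p (by simp))
    obtain ⟨n, hn, hnq, hn1, -⟩ := th_eq hq2 hs.1 (hs.2 q (by simp))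
    rw [Finset.sum_pair hpq] at hc ⊢
    have hne : th s p + th s q ≠ 1 := by
      intro h
      rw [hm1, hn1] at h
      have hp' : (p : ℝ) ≠ 0 := by
        have : p ≠ 0 := by omega
        exact_mod_cast this
      have hq' : (q : ℝ) ≠ 0 := by
        have : q ≠ 0 := by omega
        exact_mod_cast this
      field_simp at h
      have h3 : m * q + p * n = p * q := by exact_mod_cast h
      have h4 : p ∣ m * q := by
        have h5 : p ∣ m * q + p * n := by
          rw [h3]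
          exact Dvd.intro q rfl
        exact (Nat.dvd_add_iff_left (Dvd.intro n rfl)).mpr h5
      have h5 : p ∣ m := hcop.dvd_of_dvd_mul_right h4
      have h6 : m ≠ 0 := by
        rintro rfl
        exact absurd hm (by decide)
      exact absurd (Nat.le_of_dvd (by omega) h5) (by omega)
    have h7 : 1 < th s p + th s q := lt_of_le_of_ne (not_lt.mp hc) (Ne.symm hne)
    linarith

theorem tw_one {l : Finset ℕ} (hl : Nd l) {p : ℕ} (hp : p ∈ l) : tw l 1 p = 1 / p := by
  have h1 : ∑ q ∈ l, th 1 q = ∑ q ∈ l, (1 : ℝ) / q :=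
    Finset.sum_congr rfl fun q hq => th_one (hl.two_le q hq)
  have h2 : ∑ q ∈ l, (1 : ℝ) / q < 1 := by
    have hcard := hl.card
    have h2 : l.card = 0 ∨ l.card = 1 ∨ l.card = 2 := by omega
    rcases h2 with h2 | h2 | h2
    · rw [Finset.card_eq_zero] at h2
      subst h2
      simp
    · rw [Finset.card_eq_one] at h2
      obtain ⟨q, h2⟩ := h2
      subst h2
      rw [Finset.sum_singleton]
      have h3 : (2 : ℝ) ≤ q := by exact_mod_cast hl.two_le q (by simp)
      rw [div_lt_one (by linarith)]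
      linarith
    · rw [Finset.card_eq_two] at h2
      obtain ⟨a, c, hac, h2⟩ := h2
      subst h2
      have ha2 := hl.two_le a (by simp)
      have hc2 := hl.two_le c (by simp)
      rw [Finset.sum_pair hac]
      have ha3 : (0 : ℝ) < a := by
        have : 0 < a := by omega
        exact_mod_cast this
      have hc3 : (0 : ℝ) < c := by
        have : 0 < c := by omega
        exact_mod_cast this
      rw [div_add_div _ _ ha3.ne' hc3.ne', div_lt_one (by positivity)]
      have h4 : 1 * c + a * 1 < a * c := by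
        rcases Nat.lt_or_gt_of_ne hac with h | h
        · have h5 : 3 ≤ c := by omega
          nlinarith
        · have h5 : 3 ≤ a := by omega
          nlinarith
      exact_mod_cast h4
  unfold tw
  rw [if_pos (by rw [h1]; exact h2)]
  exact th_one (hl.two_le p hp)

/-- Two sufficient lifting properties: a residue prime to `n ∣ M` lifts to a unit modulo `M`. -/
theorem lift_unit {M n : ℕ} [NeZero M] (hn : n ∣ M) {s : ℤ} (hs : IsCoprime s (n : ℤ)) :
    ∃ g : (ZMod M)ˣ, (n : ℤ) ∣ iv g - s := by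
  have h1 : IsUnit ((s : ℤ) : ZMod n) := by
    rw [ZMod.coe_int_isUnit_iff_isCoprime]
    exact hs.symm
  obtain ⟨u, hu⟩ := h1
  obtain ⟨g, hg⟩ := ZMod.unitsMap_surjective hn u
  refine ⟨g, ?_⟩
  rw [← ZMod.intCast_zmod_eq_zero_iff_dvd]
  have h2 : ((g : ZMod M).cast : ZMod n) = (s : ZMod n) := by
    rw [← hu, ← hg, ZMod.unitsMap_val]
  unfold iv
  push_cast
  rw [ZMod.natCast_val, h2, sub_self]

theorem iv_coprime {M : ℕ} [NeZero M] (g : (ZMod M)ˣ) : IsCoprime (iv g) (M : ℤ) := by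
  unfold iv
  rw [Nat.isCoprime_iff_coprime]
  exact ZMod.val_coe_unit_coprime g

theorem Eqv.refl (p : ℕ) (s : ℤ) : Eqv p s s := by
  left
  rw [sub_self]
  exact dvd_zero _

theorem Eqv.symm {p : ℕ} {s s' : ℤ} (h : Eqv p s s') : Eqv p s' s := by
  rcases h with ⟨a, ha⟩ | ⟨a, ha⟩
  · left
    exact ⟨-a, by linear_combination (-1) * ha⟩
  · right
    exact ⟨a, by linear_combination ha⟩

theorem Eqv.trans {p : ℕ} {s s' s'' : ℤ} (h : Eqv p s s') (h' : Eqv p s' s'') : Eqv p s s'' := by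
  rcases h with ⟨a, ha⟩ | ⟨a, ha⟩ <;> rcases h' with ⟨c, hc⟩ | ⟨c, hc⟩
  · left
    exact ⟨a + c, by linear_combination ha + hc⟩
  · right
    exact ⟨c - a, by linear_combination hc - ha⟩
  · right
    exact ⟨c + a, by linear_combination hc + ha⟩
  · left
    exact ⟨c - a, by linear_combination hc - ha⟩

theorem Eqv.mul {p : ℕ} {s s' t t' : ℤ} (h : Eqv p s s') (h' : Eqv p t t') :
    Eqv p (s * t) (s' * t') := by
  rcases h with ⟨a, ha⟩ | ⟨a, ha⟩ <;> rcases h' with ⟨c, hc⟩ | ⟨c, hc⟩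
  · left
    exact ⟨a * t' + s * c, by linear_combination t' * ha + s * hc⟩
  · right
    exact ⟨a * t' + s * c, by linear_combination t' * ha + s * hc⟩
  · right
    exact ⟨a * t' - s * c, by linear_combination t' * ha - s * hc⟩
  · left
    exact ⟨a * t' - s * c, by linear_combination t' * ha - s * hc⟩

/-- If `s` is prime to `p`, one can cancel. -/
theorem Eqv.cancel {p : ℕ} {s t t' : ℤ} (hs : IsCoprime s (2 * p : ℤ)) (h : Eqv p (s * t) (s * t')) :
    Eqv p t t' := by
  rcases h with h | h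
  · left
    rw [← mul_sub] at h
    exact hs.symm.dvd_of_dvd_mul_left h
  · right
    rw [← mul_add] at h
    exact hs.symm.dvd_of_dvd_mul_left h

/-- Membership of a quotient in `subA`. -/
theorem div_mem_subA {M : ℕ} [NeZero M] {l : Finset ℕ} (hM : ∀ p ∈ l, 2 * p ∣ M)
    (g h : (ZMod M)ˣ) : h * g⁻¹ ∈ subA M l ↔ ∀ p ∈ l, Eqv p (iv g) (iv h) := by
  rw [mem_subA]
  constructor
  · intro hm p hp
    have h1 := hm p hp (hM p hp)
    have h2 : (2 * p : ℤ) ∣ (M : ℤ) := by exact_mod_cast hM p hp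
    have h3 := dvd_trans h2 (iv_mul g (h * g⁻¹))
    have h4 : g * (h * g⁻¹) = h := by
      rw [mul_comm h g⁻¹, mul_inv_cancel_left]
    rw [h4] at h3
    have h5 := Eqv.mul (Eqv.refl p (iv g)) h1
    rw [mul_one] at h5
    exact h5.trans (Or.inl h3)
  · intro hm p hp _
    have h1 := hm p hp
    have h2 : (2 * p : ℤ) ∣ (M : ℤ) := by exact_mod_cast hM p hp
    have h3 := dvd_trans h2 (iv_inv g)
    have h4 := dvd_trans h2 (iv_mul h g⁻¹)
    have h5 := Eqv.mul h1 (Eqv.refl p (iv g⁻¹))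
    have h6 : Eqv p 1 (iv g * iv g⁻¹) := Or.inl h3
    have h7 : Eqv p (iv h * iv g⁻¹) (iv (h * g⁻¹)) := Or.inl h4
    exact (h6.trans h5).trans h7

end Pool.Agent.GT
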