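import Pool.Agent.H46.GT.Defs
import Pool.Agent.H46.GT.C1
import Pool.Agent.GPC.G4
import Pool.Agent.GPC.N2

/-!
The twisted integrands. `good_tPhi`: `GPC.good_quot` (G4) with `s = 1` and the multiset of the
`tw l s p / 2`. `tphi_one`: coefficients of degree one of `sa a = 1 + a² / 6 y + ...`.
`tphi_node`: `sinhc k = sa (1 / (2 k))` as in N2.
-/

set_option autoImplicit false

open PowerSeries Finset MeasureTheory

namespace Pool.Agent.GT

open Pool.Agent.OHG Pool.Agent.GPC Pool.Agent.SLR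

variable {V : Type} [Fintype V] [DecidableEq V]

omit [Fintype V] [DecidableEq V] in
private theorem C1b_sa_zero (a : ℝ) : coeff 0 (sa a) = 1 := by
  unfold sa
  rw [coeff_mk]
  simp

private theorem C1b_sa_one (a : ℝ) : coeff 1 (sa a) = a ^ 2 / 6 := by
  unfold sa
  rw [coeff_mk]
  norm_num [Nat.factorial]

private theorem C1b_mul_zero {f g : ℝ⟦X⟧} (hf : coeff 0 f = 1) (hg : coeff 0 g = 1) :
    coeff 0 (f * g) = 1 := by
  rw [coeff_mul, Finset.Nat.antidiagonal_zero, Finset.sum_singleton, hf, hg, one_mul]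

private theorem C1b_mul_one {f g : ℝ⟦X⟧} (hf : coeff 0 f = 1) (hg : coeff 0 g = 1) :
    coeff 1 (f * g) = coeff 1 f + coeff 1 g := by
  have h1 : Finset.HasAntidiagonal.antidiagonal (1 : ℕ) = {(0, 1), (1, 0)} := rfl
  rw [coeff_mul, h1, Finset.sum_pair (by decide)]
  dsimp only
  rw [hf, hg]
  ring

private theorem C1b_prod {ι : Type} (t : Finset ι) (f : ι → ℝ⟦X⟧)
    (hf : ∀ i ∈ t, coeff 0 (f i) = 1) :
    coeff 0 (∏ i ∈ t, f i) = 1 ∧ coeff 1 (∏ i ∈ t, f i) = ∑ i ∈ t, coeff 1 (f i) := by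
  classical
  induction t using Finset.induction_on with
  | empty =>
    rw [Finset.prod_empty, Finset.sum_empty]
    constructor
    · simp
    · rw [coeff_one, if_neg one_ne_zero]
  | insert a t ha ih =>
    have h1 := ih fun i hi => hf i (Finset.mem_insert_of_mem hi)
    have h2 := hf a (Finset.mem_insert_self _ _)
    rw [Finset.prod_insert ha, Finset.sum_insert ha]
    exact ⟨C1b_mul_zero h2 h1.1, by rw [C1b_mul_one h2 h1.1, h1.2]⟩

private theorem C1b_inv {f : ℝ⟦X⟧} (hf : coeff 0 f = 1) :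
    coeff 0 f⁻¹ = 1 ∧ coeff 1 f⁻¹ = -coeff 1 f := by
  have h0 : constantCoeff f = 1 := by
    rw [← coeff_zero_eq_constantCoeff_apply]
    exact hf
  have h1 : coeff 0 f⁻¹ = 1 := by
    rw [coeff_zero_eq_constantCoeff_apply, constantCoeff_inv, h0, inv_one]
  have h2 : f * f⁻¹ = 1 := PowerSeries.mul_inv_cancel f (by rw [h0]; exact one_ne_zero)
  have h3 := C1b_mul_one hf h1
  rw [h2, coeff_one, if_neg one_ne_zero] at h3
  exact ⟨h1, by linarith⟩

theorem good_tPhi {l : Finset ℕ} (hl : Nd l) {s : ℤ} (hs : CopL l s) : Good (tPhi l s) (tphi l s) := by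
  have h := good_quot (l.val.map fun p => tw l s p / 2) 1 (by
      intro a ha
      obtain ⟨p, hp, rfl⟩ := Multiset.mem_map.1 ha
      have := tw_pos hl hs hp
      linarith) (by
      have h1 : (l.val.map fun p => tw l s p / 2).sum = (∑ p ∈ l, tw l s p) / 2 := by
        rw [Finset.sum_div]
        rfl
      rw [h1, Nat.cast_one]
      have := sum_tw_lt hl hs
      linarith)
  simp only [Multiset.map_map, pow_one] at h
  exact h

theorem tphi_zero (l : Finset ℕ) (s : ℤ) : coeff 0 (tphi l s) = 1 := by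
  unfold tphi
  exact C1b_mul_zero (C1b_prod l _ fun p _ => C1b_sa_zero _).1 (C1b_inv (C1b_sa_zero _)).1

theorem tphi_one (l : Finset ℕ) (s : ℤ) : coeff 1 (tphi l s) = b l s := by
  unfold tphi b
  have h1 := C1b_prod l (fun p => sa (tw l s p / 2)) fun p _ => C1b_sa_zero _
  have h2 := C1b_inv (C1b_sa_zero (1 / 2))
  rw [C1b_mul_one h1.1 h2.1, h1.2, h2.2, C1b_sa_one]
  have h3 : ∑ p ∈ l, coeff 1 (sa (tw l s p / 2)) = (∑ p ∈ l, tw l s p ^ 2) / 24 := by
    rw [Finset.sum_div]
    refine Finset.sum_congr rfl fun p _ => ?_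
    rw [C1b_sa_one]
    ring
  rw [h3]
  ring

theorem tphi_eqv {l : Finset ℕ} {s s' : ℤ} (h : ∀ p ∈ l, Eqv p s s') : tphi l s' = tphi l s := by
  unfold tphi
  congr 1
  exact Finset.prod_congr rfl fun p hp => by rw [tw_eqv h hp]

theorem tPhi_eqv {l : Finset ℕ} {s s' : ℤ} (h : ∀ p ∈ l, Eqv p s s') : tPhi l s' = tPhi l s := by
  funext z
  unfold tPhi
  congr 1
  exact Finset.prod_congr rfl fun p hp => by rw [tw_eqv h hp]

theorem rho_eqv {l : Finset ℕ} {s s' : ℤ} (h : ∀ p ∈ l, Eqv p s s') : rho l s' = rho l s := by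
  unfold rho
  rw [tPhi_eqv h]

private theorem C1b_int_exp (j : ℕ) {c : ℝ} (hc : 0 < c) :
    IntegrableOn (fun r : ℝ => r ^ j * Real.exp (-c * r)) (Set.Ioi 0) := by
  have h1 := integrableOn_rpow_mul_exp_neg_mul_rpow (p := 1) (s := j) (b := c)
    (by have : (0 : ℝ) ≤ j := Nat.cast_nonneg j
        linarith) one_pos hc
  refine h1.congr_fun (fun r _ => ?_) measurableSet_Ioi
  simp only [Real.rpow_natCast, Real.rpow_one]

theorem rad_pos {l : Finset ℕ} (hl : Nd l) {s : ℤ} (hs : CopL l s) (k : ℕ) :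
    0 < rad (tPhi l s) k := by
  have hg := good_tPhi hl hs
  obtain ⟨C, ε, hε, hd⟩ := hg.decay
  set f : ℝ → ℝ := fun r => r ^ (2 * k + 2) * (tPhi l s ((r ^ 2 : ℝ) : ℂ)).re with hf
  have hpos : ∀ r ∈ Set.Ioi (0 : ℝ), 0 < f r := by
    intro r hr
    have hr0 : 0 < r := hr
    obtain ⟨t, ht, h1⟩ := hg.pos (r ^ 2) (by positivity)
    show 0 < r ^ (2 * k + 2) * (tPhi l s ((r ^ 2 : ℝ) : ℂ)).re
    rw [h1, Complex.ofReal_re]
    positivity
  have hcont : ContinuousOn f (Set.Ioi 0) := by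
    have h1 : ContinuousOn (fun r : ℝ => tPhi l s ((r ^ 2 : ℝ) : ℂ)) (Set.Ioi 0) := by
      refine hg.diff.continuousOn.comp
        (Complex.continuous_ofReal.comp (continuous_pow 2)).continuousOn ?_
      intro r _
      show -2 < (((r ^ 2 : ℝ) : ℂ)).re
      rw [Complex.ofReal_re]
      have := sq_nonneg r
      linarith
    exact (continuous_pow (2 * k + 2)).continuousOn.mul
      (Complex.continuous_re.comp_continuousOn h1)
  have hint : IntegrableOn f (Set.Ioi 0) := by
    have h1 := (C1b_int_exp (2 * k + 2) hε).const_mul C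
    refine Integrable.mono' h1 (hcont.aestronglyMeasurable measurableSet_Ioi) ?_
    refine (ae_restrict_iff' measurableSet_Ioi).2 (Filter.Eventually.of_forall fun r hr => ?_)
    have hr0 : 0 < r := hr
    have h2 := hd ((r ^ 2 : ℝ) : ℂ) (by
      rw [Complex.ofReal_re]
      have := sq_nonneg r
      linarith)
    rw [Complex.norm_real, Real.norm_of_nonneg (sq_nonneg r), Real.sqrt_sq hr0.le] at h2
    have h3 : |(tPhi l s ((r ^ 2 : ℝ) : ℂ)).re| ≤ C * Real.exp (-ε * r) :=
      (Complex.abs_re_le_norm _).trans h2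
    show ‖r ^ (2 * k + 2) * (tPhi l s ((r ^ 2 : ℝ) : ℂ)).re‖ ≤ _
    rw [Real.norm_eq_abs, abs_mul, abs_of_pos (pow_pos hr0 _)]
    calc r ^ (2 * k + 2) * |(tPhi l s ((r ^ 2 : ℝ) : ℂ)).re|
        ≤ r ^ (2 * k + 2) * (C * Real.exp (-ε * r)) :=
          mul_le_mul_of_nonneg_left h3 (pow_pos hr0 _).le
      _ = C * (r ^ (2 * k + 2) * Real.exp (-ε * r)) := by ring
  show 0 < ∫ r in Set.Ioi (0 : ℝ), f r
  rw [setIntegral_pos_iff_support_of_nonneg_ae _ hint]
  · have h1 : Function.support f ∩ Set.Ioi 0 = Set.Ioi 0 :=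
      Set.inter_eq_right.2 fun r hr => (hpos r hr).ne'
    rw [h1, Real.volume_Ioi]
    exact ENNReal.zero_lt_top
  · exact (ae_restrict_iff' measurableSet_Ioi).2
      (Filter.Eventually.of_forall fun r hr => (hpos r hr).le)

theorem rho_pos {l : Finset ℕ} (hl : Nd l) {s : ℤ} (hs : CopL l s) : 0 < rho l s := by
  unfold rho
  exact div_pos (rad_pos hl hs 1) (rad_pos hl hs 0)

omit [Fintype V] [DecidableEq V] in
private theorem C1b_nbr [Fintype V] (D : Data V) (v : V) (w : V) :
    w ∈ D.nbr v ↔ D.graph.Adj v w := by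
  classical
  simp [Data.nbr]

/-- The leaf sets of a diagram with at least two nodes, all of valence three. -/
theorem nd_leaf {D : Data V} (h : D.IsGraph) (ht : Tri D) (hV : 2 ≤ Fintype.card V) (v : V) :
    Nd (D.leaf v) := by
  refine ⟨?_, h.two_le v, h.coprime_leaf v⟩
  have h1 : D.val v = 3 := ht v
  unfold Data.val at h1
  have h2 : 1 ≤ (D.nbr v).card := by
    rw [Nat.one_le_iff_ne_zero, Finset.card_ne_zero]
    obtain ⟨w, hw⟩ := Fintype.exists_ne_of_one_lt_card (by omega) v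
    have h3 := h.tree.1.preconnected v w
    obtain ⟨p⟩ := h3
    cases p with
    | nil => exact absurd rfl hw
    | cons hadj _ => exact ⟨_, (C1b_nbr D v _).2 hadj⟩
  omega

private theorem C1b_sinhc (k : ℕ) : OHG.sinhc k = sa (1 / (2 * k)) := by
  ext m
  unfold OHG.sinhc sa
  rw [coeff_mk, coeff_mk, one_div_pow, div_div]

theorem tphi_node {D : Data V} (h : D.IsGraph) (ht : Tri D) (hV : 2 ≤ Fintype.card V) (v : V) :
    tphi (D.leaf v) 1 = node D v := by
  have h1 : D.val v - 2 = 1 := by rw [ht v]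
  unfold tphi node
  rw [h1, pow_one, C1b_sinhc]
  congr 1
  · refine Finset.prod_congr rfl fun k hk => ?_
    rw [tw_one (nd_leaf h ht hV v) hk, C1b_sinhc]
    congr 1
    rw [div_div, mul_comm]
  · rw [Nat.cast_one, mul_one]

theorem tpart_one {D : Data V} (h : D.IsGraph) (ht : Tri D) (hV : 2 ≤ Fintype.card V) :
    tpart D 1 = part D := by
  unfold tpart gpart part
  simp only [tphi_node h ht hV]

/-- The sum of the numbers of leaves. -/
theorem sum_card_leaf {D : Data V} (h : D.IsGraph) (ht : Tri D) :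
    ∑ v, (D.leaf v).card = Fintype.card V + 2 := by
  classical
  have h1 : ∑ v, ((D.leaf v).card + (D.nbr v).card) = Fintype.card V * 3 := by
    rw [← smul_eq_mul, ← Finset.card_univ, ← Finset.sum_const]
    exact Finset.sum_congr rfl fun v _ => ht v
  rw [Finset.sum_add_distrib] at h1
  have h2 : ∑ v, (D.nbr v).card = 2 * D.graph.edgeFinset.card := by
    rw [← D.graph.sum_degrees_eq_twice_card_edges]
    refine Finset.sum_congr rfl fun v _ => ?_
    rw [← SimpleGraph.card_neighborFinset_eq_degree]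
    congr 1
    ext w
    rw [C1b_nbr, SimpleGraph.mem_neighborFinset]
  have h3 := h.tree.card_edgeFinset
  omega

end Pool.Agent.GT
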