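import Pool.Agent.H46.GT.B2

/-!
Closed forms of `rho`. `Q_1 = 1 + X²`, `Q_2 = X (1 + X²)`, `Q_3 = (1 + X²) (1 + 3 X²) / 3`,
`Q_4 = (1 + X²) (2 X + 3 X³) / 3`; so `Q_4 / Q_2 = (2 + 3 x²) / 3 = 1 / cos² - 1 / 3` for `x = tan`, and
`Q_3 = Q_1² - (2/3) Q_1`, `(Q_3(x) - Q_3(y)) / (Q_1(x) - Q_1(y)) = Q_1(x) + Q_1(y) - 2/3`.
(`rad .. 0 ≠ 0` by `rad_pos`, so the denominators are not `0`.) Checked numerically.
-/

set_option autoImplicit false

open PowerSeries Finset MeasureTheory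

namespace Pool.Agent.GT

open Pool.Agent.OHG Pool.Agent.GPC Pool.Agent.SLR

private theorem c2_aeval_one (x : ℝ) : Polynomial.aeval x (Qp 1) = 1 + x ^ 2 := by
  simp [Qp]

private theorem c2_Qp_two : Qp 2 = Polynomial.X * (1 + Polynomial.X ^ 2) := by
  have h1 : Qp 1 = 1 + Polynomial.X ^ 2 := by
    simp [Qp]
  have h2 : Qp 2 = Polynomial.C (1 / ((1 : ℕ) + 1 : ℚ)) * ((1 + Polynomial.X ^ 2) *
      Polynomial.derivative (Qp 1)) := rfl
  rw [h2, h1]
  simp only [Polynomial.derivative_add, Polynomial.derivative_one, Polynomial.derivative_X_pow,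
    zero_add]
  have e : Polynomial.C (1 / ((1 : ℕ) + 1 : ℚ)) * Polynomial.C ((2 : ℕ) : ℚ) = 1 := by
    rw [← Polynomial.C_mul]
    norm_num
  linear_combination (Polynomial.X * (1 + Polynomial.X ^ 2)) * e

private theorem c2_Qp_three : Qp 3 = Polynomial.C (1 / 3 : ℚ) * ((1 + Polynomial.X ^ 2) *
    (1 + Polynomial.C 3 * Polynomial.X ^ 2)) := by
  have h2 : Qp 3 = Polynomial.C (1 / ((2 : ℕ) + 1 : ℚ)) * ((1 + Polynomial.X ^ 2) *
      Polynomial.derivative (Qp 2)) := rfl
  rw [h2, c2_Qp_two]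
  have e : Polynomial.derivative (Polynomial.X * (1 + Polynomial.X ^ 2) : Polynomial ℚ) =
      1 + Polynomial.C 3 * Polynomial.X ^ 2 := by
    simp only [Polynomial.derivative_mul, Polynomial.derivative_add, Polynomial.derivative_one,
      Polynomial.derivative_X_pow, Polynomial.derivative_X, zero_add]
    have h3 : (Polynomial.C 3 : Polynomial ℚ) = 1 + Polynomial.C ((2 : ℕ) : ℚ) := by
      rw [← Polynomial.C_1, ← Polynomial.C_add]
      norm_num
    rw [h3]
    ring
  rw [e]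
  norm_num

private theorem c2_Qp_four : Qp 4 = Polynomial.C (1 / 3 : ℚ) * ((1 + Polynomial.X ^ 2) *
    (Polynomial.C 2 * Polynomial.X + Polynomial.C 3 * Polynomial.X ^ 3)) := by
  have h2 : Qp 4 = Polynomial.C (1 / ((3 : ℕ) + 1 : ℚ)) * ((1 + Polynomial.X ^ 2) *
      Polynomial.derivative (Qp 3)) := rfl
  rw [h2, c2_Qp_three]
  have e : Polynomial.derivative (Polynomial.C (1 / 3 : ℚ) * ((1 + Polynomial.X ^ 2) *
      (1 + Polynomial.C 3 * Polynomial.X ^ 2))) =
      Polynomial.C (4 / 3 : ℚ) * (Polynomial.C 2 * Polynomial.X + Polynomial.C 3 *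
        Polynomial.X ^ 3) := by
    have h : (Polynomial.C (1 / 3 : ℚ) * ((1 + Polynomial.X ^ 2) *
      (1 + Polynomial.C 3 * Polynomial.X ^ 2))) = Polynomial.C (1 / 3 : ℚ) +
        Polynomial.C (4 / 3 : ℚ) * Polynomial.X ^ 2 + Polynomial.X ^ 4 := by
      have a1 : Polynomial.C (1 / 3 : ℚ) * Polynomial.C 3 = 1 := by
        rw [← Polynomial.C_mul]
        norm_num
      have a2 : Polynomial.C (4 / 3 : ℚ) = Polynomial.C (1 / 3 : ℚ) + 1 := by
        rw [← Polynomial.C_1, ← Polynomial.C_add]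
        norm_num
      rw [a2]
      linear_combination (Polynomial.X ^ 2 + Polynomial.X ^ 4) * a1
    rw [h]
    simp only [Polynomial.derivative_mul, Polynomial.derivative_add, Polynomial.derivative_C,
      Polynomial.derivative_X_pow, zero_add, zero_mul]
    have b1 : Polynomial.C (4 / 3 : ℚ) * Polynomial.C 3 = Polynomial.C ((4 : ℕ) : ℚ) := by
      rw [← Polynomial.C_mul]
      norm_num
    have b2 : (Polynomial.C 2 : Polynomial ℚ) = Polynomial.C ((2 : ℕ) : ℚ) := by
      norm_num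
    rw [← b1, b2]
    ring
  rw [e]
  have c1 : Polynomial.C (1 / ((3 : ℕ) + 1 : ℚ)) * Polynomial.C (4 / 3 : ℚ) =
      Polynomial.C (1 / 3 : ℚ) := by
    rw [← Polynomial.C_mul]
    norm_num
  rw [← c1]
  ring

private theorem c2_aeval_two (x : ℝ) : Polynomial.aeval x (Qp 2) = x * (1 + x ^ 2) := by
  rw [c2_Qp_two]
  simp

private theorem c2_aeval_three (x : ℝ) :
    Polynomial.aeval x (Qp 3) = (1 + x ^ 2) * (1 + 3 * x ^ 2) / 3 := by
  rw [c2_Qp_three]
  simp only [map_mul, map_add, map_one, map_pow, Polynomial.aeval_X, Polynomial.aeval_C]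
  simp only [eq_ratCast]
  push_cast
  ring

private theorem c2_aeval_four (x : ℝ) :
    Polynomial.aeval x (Qp 4) = (1 + x ^ 2) * (2 * x + 3 * x ^ 3) / 3 := by
  rw [c2_Qp_four]
  simp only [map_mul, map_add, map_one, map_pow, Polynomial.aeval_X, Polynomial.aeval_C]
  simp only [eq_ratCast]
  push_cast
  ring

private theorem c2_tan (x : ℝ) (h : Real.cos x ≠ 0) : 1 + Real.tan x ^ 2 = 1 / Real.cos x ^ 2 := by
  rw [Real.tan_eq_sin_div_cos]
  have := Real.sin_sq_add_cos_sq x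
  field_simp
  linarith

private theorem c2_nd_one {p : ℕ} (hp : 2 ≤ p) : Nd {p} where
  card := by simp
  two_le := by
    intro q hq
    rw [Finset.mem_singleton] at hq
    omega
  cop := by
    intro q hq r hr h
    rw [Finset.mem_singleton] at hq hr
    exact absurd (hq.trans hr.symm) h

private theorem c2_nd_two {p q : ℕ} (hp : 2 ≤ p) (hq : 2 ≤ q) (hpq : Nat.Coprime p q) :
    Nd {p, q} where
  card := Finset.card_le_two
  two_le := by
    intro r hr
    rw [Finset.mem_insert, Finset.mem_singleton] at hr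
    rcases hr with h | h <;> omega
  cop := by
    intro r hr t ht h
    rw [Finset.mem_insert, Finset.mem_singleton] at hr ht
    rcases hr with hr | hr <;> rcases ht with ht | ht <;> subst hr <;> subst ht
    · exact absurd rfl h
    · exact hpq
    · exact hpq.symm
    · exact absurd rfl h

/-- The cosine of `π s (1 / p + e / q) / 2` is not zero. -/
private theorem c2_cos {p q : ℕ} (hp : 2 ≤ p) (hq : 2 ≤ q) (hpq : Nat.Coprime p q) {s : ℤ}
    (hs : CopL {p, q} s) (e : ℤ) (x : ℝ) (hx : x = Real.pi * s * (1 / p + e / q) / 2) :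
    Real.cos x ≠ 0 := by
  intro h0
  rw [Real.cos_eq_zero_iff] at h0
  obtain ⟨k, hk⟩ := h0
  have hp0 : (p : ℝ) ≠ 0 := by positivity
  have hq0 : (q : ℝ) ≠ 0 := by positivity
  rw [hx] at hk
  have h1 : (s : ℝ) * (1 / p + e / q) = 2 * k + 1 := by
    have := Real.pi_ne_zero
    field_simp at hk ⊢
    linarith
  have h2 : (s : ℝ) * (q + e * p) = (2 * k + 1) * (p * q) := by
    rw [← h1]
    field_simp
  have h3 : s * (q + e * p) = (2 * k + 1) * (p * q) := by exact_mod_cast h2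
  have h4 : (p : ℤ) ∣ s * q := by
    refine ⟨(2 * k + 1) * q - s * e, ?_⟩
    linear_combination h3
  have h5 : IsCoprime s (p : ℤ) := hs.2 p (by simp)
  have h6 : (p : ℤ) ∣ q := h5.symm.dvd_of_dvd_mul_left h4
  have h7 : p ∣ q := by exact_mod_cast h6
  have h8 : p = 1 := Nat.Coprime.eq_one_of_dvd hpq h7
  omega

theorem rho_one_leaf {p : ℕ} (hp : 2 ≤ p) {s : ℤ} (hs : CopL {p} s) :
    rho {p} s = 12 * Real.pi ^ 2 * (1 / Real.cos (Real.pi * s / (2 * p)) ^ 2 - 1 / 3) := by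
  obtain ⟨c, hc, h⟩ := rad_one_leaf hp hs
  have h0 := h 0
  have h1 := h 1
  have hpos := rad_pos (c2_nd_one hp) hs 0
  unfold rho
  rw [h0] at hpos
  rw [h1, h0]
  norm_num [Nat.factorial] at hpos ⊢
  rw [c2_aeval_two] at hpos ⊢
  rw [c2_aeval_four]
  set y : ℝ := Real.pi * s / (2 * p) with hy
  have hcos : Real.cos y ≠ 0 := by
    intro hz
    rw [Real.tan_eq_sin_div_cos, hz] at hpos
    simp at hpos
  have ht : Real.tan y ≠ 0 := by
    intro hz
    rw [hz] at hpos
    simp at hpos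
  have h2 : (1 : ℝ) + Real.tan y ^ 2 ≠ 0 := by positivity
  have h3 := c2_tan y hcos
  have h4 : (Real.cos y ^ 2)⁻¹ = 1 + Real.tan y ^ 2 := by
    rw [h3, one_div]
  rw [h4]
  have h5 := Real.pi_ne_zero
  field_simp
  ring

theorem rho_two_leaves {p q : ℕ} (hp : 2 ≤ p) (hq : 2 ≤ q) (hpq : Nat.Coprime p q) {s : ℤ}
    (hs : CopL {p, q} s) :
    rho {p, q} s = 6 * Real.pi ^ 2 * (1 / Real.cos (Real.pi * s * (1 / p + 1 / q) / 2) ^ 2 +
      1 / Real.cos (Real.pi * s * (1 / p - 1 / q) / 2) ^ 2 - 2 / 3) := by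
  obtain ⟨c, hc, h⟩ := rad_two_leaves hp hq hpq hs
  have h0 := h 0
  have h1 := h 1
  have hpos := rad_pos (c2_nd_two hp hq hpq) hs 0
  have hc1 := c2_cos hp hq hpq hs 1 (Real.pi * s * (1 / p + 1 / q) / 2) (by push_cast; ring)
  have hc2 := c2_cos hp hq hpq hs (-1) (Real.pi * s * (1 / p - 1 / q) / 2) (by push_cast; ring)
  unfold rho
  rw [h0] at hpos
  rw [h1, h0]
  set y : ℝ := Real.pi * s * (1 / p + 1 / q) / 2 with hy
  set z : ℝ := Real.pi * s * (1 / p - 1 / q) / 2 with hz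
  norm_num only [Nat.factorial] at hpos ⊢
  simp only [c2_aeval_one, c2_aeval_three] at hpos ⊢
  have h3 := c2_tan y hc1
  have h4 := c2_tan z hc2
  rw [← h3, ← h4]
  have h6 : Real.tan y ^ 2 - Real.tan z ^ 2 ≠ 0 := by
    intro h7
    have h8 : (1 + Real.tan y ^ 2) - (1 + Real.tan z ^ 2) = 0 := by linarith
    rw [h8] at hpos
    simp at hpos
  have h9 : (1 + Real.tan y ^ 2) - (1 + Real.tan z ^ 2) ≠ 0 := by
    intro h7
    exact h6 (by linarith)
  have h5 := Real.pi_ne_zero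
  rw [div_eq_iff (by positivity)]
  ring

/-- Without leaves there is no dependence on `s`. -/
theorem rho_zero_leaf (s s' : ℤ) : rho ∅ s = rho ∅ s' := by
  have h : tPhi ∅ s = tPhi ∅ s' := by
    funext z
    unfold tPhi
    simp only [Finset.prod_empty]
  unfold rho
  rw [h]

/-- Small leaf weights do not see `s`. -/
theorem rho_small {l : Finset ℕ} (hl : Nd l) (hb : ¬ Big l) {s : ℤ} (hs : CopL l s)
    (h3 : IsCoprime s 3) : rho l s = rho l 1 := by
  refine rho_eqv (s := 1) (s' := s) ?_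
  intro p hp
  have h2 := hl.two_le p hp
  have h4 : p < 4 := by
    by_contra h
    exact hb ⟨p, hp, by omega⟩
  obtain ⟨k, hk⟩ := hs.1
  have h5 : ¬ (3 : ℤ) ∣ s := by
    intro hd
    obtain ⟨a, b', hab⟩ := h3
    have h6 : (3 : ℤ) ∣ 1 := by
      rw [← hab]
      exact dvd_add (Dvd.dvd.mul_left hd a) (Dvd.intro_left b' rfl)
    norm_num at h6
  unfold Eqv
  interval_cases p
  · push_cast
    omega
  · push_cast
    have h6 : 0 ≤ s % 6 := Int.emod_nonneg s (by norm_num)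
    have h7 : s % 6 < 6 := Int.emod_lt_of_pos s (by norm_num)
    have h8 : s % 6 = 1 ∨ s % 6 = 5 := by
      generalize hr : s % 6 = r at h6 h7
      interval_cases r <;> omega
    rcases h8 with h8 | h8 <;> omega

end Pool.Agent.GT
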