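import Pool.Agent.H46.GT.C2

/-!
The dominant class, one leaf `p ≥ 4`. By `rho_one_leaf` and `th_eq`, with `t = th s p = m / p`, `m` odd,
`rho = 12 π² (1 / cos² (π t / 2) - 1/3) = 12 π² (1 / sin² (π (1 - t) / 2) - 1 / 3)`, increasing in `t`.
`p` odd: the largest value is `m = p - 2` (`m` is odd and `< p`), where `1 - t = 2 / p`, and the next is
`m ≤ p - 4`, `1 - t ≥ 4 / p`; with `a = π / p ≤ π / 5`: `2 / sin² 2a = 1 / (2 sin² a cos² a) < 1 / sin² a`
because `cos² a > 1 / 2`. `p` even: `m = p - 1`, `1 - t = 1 / p`, the next has `1 - t ≥ 3 / p`; with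
`c = π / (2 p) ≤ π / 8`, `sin 3c = sin c (3 - 4 sin² c)`, `(3 - 4 sin² c)² > 2`. The unit `g₀` is a lift
of `p - 2`, respectively `p - 1`, modulo `2 p` (`lift_unit`); `g g₀⁻¹ ∉ subA` means that `iv g` is not
`± iv g₀` modulo `2 p` (`div_mem_subA`), so its `m` is another one.
-/

set_option autoImplicit false

open PowerSeries Finset MeasureTheory

namespace Pool.Agent.GT

/-- The value of `rho` in terms of the representative. -/
private theorem c3_rho {M : ℕ} [NeZero M] {p : ℕ} (hp : 4 ≤ p) (hM : 2 * p ∣ M) (g : (ZMod M)ˣ)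
    {m : ℕ} (hmo : Odd m) (hmp : m < p) (he : Eqv p (iv g) (m : ℤ)) :
    rho {p} (iv g) = 12 * Real.pi ^ 2 *
      (1 / Real.sin (((p - m : ℕ) : ℝ) * (Real.pi / (2 * p))) ^ 2 - 1 / 3) := by
  have h1 : IsCoprime (iv g) ((2 * p : ℕ) : ℤ) := by
    exact (iv_coprime g).of_isCoprime_of_dvd_right (by exact_mod_cast hM)
  have h3 : IsCoprime (iv g) (p : ℤ) := by
    rw [Nat.cast_mul] at h1
    exact IsCoprime.of_mul_right_right h1
  have hcop : CopL {p} (m : ℤ) := by
    refine ⟨by exact_mod_cast hmo, fun q hq => ?_⟩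
    rw [Finset.mem_singleton] at hq
    subst hq
    rcases he with ⟨k, hk⟩ | ⟨k, hk⟩
    · have e : (m : ℤ) = iv g + (q : ℤ) * (2 * k) := by linear_combination hk
      rw [e]
      exact (IsCoprime.add_mul_left_left_iff).2 h3
    · have e : (m : ℤ) = -iv g + (q : ℤ) * (2 * k) := by linear_combination hk
      rw [e]
      exact (IsCoprime.add_mul_left_left_iff).2 h3.neg_left
  have h4 : rho {p} (iv g) = rho {p} (m : ℤ) := by
    refine (rho_eqv fun q hq => ?_).symm
    rw [Finset.mem_singleton] at hq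
    subst hq
    exact he
  rw [h4, rho_one_leaf (by omega) hcop]
  have hp0 : (0 : ℝ) < p := by
    have : 0 < p := by omega
    exact_mod_cast this
  have e : Real.pi * ((m : ℤ) : ℝ) / (2 * p) =
      Real.pi / 2 - ((p - m : ℕ) : ℝ) * (Real.pi / (2 * p)) := by
    rw [Nat.cast_sub hmp.le, Int.cast_natCast]
    field_simp
    ring
  rw [e, Real.cos_pi_div_two_sub]

private theorem c3_ineq {s₀ s₁ : ℝ} (h0 : 0 < s₀) (h1 : 0 < s₁) (h : 2 * s₀ ^ 2 ≤ s₁ ^ 2) :
    2 * (12 * Real.pi ^ 2 * (1 / s₁ ^ 2 - 1 / 3)) < 12 * Real.pi ^ 2 * (1 / s₀ ^ 2 - 1 / 3) := by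
  have h2 : 0 < s₀ ^ 2 := by positivity
  have h3 : 0 < s₁ ^ 2 := by positivity
  have h4 : 2 * (1 / s₁ ^ 2) ≤ 1 / s₀ ^ 2 := by
    rw [mul_one_div, div_le_div_iff₀ h3 h2]
    linarith
  have h5 : 0 < 12 * Real.pi ^ 2 := by positivity
  nlinarith

theorem peak_one {M : ℕ} [NeZero M] {p : ℕ} (hp : 4 ≤ p) (hM : 2 * p ∣ M) :
    ∃ g₀ : (ZMod M)ˣ, ∀ g : (ZMod M)ˣ, g * g₀⁻¹ ∉ subA M {p} →
      2 * rho {p} (iv g) < rho {p} (iv g₀) := by
  have hp0 : (0 : ℝ) < p := by
    have : 0 < p := by omega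
    exact_mod_cast this
  have hpi := Real.pi_pos
  set x : ℝ := Real.pi / (2 * p) with hx
  have hx0 : 0 < x := by positivity
  have hpx : (p : ℝ) * x = Real.pi / 2 := by
    rw [hx]
    field_simp
  have hMl : ∀ q ∈ ({p} : Finset ℕ), 2 * q ∣ M := by
    intro q hq
    rw [Finset.mem_singleton] at hq
    rw [hq]
    exact hM
  -- the general step
  have main : ∀ m₀ : ℕ, Odd m₀ → m₀ < p → IsCoprime (m₀ : ℤ) ((2 * p : ℕ) : ℤ) →
      (∀ m : ℕ, Odd m → m < p → m ≠ m₀ →
        2 * Real.sin (((p - m₀ : ℕ) : ℝ) * x) ^ 2 ≤ Real.sin (((p - m : ℕ) : ℝ) * x) ^ 2) →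
      ∃ g₀ : (ZMod M)ˣ, ∀ g : (ZMod M)ˣ, g * g₀⁻¹ ∉ subA M {p} →
        2 * rho {p} (iv g) < rho {p} (iv g₀) := by
    intro m₀ ho hlt hc hs
    obtain ⟨g₀, hg₀⟩ := lift_unit hM hc
    have he₀ : Eqv p (iv g₀) (m₀ : ℤ) := by
      left
      rw [← dvd_neg, neg_sub]
      have := hg₀
      push_cast at this
      exact this
    refine ⟨g₀, fun g hg => ?_⟩
    have hgo : IsCoprime (iv g) ((2 * p : ℕ) : ℤ) := by
      exact (iv_coprime g).of_isCoprime_of_dvd_right (by exact_mod_cast hM)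
    have hgp : IsCoprime (iv g) (p : ℤ) := by
      rw [Nat.cast_mul] at hgo
      exact IsCoprime.of_mul_right_right hgo
    have hg2 : Odd (iv g) := by
      have h1 : IsCoprime (iv g) (2 : ℤ) := by
        rw [Nat.cast_mul] at hgo
        exact IsCoprime.of_mul_right_left hgo
      rw [← Int.not_even_iff_odd]
      intro h2
      have h3 : (2 : ℤ) ∣ 1 := by
        obtain ⟨a, b, hab⟩ := h1
        rw [← hab]
        exact dvd_add (Dvd.dvd.mul_left h2.two_dvd a) (Dvd.intro_left b rfl)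
      norm_num at h3
    obtain ⟨m, hmo, hmp, -, hme⟩ := th_eq (by omega : 2 ≤ p) hg2 hgp
    have hne : m ≠ m₀ := by
      intro h
      apply hg
      rw [div_mem_subA hMl]
      intro q hq
      rw [Finset.mem_singleton] at hq
      subst hq
      subst h
      exact he₀.trans hme.symm
    rw [c3_rho hp hM g hmo hmp hme, c3_rho hp hM g₀ ho hlt he₀]
    have hpos : ∀ m : ℕ, m < p → 0 < Real.sin (((p - m : ℕ) : ℝ) * x) := by
      intro m hm
      apply Real.sin_pos_of_pos_of_lt_pi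
      · have : (0 : ℝ) < ((p - m : ℕ) : ℝ) := by
          exact_mod_cast Nat.sub_pos_of_lt hm
        positivity
      · have h1 : ((p - m : ℕ) : ℝ) ≤ p := by exact_mod_cast Nat.sub_le p m
        have h2 : ((p - m : ℕ) : ℝ) * x ≤ p * x := mul_le_mul_of_nonneg_right h1 hx0.le
        linarith
    exact c3_ineq (hpos m₀ hlt) (hpos m hmp) (hs m hmo hmp hne)
  have hmono : ∀ k k' : ℕ, k ≤ k' → k' ≤ p →
      Real.sin ((k : ℝ) * x) ≤ Real.sin ((k' : ℝ) * x) := by
    intro k k' h1 h2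
    have h3 : (k : ℝ) * x ≤ k' * x := mul_le_mul_of_nonneg_right (by exact_mod_cast h1) hx0.le
    have h4 : (k' : ℝ) * x ≤ p * x := mul_le_mul_of_nonneg_right (by exact_mod_cast h2) hx0.le
    have h5 : 0 ≤ (k : ℝ) * x := by positivity
    exact Real.sin_le_sin_of_le_of_le_pi_div_two (by linarith) (by linarith) h3
  rcases Nat.even_or_odd p with hev | hod
  · -- even
    refine main (p - 1) ?_ (by omega) ?_ ?_
    · obtain ⟨r, hr⟩ := hev
      exact ⟨r - 1, by omega⟩
    · rw [Nat.isCoprime_iff_coprime]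
      obtain ⟨r, hr⟩ := hev
      apply Nat.Coprime.mul_right
      · rw [Nat.coprime_two_right]
        exact ⟨r - 1, by omega⟩
      · have h1 : Nat.Coprime (p - 1) (p - 1 + 1) := by
          rw [Nat.coprime_self_add_right]
          exact Nat.coprime_one_right _
        rwa [Nat.sub_add_cancel (by omega : 1 ≤ p)] at h1
    · intro m hmo hmp hne
      obtain ⟨r, hr⟩ := hev
      obtain ⟨u, hu⟩ := hmo
      have h1 : 3 ≤ p - m := by omega
      have e1 : ((p - (p - 1) : ℕ) : ℝ) * x = x := by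
        rw [show p - (p - 1) = 1 by omega, Nat.cast_one, one_mul]
      rw [e1]
      have h2 := hmono 3 (p - m) h1 (Nat.sub_le _ _)
      have h3 : Real.sin (((3 : ℕ) : ℝ) * x) = Real.sin x * (3 - 4 * Real.sin x ^ 2) := by
        rw [Nat.cast_ofNat, Real.sin_three_mul]
        ring
      have hx8 : x ≤ 0.394 := by
        have h5 : (4 : ℝ) * x ≤ Real.pi / 2 := by
          rw [← hpx]
          exact mul_le_mul_of_nonneg_right (by exact_mod_cast hp) hx0.le
        have := Real.pi_lt_d2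
        linarith
      have hs1 : Real.sin x ≤ 0.394 := (Real.sin_le hx0.le).trans hx8
      have hs0 : 0 < Real.sin x :=
        Real.sin_pos_of_pos_of_lt_pi hx0 (by have := Real.pi_gt_three; linarith)
      have h4 : 3 / 2 * Real.sin x ≤ Real.sin (((3 : ℕ) : ℝ) * x) := by
        rw [h3]
        nlinarith
      have h5 : 3 / 2 * Real.sin x ≤ Real.sin (((p - m : ℕ) : ℝ) * x) := h4.trans h2
      nlinarith
  · -- odd
    have hp5 : 5 ≤ p := by
      obtain ⟨r, hr⟩ := hod
      omega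
    refine main (p - 2) ?_ (by omega) ?_ ?_
    · obtain ⟨r, hr⟩ := hod
      exact ⟨r - 1, by omega⟩
    · rw [Nat.isCoprime_iff_coprime]
      apply Nat.Coprime.mul_right
      · rw [Nat.coprime_two_right]
        obtain ⟨r, hr⟩ := hod
        exact ⟨r - 1, by omega⟩
      · have h1 : Nat.Coprime (p - 2) (p - 2 + 2) := by
          rw [Nat.coprime_self_add_right, Nat.coprime_two_right]
          obtain ⟨r, hr⟩ := hod
          exact ⟨r - 1, by omega⟩
        rwa [Nat.sub_add_cancel (by omega : 2 ≤ p)] at h1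
    · intro m hmo hmp hne
      obtain ⟨r, hr⟩ := hod
      obtain ⟨u, hu⟩ := hmo
      have h1 : 4 ≤ p - m := by omega
      have e1 : ((p - (p - 2) : ℕ) : ℝ) * x = 2 * x := by
        rw [show p - (p - 2) = 2 by omega, Nat.cast_ofNat]
      rw [e1]
      have h2 := hmono 4 (p - m) h1 (Nat.sub_le _ _)
      have h3 : Real.sin (((4 : ℕ) : ℝ) * x) = 2 * Real.sin (2 * x) * Real.cos (2 * x) := by
        rw [← Real.sin_two_mul]
        congr 1
        push_cast
        ring
      have hx5 : 2 * x ≤ Real.pi / 5 := by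
        have h5 : (5 : ℝ) * x ≤ Real.pi / 2 := by
          rw [← hpx]
          exact mul_le_mul_of_nonneg_right (by exact_mod_cast hp5) hx0.le
        linarith
      have hx4 : 2 * x ≤ Real.pi / 4 := by linarith
      have hc : Real.sqrt 2 / 2 ≤ Real.cos (2 * x) := by
        rw [← Real.cos_pi_div_four]
        exact Real.cos_le_cos_of_nonneg_of_le_pi (by positivity) (by linarith) hx4
      have hs0 : 0 < Real.sin (2 * x) :=
        Real.sin_pos_of_pos_of_lt_pi (by positivity) (by linarith)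
      have h4 : Real.sqrt 2 * Real.sin (2 * x) ≤ Real.sin (((4 : ℕ) : ℝ) * x) := by
        rw [h3]
        nlinarith
      have h5 : Real.sqrt 2 * Real.sin (2 * x) ≤ Real.sin (((p - m : ℕ) : ℝ) * x) := h4.trans h2
      have h6 : 0 ≤ Real.sqrt 2 * Real.sin (2 * x) := by positivity
      have h7 := pow_le_pow_left₀ h6 h5 2
      rw [mul_pow, Real.sq_sqrt (by norm_num : (0 : ℝ) ≤ 2)] at h7
      exact h7

end Pool.Agent.GT
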