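import Pool.Agent.H46.GT.C2

/-!
The dominant class, two coprime leaves `p, q ≥ 2`, `p q ≥ 10` (`q ≥ 4`). By `rho_two_leaves`,
`rho = 6 π² (1 / sin² (π s x₊) + 1 / sin² (π s x₋) - 2/3)` with `x± = 1/2 - (1/p ± 1/q)/2 = m± / (2 p q)`,
`m± = p q - q ∓ p` (for odd `s`, `cos² (π s y / 2) = sin² (π s (1 - y) / 2)`). The numbers `m±` are odd and
prime to `p q` (units modulo `2 p q`), `m₊ ≡ m₋` modulo `2 p`?, `m₊ ≡ - m₋` modulo `2 q`?
(precisely: `m₊ - m₋ = -2 p`, `m₊ + m₋ = 2 q (p - 1)`, so `m₋ = m₊` modulo `2 p` and `m₋ = - m₊` modulo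
`2 q`, hence `m₋ / m₊ ∈ subA`). Let `g₀` be a lift of the inverse of `m₊` modulo `2 p q`; so
`s m₊ = 1` and `rho (iv g₀) ≥ 6 π² (1 / sin² c + 1 - 2/3)`, `c = π / (2 p q) ≤ π / 20`. If
`g g₀⁻¹ ∉ subA`, then neither `s m₊` nor `s m₋` is `± 1` modulo `2 p q`; both are odd units, so
`|sin (π s x±)| ≥ sin (3 c)` and `rho (iv g) ≤ 6 π² (2 / sin² 3c - 2/3)`. Finally
`4 / sin² 3c - 4/3 < 1 / sin² c + 1/3` since `sin 3c = sin c (3 - 4 sin² c)` and `3 - 4 sin² c > 2`.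
-/

set_option autoImplicit false

open PowerSeries Finset MeasureTheory

namespace Pool.Agent.GT

private theorem c4_sq (r : ℤ) : (((-1 : ℝ)) ^ r) ^ 2 = 1 := by
  rw [← zpow_natCast, ← zpow_mul, mul_comm, zpow_mul]
  norm_num

/-- A lower bound for the sine at an odd multiple of `π / (2 N)`. -/
private theorem c4_sin {N : ℕ} (hN : 0 < N) {k : ℤ} (ho : Odd k) {j : ℕ}
    (h : ∀ a : ℤ, Odd a → |a| < j → ¬ (2 * (N : ℤ)) ∣ k - a) :
    Real.sin (j * (Real.pi / (2 * N))) ^ 2 ≤ Real.sin (Real.pi * k / (2 * N)) ^ 2 := by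
  have hN0 : (0 : ℝ) < N := by exact_mod_cast hN
  have hpi := Real.pi_pos
  obtain ⟨r, hr⟩ : (2 * (N : ℤ)) ∣ k - Int.bmod k (2 * N) := by
    have h1 := Int.dvd_self_sub_bmod (x := k) (m := 2 * N)
    have h2 : ((2 * N : ℕ) : ℤ) = 2 * (N : ℤ) := by push_cast; ring
    rwa [h2] at h1
  set k' : ℤ := Int.bmod k (2 * N) with hk'
  have hlo : -(N : ℤ) ≤ k' := by
    have := Int.le_bmod (x := k) (m := 2 * N) (by omega)
    omega
  have hhi : k' < N := by
    have := Int.bmod_lt (x := k) (m := 2 * N) (by omega)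
    omega
  have habs : |k'| ≤ N := abs_le.2 ⟨hlo, hhi.le⟩
  have hko : Odd k' := by
    have e : k' = k - 2 * (N * r) := by linear_combination -hr
    rw [e]
    exact ho.sub_even (even_two_mul _)
  have hj : (j : ℤ) ≤ |k'| := by
    by_contra hlt
    push Not at hlt
    exact h k' hko hlt ⟨r, hr⟩
  have e1 : Real.pi * k / (2 * N) = Real.pi * k' / (2 * N) + r * Real.pi := by
    have e2 : (k : ℝ) = k' + 2 * N * r := by
      have : k = k' + 2 * N * r := by linear_combination hr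
      rw [this]
      push_cast
      ring
    rw [e2]
    field_simp
  have e3 : Real.sin (Real.pi * k / (2 * N)) ^ 2 = Real.sin (|(k' : ℝ)| * (Real.pi / (2 * N))) ^ 2 := by
    rw [e1, Real.sin_add_int_mul_pi, mul_pow, c4_sq, one_mul]
    rcases abs_cases (k' : ℝ) with ⟨h1, _⟩ | ⟨h1, _⟩
    · rw [h1]
      congr 2
      ring
    · rw [h1, neg_mul, Real.sin_neg, neg_sq]
      congr 2
      ring
  rw [e3]
  have hx0 : 0 < Real.pi / (2 * N) := by positivity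
  have h1 : (j : ℝ) ≤ |(k' : ℝ)| := by
    have : ((j : ℤ) : ℝ) ≤ ((|k'| : ℤ) : ℝ) := by exact_mod_cast hj
    simpa using this
  have h2 : |(k' : ℝ)| ≤ N := by
    have : ((|k'| : ℤ) : ℝ) ≤ ((N : ℤ) : ℝ) := by exact_mod_cast habs
    simpa using this
  have h3 : (j : ℝ) * (Real.pi / (2 * N)) ≤ |(k' : ℝ)| * (Real.pi / (2 * N)) :=
    mul_le_mul_of_nonneg_right h1 hx0.le
  have h4 : |(k' : ℝ)| * (Real.pi / (2 * N)) ≤ Real.pi / 2 := by
    calc |(k' : ℝ)| * (Real.pi / (2 * N)) ≤ N * (Real.pi / (2 * N)) :=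
          mul_le_mul_of_nonneg_right h2 hx0.le
      _ = Real.pi / 2 := by field_simp
  have h5 : 0 ≤ (j : ℝ) * (Real.pi / (2 * N)) := by positivity
  refine pow_le_pow_left₀ (Real.sin_nonneg_of_nonneg_of_le_pi h5 (by linarith)) ?_ 2
  exact Real.sin_le_sin_of_le_of_le_pi_div_two (by linarith) h4 h3

/-- The square of the cosine as that of a sine. -/
private theorem c4_cos {s : ℤ} (ho : Odd s) (x y : ℝ) (h : x + y = Real.pi * s / 2) :
    Real.cos x ^ 2 = Real.sin y ^ 2 := by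
  obtain ⟨r, hr⟩ := ho
  have e : y = (Real.pi / 2 - x) + r * Real.pi := by
    rw [hr] at h
    push_cast at h
    linarith
  rw [e, Real.sin_add_int_mul_pi, mul_pow, Real.sin_pi_div_two_sub, c4_sq, one_mul]

private theorem c4_rho {p q : ℕ} (hp : 2 ≤ p) (hq : 4 ≤ q) (hpq : Nat.Coprime p q) {s : ℤ}
    (hs : CopL {p, q} s) :
    rho {p, q} s = 6 * Real.pi ^ 2 *
      (1 / Real.sin (Real.pi * ((s * (p * q - q - p) : ℤ) : ℝ) / (2 * (p * q : ℕ))) ^ 2 +
        1 / Real.sin (Real.pi * ((s * (p * q - q + p) : ℤ) : ℝ) / (2 * (p * q : ℕ))) ^ 2 - 2 / 3) := by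
  have hp0 : (0 : ℝ) < p := by
    have : 0 < p := by omega
    exact_mod_cast this
  have hq0 : (0 : ℝ) < q := by
    have : 0 < q := by omega
    exact_mod_cast this
  rw [rho_two_leaves hp (by omega) hpq hs,
    c4_cos hs.1 (Real.pi * s * (1 / p + 1 / q) / 2)
      (Real.pi * ((s * (p * q - q - p) : ℤ) : ℝ) / (2 * (p * q : ℕ))) (by
        push_cast
        field_simp
        ring),
    c4_cos hs.1 (Real.pi * s * (1 / p - 1 / q) / 2)
      (Real.pi * ((s * (p * q - q + p) : ℤ) : ℝ) / (2 * (p * q : ℕ))) (by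
        push_cast
        field_simp
        ring)]

private theorem c4_ineq {s₀ S P Q R : ℝ} (h0 : 0 < s₀) (h1 : s₀ ≤ 2 / 5)
    (hS : S = s₀ * (3 - 4 * s₀ ^ 2)) (hP : S ^ 2 ≤ P) (hQ : S ^ 2 ≤ Q) (hR : 0 < R) (hR1 : R ≤ 1) :
    2 * (6 * Real.pi ^ 2 * (1 / P + 1 / Q - 2 / 3)) <
      6 * Real.pi ^ 2 * (1 / s₀ ^ 2 + 1 / R - 2 / 3) := by
  have h2 : 2 * s₀ ≤ S := by
    rw [hS]
    nlinarith
  have h3 : (2 * s₀) ^ 2 ≤ S ^ 2 := pow_le_pow_left₀ (by positivity) h2 2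
  have h4 : 0 < s₀ ^ 2 := by positivity
  have hP' : 4 * s₀ ^ 2 ≤ P := by nlinarith
  have hQ' : 4 * s₀ ^ 2 ≤ Q := by nlinarith
  have hP0 : 0 < P := by linarith
  have hQ0 : 0 < Q := by linarith
  have e1 : 1 / P ≤ 1 / (4 * s₀ ^ 2) := one_div_le_one_div_of_le (by positivity) hP'
  have e2 : 1 / Q ≤ 1 / (4 * s₀ ^ 2) := one_div_le_one_div_of_le (by positivity) hQ'
  have e3 : 1 / (4 * s₀ ^ 2) = (1 / 4) * (1 / s₀ ^ 2) := by
    field_simp
  have e4 : 1 ≤ 1 / R := by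
    rw [le_div_iff₀ hR]
    linarith
  have h5 : 0 < 6 * Real.pi ^ 2 := by have := Real.pi_pos; positivity
  have h6 : 2 * (1 / P + 1 / Q - 2 / 3) < 1 / s₀ ^ 2 + 1 / R - 2 / 3 := by
    have : 0 < 1 / s₀ ^ 2 := by positivity
    linarith
  nlinarith

theorem peak_two {M : ℕ} [NeZero M] {p q : ℕ} (hp : 2 ≤ p) (hq : 4 ≤ q) (hpq : Nat.Coprime p q)
    (hM : 2 * p * q ∣ M) :
    ∃ g₀ : (ZMod M)ˣ, ∀ g : (ZMod M)ˣ, g * g₀⁻¹ ∉ subA M {p, q} →
      2 * rho {p, q} (iv g) < rho {p, q} (iv g₀) := by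
  have hpi := Real.pi_pos
  have hN : 0 < p * q := Nat.mul_pos (by omega) (by omega)
  have hpqZ : IsCoprime (p : ℤ) (q : ℤ) := Nat.isCoprime_iff_coprime.2 hpq
  -- divisibilities
  have hMl : ∀ r ∈ ({p, q} : Finset ℕ), 2 * r ∣ M := by
    intro r hr
    rw [Finset.mem_insert, Finset.mem_singleton] at hr
    rcases hr with rfl | rfl
    · exact (Dvd.intro q rfl).trans hM
    · exact (Dvd.intro p (by ring)).trans hM
  have hdl : ∀ r ∈ ({p, q} : Finset ℕ), (2 * r : ℤ) ∣ 2 * (p * q : ℕ) := by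
    intro r hr
    rw [Finset.mem_insert, Finset.mem_singleton] at hr
    rcases hr with rfl | rfl
    · exact ⟨q, by push_cast; ring⟩
    · exact ⟨p, by push_cast; ring⟩
  -- the numbers `m₊`, `m₋`
  set mp : ℤ := p * q - q - p with hmp
  set mm : ℤ := p * q - q + p with hmm
  have hodd : Odd mp := by
    rw [hmp]
    rcases Int.even_or_odd (p : ℤ) with h1 | h1 <;> rcases Int.even_or_odd (q : ℤ) with h2 | h2
    · exfalso
      obtain ⟨a, b, hab⟩ := hpqZ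
      have h3 : (2 : ℤ) ∣ 1 := by
        rw [← hab]
        exact dvd_add (Dvd.dvd.mul_left h1.two_dvd a) (Dvd.dvd.mul_left h2.two_dvd b)
      norm_num at h3
    · exact ((h1.mul_right _).sub_odd h2).sub_even h1
    · have h3 : Even ((p : ℤ) * q - q) := (h2.mul_left _).sub h2
      exact h3.sub_odd h1
    · have h3 : Even ((p : ℤ) * q - q) := (h1.mul h2).sub_odd h2
      exact h3.sub_odd h1
  have hmodd : Odd mm := by
    have e : mm = mp + 2 * p := by rw [hmm, hmp]; ring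
    rw [e]
    exact hodd.add_even (even_two_mul _)
  have hcp : IsCoprime mp (p : ℤ) := by
    have e : mp = -(q : ℤ) + p * (q - 1) := by rw [hmp]; ring
    rw [e]
    exact (IsCoprime.add_mul_left_left_iff).2 hpqZ.symm.neg_left
  have hcq : IsCoprime mp (q : ℤ) := by
    have e : mp = -(p : ℤ) + q * (p - 1) := by rw [hmp]; ring
    rw [e]
    exact (IsCoprime.add_mul_left_left_iff).2 hpqZ.neg_left
  have hc2 : IsCoprime mp (2 : ℤ) := by
    obtain ⟨r, hr⟩ := hodd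
    rw [hr]
    exact ⟨1, -r, by ring⟩
  have hcN : IsCoprime mp ((2 * p * q : ℕ) : ℤ) := by
    push_cast
    exact (hc2.mul_right hcp).mul_right hcq
  have hcr : ∀ r ∈ ({p, q} : Finset ℕ), IsCoprime mp (2 * r : ℤ) := by
    intro r hr
    rw [Finset.mem_insert, Finset.mem_singleton] at hr
    rcases hr with rfl | rfl
    · exact hc2.mul_right hcp
    · exact hc2.mul_right hcq
  have hmm_eqv : ∀ r ∈ ({p, q} : Finset ℕ), Eqv r mm mp := by
    intro r hr
    rw [Finset.mem_insert, Finset.mem_singleton] at hr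
    rcases hr with rfl | rfl
    · left
      exact ⟨-1, by rw [hmm, hmp]; ring⟩
    · right
      exact ⟨p - 1, by rw [hmm, hmp]; ring⟩
  obtain ⟨u, hu⟩ := lift_unit hM hcN
  -- `iv u⁻¹ * mp = 1` modulo `2 p q`
  have h2N : ((2 * p * q : ℕ) : ℤ) = 2 * ((p * q : ℕ) : ℤ) := by push_cast; ring
  have hinv : 2 * ((p * q : ℕ) : ℤ) ∣ iv u⁻¹ * mp - 1 := by
    have h1 : ((2 * p * q : ℕ) : ℤ) ∣ iv u * iv u⁻¹ - 1 :=
      (Int.natCast_dvd_natCast.2 hM).trans (iv_inv u)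
    rw [h2N] at h1 hu
    have e : iv u⁻¹ * mp - 1 = (iv u * iv u⁻¹ - 1) - iv u⁻¹ * (iv u - mp) := by ring
    rw [e]
    exact dvd_sub h1 (Dvd.dvd.mul_left hu _)
  have hcop : ∀ g : (ZMod M)ˣ, IsCoprime (iv g) ((2 * p * q : ℕ) : ℤ) := fun g =>
    (iv_coprime g).of_isCoprime_of_dvd_right (Int.natCast_dvd_natCast.2 hM)
  have hgo : ∀ g : (ZMod M)ˣ, Odd (iv g) := by
    intro g
    have h1 : IsCoprime (iv g) (2 : ℤ) :=
      (hcop g).of_isCoprime_of_dvd_right ⟨p * q, by push_cast; ring⟩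
    rw [← Int.not_even_iff_odd]
    intro h2
    have h3 : (2 : ℤ) ∣ 1 := by
      obtain ⟨a, b, hab⟩ := h1
      rw [← hab]
      exact dvd_add (Dvd.dvd.mul_left h2.two_dvd a) (Dvd.intro_left b rfl)
    norm_num at h3
  have hCL : ∀ g : (ZMod M)ˣ, CopL {p, q} (iv g) := by
    intro g
    refine ⟨hgo g, fun r hr => ?_⟩
    apply (hcop g).of_isCoprime_of_dvd_right
    rw [h2N]
    exact (Dvd.intro_left 2 rfl).trans (hdl r hr)
  -- the excluded classes
  have hexc : ∀ g : (ZMod M)ˣ, g * (u⁻¹)⁻¹ ∉ subA M {p, q} → ∀ m : ℤ,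
      (∀ r ∈ ({p, q} : Finset ℕ), Eqv r m mp) → ∀ a : ℤ, Odd a → |a| < ((3 : ℕ) : ℤ) →
        ¬ (2 * ((p * q : ℕ) : ℤ)) ∣ iv g * m - a := by
    intro g hg m hm a hao hal hdv
    apply hg
    rw [div_mem_subA hMl]
    intro r hr
    have ha : a = 1 ∨ a = -1 := by
      obtain ⟨k, hk⟩ := hao
      rw [abs_lt] at hal
      push_cast at hal
      omega
    have h1 : Eqv r (iv g * m) 1 := by
      have h2 := (hdl r hr).trans hdv
      rcases ha with rfl | rfl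
      · left
        rw [← dvd_neg, neg_sub]
        exact h2
      · right
        rw [add_comm]
        exact h2
    have h2 : Eqv r (iv g * m) (iv g * mp) := Eqv.mul (Eqv.refl r _) (hm r hr)
    have h3 : Eqv r (iv u⁻¹ * mp) 1 := by
      left
      rw [← dvd_neg, neg_sub]
      exact (hdl r hr).trans hinv
    have h4 : Eqv r (mp * iv u⁻¹) (mp * iv g) := by
      rw [mul_comm mp, mul_comm mp]
      exact (h3.trans h1.symm).trans h2
    exact Eqv.cancel (hcr r hr) h4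
  -- the constants
  set c : ℝ := Real.pi / (2 * (p * q : ℕ)) with hc
  have hN8 : (8 : ℝ) ≤ (p * q : ℕ) := by
    have : 8 ≤ p * q := by nlinarith
    exact_mod_cast this
  have hc0 : 0 < c := by
    have : (0 : ℝ) < (p * q : ℕ) := by exact_mod_cast hN
    positivity
  have hc1 : c ≤ 1 / 5 := by
    rw [hc, div_le_iff₀ (by positivity)]
    have := Real.pi_lt_d2
    linarith
  have hsc0 : 0 < Real.sin c := Real.sin_pos_of_pos_of_lt_pi hc0
    (by have := Real.pi_gt_three; linarith)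
  have hsc1 : Real.sin c ≤ 2 / 5 := (Real.sin_le hc0.le).trans (by linarith)
  refine ⟨u⁻¹, fun g hg => ?_⟩
  rw [c4_rho hp hq hpq (hCL g), c4_rho hp hq hpq (hCL u⁻¹)]
  rw [← hmp, ← hmm]
  have hS3 : Real.sin (((3 : ℕ) : ℝ) * c) = Real.sin c * (3 - 4 * Real.sin c ^ 2) := by
    rw [Nat.cast_ofNat, Real.sin_three_mul]
    ring
  have hP := c4_sin hN ((hgo g).mul hodd) (hexc g hg mp fun r _ => Eqv.refl r mp)
  have hQ := c4_sin hN ((hgo g).mul hmodd) (hexc g hg mm hmm_eqv)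
  have hR := c4_sin (j := 1) hN ((hgo u⁻¹).mul hmodd) (by
    intro a hao hal
    exfalso
    obtain ⟨k, hk⟩ := hao
    rw [abs_lt] at hal
    push_cast at hal
    omega)
  have hR1 : Real.sin (Real.pi * ((iv u⁻¹ * mm : ℤ) : ℝ) / (2 * (p * q : ℕ))) ^ 2 ≤ 1 :=
    Real.sin_sq_le_one _
  have hR0 : 0 < Real.sin (Real.pi * ((iv u⁻¹ * mm : ℤ) : ℝ) / (2 * (p * q : ℕ))) ^ 2 := by
    refine lt_of_lt_of_le ?_ hR
    rw [Nat.cast_one, one_mul]
    exact pow_pos hsc0 2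
  have h0 : Real.sin (Real.pi * ((iv u⁻¹ * mp : ℤ) : ℝ) / (2 * (p * q : ℕ))) ^ 2 =
      Real.sin c ^ 2 := by
    obtain ⟨r, hr⟩ := hinv
    have e : iv u⁻¹ * mp = 1 + 2 * ((p * q : ℕ) : ℤ) * r := by linear_combination hr
    have hNr : (0 : ℝ) < (p * q : ℕ) := by exact_mod_cast hN
    have e1 : Real.pi * ((iv u⁻¹ * mp : ℤ) : ℝ) / (2 * (p * q : ℕ)) = c + r * Real.pi := by
      rw [e, hc]
      push_cast at hNr ⊢
      field_simp
    rw [e1, Real.sin_add_int_mul_pi, mul_pow, c4_sq, one_mul]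
  rw [h0]
  exact c4_ineq hsc0 hsc1 hS3 hP hQ hR0 hR1

end Pool.Agent.GT
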