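import Mathlib

/-!
The Chinese remainder theorem for moduli which are not coprime. Induction on the finite set:
if `x` solves the congruences for `S` and `i ∉ S`, then `x = t i` modulo `gcd (n i, n j)` for all `j ∈ S`, so modulo
`gcd (n i, lcm_S n)` (`gcd` distributes over `lcm`), hence there is `y = x` modulo `lcm_S n`, `y = t i` modulo `n i`.
-/

set_option autoImplicit false

open Finset

namespace Pool.Agent.GT

private theorem c5a_dist {a b c : ℕ} (ha : 0 < a) (hb : 0 < b) (hc : 0 < c) :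
    Nat.gcd a (Nat.lcm b c) ∣ Nat.lcm (Nat.gcd a b) (Nat.gcd a c) := by
  have hl : Nat.lcm b c ≠ 0 := Nat.lcm_ne_zero hb.ne' hc.ne'
  have h1 : Nat.gcd a b ≠ 0 := Nat.gcd_ne_zero_left ha.ne'
  have h2 : Nat.gcd a c ≠ 0 := Nat.gcd_ne_zero_left ha.ne'
  rw [← Nat.factorization_le_iff_dvd (Nat.gcd_ne_zero_left ha.ne') (Nat.lcm_ne_zero h1 h2)]
  rw [Nat.factorization_gcd ha.ne' hl, Nat.factorization_lcm hb.ne' hc.ne',
    Nat.factorization_lcm h1 h2, Nat.factorization_gcd ha.ne' hb.ne',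
    Nat.factorization_gcd ha.ne' hc.ne']
  intro p
  simp only [Finsupp.inf_apply, Finsupp.sup_apply]
  omega

private theorem c5a_lcm {ι : Type} [DecidableEq ι] (S : Finset ι) (n : ι → ℕ)
    (hn : ∀ i ∈ S, 0 < n i) : ∃ L : ℕ, 0 < L ∧ (∀ j ∈ S, n j ∣ L) ∧
      ∀ a : ℕ, 0 < a → ∀ d : ℤ, (∀ j ∈ S, ((Nat.gcd a (n j) : ℕ) : ℤ) ∣ d) →
        ((Nat.gcd a L : ℕ) : ℤ) ∣ d := by
  induction S using Finset.induction_on with
  | empty => exact ⟨1, one_pos, by simp, by simp⟩
  | insert i S hi ih =>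
    obtain ⟨L, h1, h2, h3⟩ := ih fun j hj => hn j (mem_insert_of_mem hj)
    have hi0 := hn i (mem_insert_self i S)
    refine ⟨Nat.lcm (n i) L, Nat.pos_of_ne_zero (Nat.lcm_ne_zero hi0.ne' h1.ne'), ?_, ?_⟩
    · intro j hj
      rcases mem_insert.1 hj with rfl | hj
      · exact Nat.dvd_lcm_left _ _
      · exact (h2 j hj).trans (Nat.dvd_lcm_right _ _)
    · intro a ha d hd
      have h4 := h3 a ha d fun j hj => hd j (mem_insert_of_mem hj)
      have h5 := hd i (mem_insert_self i S)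
      rw [Int.natCast_dvd] at h4 h5 ⊢
      exact (c5a_dist ha hi0 h1).trans (Nat.lcm_dvd h5 h4)

theorem crt {ι : Type} [DecidableEq ι] (S : Finset ι) (n : ι → ℕ) (t : ι → ℤ)
    (hn : ∀ i ∈ S, 0 < n i)
    (h : ∀ i ∈ S, ∀ j ∈ S, ((Nat.gcd (n i) (n j) : ℕ) : ℤ) ∣ t i - t j) :
    ∃ x : ℤ, ∀ i ∈ S, (n i : ℤ) ∣ x - t i := by
  induction S using Finset.induction_on with
  | empty => exact ⟨0, by simp⟩
  | insert i S hi ih =>
    obtain ⟨x, hx⟩ := ih (fun j hj => hn j (mem_insert_of_mem hj))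
      fun j hj k hk => h j (mem_insert_of_mem hj) k (mem_insert_of_mem hk)
    obtain ⟨L, h1, h2, h3⟩ := c5a_lcm S n fun j hj => hn j (mem_insert_of_mem hj)
    have hi0 := hn i (mem_insert_self i S)
    have h4 : ((Nat.gcd (n i) L : ℕ) : ℤ) ∣ x - t i := by
      refine h3 (n i) hi0 _ fun j hj => ?_
      have h5 : ((Nat.gcd (n i) (n j) : ℕ) : ℤ) ∣ x - t j :=
        (Int.natCast_dvd_natCast.2 (Nat.gcd_dvd_right _ _)).trans (hx j hj)
      have h6 := h i (mem_insert_self i S) j (mem_insert_of_mem hj)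
      have h7 := dvd_sub h5 h6
      have h8 : x - t j - (t i - t j) = x - t i := by ring
      rwa [h8] at h7
    obtain ⟨k, hk⟩ := h4
    have h5 := Nat.gcd_eq_gcd_ab (n i) L
    refine ⟨x - L * (Nat.gcdB (n i) L * k), fun j hj => ?_⟩
    rcases mem_insert.1 hj with rfl | hj
    · refine ⟨Nat.gcdA (n j) L * k, ?_⟩
      rw [h5] at hk
      linear_combination hk
    · have h6 := hx j hj
      have h7 : (n j : ℤ) ∣ L := Int.natCast_dvd_natCast.2 (h2 j hj)
      have h8 : x - L * (Nat.gcdB (n i) L * k) - t j = (x - t j) - L * (Nat.gcdB (n i) L * k) := by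
        ring
      rw [h8]
      exact dvd_sub h6 (dvd_mul_of_dvd_left h7 _)

end Pool.Agent.GT
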