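import Pool.Agent.H46.GT.C1
import Pool.Agent.H46.GT.C5a

/-!
Independence. All leaf weights `p`, with `t_p = iv g` for `p ∈ l v` and `t_p = 1` for `p ∈ l w`, `w ≠ v`.
We look for signs `ε_p` and a unit `g'` with `iv g' = ε_p t_p` modulo `2 p` for all `p`. At most one weight
(as a pair (node, weight)) is divisible by `6` (two of them would have a gcd `≥ 6`). Let `a ∈ {1, 3}` modulo
`4` and `b ∈ {1, 2}` modulo `3` be the residues of its `t_p` (or `1, 1` if there is none). Choose `ε_p`
for the other even `p` so that `ε_p t_p = a` modulo `4`, and for the odd multiples `p` of `3` so that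
`ε_p t_p = b` modulo `3`. Two weights `p, q` at different nodes have `gcd (2p, 2q) ∈ {2, 4, 6}`, at the same
node `gcd (2p, 2q) = 2`: the congruences are pairwise compatible modulo the gcd's, so they have a common
solution `x` (`crt` of C5a).
`x` is prime to all `2 p`, so prime to their lcm
`n ∣ M`, and it lifts to a unit modulo `M` (`lift_unit`).
-/

set_option autoImplicit false

open Finset

namespace Pool.Agent.GT

private theorem C5_gcd (p q : ℕ) : Nat.gcd (2 * p) (2 * q) = 2 * Nat.gcd p q := Nat.gcd_mul_left 2 p q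

theorem indep {V : Type} [Fintype V] [DecidableEq V] {l : V → Finset ℕ} (hl : ∀ v, Nd (l v))
    (hs : ∀ v w, v ≠ w → ∀ p ∈ l v, ∀ q ∈ l w, Nat.gcd p q ≤ 3) {M : ℕ} [NeZero M]
    (hM : ∀ v, ∀ p ∈ l v, 2 * p ∣ M) (v : V) (g : (ZMod M)ˣ) :
    ∃ g' : (ZMod M)ˣ, (∀ p ∈ l v, Eqv p (iv g) (iv g')) ∧
      ∀ w, w ≠ v → ∀ p ∈ l w, Eqv p 1 (iv g') := by
  classical
  set S : Finset (V × ℕ) :=
    ((univ : Finset V) ×ˢ (univ : Finset V).biUnion l).filter (fun i => i.2 ∈ l i.1) with hSdef
  have memS : ∀ i : V × ℕ, i ∈ S ↔ i.2 ∈ l i.1 := by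
    intro i
    rw [hSdef, mem_filter, mem_product, mem_biUnion]
    constructor
    · exact fun h => h.2
    · exact fun h => ⟨⟨mem_univ _, ⟨i.1, mem_univ _, h⟩⟩, h⟩
  set t : V × ℕ → ℤ := fun i => if i.1 = v then iv g else 1 with ht
  have hcop : ∀ i ∈ S, IsCoprime (t i) ((2 * i.2 : ℕ) : ℤ) := by
    intro i hi
    rw [ht]
    dsimp only
    by_cases h : i.1 = v
    · rw [if_pos h]
      have h1 := iv_coprime g
      have h2 : ((2 * i.2 : ℕ) : ℤ) ∣ (M : ℤ) := by
        exact_mod_cast hM i.1 i.2 ((memS i).1 hi)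
      exact h1.of_isCoprime_of_dvd_right h2
    · rw [if_neg h]
      exact isCoprime_one_left
  have hodd : ∀ i ∈ S, t i % 2 = 1 := by
    intro i hi
    have h1 : IsCoprime (t i) 2 := by
      refine (hcop i hi).of_isCoprime_of_dvd_right ?_
      push_cast
      exact dvd_mul_right _ _
    rcases Int.emod_two_eq_zero_or_one (t i) with h | h
    · exfalso
      have h2 : (2 : ℤ) ∣ t i := Int.dvd_of_emod_eq_zero h
      have h3 := h1.isUnit_of_dvd' h2 (dvd_refl 2)
      rw [Int.isUnit_iff] at h3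
      omega
    · exact h
  have hthree : ∀ i ∈ S, 3 ∣ i.2 → t i % 3 ≠ 0 := by
    intro i hi h3 h
    have h1 : IsCoprime (t i) 3 := by
      refine (hcop i hi).of_isCoprime_of_dvd_right ?_
      have : (3 : ℤ) ∣ (i.2 : ℤ) := by exact_mod_cast h3
      push_cast
      exact dvd_mul_of_dvd_right this _
    have h2 : (3 : ℤ) ∣ t i := Int.dvd_of_emod_eq_zero h
    have h4 := h1.isUnit_of_dvd' h2 (dvd_refl 3)
    rw [Int.isUnit_iff] at h4
    omega
  have hge : ∀ i ∈ S, 2 ≤ i.2 := fun i hi => (hl i.1).two_le i.2 ((memS i).1 hi)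
  -- at most one index is divisible by 6
  have huniq : ∀ i ∈ S, ∀ j ∈ S, 6 ∣ i.2 → 6 ∣ j.2 → i = j := by
    intro i hi j hj h6 h6'
    have hd := Nat.dvd_gcd h6 h6'
    have hpos : 0 < Nat.gcd i.2 j.2 := Nat.gcd_pos_of_pos_left _ (by have := hge i hi; omega)
    have hle := Nat.le_of_dvd hpos hd
    by_cases h : i.1 = j.1
    · by_cases h2 : i.2 = j.2
      · exact Prod.ext h h2
      · exfalso
        have h3 := (hl i.1).cop i.2 ((memS i).1 hi) j.2 (by rw [h]; exact (memS j).1 hj) h2
        rw [Nat.Coprime] at h3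
        omega
    · exfalso
      have h3 := hs i.1 j.1 h i.2 ((memS i).1 hi) j.2 ((memS j).1 hj)
      omega
  obtain ⟨a, b, ha, hb, hab⟩ : ∃ a b : ℤ, a % 2 = 1 ∧ b % 3 ≠ 0 ∧
      ∀ i ∈ S, 6 ∣ i.2 → 4 ∣ t i - a ∧ 3 ∣ t i - b := by
    by_cases h : ∃ i ∈ S, 6 ∣ i.2
    · obtain ⟨i, hi, h6⟩ := h
      refine ⟨t i, t i, hodd i hi, hthree i hi (dvd_trans (by norm_num) h6), ?_⟩
      intro j hj h6'
      rw [huniq j hj i hi h6' h6, sub_self]
      exact ⟨dvd_zero _, dvd_zero _⟩
    · refine ⟨1, 1, by norm_num, by norm_num, ?_⟩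
      intro j hj h6
      exact absurd ⟨j, hj, h6⟩ h
  have heps : ∀ i : V × ℕ, ∃ ε : ℤ, (ε = 1 ∨ ε = -1) ∧
      (i ∈ S → (2 ∣ i.2 → 4 ∣ ε * t i - a) ∧ (3 ∣ i.2 → 3 ∣ ε * t i - b)) := by
    intro i
    by_cases hi : i ∈ S
    · by_cases h2 : 2 ∣ i.2
      · by_cases h3 : 3 ∣ i.2
        · have h6 : 6 ∣ i.2 := by omega
          obtain ⟨e1, e2⟩ := hab i hi h6
          refine ⟨1, Or.inl rfl, fun _ => ⟨fun _ => by rw [one_mul]; exact e1, fun _ => by
            rw [one_mul]; exact e2⟩⟩
        · have h1 := hodd i hi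
          rcases (by omega : (4 : ℤ) ∣ t i - a ∨ (4 : ℤ) ∣ -t i - a) with h | h
          · exact ⟨1, Or.inl rfl, fun _ => ⟨fun _ => by rw [one_mul]; exact h, fun h' =>
              absurd h' h3⟩⟩
          · exact ⟨-1, Or.inr rfl, fun _ => ⟨fun _ => by rw [neg_one_mul]; exact h, fun h' =>
              absurd h' h3⟩⟩
      · by_cases h3 : 3 ∣ i.2
        · have h1 := hthree i hi h3
          have h33 : (3 : ℤ) ∣ t i - b ∨ (3 : ℤ) ∣ -t i - b := by
            have g1 : t i % 3 = 1 ∨ t i % 3 = 2 := by omega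
            have g2 : b % 3 = 1 ∨ b % 3 = 2 := by omega
            rcases g1 with g1 | g1 <;> rcases g2 with g2 | g2
            · left; omega
            · right; omega
            · right; omega
            · left; omega
          rcases h33 with h | h
          · exact ⟨1, Or.inl rfl, fun _ => ⟨fun h' => absurd h' h2, fun _ => by
              rw [one_mul]; exact h⟩⟩
          · exact ⟨-1, Or.inr rfl, fun _ => ⟨fun h' => absurd h' h2, fun _ => by
              rw [neg_one_mul]; exact h⟩⟩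
        · exact ⟨1, Or.inl rfl, fun _ => ⟨fun h' => absurd h' h2, fun h' => absurd h' h3⟩⟩
    · exact ⟨1, Or.inl rfl, fun h => absurd h hi⟩
  choose ε hε1 hε2 using heps
  have hεodd : ∀ i ∈ S, (ε i * t i) % 2 = 1 := by
    intro i hi
    have h1 := hodd i hi
    rcases hε1 i with h | h
    · rw [h, one_mul]; exact h1
    · rw [h, neg_one_mul]; omega
  obtain ⟨x, hx⟩ := crt S (fun i => 2 * i.2) (fun i => ε i * t i)
    (fun i hi => by have := hge i hi; omega) (by
      intro i hi j hj
      rw [C5_gcd]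
      have hpar : (2 : ℤ) ∣ ε i * t i - ε j * t j := by
        have h1 := hεodd i hi
        have h2 := hεodd j hj
        omega
      by_cases hij : i = j
      · rw [hij, sub_self]
        exact dvd_zero _
      by_cases h1 : i.1 = j.1
      · have h2 : i.2 ≠ j.2 := fun h => hij (Prod.ext h1 h)
        have h3 := (hl i.1).cop i.2 ((memS i).1 hi) j.2 (by rw [h1]; exact (memS j).1 hj) h2
        rw [Nat.Coprime] at h3
        rw [h3]
        simpa using hpar
      · have h3 := hs i.1 j.1 h1 i.2 ((memS i).1 hi) j.2 ((memS j).1 hj)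
        have hpos : 0 < Nat.gcd i.2 j.2 :=
          Nat.gcd_pos_of_pos_left _ (by have := hge i hi; omega)
        obtain ⟨d, hd⟩ : ∃ d, d = Nat.gcd i.2 j.2 := ⟨_, rfl⟩
        have hdi : d ∣ i.2 := by rw [hd]; exact Nat.gcd_dvd_left _ _
        have hdj : d ∣ j.2 := by rw [hd]; exact Nat.gcd_dvd_right _ _
        rw [← hd] at h3 hpos ⊢
        rcases (by omega : d = 1 ∨ d = 2 ∨ d = 3) with h | h | h
        · rw [h]
          simpa using hpar
        · rw [h] at hdi hdj ⊢
          have e1 := (hε2 i hi).1 hdi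
          have e2 := (hε2 j hj).1 hdj
          have e3 : (4 : ℤ) ∣ ε i * t i - ε j * t j := by
            have := dvd_sub e1 e2
            have e : ε i * t i - a - (ε j * t j - a) = ε i * t i - ε j * t j := by ring
            rwa [e] at this
          simpa using e3
        · rw [h] at hdi hdj ⊢
          have e1 := (hε2 i hi).2 hdi
          have e2 := (hε2 j hj).2 hdj
          have e3 : (3 : ℤ) ∣ ε i * t i - ε j * t j := by
            have := dvd_sub e1 e2
            have e : ε i * t i - b - (ε j * t j - b) = ε i * t i - ε j * t j := by ring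
            rwa [e] at this
          have e4 : (6 : ℤ) ∣ ε i * t i - ε j * t j := by omega
          simpa using e4)
  -- the solution is prime to the least common multiple
  have hxc : ∀ i ∈ S, IsCoprime x ((2 * i.2 : ℕ) : ℤ) := by
    intro i hi
    obtain ⟨c, hc⟩ := hx i hi
    have h1 : x = ε i * t i + ((2 * i.2 : ℕ) : ℤ) * c := by linarith
    rw [h1]
    have h2 : IsCoprime (ε i * t i) ((2 * i.2 : ℕ) : ℤ) := by
      rcases hε1 i with h | h
      · rw [h, one_mul]; exact hcop i hi
      · rw [h, neg_one_mul]; exact (hcop i hi).neg_left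
    exact IsCoprime.add_mul_left_left h2 c
  obtain ⟨n, hn⟩ : ∃ n, n = S.lcm (fun i => 2 * i.2) := ⟨_, rfl⟩
  have hnM : n ∣ M := by
    rw [hn]
    exact Finset.lcm_dvd fun i hi => hM i.1 i.2 ((memS i).1 hi)
  have hin : ∀ i ∈ S, 2 * i.2 ∣ n := by
    intro i hi
    rw [hn]
    exact Finset.dvd_lcm (f := fun i : V × ℕ => 2 * i.2) hi
  have hxn : IsCoprime x (n : ℤ) := by
    have h1 : IsCoprime x (∏ i ∈ S, ((2 * i.2 : ℕ) : ℤ)) := IsCoprime.prod_right hxc
    refine h1.of_isCoprime_of_dvd_right ?_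
    have h2 : n ∣ ∏ i ∈ S, (2 * i.2) := by
      rw [hn]
      exact Finset.lcm_dvd fun i hi => Finset.dvd_prod_of_mem (fun i : V × ℕ => 2 * i.2) hi
    exact_mod_cast h2
  obtain ⟨g', hg'⟩ := lift_unit hnM hxn
  have hfin : ∀ i ∈ S, Eqv i.2 (t i) (iv g') := by
    intro i hi
    have h1 : ((2 * i.2 : ℕ) : ℤ) ∣ iv g' - x := dvd_trans (by exact_mod_cast hin i hi) hg'
    have h2 := dvd_add h1 (hx i hi)
    have e : iv g' - x + (x - ε i * t i) = iv g' - ε i * t i := by ring
    rw [e] at h2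
    unfold Eqv
    rcases hε1 i with h | h
    · left
      rw [h, one_mul] at h2
      exact_mod_cast h2
    · right
      rw [h, neg_one_mul, sub_neg_eq_add] at h2
      exact_mod_cast h2
  refine ⟨g', ?_, ?_⟩
  · intro p hp
    have h1 := hfin (v, p) ((memS _).2 hp)
    have h2 : t (v, p) = iv g := by
      rw [ht]
      exact if_pos rfl
    rw [h2] at h1
    exact h1
  · intro w hw p hp
    have h1 := hfin (w, p) ((memS _).2 hp)
    have h2 : t (w, p) = 1 := by
      rw [ht]
      exact if_neg hw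
    rw [h2] at h1
    exact h1

end Pool.Agent.GT
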