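import Mathlib

/-!
The matching lemma. Put `G_v = ⋂_{w ≠ v} A_w`, `D_h f (s) = f (s h) - f s`, `R = ∑_v ρ_v`.
(1) For `h ∈ G_v`, `k ∈ G_w`, `v ≠ w`: `D_h D_k R = 0`. So `∑_{v'} D_h D_k ρ'_{v'} = 0`; apply `D_t` with
`t ∈ G'_{v'}`: only the term `v'` survives; as every element of the group is in `G'_{v'} A'_{v'}` (`ind'`),
`D_t D_h D_k ρ'_{v'} = 0` for all `t`, so `D_h D_k ρ'_{v'}` is constant, and its mean is `0` (a difference),
so it is `0`. At the peak `g₀` of `ρ'_{v'}`: `ρ'(g₀) + ρ'(g₀ h k) = ρ'(g₀ h) + ρ'(g₀ k)`; if `h, k ∉ A'_{v'}` the right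
hand side is `< ρ'(g₀)`: contradiction. So `h ∈ A'_{v'}` or `k ∈ A'_{v'}`; hence `G_v ≤ A'_{v'}` or
`G_w ≤ A'_{v'}`.
(2) In the same way `h ∈ ⋂_v A_v` gives `D_h ρ'_{v'} = 0`, so `h ∈ A'_{v'}`.
(3) The group is generated by `⋂_v A_v` and the `G_v` (`ind`), and `A'_{v'} ≠ ⊤`, so there is exactly one
`v = f v'` with `¬ G_v ≤ A'_{v'}`, and `A_v ≤ A'_{v'}` because `A_v = (⋂ A) · ∏_{w ≠ v} G_w`.
(4) Symmetrically `f' : T → T'` with `A'_{f' v} ≤ A_v`. Then `A_{f (f' v)} ≤ A'_{f' v} ≤ A_v`; if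
`f (f' v) = u ≠ v` then `G_v ≤ A_u ≤ A_v`, so `A_v = ⊤` by `ind`: contradiction. So `f`, `f'` are inverse to
each other and `A'_{f' v} = A_v`.
-/

set_option autoImplicit false

open Finset

namespace Pool.Agent.GT

private theorem c6_const {G : Type} [CommGroup G] [Fintype G] {T : Type} [Fintype T]
    {A : T → Subgroup G}
    (ind : ∀ v g, ∃ g', g' * g⁻¹ ∈ A v ∧ ∀ w, w ≠ v → g' ∈ A w)
    {F : T → G → ℝ} (inv : ∀ v g a, a ∈ A v → F v (g * a) = F v g)
    (h0 : ∀ g, ∑ v, F v g = 0) (hm : ∀ v, ∑ g, F v g = 0) (v : T) (g : G) : F v g = 0 := by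
  classical
  have h1 : ∀ g₁ g₂ : G, F v g₂ = F v g₁ := by
    intro g₁ g₂
    obtain ⟨t, ht, hw⟩ := ind v (g₁⁻¹ * g₂)
    have h2 := h0 (g₁ * t)
    have h3 := h0 g₁
    rw [← Finset.add_sum_erase _ _ (Finset.mem_univ v)] at h2 h3
    have h4 : ∑ u ∈ Finset.univ.erase v, F u (g₁ * t) = ∑ u ∈ Finset.univ.erase v, F u g₁ := by
      refine Finset.sum_congr rfl fun u hu => ?_
      exact inv u g₁ t (hw u (Finset.ne_of_mem_erase hu))
    have h5 : F v (g₁ * t) = F v g₁ := by linarith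
    have h6 : g₁ * t = g₂ * (t * (g₁⁻¹ * g₂)⁻¹) := by
      rw [mul_inv_rev, inv_inv, mul_comm g₂⁻¹ g₁, ← mul_assoc t, mul_comm t g₁, mul_comm g₂,
        mul_assoc, inv_mul_cancel, mul_one]
    rw [h6, inv v g₂ _ ht] at h5
    exact h5
  have h2 := hm v
  rw [Finset.sum_congr rfl (fun x _ => h1 g x), Finset.sum_const, Finset.card_univ,
    nsmul_eq_mul] at h2
  rcases mul_eq_zero.1 h2 with h3 | h3
  · exfalso
    have : 0 < Fintype.card G := Fintype.card_pos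
    have h4 : (Fintype.card G : ℝ) ≠ 0 := by exact_mod_cast this.ne'
    exact h4 h3
  · exact h3

private theorem c6_shift {G : Type} [CommGroup G] [Fintype G] (f : G → ℝ) (h : G) :
    ∑ g, f (g * h) = ∑ g, f g :=
  Fintype.sum_equiv (Equiv.mulRight h) _ _ fun _ => rfl

private theorem c6_half {G : Type} [CommGroup G] [Fintype G] {T T' : Type} [Fintype T]
    [Fintype T'] {A : T → Subgroup G} {A' : T' → Subgroup G}
    (ind : ∀ v g, ∃ g', g' * g⁻¹ ∈ A v ∧ ∀ w, w ≠ v → g' ∈ A w)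
    (ind' : ∀ v g, ∃ g', g' * g⁻¹ ∈ A' v ∧ ∀ w, w ≠ v → g' ∈ A' w)
    (hA' : ∀ v, A' v ≠ ⊤) {ρ : T → G → ℝ} {ρ' : T' → G → ℝ}
    (inv : ∀ v g a, a ∈ A v → ρ v (g * a) = ρ v g)
    (inv' : ∀ v g a, a ∈ A' v → ρ' v (g * a) = ρ' v g)
    (pos' : ∀ v g, 0 < ρ' v g)
    (peak' : ∀ v, ∃ g₀, ∀ g, g * g₀⁻¹ ∉ A' v → 2 * ρ' v g < ρ' v g₀)
    {c : ℝ} (hR : ∀ g, ∑ v, ρ v g = c + ∑ v, ρ' v g) (v' : T') : ∃ v, A v ≤ A' v' := by
  classical
  -- step 1
  have s1 : ∀ v w, v ≠ w → ∀ h k : G, (∀ u, u ≠ v → h ∈ A u) → (∀ u, u ≠ w → k ∈ A u) →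
      h ∈ A' v' ∨ k ∈ A' v' := by
    intro v w hvw h k hh hk
    by_contra hcon
    push Not at hcon
    have h1 : ∀ g, ρ' v' (g * h * k) - ρ' v' (g * h) - ρ' v' (g * k) + ρ' v' g = 0 := by
      intro g
      refine c6_const (F := fun u g => ρ' u (g * h * k) - ρ' u (g * h) - ρ' u (g * k) + ρ' u g)
        ind' ?_ ?_ ?_ v' g
      · intro u g a ha
        have e1 : g * a * h * k = g * h * k * a := by
          rw [mul_right_comm g a h, mul_right_comm (g * h) a k]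
        have e2 : g * a * h = g * h * a := mul_right_comm g a h
        have e3 : g * a * k = g * k * a := mul_right_comm g a k
        rw [e1, e2, e3, inv' u _ a ha, inv' u _ a ha, inv' u _ a ha, inv' u _ a ha]
      · intro g
        simp only [Finset.sum_add_distrib, Finset.sum_sub_distrib]
        have r1 := hR (g * h * k)
        have r2 := hR (g * h)
        have r3 := hR (g * k)
        have r4 := hR g
        have r5 : ∑ u, (ρ u (g * h * k) - ρ u (g * h) - ρ u (g * k) + ρ u g) = 0 := by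
          refine Finset.sum_eq_zero fun u _ => ?_
          by_cases huv : u = v
          · have hk1 : k ∈ A u := hk u (by rw [huv]; exact hvw)
            rw [inv u _ k hk1, inv u _ k hk1]
            ring
          · have hh1 : h ∈ A u := hh u huv
            rw [mul_right_comm g h k, inv u _ h hh1, inv u _ h hh1]
            ring
        simp only [Finset.sum_add_distrib, Finset.sum_sub_distrib] at r5
        linarith
      · intro u
        simp only [Finset.sum_add_distrib, Finset.sum_sub_distrib]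
        have r1 : ∑ g, ρ' u (g * h * k) = ∑ g, ρ' u g := by
          have := c6_shift (fun g => ρ' u g) (h * k)
          simpa only [mul_assoc] using this
        rw [r1, c6_shift (fun g => ρ' u g) h, c6_shift (fun g => ρ' u g) k]
        ring
    obtain ⟨g₀, hg₀⟩ := peak' v'
    have h2 := h1 g₀
    have h3 := hg₀ (g₀ * h) (by rw [mul_comm g₀ h, mul_assoc, mul_inv_cancel, mul_one]; exact hcon.1)
    have h4 := hg₀ (g₀ * k) (by rw [mul_comm g₀ k, mul_assoc, mul_inv_cancel, mul_one]; exact hcon.2)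
    have h5 := pos' v' (g₀ * h * k)
    linarith
  -- step 2
  have s2 : ∀ h : G, (∀ u, h ∈ A u) → h ∈ A' v' := by
    intro h hh
    by_contra hcon
    have h1 : ∀ g, ρ' v' (g * h) - ρ' v' g = 0 := by
      intro g
      refine c6_const (F := fun u g => ρ' u (g * h) - ρ' u g) ind' ?_ ?_ ?_ v' g
      · intro u g a ha
        have e2 : g * a * h = g * h * a := mul_right_comm g a h
        rw [e2, inv' u _ a ha, inv' u _ a ha]
      · intro g
        simp only [Finset.sum_sub_distrib]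
        have r2 := hR (g * h)
        have r4 := hR g
        have r5 : ∑ u, (ρ u (g * h) - ρ u g) = 0 := by
          refine Finset.sum_eq_zero fun u _ => ?_
          rw [inv u _ h (hh u)]
          ring
        simp only [Finset.sum_sub_distrib] at r5
        linarith
      · intro u
        simp only [Finset.sum_sub_distrib]
        rw [c6_shift (fun g => ρ' u g) h]
        ring
    obtain ⟨g₀, hg₀⟩ := peak' v'
    have h2 := h1 g₀
    have h3 := hg₀ (g₀ * h) (by rw [mul_comm g₀ h, mul_assoc, mul_inv_cancel, mul_one]; exact hcon)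
    have h4 := pos' v' (g₀ * h)
    linarith
  -- the decomposition
  have dec : ∀ g : G, ∃ x : T → G, (∀ v, x v * g⁻¹ ∈ A v ∧ ∀ w, w ≠ v → x v ∈ A w) ∧
      ∀ u, g * (∏ v, x v)⁻¹ ∈ A u := by
    intro g
    choose x hx using fun v => ind v g
    refine ⟨x, hx, fun u => ?_⟩
    have h1 : (∏ v, x v) * g⁻¹ = (x u * g⁻¹) * ∏ v ∈ Finset.univ.erase u, x v := by
      rw [← Finset.mul_prod_erase _ _ (Finset.mem_univ u)]
      exact mul_right_comm _ _ _
    have h2 : (∏ v, x v) * g⁻¹ ∈ A u := by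
      rw [h1]
      refine (A u).mul_mem (hx u).1 ((A u).prod_mem fun v hv => ?_)
      exact (hx v).2 u (Finset.ne_of_mem_erase hv).symm
    have h3 := (A u).inv_mem h2
    rwa [mul_inv_rev, inv_inv] at h3
  -- step 3
  have s3 : ∃ v, ∃ h : G, (∀ u, u ≠ v → h ∈ A u) ∧ h ∉ A' v' := by
    by_contra hcon
    push Not at hcon
    apply hA' v'
    rw [Subgroup.eq_top_iff']
    intro g
    obtain ⟨x, hx, hu⟩ := dec g
    have h1 : g = (g * (∏ v, x v)⁻¹) * ∏ v, x v := by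
      rw [mul_assoc, inv_mul_cancel, mul_one]
    rw [h1]
    exact (A' v').mul_mem (s2 _ hu) ((A' v').prod_mem fun v _ => hcon v (x v) (hx v).2)
  obtain ⟨v, h, hh, hn⟩ := s3
  refine ⟨v, fun g hg => ?_⟩
  obtain ⟨x, hx, hu⟩ := dec g
  have h1 : g = (g * (∏ v, x v)⁻¹) * ∏ v, x v := by
    rw [mul_assoc, inv_mul_cancel, mul_one]
  rw [h1]
  refine (A' v').mul_mem (s2 _ hu) ((A' v').prod_mem fun w _ => ?_)
  by_cases hwv : w = v
  · subst hwv
    refine s2 _ fun u => ?_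
    by_cases huv : u = w
    · subst huv
      have h2 := (A u).mul_mem (hx u).1 hg
      rwa [mul_assoc, inv_mul_cancel, mul_one] at h2
    · exact (hx w).2 u huv
  · rcases s1 v w (Ne.symm hwv) h (x w) hh (hx w).2 with h2 | h2
    · exact absurd h2 hn
    · exact h2

private theorem c6_fix {G : Type} [CommGroup G] {T : Type} {A : T → Subgroup G}
    (ind : ∀ v g, ∃ g', g' * g⁻¹ ∈ A v ∧ ∀ w, w ≠ v → g' ∈ A w)
    (hA : ∀ v, A v ≠ ⊤) {u v : T} (h : A u ≤ A v) : u = v := by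
  by_contra hne
  apply hA v
  rw [Subgroup.eq_top_iff']
  intro g
  obtain ⟨g', h1, h2⟩ := ind v g
  have h3 : g' ∈ A v := h (h2 u hne)
  have h4 := (A v).mul_mem ((A v).inv_mem h1) h3
  rwa [mul_inv_rev, inv_inv, mul_assoc, inv_mul_cancel, mul_one] at h4

theorem matching {G : Type} [CommGroup G] [Finite G] {T T' : Type} [Fintype T] [Fintype T']
    {A : T → Subgroup G} {A' : T' → Subgroup G}
    (ind : ∀ v g, ∃ g', g' * g⁻¹ ∈ A v ∧ ∀ w, w ≠ v → g' ∈ A w)
    (ind' : ∀ v g, ∃ g', g' * g⁻¹ ∈ A' v ∧ ∀ w, w ≠ v → g' ∈ A' w)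
    (hA : ∀ v, A v ≠ ⊤) (hA' : ∀ v, A' v ≠ ⊤) {ρ : T → G → ℝ} {ρ' : T' → G → ℝ}
    (inv : ∀ v g a, a ∈ A v → ρ v (g * a) = ρ v g)
    (inv' : ∀ v g a, a ∈ A' v → ρ' v (g * a) = ρ' v g)
    (pos : ∀ v g, 0 < ρ v g) (pos' : ∀ v g, 0 < ρ' v g)
    (peak : ∀ v, ∃ g₀, ∀ g, g * g₀⁻¹ ∉ A v → 2 * ρ v g < ρ v g₀)
    (peak' : ∀ v, ∃ g₀, ∀ g, g * g₀⁻¹ ∉ A' v → 2 * ρ' v g < ρ' v g₀)
    {c : ℝ} (hR : ∀ g, ∑ v, ρ v g = c + ∑ v, ρ' v g) :
    ∃ e : T ≃ T', ∀ v, A' (e v) = A v := by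
  classical
  have : Fintype G := Fintype.ofFinite G
  have h1 : ∀ v', ∃ v, A v ≤ A' v' := c6_half ind ind' hA' inv inv' pos' peak' hR
  have hR' : ∀ g, ∑ v, ρ' v g = -c + ∑ v, ρ v g := by
    intro g
    rw [hR g]
    ring
  have h2 : ∀ v, ∃ v', A' v' ≤ A v := c6_half ind' ind hA inv' inv pos peak hR'
  choose f hf using h1
  choose f' hf' using h2
  have e1 : ∀ v, f (f' v) = v := fun v => c6_fix ind hA ((hf (f' v)).trans (hf' v))
  have e2 : ∀ v', f' (f v') = v' := fun v' => c6_fix ind' hA' ((hf' (f v')).trans (hf v'))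
  refine ⟨⟨f', f, e1, e2⟩, fun v => ?_⟩
  show A' (f' v) = A v
  refine le_antisymm (hf' v) ?_
  have h3 := hf (f' v)
  rwa [e1] at h3

end Pool.Agent.GT
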