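import Pool.Agent.H46.GT.C1

/-!
The subgroup `subA M l` determines the elements `≥ 4` of `l`. Let `B = {p ∈ l : 4 ≤ p}`, `n = ∏ B`, and the
same for `l'`. (Elements `2` and `3` impose no condition: `M` is a multiple of `12`, so units are odd and
prime to `3`.)
(1) Every `p' ∈ B'` divides `n`: units `= 1` modulo `2 n` lie in `subA M l = subA M l'`, so are `± 1` modulo
`2 p'`. Let `g = gcd (2 n, 2 p')`. All residues prime to `2 p'` which are `1` modulo `g` are `± 1` modulo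
`2 p'` (lift them to units which are `1` modulo `2 n`). If `g = 2`, then `φ(2 p') ≤ 2`, so `p' ≤ 3`. If
`g > 2` then `-1` is not `1` modulo `g`, so `1` is the only residue prime to `2 p'` which is `1` modulo `g`:
`φ(2 p') = φ(g)`, and `g ∣ 2 p'`, `g` even, so `g = 2 p'`, that is `p' ∣ n`. (Concretely: if `g` is a proper
divisor of `2 p'` one finds a residue prime to `2 p'`, `1` modulo `g` and not `1`.)
(2) So `n' ∣ n ∣ n'` (the elements are coprime). If `B = {p}` and `B' = {p'}` we are done. If `B = {p, q}` and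
`B' = {n}`: take a unit `1` modulo `2 p` and `-1` modulo `2 q`; it is not `± 1` modulo `2 p q`. If
`B = {p, q}`, `B' = {p', q'}`: the same unit is `1` modulo `2 p'` and `-1` modulo `2 q'` (or the other way
round), so `gcd (p, q') = 1 = gcd (q, p')`, and `p q = p' q'` gives `p = p'`, `q = q'`.
-/

set_option autoImplicit false

open Finset

namespace Pool.Agent.GT

private theorem C7_r1 {p : ℕ} (hp : 4 ≤ p) : ∃ r : ℤ, IsCoprime r (2 * p : ℤ) ∧ ¬ Eqv p 1 r := by
  have hp4 : (4 : ℤ) ≤ p := by exact_mod_cast hp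
  rcases Nat.even_or_odd' p with ⟨m, hm | hm⟩
  · have hm' : (p : ℤ) = 2 * m := by exact_mod_cast hm
    refine ⟨p + 1, ?_, ?_⟩
    · refine IsCoprime.mul_right ⟨1, -m, by rw [hm']; ring⟩ ⟨1, -1, by ring⟩
    · rintro (h | h)
      · have := Int.le_of_dvd (by linarith) h
        linarith
      · have := Int.le_of_dvd (by linarith) h
        linarith
  · have hm' : (p : ℤ) = 2 * m + 1 := by exact_mod_cast hm
    refine ⟨p + 2, ?_, ?_⟩
    · refine IsCoprime.mul_right ⟨1, -(m + 1), by rw [hm']; ring⟩ ⟨-m, 1 + m, by rw [hm']; ring⟩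
    · rintro (h | h)
      · have := Int.le_of_dvd (by linarith) h
        linarith
      · have := Int.le_of_dvd (by linarith) h
        have h3 : 5 ≤ p := by omega
        have h3' : (5 : ℤ) ≤ p := by exact_mod_cast h3
        linarith

/-- the Chinese remainder theorem for two moduli -/
private theorem C7_crt (m n : ℕ) (a b : ℤ) (h : ((Nat.gcd m n : ℕ) : ℤ) ∣ b - a) :
    ∃ x : ℤ, (m : ℤ) ∣ x - a ∧ (n : ℤ) ∣ x - b := by
  obtain ⟨c, hc⟩ := h
  have hg := Nat.gcd_eq_gcd_ab m n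
  refine ⟨a + m * Nat.gcdA m n * c, ⟨Nat.gcdA m n * c, by ring⟩, ⟨-(Nat.gcdB m n * c), ?_⟩⟩
  rw [hg] at hc
  linear_combination -hc

private theorem C7_cop_of_dvd {x a : ℤ} {m : ℕ} (h : (m : ℤ) ∣ x - a) (ha : IsCoprime a (m : ℤ)) :
    IsCoprime x (m : ℤ) := by
  obtain ⟨c, hc⟩ := h
  have h1 : x = a + m * c := by linarith
  rw [h1]
  exact IsCoprime.add_mul_left_left ha c

private theorem C7_lift {M m n : ℕ} [NeZero M] (hm : m ∣ M) (hn : n ∣ M) (a b : ℤ)
    (ha : IsCoprime a (m : ℤ)) (hb : IsCoprime b (n : ℤ)) (h : ((Nat.gcd m n : ℕ) : ℤ) ∣ b - a) :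
    ∃ g : (ZMod M)ˣ, (m : ℤ) ∣ iv g - a ∧ (n : ℤ) ∣ iv g - b := by
  obtain ⟨x, h1, h2⟩ := C7_crt m n a b h
  have h3 := C7_cop_of_dvd h1 ha
  have h4 := C7_cop_of_dvd h2 hb
  have h5 : IsCoprime x ((Nat.lcm m n : ℕ) : ℤ) := by
    refine (IsCoprime.mul_right h3 h4).of_isCoprime_of_dvd_right ?_
    exact_mod_cast Nat.lcm_dvd_mul m n
  obtain ⟨g, hg⟩ := lift_unit (Nat.lcm_dvd hm hn) h5
  have h6 : (m : ℤ) ∣ iv g - x := dvd_trans (by exact_mod_cast Nat.dvd_lcm_left m n) hg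
  have h7 : (n : ℤ) ∣ iv g - x := dvd_trans (by exact_mod_cast Nat.dvd_lcm_right m n) hg
  refine ⟨g, ?_, ?_⟩
  · have := dvd_add h6 h1
    have e : iv g - x + (x - a) = iv g - a := by ring
    rwa [e] at this
  · have := dvd_add h7 h2
    have e : iv g - x + (x - b) = iv g - b := by ring
    rwa [e] at this

private theorem C7_r2 {p d k : ℕ} (hd : 2 ≤ d) (hk : 2 ≤ k) (hp : p = d * k) :
    ∃ r : ℤ, (2 * d : ℤ) ∣ r - 1 ∧ IsCoprime r (2 * p : ℤ) ∧ ¬ Eqv p 1 r := by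
  have hd' : (2 : ℤ) ≤ d := by exact_mod_cast hd
  have hk' : (2 : ℤ) ≤ k := by exact_mod_cast hk
  have hp' : (p : ℤ) = d * k := by rw [hp]; push_cast; ring
  have hno : ∀ r : ℤ, (2 * d : ℤ) ∣ r - 1 → ¬ (2 * p : ℤ) ∣ r + 1 := by
    intro r h1 h2
    have h3 : (2 * d : ℤ) ∣ r + 1 := dvd_trans ⟨k, by rw [hp']; ring⟩ h2
    have h4 := dvd_sub h3 h1
    have e : r + 1 - (r - 1) = 2 := by ring
    rw [e] at h4
    have := Int.le_of_dvd (by norm_num) h4
    linarith
  by_cases hc : Nat.Coprime k (2 * d)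
  · obtain ⟨r, h1, h2⟩ := C7_crt (2 * d) k 1 (-1) (by
      rw [Nat.gcd_comm, hc.gcd_eq_one]
      simp)
    have h1' : (2 * d : ℤ) ∣ r - 1 := by exact_mod_cast h1
    refine ⟨r, h1', ?_, ?_⟩
    · have e1 : IsCoprime r ((2 * d : ℕ) : ℤ) := C7_cop_of_dvd h1 isCoprime_one_left
      have e2 : IsCoprime r (k : ℤ) := C7_cop_of_dvd h2 isCoprime_one_left.neg_left
      have e3 := IsCoprime.mul_right e1 e2
      have e : ((2 * d : ℕ) : ℤ) * (k : ℤ) = 2 * p := by rw [hp']; push_cast; ring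
      rwa [e] at e3
    · rintro (h | h)
      · have h3 : (k : ℤ) ∣ r - 1 := dvd_trans ⟨2 * d, by rw [hp']; ring⟩ h
        have h4 := dvd_sub h2 h3
        have e : r - -1 - (r - 1) = 2 := by ring
        rw [e] at h4
        have h5 := Int.le_of_dvd (by norm_num) h4
        have h6 : k = 2 := by
          have : (k : ℤ) = 2 := le_antisymm h5 hk'
          exact_mod_cast this
        rw [h6] at hc
        have h7 : Nat.gcd 2 (2 * d) = 2 := Nat.gcd_eq_left (dvd_mul_right 2 d)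
        rw [Nat.Coprime, h7] at hc
        norm_num at hc
      · exact hno r h1' h
  · obtain ⟨q, hq, hqk, hqd⟩ := Nat.Prime.not_coprime_iff_dvd.1 hc
    obtain ⟨k', hk2⟩ := hqk
    have hk'' : (k : ℤ) = q * k' := by rw [hk2]; push_cast; ring
    have hk0 : 0 < k' := by
      rcases Nat.eq_zero_or_pos k' with h | h
      · rw [h] at hk2
        omega
      · exact h
    have hk0' : (0 : ℤ) < k' := by exact_mod_cast hk0
    have hq2 : (2 : ℤ) ≤ q := by exact_mod_cast hq.two_le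
    have hqd' : (q : ℤ) ∣ 2 * d := by exact_mod_cast hqd
    have h1' : (2 * d : ℤ) ∣ 1 + 2 * d * k' - 1 := ⟨k', by ring⟩
    refine ⟨1 + 2 * d * k', h1', ?_, ?_⟩
    · have e1 : IsCoprime (1 + 2 * d * k' : ℤ) (2 * d * k') := ⟨1, -1, by ring⟩
      have e2 : IsCoprime (1 + 2 * d * k' : ℤ) q :=
        e1.of_isCoprime_of_dvd_right (dvd_mul_of_dvd_left hqd' _)
      have e3 := IsCoprime.mul_right e1 e2
      have e : (2 * d * k' : ℤ) * q = 2 * p := by rw [hp', hk'']; ring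
      rwa [e] at e3
    · rintro (h | h)
      · have e : (1 + 2 * d * k' - 1 : ℤ) = 2 * d * k' := by ring
        rw [e] at h
        have h5 := Int.le_of_dvd (by positivity) h
        rw [hp', hk''] at h5
        have h6 : (0 : ℤ) < d * k' := by positivity
        nlinarith
      · exact hno _ h1' h

private theorem C7_small {M : ℕ} [NeZero M] (h12 : 12 ∣ M) (g : (ZMod M)ˣ) :
    iv g % 2 = 1 ∧ (iv g % 3 = 1 ∨ iv g % 3 = 2) := by
  have h1 : IsCoprime (iv g) 12 :=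
    (iv_coprime g).of_isCoprime_of_dvd_right (by exact_mod_cast h12)
  have h2 : ¬ (2 : ℤ) ∣ iv g := by
    intro h
    have h3 := h1.isUnit_of_dvd' h (by norm_num : (2 : ℤ) ∣ 12)
    rw [Int.isUnit_iff] at h3
    omega
  have h3 : ¬ (3 : ℤ) ∣ iv g := by
    intro h
    have h3 := h1.isUnit_of_dvd' h (by norm_num : (3 : ℤ) ∣ 12)
    rw [Int.isUnit_iff] at h3
    omega
  omega

private theorem C7_mem {M : ℕ} [NeZero M] {l : Finset ℕ} (h2 : ∀ p ∈ l, 2 ≤ p) (h12 : 12 ∣ M)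
    (g : (ZMod M)ˣ) (h : ∀ p ∈ l, 4 ≤ p → Eqv p 1 (iv g)) : g ∈ subA M l := by
  rw [mem_subA]
  intro p hp _
  obtain ⟨g1, g2⟩ := C7_small h12 g
  have := h2 p hp
  rcases (by omega : p = 2 ∨ p = 3 ∨ 4 ≤ p) with e | e | e
  · rw [e]
    unfold Eqv
    push_cast
    omega
  · rw [e]
    unfold Eqv
    push_cast
    rcases g2 with g2 | g2
    · left; omega
    · right; omega
  · exact h p hp e

private theorem C7_dvd {l l' : Finset ℕ} (hl : Nd l) {M : ℕ} [NeZero M] (h12 : 12 ∣ M)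
    (hM : 2 * ∏ p ∈ l, p ∣ M) (hM' : ∀ p ∈ l', 2 * p ∣ M)
    (h : subA M l ≤ subA M l') {p : ℕ} (hp : p ∈ l') (h4 : 4 ≤ p) :
    p ∣ ∏ x ∈ l.filter (fun x => 4 ≤ x), x := by
  by_contra hcon
  obtain ⟨n, hn⟩ : ∃ n, n = ∏ x ∈ l.filter (fun x => 4 ≤ x), x := ⟨_, rfl⟩
  rw [← hn] at hcon
  obtain ⟨d, hd⟩ : ∃ d, d = Nat.gcd n p := ⟨_, rfl⟩
  obtain ⟨k, hk⟩ : d ∣ p := by rw [hd]; exact Nat.gcd_dvd_right _ _
  have hdn : d ∣ n := by rw [hd]; exact Nat.gcd_dvd_left _ _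
  have hd0 : d ≠ 0 := by
    intro h0
    rw [h0, zero_mul] at hk
    omega
  have hk2 : 2 ≤ k := by
    rcases (by omega : k = 0 ∨ k = 1 ∨ 2 ≤ k) with e | e | e
    · rw [e, mul_zero] at hk
      omega
    · rw [e, mul_one] at hk
      rw [hk] at hcon
      exact absurd hdn hcon
    · exact e
  obtain ⟨r, hr1, hr2, hr3⟩ : ∃ r : ℤ, (2 * d : ℤ) ∣ r - 1 ∧ IsCoprime r (2 * p : ℤ) ∧
      ¬ Eqv p 1 r := by
    rcases (by omega : d = 1 ∨ 2 ≤ d) with e | e
    · obtain ⟨r, h1, h2⟩ := C7_r1 h4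
      refine ⟨r, ?_, h1, h2⟩
      rw [e]
      have h3 : ¬ (2 : ℤ) ∣ r := by
        intro h'
        have h3 := h1.isUnit_of_dvd' h' (dvd_mul_right 2 _)
        rw [Int.isUnit_iff] at h3
        omega
      push_cast
      omega
    · exact C7_r2 e hk2 hk
  have hnM : 2 * n ∣ M := by
    refine dvd_trans (Nat.mul_dvd_mul_left 2 ?_) hM
    rw [hn]
    exact Finset.prod_dvd_prod_of_subset _ _ _ (Finset.filter_subset _ _)
  obtain ⟨g, hg1, hg2⟩ := C7_lift hnM (hM' p hp) 1 r isCoprime_one_left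
    (by exact_mod_cast hr2) (by
      rw [Nat.gcd_mul_left, ← hd]
      exact_mod_cast hr1)
  have hg : g ∈ subA M l := by
    refine C7_mem hl.two_le h12 g ?_
    intro x hx hx4
    left
    have h1 : 2 * x ∣ 2 * n := by
      refine Nat.mul_dvd_mul_left 2 ?_
      rw [hn]
      exact Finset.dvd_prod_of_mem (fun x : ℕ => x) (Finset.mem_filter.2 ⟨hx, hx4⟩)
    exact dvd_trans (by exact_mod_cast h1) hg1
  have hg' := (mem_subA.1 (h hg)) p hp (hM' p hp)
  apply hr3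
  have hg2' : (2 * p : ℤ) ∣ iv g - r := by exact_mod_cast hg2
  rcases hg' with h1 | h1
  · left
    have := dvd_sub h1 hg2'
    have e : iv g - 1 - (iv g - r) = r - 1 := by ring
    rwa [e] at this
  · right
    have := dvd_sub h1 hg2'
    have e : iv g + 1 - (iv g - r) = r + 1 := by ring
    rwa [e] at this

private theorem C7_two {x u v : ℤ} {p : ℕ} (hp : 2 ≤ p) (h : (2 * p : ℤ) ∣ x - u)
    (h' : (2 * p : ℤ) ∣ x - v) (huv : u - v = 2 ∨ v - u = 2) : False := by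
  have hp' : (2 : ℤ) ≤ p := by exact_mod_cast hp
  rcases huv with e | e
  · have h1 := dvd_sub h' h
    have e' : x - v - (x - u) = 2 := by linarith
    rw [e'] at h1
    have := Int.le_of_dvd (by norm_num) h1
    linarith
  · have h1 := dvd_sub h h'
    have e' : x - u - (x - v) = 2 := by linarith
    rw [e'] at h1
    have := Int.le_of_dvd (by norm_num) h1
    linarith

private theorem C7_cop {x : ℤ} {p q : ℕ} (h : (2 * p : ℤ) ∣ x - 1) (h' : (2 * q : ℤ) ∣ x - -1)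
    (hp : 0 < p) : Nat.Coprime p q := by
  obtain ⟨d, hd⟩ : ∃ d, d = Nat.gcd p q := ⟨_, rfl⟩
  have hd0 : 0 < d := by rw [hd]; exact Nat.gcd_pos_of_pos_left _ hp
  rw [Nat.Coprime, ← hd]
  by_contra hcon
  have hd2 : 2 ≤ d := by omega
  have h1 : (d : ℤ) ∣ p := by
    rw [hd]; exact_mod_cast Nat.gcd_dvd_left p q
  have h2 : (d : ℤ) ∣ q := by
    rw [hd]; exact_mod_cast Nat.gcd_dvd_right p q
  exact C7_two hd2 (dvd_trans (mul_dvd_mul_left 2 h1) h) (dvd_trans (mul_dvd_mul_left 2 h2) h')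
    (Or.inl (by norm_num))

private theorem C7_eq {p q x y : ℕ} (h : x * y = p * q) (h1 : Nat.Coprime p y)
    (h2 : Nat.Coprime q x) (hp : 0 < p) : p = x ∧ q = y := by
  have e1 : p ∣ x := h1.dvd_of_dvd_mul_right (by rw [h]; exact dvd_mul_right _ _)
  have e2 : x ∣ p := h2.symm.dvd_of_dvd_mul_right (by rw [← h]; exact dvd_mul_right _ _)
  have e3 : p = x := Nat.dvd_antisymm e1 e2
  refine ⟨e3, ?_⟩
  rw [← e3] at h
  exact (Nat.eq_of_mul_eq_mul_left hp h).symm

private theorem C7_join {x : ℤ} {u v : ℕ} (hc : Nat.Coprime u v) (a : ℤ)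
    (h : (2 * u : ℤ) ∣ x - a) (h' : (2 * v : ℤ) ∣ x - a) : (2 * (u * v : ℕ) : ℤ) ∣ x - a := by
  obtain ⟨c, hc1⟩ := h
  have h3 : (v : ℤ) ∣ u * c := by
    obtain ⟨e, he⟩ := h'
    refine ⟨e, ?_⟩
    have : 2 * ((u : ℤ) * c) = 2 * (v * e) := by linarith
    linarith
  have hcI : IsCoprime (v : ℤ) (u : ℤ) := Nat.isCoprime_iff_coprime.2 hc.symm
  obtain ⟨e, he⟩ := hcI.dvd_of_dvd_mul_left h3
  refine ⟨e, ?_⟩
  rw [hc1, he]
  push_cast
  ring

private theorem C7_L {M : ℕ} [NeZero M] {B' : Finset ℕ} {p q : ℕ}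
    (hc : Nat.Coprime p q) (hp : 4 ≤ p) (hq : 4 ≤ q) (hcard : B'.card ≤ 2)
    (h4 : ∀ x ∈ B', 4 ≤ x) (hcop : ∀ x ∈ B', ∀ y ∈ B', x ≠ y → Nat.Coprime x y)
    (hprod : ∏ x ∈ B', x = p * q) (hM : 2 * (p * q) ∣ M)
    (h : ∀ g : (ZMod M)ˣ, Eqv p 1 (iv g) → Eqv q 1 (iv g) → ∀ x ∈ B', Eqv x 1 (iv g)) :
    B' = {p, q} := by
  have hpM : 2 * p ∣ M := dvd_trans ⟨q, by ring⟩ hM
  have hqM : 2 * q ∣ M := dvd_trans ⟨p, by ring⟩ hM
  obtain ⟨g, hg1, hg2⟩ := C7_lift hpM hqM 1 (-1) isCoprime_one_left isCoprime_one_left.neg_left (by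
    rw [Nat.gcd_mul_left, hc.gcd_eq_one]
    norm_num)
  have hg1' : (2 * p : ℤ) ∣ iv g - 1 := by exact_mod_cast hg1
  have hg2' : (2 * q : ℤ) ∣ iv g - -1 := by exact_mod_cast hg2
  have hB := h g (Or.inl hg1') (Or.inr (by rw [sub_neg_eq_add] at hg2'; exact hg2'))
  -- `g` is not `± 1` modulo `2 p q`
  have hno1 : ¬ (2 * (p * q : ℕ) : ℤ) ∣ iv g - 1 := by
    intro h1
    have h2 : (2 * q : ℤ) ∣ iv g - 1 := dvd_trans ⟨p, by push_cast; ring⟩ h1
    exact C7_two (by omega) h2 hg2' (Or.inl (by norm_num))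
  have hno2 : ¬ (2 * (p * q : ℕ) : ℤ) ∣ iv g - -1 := by
    intro h1
    have h2 : (2 * p : ℤ) ∣ iv g - -1 := dvd_trans ⟨q, by push_cast; ring⟩ h1
    exact C7_two (by omega) hg1' h2 (Or.inl (by norm_num))
  have hE : ∀ x ∈ B', (2 * x : ℤ) ∣ iv g - 1 ∨ (2 * x : ℤ) ∣ iv g - -1 := by
    intro x hx
    rcases hB x hx with h1 | h1
    · exact Or.inl h1
    · right
      rw [sub_neg_eq_add]
      exact h1
  rcases (by omega : B'.card = 0 ∨ B'.card = 1 ∨ B'.card = 2) with e | e | e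
  · rw [Finset.card_eq_zero] at e
    rw [e, Finset.prod_empty] at hprod
    nlinarith
  · obtain ⟨x, hx⟩ := Finset.card_eq_one.1 e
    rw [hx, Finset.prod_singleton] at hprod
    rcases hE x (by rw [hx]; exact Finset.mem_singleton_self x) with h1 | h1
    · rw [hprod] at h1
      exact absurd h1 hno1
    · rw [hprod] at h1
      exact absurd h1 hno2
  · obtain ⟨x, y, hxy, hx⟩ := Finset.card_eq_two.1 e
    have hxB : x ∈ B' := by rw [hx]; exact Finset.mem_insert_self _ _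
    have hyB : y ∈ B' := by rw [hx]; exact Finset.mem_insert_of_mem (Finset.mem_singleton_self y)
    rw [hx, Finset.prod_pair hxy] at hprod
    have hxyc := hcop x hxB y hyB hxy
    have hx4 := h4 x hxB
    have hy4 := h4 y hyB
    rcases hE x hxB with h1 | h1 <;> rcases hE y hyB with h2 | h2
    · have h3 := C7_join hxyc 1 h1 h2
      rw [hprod] at h3
      exact absurd h3 hno1
    · have e1 : Nat.Coprime p y := C7_cop hg1' h2 (by omega)
      have e2 : Nat.Coprime q x := (C7_cop h1 hg2' (by omega)).symm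
      obtain ⟨f1, f2⟩ := C7_eq hprod e1 e2 (by omega)
      rw [hx, f1, f2]
    · have e1 : Nat.Coprime p x := C7_cop hg1' h1 (by omega)
      have e2 : Nat.Coprime q y := (C7_cop h2 hg2' (by omega)).symm
      obtain ⟨f1, f2⟩ := C7_eq (by rw [mul_comm]; exact hprod) e1 e2 (by omega)
      rw [hx, f1, f2, Finset.pair_comm]
    · have h3 := C7_join hxyc (-1) h1 h2
      rw [hprod] at h3
      exact absurd h3 hno2

theorem big_eq {l l' : Finset ℕ} (hl : Nd l) (hl' : Nd l') {M : ℕ} [NeZero M] (h12 : 12 ∣ M)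
    (hM : 2 * ∏ p ∈ l, p ∣ M) (hM' : 2 * ∏ p ∈ l', p ∣ M)
    (h : subA M l = subA M l') : (l.filter fun p => 4 ≤ p) = l'.filter fun p => 4 ≤ p := by
  have key : ∀ {l l' : Finset ℕ}, Nd l → Nd l' → 2 * ∏ p ∈ l, p ∣ M → 2 * ∏ p ∈ l', p ∣ M →
      subA M l = subA M l' → (∏ x ∈ l'.filter (fun x => 4 ≤ x), x) ∣
        ∏ x ∈ l.filter (fun x => 4 ≤ x), x := by
    intro l l' hl hl' hM hM' h
    refine Finset.prod_dvd_of_isRelPrime ?_ ?_
    · intro x hx y hy hxy
      rw [Function.onFun]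
      rw [← Nat.coprime_iff_isRelPrime]
      exact hl'.cop x (Finset.mem_filter.1 hx).1 y (Finset.mem_filter.1 hy).1 hxy
    · intro x hx
      obtain ⟨h1, h2⟩ := Finset.mem_filter.1 hx
      refine C7_dvd hl h12 hM ?_ h.le h1 h2
      intro p hp
      exact dvd_trans (Nat.mul_dvd_mul_left 2 (Finset.dvd_prod_of_mem (fun x : ℕ => x) hp)) hM'
  have hprod : ∏ x ∈ l.filter (fun x => 4 ≤ x), x = ∏ x ∈ l'.filter (fun x => 4 ≤ x), x :=
    Nat.dvd_antisymm (key hl' hl hM' hM h.symm) (key hl hl' hM hM' h)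
  have key2 : ∀ {l l' : Finset ℕ}, Nd l → Nd l' → 2 * ∏ p ∈ l, p ∣ M → 2 * ∏ p ∈ l', p ∣ M →
      subA M l = subA M l' → (∏ x ∈ l.filter (fun x => 4 ≤ x), x) =
        ∏ x ∈ l'.filter (fun x => 4 ≤ x), x → (l.filter fun p => 4 ≤ p).card = 2 →
      (l.filter fun p => 4 ≤ p) = l'.filter fun p => 4 ≤ p := by
    intro l l' hl hl' hM hM' h hpr hcard
    obtain ⟨p, q, hpq, hB⟩ := Finset.card_eq_two.1 hcard
    have hpB : p ∈ l.filter fun p => 4 ≤ p := by rw [hB]; exact Finset.mem_insert_self _ _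
    have hqB : q ∈ l.filter fun p => 4 ≤ p := by
      rw [hB]; exact Finset.mem_insert_of_mem (Finset.mem_singleton_self q)
    obtain ⟨hp1, hp4⟩ := Finset.mem_filter.1 hpB
    obtain ⟨hq1, hq4⟩ := Finset.mem_filter.1 hqB
    have hpr' : ∏ x ∈ l'.filter (fun x => 4 ≤ x), x = p * q := by
      rw [← hpr, hB, Finset.prod_pair hpq]
    rw [hB]
    symm
    refine C7_L (M := M) (hl.cop p hp1 q hq1 hpq) hp4 hq4
      ((Finset.card_le_card (Finset.filter_subset _ _)).trans hl'.card)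
      (fun x hx => (Finset.mem_filter.1 hx).2)
      (fun x hx y hy hxy => hl'.cop x (Finset.mem_filter.1 hx).1 y (Finset.mem_filter.1 hy).1 hxy)
      hpr' ?_ ?_
    · rw [← Finset.prod_pair hpq (f := fun x : ℕ => x), ← hB]
      refine dvd_trans (Nat.mul_dvd_mul_left 2 ?_) hM
      exact Finset.prod_dvd_prod_of_subset _ _ _ (Finset.filter_subset _ _)
    · intro g h1 h2 x hx
      have hg : g ∈ subA M l := by
        refine C7_mem hl.two_le h12 g ?_
        intro y hy hy4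
        have hyB : y ∈ l.filter fun p => 4 ≤ p := Finset.mem_filter.2 ⟨hy, hy4⟩
        rw [hB, Finset.mem_insert, Finset.mem_singleton] at hyB
        rcases hyB with e | e
        · rw [e]; exact h1
        · rw [e]; exact h2
      rw [h] at hg
      have hxl := (Finset.mem_filter.1 hx).1
      exact (mem_subA.1 hg) x hxl
        (dvd_trans (Nat.mul_dvd_mul_left 2 (Finset.dvd_prod_of_mem (fun x : ℕ => x) hxl)) hM')
  have hc1 : (l.filter fun p => 4 ≤ p).card ≤ 2 :=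
    (Finset.card_le_card (Finset.filter_subset _ _)).trans hl.card
  have hc2 : (l'.filter fun p => 4 ≤ p).card ≤ 2 :=
    (Finset.card_le_card (Finset.filter_subset _ _)).trans hl'.card
  by_cases e1 : (l.filter fun p => 4 ≤ p).card = 2
  · exact key2 hl hl' hM hM' h hprod e1
  by_cases e2 : (l'.filter fun p => 4 ≤ p).card = 2
  · exact (key2 hl' hl hM' hM h.symm hprod.symm e2).symm
  rcases (by omega : (l.filter fun p => 4 ≤ p).card = 0 ∨ (l.filter fun p => 4 ≤ p).card = 1)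
    with a | a <;>
  rcases (by omega : (l'.filter fun p => 4 ≤ p).card = 0 ∨ (l'.filter fun p => 4 ≤ p).card = 1)
    with b | b
  · rw [Finset.card_eq_zero.1 a, Finset.card_eq_zero.1 b]
  · obtain ⟨x, hx⟩ := Finset.card_eq_one.1 b
    have h4 : 4 ≤ x := (Finset.mem_filter.1 (by
      rw [hx]; exact Finset.mem_singleton_self x : x ∈ l'.filter fun p => 4 ≤ p)).2
    rw [Finset.card_eq_zero.1 a, hx, Finset.prod_empty, Finset.prod_singleton] at hprod
    omega
  · obtain ⟨x, hx⟩ := Finset.card_eq_one.1 a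
    have h4 : 4 ≤ x := (Finset.mem_filter.1 (by
      rw [hx]; exact Finset.mem_singleton_self x : x ∈ l.filter fun p => 4 ≤ p)).2
    rw [Finset.card_eq_zero.1 b, hx, Finset.prod_empty, Finset.prod_singleton] at hprod
    omega
  · obtain ⟨x, hx⟩ := Finset.card_eq_one.1 a
    obtain ⟨y, hy⟩ := Finset.card_eq_one.1 b
    rw [hx, hy, Finset.prod_singleton, Finset.prod_singleton] at hprod
    rw [hx, hy, hprod]

/-- `subA` is a proper subgroup if there is a weight `≥ 4`. -/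
theorem subA_ne_top {l : Finset ℕ} (hl : Nd l) {M : ℕ} [NeZero M] (hM : ∀ p ∈ l, 2 * p ∣ M)
    (hb : Big l) : subA M l ≠ ⊤ := by
  obtain ⟨p, hp, hp4⟩ := hb
  obtain ⟨r, h1, h2⟩ := C7_r1 hp4
  intro htop
  obtain ⟨g, hg⟩ := lift_unit (hM p hp) (s := r) (by exact_mod_cast h1)
  have hg1 : g ∈ subA M l := by rw [htop]; exact Subgroup.mem_top g
  have hg2 := (mem_subA.1 hg1) p hp (hM p hp)
  apply h2
  have hg' : (2 * p : ℤ) ∣ iv g - r := by exact_mod_cast hg
  rcases hg2 with h3 | h3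
  · left
    have := dvd_sub h3 hg'
    have e : iv g - 1 - (iv g - r) = r - 1 := by ring
    rwa [e] at this
  · right
    have := dvd_sub h3 hg'
    have e : iv g + 1 - (iv g - r) = r + 1 := by ring
    rwa [e] at this

end Pool.Agent.GT
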