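import Pool.Agent.H46.GT.C1

/-!
Differences of `b`. `b l s = (∑ tw² - 1) / 24`.
`b_ne`: take `q ∈ l`, `q ≥ 4`, and `t = q - 2` (`q` odd) or `q - 1` (`q` even), prime to `2 q` and not `± 1`
modulo `2 q`; take a unit `= t` modulo `2 q` and `= 1` modulo `2 p` for the other element `p` of `l` (if
any). If the sum of the two `th` is `< 1` only the parameter of `q` changes. If it is `> 1`, the new sum of
squares is `(1 - 1/p)² + (1 - t/q)²`; it equals `1/p² + 1/q²` only if `(p-1)² q² + (q-t)² p² = q² + p²`,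
that is `p = 2` and `q - t = 1`; but then `q` is even: contradiction to `Coprime 2 q`.
`two_three`: take the unit `g = P - 2` modulo `2 P`. `{2, P}`: `tw = (1/2, 2/P)`, so
`24 Δb = 3 / P²`. `{3, P}`, `P ≥ 7`: `tw = (2/3, 2/P)`, `24 Δb = 1/3 + 3/P²`, so `6 d = d' (P² + 9)` and
`3 ∣ d'` (`P² + 9 = 1` modulo `3`): contradiction. `P = 5`: `{3, 5}`: `tw = (1/3, 3/5)`,
`24 Δb = 8/25`; `30 d = 120 d'`, `d = 4 d'` is even: contradiction. (`P = 4, 6` are excluded by
`h2`.)
-/

set_option autoImplicit false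

open Finset

namespace Pool.Agent.GT

private theorem c8_cop {s t n : ℤ} (h : n ∣ s - t) (ht : IsCoprime t n) : IsCoprime s n := by
  obtain ⟨c, hc⟩ := h
  have e : s = t + n * c := by linarith
  rw [e]
  exact IsCoprime.add_mul_left_left ht c

/-- the value of `th` at a unit -/
private theorem c8_th {s : ℤ} {p m : ℕ} (hm : m < p) (h : (2 * p : ℤ) ∣ s - m) :
    th s p = (m : ℝ) / p := by
  refine th_of hm (Or.inl ?_)
  rw [← neg_sub]
  exact (dvd_neg).2 h

private theorem c8_b1 {l : Finset ℕ} (hl : Nd l) : b l 1 = (∑ p ∈ l, (1 / (p : ℝ)) ^ 2 - 1) / 24 := by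
  unfold b
  congr 2
  exact Finset.sum_congr rfl fun p hp => by rw [tw_one hl hp]

private theorem c8_sel {q : ℕ} (hq : 4 ≤ q) : ∃ t : ℕ, 1 < t ∧ t < q ∧ Odd t ∧
    IsCoprime (t : ℤ) (q : ℤ) ∧ (Odd q ∧ q = t + 2 ∨ Even q ∧ q = t + 1) := by
  rcases Nat.even_or_odd q with h | h
  · obtain ⟨t, rfl⟩ : ∃ t, q = t + 1 := ⟨q - 1, by omega⟩
    refine ⟨t, by omega, by omega, ?_, ?_, Or.inr ⟨h, rfl⟩⟩
    · rcases Nat.even_or_odd t with h1 | h1
      · rw [Nat.even_add_one] at h
        exact absurd h1 h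
      · exact h1
    · exact ⟨-1, 1, by push_cast; ring⟩
  · obtain ⟨t, rfl⟩ : ∃ t, q = t + 2 := ⟨q - 2, by omega⟩
    have ht : Odd t := by
      rcases h with ⟨k, hk⟩
      exact ⟨k - 1, by omega⟩
    refine ⟨t, by omega, by omega, ht, ?_, Or.inl ⟨h, rfl⟩⟩
    obtain ⟨k, hk⟩ := ht
    refine ⟨(k : ℤ) + 1, -k, ?_⟩
    rw [hk]
    push_cast
    ring

theorem b_ne {l : Finset ℕ} (hl : Nd l) (hb : Big l) {M : ℕ} [NeZero M] (hM : ∀ p ∈ l, 2 * p ∣ M) :
    ∃ g : (ZMod M)ˣ, b l (iv g) ≠ b l 1 := by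
  obtain ⟨q, hq, hq4⟩ := hb
  obtain ⟨t, ht1, htq, hto, htc, hcase⟩ := c8_sel hq4
  have ht2 : IsCoprime (t : ℤ) (2 * q : ℤ) := by
    refine IsCoprime.mul_right ?_ htc
    obtain ⟨k, hk⟩ := hto
    exact ⟨1, -k, by rw [hk]; push_cast; ring⟩
  have hq0 : (0 : ℝ) < q := by positivity
  have htr : (1 : ℝ) < t := by exact_mod_cast ht1
  by_cases hone : l = {q}
  · obtain ⟨g, hg⟩ := lift_unit (hM q hq) (s := (t : ℤ)) (by push_cast; exact ht2)
    refine ⟨g, ?_⟩
    rw [c8_b1 hl]
    have e1 : th (iv g) q = (t : ℝ) / q := c8_th htq (by push_cast at hg; exact hg)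
    have e2 : (t : ℝ) / q < 1 := by
      rw [div_lt_one hq0]
      exact_mod_cast htq
    have e3 : tw l (iv g) q = (t : ℝ) / q := by
      unfold tw
      rw [hone, Finset.sum_singleton, e1, if_pos e2]
    unfold b
    rw [hone] at e3 ⊢
    rw [Finset.sum_singleton, Finset.sum_singleton, e3]
    intro h1
    have h2 : ((t : ℝ) / q) ^ 2 = (1 / q) ^ 2 := by linarith
    rw [div_pow, div_pow, div_left_inj' (by positivity)] at h2
    nlinarith
  · obtain ⟨p, hp, hpq⟩ : ∃ p ∈ l, p ≠ q := by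
      by_contra hcon
      push Not at hcon
      apply hone
      ext z
      rw [mem_singleton]
      exact ⟨fun hz => hcon z hz, fun hz => hz ▸ hq⟩
    have hl2 : l = {p, q} := by
      symm
      apply Finset.eq_of_subset_of_card_le
      · intro z hz
        rw [mem_insert, mem_singleton] at hz
        rcases hz with rfl | rfl
        · exact hp
        · exact hq
      · rw [card_pair hpq]
        exact hl.card
    have hcop : Nat.Coprime p q := hl.cop p hp q hq hpq
    have hcopZ : IsCoprime (p : ℤ) (q : ℤ) := Nat.isCoprime_iff_coprime.2 hcop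
    obtain ⟨a, c, hac⟩ := hcopZ
    obtain ⟨k, hk⟩ := hto
    set s : ℤ := 1 + 2 * p * (a * k) with hs
    have s1 : (2 * p : ℤ) ∣ s - 1 := ⟨a * k, by rw [hs]; ring⟩
    have s2 : (2 * q : ℤ) ∣ s - t := by
      refine ⟨-(k * c), ?_⟩
      rw [hs, hk]
      push_cast
      linear_combination (2 * (k : ℤ)) * hac
    have c1 : IsCoprime s (2 * p : ℤ) := c8_cop s1 isCoprime_one_left
    have c2 : IsCoprime s (2 * q : ℤ) := c8_cop s2 ht2
    have c3 : IsCoprime s ((2 * p * q : ℕ) : ℤ) := by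
      push_cast
      exact IsCoprime.mul_right c1 (IsCoprime.of_mul_right_right c2)
    have hdvd : 2 * p * q ∣ M := by
      have h1 := hM p hp
      have h2 := hM q hq
      obtain ⟨m, hm⟩ := h1
      rw [hm] at h2 ⊢
      rw [mul_assoc 2 p m] at h2
      have h3 : q ∣ p * m := Nat.dvd_of_mul_dvd_mul_left (by norm_num) h2
      exact Nat.mul_dvd_mul_left _ (hcop.symm.dvd_of_dvd_mul_left h3)
    obtain ⟨g, hg⟩ := lift_unit hdvd c3
    refine ⟨g, ?_⟩
    have hp2 : 2 ≤ p := hl.two_le p hp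
    have hp0 : (0 : ℝ) < p := by positivity
    have g1 : (2 * p : ℤ) ∣ iv g - ((1 : ℕ) : ℤ) := by
      have h1 : (2 * p : ℤ) ∣ iv g - s := by
        refine dvd_trans ?_ hg
        push_cast
        exact Dvd.intro _ rfl
      have h2 := dvd_add h1 s1
      have e : iv g - s + (s - 1) = iv g - ((1 : ℕ) : ℤ) := by push_cast; ring
      rwa [e] at h2
    have g2 : (2 * q : ℤ) ∣ iv g - (t : ℤ) := by
      have h1 : (2 * q : ℤ) ∣ iv g - s := by
        refine dvd_trans ?_ hg
        push_cast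
        exact ⟨p, by ring⟩
      have h2 := dvd_add h1 s2
      have e : iv g - s + (s - t) = iv g - (t : ℤ) := by ring
      rwa [e] at h2
    have e1 : th (iv g) p = 1 / (p : ℝ) := by
      have := c8_th (s := iv g) (p := p) (m := 1) (by omega) g1
      rw [this]
      push_cast
      rfl
    have e2 : th (iv g) q = (t : ℝ) / q := c8_th htq g2
    rw [c8_b1 hl]
    unfold b
    rw [hl2, Finset.sum_pair hpq, Finset.sum_pair hpq]
    have hp1 : (1 : ℝ) / p ≤ 1 / 2 := by
      apply one_div_le_one_div_of_le (by norm_num)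
      exact_mod_cast hp2
    by_cases hsum : 1 / (p : ℝ) + (t : ℝ) / q < 1
    · have e3 : tw {p, q} (iv g) p = 1 / (p : ℝ) := by
        unfold tw
        rw [Finset.sum_pair hpq, e1, e2, if_pos hsum]
      have e4 : tw {p, q} (iv g) q = (t : ℝ) / q := by
        unfold tw
        rw [Finset.sum_pair hpq, e1, e2, if_pos hsum]
      rw [e3, e4]
      intro h1
      have h2 : ((t : ℝ) / q) ^ 2 = (1 / q) ^ 2 := by linarith
      rw [div_pow, div_pow, div_left_inj' (by positivity)] at h2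
      nlinarith
    · have e3 : tw {p, q} (iv g) p = 1 - 1 / (p : ℝ) := by
        unfold tw
        rw [Finset.sum_pair hpq, e1, e2, if_neg hsum]
      have e4 : tw {p, q} (iv g) q = 1 - (t : ℝ) / q := by
        unfold tw
        rw [Finset.sum_pair hpq, e1, e2, if_neg hsum]
      rw [e3, e4]
      intro h1
      have h2 : (1 - 1 / (p : ℝ)) ^ 2 + (1 - (t : ℝ) / q) ^ 2 = (1 / p) ^ 2 + (1 / q) ^ 2 := by
        linarith
      -- `1 - 1 / p ≥ 1 / p`, `1 - t / q ≥ 1 / q`
      have h3 : 1 / (p : ℝ) ≤ 1 - 1 / p := by linarith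
      have hpp : 0 < 1 / (p : ℝ) := by positivity
      have hqq : 0 < 1 / (q : ℝ) := by positivity
      have h4 : 1 / (q : ℝ) ≤ 1 - t / q := by
        have : (t : ℝ) + 1 ≤ q := by exact_mod_cast htq
        rw [le_sub_iff_add_le, ← add_div, div_le_one hq0]
        linarith
      have h5 : 1 - 1 / (p : ℝ) = 1 / p := by nlinarith
      have h6 : 1 - (t : ℝ) / q = 1 / q := by nlinarith
      have h7 : (p : ℝ) = 2 := by
        have : (1 : ℝ) = 2 / p := by
          have e : (2 : ℝ) / p = 1 / p + 1 / p := by ring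
          rw [e]
          linarith
        rw [eq_div_iff hp0.ne'] at this
        linarith
      have h7' : p = 2 := by exact_mod_cast h7
      have h8 : (q : ℝ) = t + 1 := by
        field_simp at h6
        linarith
      have h8' : q = t + 1 := by exact_mod_cast h8
      rcases hcase with ⟨_, h9⟩ | ⟨h9, _⟩
      · omega
      · rw [h7'] at hcop
        obtain ⟨r, hr⟩ := h9
        have h10 : 2 ∣ q := ⟨r, by omega⟩
        have h11 := Nat.Coprime.eq_one_of_dvd hcop h10
        omega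

theorem two_three {P : ℕ} (hP : 4 ≤ P) (h2 : Nat.Coprime 2 P) (h3 : Nat.Coprime 3 P) {M : ℕ}
    [NeZero M] (hM : 12 * P ∣ M) {d d' : ℕ} (hd : Nat.Coprime d 2) (hd' : Nat.Coprime d' 3)
    (h : ∀ g : (ZMod M)ˣ, ((2 * P * d : ℕ) : ℝ) * (b {2, P} (iv g) - b {2, P} 1) =
      ((3 * P * d' : ℕ) : ℝ) * (b {3, P} (iv g) - b {3, P} 1)) : False := by
  have hodd : P % 2 = 1 := by
    rcases Nat.mod_two_eq_zero_or_one P with h1 | h1
    · have h4 := Nat.Coprime.eq_one_of_dvd h2 (Nat.dvd_of_mod_eq_zero h1)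
      omega
    · exact h1
  have hP3 : P % 3 ≠ 0 := by
    intro h1
    have h4 := Nat.Coprime.eq_one_of_dvd h3 (Nat.dvd_of_mod_eq_zero h1)
    omega
  obtain ⟨t, rfl⟩ : ∃ t, P = t + 2 := ⟨P - 2, by omega⟩
  obtain ⟨k, hk⟩ : ∃ k, t = 2 * k + 1 := ⟨t / 2, by omega⟩
  have c1 : IsCoprime (t : ℤ) ((2 * (t + 2) : ℕ) : ℤ) := by
    push_cast
    refine IsCoprime.mul_right ⟨1, -k, by rw [hk]; push_cast; ring⟩ ⟨(k : ℤ) + 1, -k, ?_⟩
    rw [hk]
    push_cast
    ring
  have hdvd : 2 * (t + 2) ∣ M := dvd_trans ⟨6, by ring⟩ hM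
  obtain ⟨g, hg⟩ := lift_unit hdvd c1
  have hcop := iv_coprime g
  obtain ⟨m, hm⟩ := hM
  have hc12 : IsCoprime (iv g) (12 : ℤ) := by
    have hmz : (M : ℤ) = 12 * ((t : ℤ) + 2) * m := by exact_mod_cast hm
    exact IsCoprime.of_isCoprime_of_dvd_right hcop ⟨((t : ℤ) + 2) * m, by rw [hmz]; ring⟩
  have hodd' : ¬ (2 : ℤ) ∣ iv g := by
    intro h1
    have h4 : (2 : ℤ) ∣ 1 := by
      have := hc12.isUnit_of_dvd' h1 (by norm_num)
      exact this.dvd
    omega
  have hthree : ¬ (3 : ℤ) ∣ iv g := by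
    intro h1
    have h4 : (3 : ℤ) ∣ 1 := by
      have := hc12.isUnit_of_dvd' h1 (by norm_num)
      exact this.dvd
    omega
  have t1 : th (iv g) (t + 2) = (t : ℝ) / ((t + 2 : ℕ) : ℝ) :=
    c8_th (by omega) (by push_cast at hg ⊢; exact hg)
  have t2 : th (iv g) 2 = 1 / 2 := by
    have h1 : Eqv 2 (iv g) ((1 : ℕ) : ℤ) := by
      unfold Eqv
      push_cast
      omega
    have := th_of (s := iv g) (p := 2) (m := 1) (by norm_num) h1
    rw [this]
    norm_num
  have t3 : th (iv g) 3 = 1 / 3 := by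
    have h1 : Eqv 3 (iv g) ((1 : ℕ) : ℤ) := by
      unfold Eqv
      push_cast
      have a1 : iv g % 2 = 1 := by omega
      have a2 : iv g % 3 = 1 ∨ iv g % 3 = 2 := by omega
      rcases a2 with a2 | a2
      · left
        have a3 : iv g % 6 = 1 := by omega
        omega
      · right
        have a3 : iv g % 6 = 5 := by omega
        omega
    have := th_of (s := iv g) (p := 3) (m := 1) (by norm_num) h1
    rw [this]
    norm_num
  have n2 : Nd {2, t + 2} := by
    refine ⟨Finset.card_le_two, ?_, ?_⟩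
    · intro p hp
      rw [mem_insert, mem_singleton] at hp
      omega
    · intro p hp q hq hpq
      rw [mem_insert, mem_singleton] at hp hq
      rcases hp with rfl | rfl <;> rcases hq with rfl | rfl
      · exact absurd rfl hpq
      · exact h2
      · exact h2.symm
      · exact absurd rfl hpq
  have n3 : Nd {3, t + 2} := by
    refine ⟨Finset.card_le_two, ?_, ?_⟩
    · intro p hp
      rw [mem_insert, mem_singleton] at hp
      omega
    · intro p hp q hq hpq
      rw [mem_insert, mem_singleton] at hp hq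
      rcases hp with rfl | rfl <;> rcases hq with rfl | rfl
      · exact absurd rfl hpq
      · exact h3
      · exact h3.symm
      · exact absurd rfl hpq
  have hne2 : (2 : ℕ) ≠ t + 2 := by omega
  have hne3 : (3 : ℕ) ≠ t + 2 := by omega
  have hPp : (0 : ℝ) < ((t + 2 : ℕ) : ℝ) := by positivity
  have hteq : (t : ℝ) = ((t + 2 : ℕ) : ℝ) - 2 := by push_cast; ring
  have hPr : (5 : ℝ) ≤ ((t + 2 : ℕ) : ℝ) := by
    have : 5 ≤ t + 2 := by omega
    exact_mod_cast this
  have hdiv : (t : ℝ) / ((t + 2 : ℕ) : ℝ) = 1 - 2 / ((t + 2 : ℕ) : ℝ) := by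
    rw [hteq]
    field_simp
  have h1 := h g
  rw [c8_b1 n2, c8_b1 n3] at h1
  unfold b at h1
  rw [Finset.sum_pair hne2, Finset.sum_pair hne2, Finset.sum_pair hne3, Finset.sum_pair hne3] at h1
  have s2 : ¬ th (iv g) 2 + th (iv g) (t + 2) < 1 := by
    rw [t2, t1, hdiv, not_lt]
    have : 2 / ((t + 2 : ℕ) : ℝ) ≤ 1 / 2 := by
      rw [div_le_div_iff₀ hPp (by norm_num)]
      linarith
    linarith
  have w1 : tw {2, t + 2} (iv g) 2 = 1 / 2 := by
    unfold tw
    rw [Finset.sum_pair hne2, if_neg s2, t2]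
    norm_num
  have w2 : tw {2, t + 2} (iv g) (t + 2) = 2 / ((t + 2 : ℕ) : ℝ) := by
    unfold tw
    rw [Finset.sum_pair hne2, if_neg s2, t1, hdiv]
    ring
  rw [w1, w2] at h1
  by_cases h5 : t = 3
  · subst h5
    have s3 : th (iv g) 3 + th (iv g) (3 + 2) < 1 := by
      rw [t3, t1]
      norm_num
    have w3 : tw {3, 3 + 2} (iv g) 3 = 1 / 3 := by
      unfold tw
      rw [Finset.sum_pair hne3, if_pos s3, t3]
    have w4 : tw {3, 3 + 2} (iv g) (3 + 2) = 3 / 5 := by
      unfold tw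
      rw [Finset.sum_pair hne3, if_pos s3, t1]
      norm_num
    rw [w3, w4] at h1
    push_cast at h1
    have h6 : (d : ℝ) = 4 * d' := by
      norm_num at h1
      linarith
    have h7 : d = 4 * d' := by exact_mod_cast h6
    have h8 := Nat.Coprime.eq_one_of_dvd hd.symm ⟨2 * d', by omega⟩
    omega
  · have h7 : (7 : ℝ) ≤ ((t + 2 : ℕ) : ℝ) := by
      have : 7 ≤ t + 2 := by omega
      exact_mod_cast this
    have s3 : ¬ th (iv g) 3 + th (iv g) (t + 2) < 1 := by
      rw [t3, t1, hdiv, not_lt]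
      have : 2 / ((t + 2 : ℕ) : ℝ) ≤ 1 / 3 := by
        rw [div_le_div_iff₀ hPp (by norm_num)]
        linarith
      linarith
    have w3 : tw {3, t + 2} (iv g) 3 = 2 / 3 := by
      unfold tw
      rw [Finset.sum_pair hne3, if_neg s3, t3]
      norm_num
    have w4 : tw {3, t + 2} (iv g) (t + 2) = 2 / ((t + 2 : ℕ) : ℝ) := by
      unfold tw
      rw [Finset.sum_pair hne3, if_neg s3, t1, hdiv]
      ring
    rw [w3, w4] at h1
    have h6 : (6 : ℝ) * d = d' * (((t + 2 : ℕ) : ℝ) ^ 2 + 9) := by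
      rw [Nat.cast_mul, Nat.cast_mul, Nat.cast_mul, Nat.cast_mul] at h1
      generalize ((t + 2 : ℕ) : ℝ) = P at *
      field_simp at h1
      push_cast at h1
      nlinarith
    have h8 : 6 * d = d' * ((t + 2) ^ 2 + 9) := by exact_mod_cast h6
    have h9 : 3 ∣ d' * ((t + 2) ^ 2 + 9) := ⟨2 * d, by rw [← h8]; ring⟩
    rcases (Nat.Prime.dvd_mul Nat.prime_three).1 h9 with h10 | h10
    · have h11 := Nat.Coprime.eq_one_of_dvd hd'.symm h10
      omega
    · have h11 : 3 ∣ (t + 2) ^ 2 := (Nat.dvd_add_left (by norm_num)).1 h10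
      have h12 := Nat.Prime.dvd_of_dvd_pow Nat.prime_three h11
      exact hP3 (Nat.mod_eq_zero_of_dvd h12)

end Pool.Agent.GT
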