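import Pool.Agent.H46.GT.C1b
import Pool.Agent.OHG.K1

/-!
The coefficients of degree one and two of `gpart` (`OHG.moment_one`, `moment_two`, `moment_pair` in K1;
compare the proof of `OHG.part_two` in K3).
-/

set_option autoImplicit false

open PowerSeries Finset MeasureTheory

namespace Pool.Agent.GT

open Pool.Agent.OHG Pool.Agent.GPC Pool.Agent.SLR

variable {V : Type} [Fintype V] [DecidableEq V]

private theorem D1_mem (j : V → ℕ) (n : ℕ) : j ∈ (univ : Finset V).piAntidiag n ↔ ∑ v, j v = n := by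
  rw [mem_piAntidiag]
  simp

private theorem D1_sum_single (v : V) (k : ℕ) : ∑ w, (Pi.single v k : V → ℕ) w = k := by
  rw [sum_eq_single v]
  · simp
  · intro w _ hw
    exact Pi.single_eq_of_ne hw _
  · intro h
    exact absurd (mem_univ v) h

private theorem D1_exists {j : V → ℕ} {n : ℕ} (h : ∑ v, j v = n + 1) :
    ∃ v, ∃ j' : V → ℕ, j = Pi.single v 1 + j' ∧ ∑ v, j' v = n := by
  obtain ⟨v, -, hv⟩ : ∃ v ∈ (univ : Finset V), j v ≠ 0 := by
    by_contra hcon
    push Not at hcon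
    rw [sum_eq_zero hcon] at h
    omega
  refine ⟨v, fun w => j w - (Pi.single v 1 : V → ℕ) w, ?_, ?_⟩
  · funext w
    simp only [Pi.add_apply]
    by_cases hw : w = v
    · subst hw
      simp
      omega
    · simp [Pi.single_eq_of_ne hw]
  · have h1 : ∑ w, j w = ∑ w, (Pi.single v 1 : V → ℕ) w +
        ∑ w, (j w - (Pi.single v 1 : V → ℕ) w) := by
      rw [← sum_add_distrib]
      refine sum_congr rfl fun w _ => ?_
      by_cases hw : w = v
      · subst hw
        simp
        omega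
      · simp [Pi.single_eq_of_ne hw]
    rw [h, D1_sum_single] at h1
    exact (Nat.add_left_cancel ((add_comm 1 n).trans h1)).symm

private theorem D1_eq {j : V → ℕ} (h : ∑ v, j v = 1) : ∃ v, j = Pi.single v 1 := by
  obtain ⟨v, j', rfl, h'⟩ := D1_exists (n := 0) h
  refine ⟨v, ?_⟩
  have : j' = 0 := by
    funext w
    exact (sum_eq_zero_iff.mp h') w (mem_univ w)
  rw [this, add_zero]

private theorem D1_sum_one (F : (V → ℕ) → ℝ) :
    ∑ j ∈ (univ : Finset V).piAntidiag 1, F j = ∑ v, F (Pi.single v 1) := by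
  symm
  refine sum_bij (fun v _ => Pi.single v 1) ?_ ?_ ?_ ?_
  · intro v _
    rw [D1_mem, D1_sum_single]
  · intro v _ w _ hvw
    by_contra hne
    have := congrFun hvw v
    simp [Pi.single_eq_of_ne hne] at this
  · intro j hj
    rw [D1_mem] at hj
    obtain ⟨v, rfl⟩ := D1_eq hj
    exact ⟨v, mem_univ v, rfl⟩
  · intro v _
    rfl

omit [Fintype V] in
private theorem D1_pair {a b c d : V} (hcd : c ≠ d)
    (h : (Pi.single c 1 + Pi.single d 1 : V → ℕ) = Pi.single a 1 + Pi.single b 1) :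
    (c = a ∧ d = b) ∨ (c = b ∧ d = a) := by
  have hc := congrFun h c
  have hd := congrFun h d
  simp only [Pi.add_apply, Pi.single_eq_same, Pi.single_eq_of_ne hcd,
    Pi.single_eq_of_ne hcd.symm] at hc hd
  by_cases h1 : c = a
  · left
    refine ⟨h1, ?_⟩
    by_contra h2
    have h3 : d ≠ a := fun h => hcd (h1.trans h.symm)
    simp [Pi.single_eq_of_ne h2, Pi.single_eq_of_ne h3] at hd
  · right
    have h2 : c = b := by
      by_contra h2
      simp [Pi.single_eq_of_ne h1, Pi.single_eq_of_ne h2] at hc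
    refine ⟨h2, ?_⟩
    by_contra h3
    have h4 : d ≠ b := fun h => hcd (h2.trans h.symm)
    simp [Pi.single_eq_of_ne h3, Pi.single_eq_of_ne h4] at hd

private theorem D1_sum_two (F : (V → ℕ) → ℝ) :
    2 * ∑ j ∈ (univ : Finset V).piAntidiag 2, F j = 2 * ∑ v, F (Pi.single v 2) +
      ∑ p ∈ (univ : Finset V).offDiag, F (Pi.single p.1 1 + Pi.single p.2 1) := by
  classical
  let S := (univ : Finset V).piAntidiag 2
  rw [← sum_filter_add_sum_filter_not S (fun j => ∃ v, j = Pi.single v 2), mul_add]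
  congr 1
  · congr 1
    symm
    refine sum_bij (fun v _ => Pi.single v 2) ?_ ?_ ?_ ?_
    · intro v _
      rw [mem_filter, D1_mem, D1_sum_single]
      exact ⟨rfl, v, rfl⟩
    · intro v _ w _ hvw
      by_contra hne
      have := congrFun hvw v
      simp [Pi.single_eq_of_ne hne] at this
    · intro j hj
      obtain ⟨-, v, rfl⟩ := mem_filter.mp hj
      exact ⟨v, mem_univ v, rfl⟩
    · intro v _
      rfl
  · have hmaps : ∀ p ∈ (univ : Finset V).offDiag, (Pi.single p.1 1 + Pi.single p.2 1 : V → ℕ) ∈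
        S.filter (fun j => ¬ ∃ v, j = Pi.single v 2) := by
      rintro ⟨a, b⟩ hp
      have hab : a ≠ b := (mem_offDiag.mp hp).2.2
      rw [mem_filter, D1_mem]
      refine ⟨?_, ?_⟩
      · simp only [Pi.add_apply, sum_add_distrib, D1_sum_single]
      · rintro ⟨v, hv⟩
        have ha := congrFun hv a
        simp only [Pi.add_apply, Pi.single_eq_same, Pi.single_eq_of_ne hab] at ha
        by_cases hav : a = v
        · subst hav
          simp at ha
        · simp [Pi.single_eq_of_ne hav] at ha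
    rw [← sum_fiberwise_of_maps_to hmaps, mul_sum]
    refine sum_congr rfl fun j hj => ?_
    obtain ⟨hj1, hj2⟩ := mem_filter.mp hj
    rw [D1_mem] at hj1
    obtain ⟨a, j', rfl, h'⟩ := D1_exists (n := 1) hj1
    obtain ⟨b, rfl⟩ := D1_eq h'
    have hab : a ≠ b := by
      rintro rfl
      exact hj2 ⟨a, by rw [← Pi.single_add]⟩
    have hfib : (univ : Finset V).offDiag.filter
        (fun p => (Pi.single p.1 1 + Pi.single p.2 1 : V → ℕ) = Pi.single a 1 + Pi.single b 1) =
        {(a, b), (b, a)} := by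
      ext ⟨c, d⟩
      simp only [mem_filter, mem_offDiag, mem_univ, true_and, mem_insert, mem_singleton,
        Prod.mk.injEq]
      constructor
      · rintro ⟨hcd, h⟩
        exact D1_pair hcd h
      · rintro (⟨rfl, rfl⟩ | ⟨rfl, rfl⟩)
        · exact ⟨hab, rfl⟩
        · exact ⟨hab.symm, add_comm _ _⟩
    rw [sum_congr rfl (g := fun _ => F (Pi.single a 1 + Pi.single b 1)) (fun p hp => by
      rw [(mem_filter.mp hp).2]), sum_const, hfib,
      card_pair (by simp [hab]), nsmul_eq_mul]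
    norm_num

private theorem D1_prod {φ : V → ℝ⟦X⟧} (h0 : ∀ v, coeff 0 (φ v) = 1) (v : V) (k : ℕ) :
    ∏ u, coeff ((Pi.single v k : V → ℕ) u) (φ u) = coeff k (φ v) := by
  rw [prod_eq_single v]
  · simp
  · intro u _ hu
    rw [Pi.single_eq_of_ne hu, h0]
  · intro h
    exact absurd (mem_univ v) h

private theorem D1_prod' {φ : V → ℝ⟦X⟧} (h0 : ∀ v, coeff 0 (φ v) = 1) {v w : V} (hvw : v ≠ w) :
    ∏ u, coeff ((Pi.single v 1 + Pi.single w 1 : V → ℕ) u) (φ u) =
      coeff 1 (φ v) * coeff 1 (φ w) := by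
  rw [← mul_prod_erase univ _ (mem_univ v), ← mul_prod_erase (univ.erase v) _
    (mem_erase.mpr ⟨hvw.symm, mem_univ w⟩), prod_eq_one, mul_one]
  · congr 2
    · simp [Pi.single_eq_of_ne hvw]
    · simp [Pi.single_eq_of_ne hvw.symm]
  · intro u hu
    obtain ⟨h1, h2⟩ := mem_erase.mp hu
    obtain ⟨h2, -⟩ := mem_erase.mp h2
    rw [Pi.add_apply, Pi.single_eq_of_ne h1, Pi.single_eq_of_ne h2, add_zero, h0]

theorem gpart_one (D : Data V) {φ : V → ℝ⟦X⟧} (h0 : ∀ v, coeff 0 (φ v) = 1) :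
    coeff 1 (gpart D φ) = 6 * ∑ v, coeff 1 (φ v) * (D.lk v v : ℝ) := by
  unfold gpart
  rw [coeff_mk, D1_sum_one, mul_sum]
  refine sum_congr rfl fun v _ => ?_
  rw [D1_prod h0, moment_one]
  ring

theorem gpart_two (D : Data V) {φ : V → ℝ⟦X⟧} (h0 : ∀ v, coeff 0 (φ v) = 1) :
    coeff 2 (gpart D φ) = 60 * ∑ v, coeff 2 (φ v) * (D.lk v v : ℝ) ^ 2 +
      ∑ v, ∑ w ∈ univ.erase v, coeff 1 (φ v) * coeff 1 (φ w) *
        (18 * (D.lk v v : ℝ) * (D.lk w w : ℝ) + 12 * (D.lk v w : ℝ) ^ 2) := by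
  have a2 : 2 * coeff 2 (gpart D φ) = 120 * ∑ v, coeff 2 (φ v) * (D.lk v v : ℝ) ^ 2 +
      ∑ p ∈ (univ : Finset V).offDiag, coeff 1 (φ p.1) * coeff 1 (φ p.2) *
        (36 * (D.lk p.1 p.1 : ℝ) * (D.lk p.2 p.2 : ℝ) + 24 * (D.lk p.1 p.2 : ℝ) ^ 2) := by
    unfold gpart
    rw [coeff_mk, D1_sum_two]
    congr 1
    · rw [mul_sum, mul_sum]
      refine sum_congr rfl fun v _ => ?_
      rw [D1_prod h0, moment_two]
      ring
    · refine sum_congr rfl fun p hp => ?_
      have hp' : p.1 ≠ p.2 := (mem_offDiag.mp hp).2.2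
      rw [D1_prod' h0 hp', moment_pair D hp']
  have e3 : ∑ p ∈ (univ : Finset V).offDiag, coeff 1 (φ p.1) * coeff 1 (φ p.2) *
        (36 * (D.lk p.1 p.1 : ℝ) * (D.lk p.2 p.2 : ℝ) + 24 * (D.lk p.1 p.2 : ℝ) ^ 2) =
      2 * ∑ v, ∑ w ∈ univ.erase v, coeff 1 (φ v) * coeff 1 (φ w) *
        (18 * (D.lk v v : ℝ) * (D.lk w w : ℝ) + 12 * (D.lk v w : ℝ) ^ 2) := by
    have hset : (univ : Finset V).offDiag =
        (univ : Finset V).disjiUnion (fun v => (univ.erase v).map ⟨fun w => (v, w),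
          fun a b h => (Prod.mk.inj h).2⟩) (by
          intro v _ w _ hvw
          rw [Function.onFun, Finset.disjoint_left]
          intro x hx hx'
          rw [mem_map] at hx hx'
          obtain ⟨a, _, rfl⟩ := hx
          obtain ⟨b, _, hb⟩ := hx'
          exact hvw (Prod.mk.inj hb).1.symm) := by
      ext ⟨a, b⟩
      simp only [mem_offDiag, mem_univ, true_and, mem_disjiUnion, mem_map, mem_erase,
        Function.Embedding.coeFn_mk, Prod.mk.injEq, and_true]
      constructor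
      · intro h
        exact ⟨a, b, fun hh => h hh.symm, rfl, rfl⟩
      · rintro ⟨c, d, h1, rfl, rfl⟩
        exact fun hh => h1 hh.symm
    rw [hset, sum_disjiUnion, mul_sum]
    refine sum_congr rfl fun v _ => ?_
    rw [sum_map, mul_sum]
    refine sum_congr rfl fun w _ => ?_
    simp only [Function.Embedding.coeFn_mk]
    ring
  rw [e3] at a2
  linarith

end Pool.Agent.GT
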