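import Pool.Agent.H46.GT.D1
import Pool.Agent.H46.GT.C5

/-!
Extraction of the linking numbers. `T`, `T'`: the nodes with a leaf weight `≥ 4`.
Let `v ∈ T`, `g` a unit. By `indep` (for `D`) there is `g'` which is `± g` modulo `2 p` for `p ∈ leaf v` and
`± 1` for the other leaf weights of `D`; so `g'` lies in `subA` of all `w ≠ v` in `T`, hence, by `hA`, in
`subA` of all `w' ≠ e v` in `T'`, and `g' g⁻¹ ∈ subA M (leaf v) = subA M (leaf' (e v))`; the leaf sets outside `T`,
`T'` consist of `2` and `3` only, and all units are `± 1` modulo `4` and `6` (`12 ∣ M`). So in `tpart D (iv g')`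
only the factor of `v` is twisted, and in `tpart D' (iv g')` only that of `e v`, by `g`. The difference of the
coefficients of degree one (`gpart_one`) at `g'` and at `1` gives the first statement.
Second: `g'` for `(v, g)`, `k'` for `(w, k)`; the second difference
`a_2(g' k') - a_2(g') - a_2(k') + a_2(1)` of the coefficients of degree two is
`Δb_v Δb_w (36 l_vv l_ww + 24 l_vw²)`; subtract the product of the first statements.
-/

set_option autoImplicit false

open PowerSeries Finset MeasureTheory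

namespace Pool.Agent.GT

open Pool.Agent.OHG Pool.Agent.GPC Pool.Agent.SLR

variable {V : Type} [Fintype V] [DecidableEq V]

private theorem d2_one (D : Data V) {v : V} {φ φg : V → ℝ⟦X⟧} (h0 : ∀ u, coeff 0 (φ u) = 1)
    (hg0 : ∀ u, coeff 0 (φg u) = 1) (hg : ∀ u, u ≠ v → φg u = φ u) :
    coeff 1 (gpart D φg) - coeff 1 (gpart D φ) =
      6 * ((D.lk v v : ℝ) * (coeff 1 (φg v) - coeff 1 (φ v))) := by
  rw [gpart_one D h0, gpart_one D hg0, ← mul_sub, ← Finset.sum_sub_distrib]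
  congr 1
  rw [Finset.sum_eq_single v]
  · ring
  · intro u _ hu
    rw [hg u hu]
    ring
  · intro h
    exact absurd (Finset.mem_univ v) h

private theorem d2_dsum (f : V → V → ℝ) :
    ∑ u, ∑ x ∈ univ.erase u, f u x = ∑ u, ∑ x, if x = u then 0 else f u x := by
  apply Finset.sum_congr rfl
  intro u _
  rw [← Finset.sum_erase_add _ _ (Finset.mem_univ u)]
  rw [if_pos rfl, add_zero]
  apply Finset.sum_congr rfl
  intro x hx
  rw [if_neg (Finset.ne_of_mem_erase hx)]

private theorem d2_two (D : Data V) {v w : V} (hvw : v ≠ w) {φ φg φk φgk : V → ℝ⟦X⟧}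
    (h0 : ∀ u, coeff 0 (φ u) = 1) (hg0 : ∀ u, coeff 0 (φg u) = 1)
    (hk0 : ∀ u, coeff 0 (φk u) = 1) (hgk0 : ∀ u, coeff 0 (φgk u) = 1)
    (hg : ∀ u, u ≠ v → φg u = φ u) (hk : ∀ u, u ≠ w → φk u = φ u)
    (hgk : ∀ u, u ≠ v → u ≠ w → φgk u = φ u) (hgkv : φgk v = φg v) (hgkw : φgk w = φk w) :
    coeff 2 (gpart D φgk) - coeff 2 (gpart D φg) - coeff 2 (gpart D φk) + coeff 2 (gpart D φ) =
      (coeff 1 (φg v) - coeff 1 (φ v)) * (coeff 1 (φk w) - coeff 1 (φ w)) *
        (36 * (D.lk v v : ℝ) * (D.lk w w : ℝ) + 24 * (D.lk v w : ℝ) ^ 2) := by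
  rw [gpart_two D h0, gpart_two D hg0, gpart_two D hk0, gpart_two D hgk0]
  have hdiag : (∑ u, coeff 2 (φgk u) * (D.lk u u : ℝ) ^ 2) - (∑ u, coeff 2 (φg u) * (D.lk u u : ℝ) ^ 2)
      - (∑ u, coeff 2 (φk u) * (D.lk u u : ℝ) ^ 2) + (∑ u, coeff 2 (φ u) * (D.lk u u : ℝ) ^ 2) =
      0 := by
    rw [← Finset.sum_sub_distrib, ← Finset.sum_sub_distrib, ← Finset.sum_add_distrib]
    apply Finset.sum_eq_zero
    intro u _
    by_cases hu : u = v
    · subst hu
      rw [hgkv, hk u hvw]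
      ring
    · by_cases hu2 : u = w
      · subst hu2
        rw [hgkw, hg u hu]
        ring
      · rw [hgk u hu hu2, hg u hu, hk u hu2]
        ring
  set K : V → V → ℝ := fun u x => 18 * (D.lk u u : ℝ) * (D.lk x x : ℝ) + 12 * (D.lk u x : ℝ) ^ 2
    with hK
  set K' : V → V → ℝ := fun u x => if x = u then 0 else K u x with hK'
  set Δv : ℝ := coeff 1 (φg v) - coeff 1 (φ v) with hΔv
  set Δw : ℝ := coeff 1 (φk w) - coeff 1 (φ w) with hΔw
  set A : V → ℝ := fun u => if u = v then Δv else 0 with hA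
  set B : V → ℝ := fun u => if u = w then Δw else 0 with hB
  have eg : ∀ u, coeff 1 (φg u) = coeff 1 (φ u) + A u := by
    intro u
    simp only [hA]
    by_cases hu : u = v
    · rw [if_pos hu, hu, hΔv]
      ring
    · rw [if_neg hu, hg u hu]
      ring
  have ek : ∀ u, coeff 1 (φk u) = coeff 1 (φ u) + B u := by
    intro u
    simp only [hB]
    by_cases hu : u = w
    · rw [if_pos hu, hu, hΔw]
      ring
    · rw [if_neg hu, hk u hu]
      ring
  have egk : ∀ u, coeff 1 (φgk u) = coeff 1 (φ u) + A u + B u := by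
    intro u
    simp only [hA, hB]
    by_cases hu : u = v
    · rw [if_pos hu, if_neg (by rw [hu]; exact hvw), hu, hgkv, hΔv]
      ring
    · by_cases hu2 : u = w
      · rw [if_neg hu, if_pos hu2, hu2, hgkw, hΔw]
        ring
      · rw [if_neg hu, if_neg hu2, hgk u hu hu2]
        ring
  have hoff : (∑ u, ∑ x ∈ univ.erase u, coeff 1 (φgk u) * coeff 1 (φgk x) * K u x)
      - (∑ u, ∑ x ∈ univ.erase u, coeff 1 (φg u) * coeff 1 (φg x) * K u x)
      - (∑ u, ∑ x ∈ univ.erase u, coeff 1 (φk u) * coeff 1 (φk x) * K u x)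
      + (∑ u, ∑ x ∈ univ.erase u, coeff 1 (φ u) * coeff 1 (φ x) * K u x) =
      Δv * Δw * K v w + Δv * Δw * K w v := by
    rw [d2_dsum, d2_dsum, d2_dsum, d2_dsum, ← Finset.sum_sub_distrib, ← Finset.sum_sub_distrib,
      ← Finset.sum_add_distrib]
    have hterm : ∀ u : V, ((∑ x, if x = u then 0 else coeff 1 (φgk u) * coeff 1 (φgk x) * K u x) -
        (∑ x, if x = u then 0 else coeff 1 (φg u) * coeff 1 (φg x) * K u x) -
        (∑ x, if x = u then 0 else coeff 1 (φk u) * coeff 1 (φk x) * K u x) +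
        ∑ x, if x = u then 0 else coeff 1 (φ u) * coeff 1 (φ x) * K u x) =
        ∑ x, (A u * B x * K' u x + B u * A x * K' u x) := by
      intro u
      rw [← Finset.sum_sub_distrib, ← Finset.sum_sub_distrib, ← Finset.sum_add_distrib]
      apply Finset.sum_congr rfl
      intro x _
      simp only [hK']
      by_cases hx : x = u
      · simp [hx]
      · rw [if_neg hx, if_neg hx, if_neg hx, if_neg hx, if_neg hx, eg, eg, ek, ek, egk, egk]
        ring
    rw [Finset.sum_congr rfl fun u _ => hterm u]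
    simp only [Finset.sum_add_distrib]
    congr 1
    · rw [Finset.sum_eq_single v]
      · rw [Finset.sum_eq_single w]
        · simp only [hA, hB, hK']
          simp only [if_true, if_neg hvw.symm]
        · intro x _ hx
          simp only [hB]
          rw [if_neg hx]
          ring
        · intro hx
          exact absurd (Finset.mem_univ w) hx
      · intro u _ hu
        apply Finset.sum_eq_zero
        intro x _
        simp only [hA]
        rw [if_neg hu]
        ring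
      · intro hx
        exact absurd (Finset.mem_univ v) hx
    · rw [Finset.sum_eq_single w]
      · rw [Finset.sum_eq_single v]
        · simp only [hA, hB, hK']
          simp only [if_true, if_neg hvw]
          ring
        · intro x _ hx
          simp only [hA]
          rw [if_neg hx]
          ring
        · intro hx
          exact absurd (Finset.mem_univ v) hx
      · intro u _ hu
        apply Finset.sum_eq_zero
        intro x _
        simp only [hB]
        rw [if_neg hu]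
        ring
      · intro hx
        exact absurd (Finset.mem_univ w) hx
  have hKs : K v w + K w v = 36 * (D.lk v v : ℝ) * (D.lk w w : ℝ) + 24 * (D.lk v w : ℝ) ^ 2 := by
    simp only [hK]
    rw [lk_comm D w v]
    ring
  rw [← hKs]
  simp only [hK] at hoff ⊢
  linear_combination 60 * hdiag + hoff

private theorem d2_small {M : ℕ} [NeZero M] (h12 : 12 ∣ M) {l : Finset ℕ} (h2 : ∀ p ∈ l, 2 ≤ p)
    (hb : ¬ Big l) (g : (ZMod M)ˣ) : ∀ p ∈ l, Eqv p 1 (iv g) := by
  intro p hp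
  have h4 : p < 4 := by
    by_contra h
    exact hb ⟨p, hp, by omega⟩
  have h5 := h2 p hp
  have hc : IsCoprime (iv g) (12 : ℤ) := by
    apply IsCoprime.of_isCoprime_of_dvd_right (iv_coprime g)
    exact_mod_cast h12
  have ho : ¬ (2 : ℤ) ∣ iv g := by
    intro hd
    have h6 := hc.isUnit_of_dvd' hd (by norm_num)
    rw [Int.isUnit_iff] at h6
    omega
  have ht : ¬ (3 : ℤ) ∣ iv g := by
    intro hd
    have h6 := hc.isUnit_of_dvd' hd (by norm_num)
    rw [Int.isUnit_iff] at h6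
    omega
  unfold Eqv
  interval_cases p
  · push_cast
    omega
  · push_cast
    have h7 : iv g % 6 = 0 ∨ iv g % 6 = 1 ∨ iv g % 6 = 2 ∨ iv g % 6 = 3 ∨ iv g % 6 = 4 ∨
        iv g % 6 = 5 := by omega
    rcases h7 with h7 | h7 | h7 | h7 | h7 | h7 <;> omega

/-- Only the leaf weights at `v` are twisted, by `s`. -/
private def d2_Tw {V : Type} (D : Data V) (v : V) (s s' : ℤ) : Prop :=
  (∀ p ∈ D.leaf v, Eqv p s s') ∧ ∀ w, w ≠ v → ∀ p ∈ D.leaf w, Eqv p 1 s'

private theorem d2_eqv_one {M : ℕ} [NeZero M] {p : ℕ} (hp : 2 * p ∣ M) :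
    Eqv p 1 (iv (1 : (ZMod M)ˣ)) := by
  left
  exact dvd_trans (by exact_mod_cast hp) iv_one

private theorem d2_eqv_mul {M : ℕ} [NeZero M] {p : ℕ} (hp : 2 * p ∣ M) (g k : (ZMod M)ˣ) :
    Eqv p (iv g * iv k) (iv (g * k)) := by
  left
  exact dvd_trans (by exact_mod_cast hp) (iv_mul g k)

private theorem d2_diff {D : Data V} {v : V} {M : ℕ} [NeZero M]
    (hM : ∀ u, ∀ p ∈ D.leaf u, 2 * p ∣ M) {g g' : (ZMod M)ˣ} (h : d2_Tw D v (iv g) (iv g')) :
    coeff 1 (tpart D (iv g')) - coeff 1 (tpart D (iv (1 : (ZMod M)ˣ))) =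
      6 * ((D.lk v v : ℝ) * (b (D.leaf v) (iv g) - b (D.leaf v) 1)) := by
  unfold tpart
  rw [d2_one D (v := v) (fun u => tphi_zero _ _) (fun u => tphi_zero _ _)]
  · rw [tphi_one, tphi_one, b_eqv h.1, b_eqv fun p hp => d2_eqv_one (hM v p hp)]
  · intro u hu
    rw [tphi_eqv (h.2 u hu), tphi_eqv fun p hp => d2_eqv_one (hM u p hp)]

private theorem d2_diff2 {D : Data V} {v w : V} (hvw : v ≠ w) {M : ℕ} [NeZero M]
    (hM : ∀ u, ∀ p ∈ D.leaf u, 2 * p ∣ M) {g g' k k' : (ZMod M)ˣ}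
    (h : d2_Tw D v (iv g) (iv g')) (h' : d2_Tw D w (iv k) (iv k')) :
    coeff 2 (tpart D (iv (g' * k'))) - coeff 2 (tpart D (iv g')) - coeff 2 (tpart D (iv k')) +
      coeff 2 (tpart D (iv (1 : (ZMod M)ˣ))) =
      (b (D.leaf v) (iv g) - b (D.leaf v) 1) * (b (D.leaf w) (iv k) - b (D.leaf w) 1) *
        (36 * (D.lk v v : ℝ) * (D.lk w w : ℝ) + 24 * (D.lk v w : ℝ) ^ 2) := by
  unfold tpart
  have hmul : ∀ {p : ℕ} {s t : ℤ}, 2 * p ∣ M → Eqv p s (iv g') → Eqv p t (iv k') →
      Eqv p (s * t) (iv (g' * k')) := fun hp h1 h2 => (h1.mul h2).trans (d2_eqv_mul hp g' k')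
  rw [d2_two D hvw (fun u => tphi_zero _ _) (fun u => tphi_zero _ _) (fun u => tphi_zero _ _)
    (fun u => tphi_zero _ _)]
  · rw [tphi_one, tphi_one, tphi_one, tphi_one, b_eqv h.1, b_eqv h'.1,
      b_eqv fun p hp => d2_eqv_one (hM v p hp), b_eqv fun p hp => d2_eqv_one (hM w p hp)]
  · intro u hu
    rw [tphi_eqv (h.2 u hu), tphi_eqv fun p hp => d2_eqv_one (hM u p hp)]
  · intro u hu
    rw [tphi_eqv (h'.2 u hu), tphi_eqv fun p hp => d2_eqv_one (hM u p hp)]
  · intro u hu hu'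
    rw [tphi_eqv fun p hp => d2_eqv_one (hM u p hp)]
    apply tphi_eqv
    intro p hp
    have := hmul (hM u p hp) (h.2 u hu p hp) (h'.2 u hu' p hp)
    simpa using this
  · rw [tphi_eqv h.1]
    apply tphi_eqv
    intro p hp
    have := hmul (hM v p hp) (h.1 p hp) (h'.2 v hvw p hp)
    simpa using this
  · rw [tphi_eqv h'.1]
    apply tphi_eqv
    intro p hp
    have := hmul (hM w p hp) (h.2 w hvw.symm p hp) (h'.1 p hp)
    simpa using this

theorem extract {n : ℕ} (hn : 1 ≤ n) {D D' : Data (Fin (n + 1))} (h : D.IsGraph)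
    (h' : D'.IsGraph) (ht : Tri D) (ht' : Tri D') (hs : Sparse D) {M : ℕ} [NeZero M]
    (h12 : 12 ∣ M) (hM : ∀ v, ∀ p ∈ D.leaf v, 2 * p ∣ M) (hM' : ∀ v, ∀ p ∈ D'.leaf v, 2 * p ∣ M)
    (hp : ∀ g : (ZMod M)ˣ, tpart D (iv g) = tpart D' (iv g))
    (e : {v // Big (D.leaf v)} ≃ {v // Big (D'.leaf v)})
    (hA : ∀ v, subA M (D'.leaf (e v)) = subA M (D.leaf v)) :
    (∀ (v : {v // Big (D.leaf v)}) (g : (ZMod M)ˣ),
      (D.lk v v : ℝ) * (b (D.leaf v) (iv g) - b (D.leaf v) 1) =
        (D'.lk (e v) (e v) : ℝ) * (b (D'.leaf (e v)) (iv g) - b (D'.leaf (e v)) 1)) ∧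
    ∀ (v w : {v // Big (D.leaf v)}), v ≠ w → ∀ g k : (ZMod M)ˣ,
      (D.lk v w : ℝ) ^ 2 * (b (D.leaf v) (iv g) - b (D.leaf v) 1) *
        (b (D.leaf w) (iv k) - b (D.leaf w) 1) =
      (D'.lk (e v) (e w) : ℝ) ^ 2 * (b (D'.leaf (e v)) (iv g) - b (D'.leaf (e v)) 1) *
        (b (D'.leaf (e w)) (iv k) - b (D'.leaf (e w)) 1) := by
  have hndD : ∀ u, Nd (D.leaf u) := fun u => nd_leaf h ht (by simp; omega) u
  have hndD' : ∀ u, Nd (D'.leaf u) := fun u => nd_leaf h' ht' (by simp; omega) u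
  -- a unit which twists only at one node
  have hex : ∀ (v : {v // Big (D.leaf v)}) (g : (ZMod M)ˣ), ∃ g' : (ZMod M)ˣ,
      d2_Tw D v (iv g) (iv g') ∧ d2_Tw D' (e v) (iv g) (iv g') := by
    intro v g
    obtain ⟨g', h1, h2⟩ := indep hndD hs hM v g
    refine ⟨g', ⟨h1, h2⟩, ?_, ?_⟩
    · rw [← div_mem_subA (hM' (e v)), hA v, div_mem_subA (hM v)]
      exact h1
    · intro w' hw' p hp
      by_cases hb : Big (D'.leaf w')
      · obtain ⟨w, hw⟩ := e.surjective ⟨w', hb⟩
        have hw2 : (e w : Fin (n + 1)) = w' := by rw [hw]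
        have hwv : (w : Fin (n + 1)) ≠ v := by
          intro h0
          apply hw'
          rw [← hw2, Subtype.ext h0]
        have h3 : g' ∈ subA M (D'.leaf w') := by
          rw [← hw2, hA w, mem_subA]
          intro q hq _
          exact h2 w hwv q hq
        exact (mem_subA.mp h3) p hp (hM' w' p hp)
      · exact d2_small h12 (hndD' w').two_le hb g' p hp
  have hfirst : ∀ (v : {v // Big (D.leaf v)}) (g : (ZMod M)ˣ),
      (D.lk v v : ℝ) * (b (D.leaf v) (iv g) - b (D.leaf v) 1) =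
        (D'.lk (e v) (e v) : ℝ) * (b (D'.leaf (e v)) (iv g) - b (D'.leaf (e v)) 1) := by
    intro v g
    obtain ⟨g', h1, h2⟩ := hex v g
    have e1 := d2_diff hM h1
    have e2 := d2_diff hM' h2
    rw [hp, hp] at e1
    linarith
  refine ⟨hfirst, ?_⟩
  intro v w hvw g k
  obtain ⟨g', h1, h2⟩ := hex v g
  obtain ⟨k', h3, h4⟩ := hex w k
  have hvw1 : (v : Fin (n + 1)) ≠ w := fun h0 => hvw (Subtype.ext h0)
  have hvw2 : (e v : Fin (n + 1)) ≠ e w := fun h0 => hvw (e.injective (Subtype.ext h0))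
  have e1 := d2_diff2 hvw1 hM h1 h3
  have e2 := d2_diff2 hvw2 hM' h2 h4
  rw [hp, hp, hp, hp] at e1
  have e3 := hfirst v g
  have e4 := hfirst w k
  have e5 : (D.lk v v : ℝ) * (b (D.leaf v) (iv g) - b (D.leaf v) 1) *
      ((D.lk w w : ℝ) * (b (D.leaf w) (iv k) - b (D.leaf w) 1)) =
      (D'.lk (e v) (e v) : ℝ) * (b (D'.leaf (e v)) (iv g) - b (D'.leaf (e v)) 1) *
      ((D'.lk (e w) (e w) : ℝ) * (b (D'.leaf (e w)) (iv k) - b (D'.leaf (e w)) 1)) := by
    rw [e3, e4]
  linear_combination (1 / 24 : ℝ) * (e2 - e1) - (36 / 24 : ℝ) * e5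


end Pool.Agent.GT
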