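import Pool.Agent.H46.GT.B5
import Pool.Agent.H46.GT.C3
import Pool.Agent.H46.GT.C4
import Pool.Agent.H46.GT.C5
import Pool.Agent.H46.GT.C6
import Pool.Agent.H46.GT.C7

/-!
The bijection of the nodes with a leaf weight `≥ 4`: `matching` for `G = (ZMod M)ˣ`,
`ρ_v(g) = s₀ (L⁻¹)_vv rho (leaf v) (iv g)`, the constant `c` is the difference of the contributions of the other
nodes (`rho_zero_leaf`, `rho_small`), which do not depend on `g`. Positivity: `inv_diag`, `rho_pos`; peaks: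
`peak_one`, `peak_two`; independence: `indep`, `div_mem_subA`; invariance: `rho_eqv`.
-/

set_option autoImplicit false

open PowerSeries Finset MeasureTheory

namespace Pool.Agent.GT

open Pool.Agent.OHG Pool.Agent.GPC Pool.Agent.SLR

private theorem copL_iv {M : ℕ} [NeZero M] (h12 : 12 ∣ M) {l : Finset ℕ}
    (hM : ∀ p ∈ l, 2 * p ∣ M) (g : (ZMod M)ˣ) : CopL l (iv g) := by
  have h1 := iv_coprime g
  refine ⟨?_, fun p hp => ?_⟩
  · have h2 : (2 : ℤ) ∣ (M : ℤ) := by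
      exact_mod_cast dvd_trans (by norm_num : 2 ∣ 12) h12
    have h3 : IsCoprime (iv g) (2 : ℤ) := h1.of_isCoprime_of_dvd_right h2
    rcases Int.even_or_odd (iv g) with h4 | h4
    · exfalso
      have h5 : (2 : ℤ) ∣ iv g := h4.two_dvd
      have h6 : IsUnit (2 : ℤ) := h3.isUnit_of_dvd' h5 dvd_rfl
      rw [Int.isUnit_iff] at h6
      omega
    · exact h4
  · have h2 : (p : ℤ) ∣ (M : ℤ) := by
      exact_mod_cast dvd_trans (Dvd.intro_left 2 rfl) (hM p hp)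
    exact h1.of_isCoprime_of_dvd_right h2

private theorem cop3_iv {M : ℕ} [NeZero M] (h12 : 12 ∣ M) (g : (ZMod M)ˣ) :
    IsCoprime (iv g) 3 := by
  have h2 : (3 : ℤ) ∣ (M : ℤ) := by
    exact_mod_cast dvd_trans (by norm_num : 3 ∣ 12) h12
  exact (iv_coprime g).of_isCoprime_of_dvd_right h2

private theorem peak_big {M : ℕ} [NeZero M] {l : Finset ℕ} (hl : Nd l) (hb : Big l)
    (hM : 2 * ∏ p ∈ l, p ∣ M) :
    ∃ g₀ : (ZMod M)ˣ, ∀ g : (ZMod M)ˣ, g * g₀⁻¹ ∉ subA M l →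
      2 * rho l (iv g) < rho l (iv g₀) := by
  obtain ⟨q, hq, hq4⟩ := hb
  have h1 : 1 ≤ l.card := Finset.card_pos.2 ⟨q, hq⟩
  have h2 := hl.card
  rcases (by omega : l.card = 1 ∨ l.card = 2) with h3 | h3
  · obtain ⟨p, rfl⟩ := Finset.card_eq_one.1 h3
    rw [Finset.mem_singleton] at hq
    subst hq
    rw [Finset.prod_singleton] at hM
    exact peak_one hq4 hM
  · obtain ⟨a, c, hac, rfl⟩ := Finset.card_eq_two.1 h3
    rw [Finset.mem_insert, Finset.mem_singleton] at hq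
    have ha : a ∈ ({a, c} : Finset ℕ) := Finset.mem_insert_self _ _
    have hc : c ∈ ({a, c} : Finset ℕ) := Finset.mem_insert_of_mem (Finset.mem_singleton_self _)
    rw [Finset.prod_pair hac] at hM
    rcases hq with rfl | rfl
    · have h4 := peak_two (M := M) (hl.two_le c hc) hq4 (hl.cop c hc q ha (Ne.symm hac))
        (by rw [mul_assoc, mul_comm c q]; exact hM)
      rwa [Finset.pair_comm c q] at h4
    · exact peak_two (hl.two_le a ha) hq4 (hl.cop a ha q hc hac)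
        (by rw [mul_assoc]; exact hM)

private theorem dvd_of_prod {M : ℕ} {l : Finset ℕ} (hM : 2 * ∏ p ∈ l, p ∣ M) :
    ∀ p ∈ l, 2 * p ∣ M :=
  fun _ hp => dvd_trans (Nat.mul_dvd_mul_left 2 (Finset.dvd_prod_of_mem _ hp)) hM

theorem exists_equiv {n : ℕ} (hn : 1 ≤ n) {D D' : Data (Fin (n + 1))} (h : D.IsGraph)
    (h' : D'.IsGraph) (ht : Tri D) (ht' : Tri D') (hs : Sparse D) (hs' : Sparse D') {s₀ : ℤ}
    (hs₀ : s₀ = 1 ∨ s₀ = -1) (hd : Definite s₀ ⟨n, D, h⟩) (hd' : Definite s₀ ⟨n, D', h'⟩)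
    {M : ℕ} [NeZero M] (h12 : 12 ∣ M) (hM : ∀ v, 2 * ∏ p ∈ D.leaf v, p ∣ M)
    (hM' : ∀ v, 2 * ∏ p ∈ D'.leaf v, p ∣ M)
    (hR : ∀ g : (ZMod M)ˣ, ∑ v, (lkm D)⁻¹ v v * rho (D.leaf v) (iv g) =
      ∑ v, (lkm D')⁻¹ v v * rho (D'.leaf v) (iv g)) :
    ∃ e : {v // Big (D.leaf v)} ≃ {v // Big (D'.leaf v)},
      ∀ v, subA M (D'.leaf (e v)) = subA M (D.leaf v) := by
  classical
  have hV : 2 ≤ Fintype.card (Fin (n + 1)) := by
    rw [Fintype.card_fin]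
    omega
  have hnd : ∀ v, Nd (D.leaf v) := nd_leaf h ht hV
  have hnd' : ∀ v, Nd (D'.leaf v) := nd_leaf h' ht' hV
  have hm : ∀ v, ∀ p ∈ D.leaf v, 2 * p ∣ M := fun v => dvd_of_prod (hM v)
  have hm' : ∀ v, ∀ p ∈ D'.leaf v, 2 * p ∣ M := fun v => dvd_of_prod (hM' v)
  have key : ∀ (l : Fin (n + 1) → Finset ℕ) (_ : ∀ v, Nd (l v))
      (_ : ∀ v w, v ≠ w → ∀ p ∈ l v, ∀ q ∈ l w, Nat.gcd p q ≤ 3)
      (_ : ∀ v, ∀ p ∈ l v, 2 * p ∣ M) (v : {v // Big (l v)}) (g : (ZMod M)ˣ),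
      ∃ g' : (ZMod M)ˣ, g' * g⁻¹ ∈ subA M (l v) ∧
        ∀ w : {v // Big (l v)}, w ≠ v → g' ∈ subA M (l w) := by
    intro l h1 h2 h3 v g
    obtain ⟨g', h4, h5⟩ := indep h1 h2 h3 v g
    refine ⟨g', (div_mem_subA (h3 v) g g').2 h4, fun w hw => ?_⟩
    exact fun p hp _ => h5 w (fun h6 => hw (Subtype.ext h6)) p hp
  have hinv : ∀ (l : Finset ℕ) (_ : ∀ p ∈ l, 2 * p ∣ M) (g a : (ZMod M)ˣ), a ∈ subA M l →
      rho l (iv (g * a)) = rho l (iv g) := by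
    intro l h1 g a ha
    refine rho_eqv ((div_mem_subA h1 g (g * a)).1 ?_)
    rwa [mul_comm g a, mul_inv_cancel_right]
  let ρ : {v // Big (D.leaf v)} → (ZMod M)ˣ → ℝ := fun v g =>
    (s₀ : ℝ) * (lkm D)⁻¹ v v * rho (D.leaf v) (iv g)
  let ρ' : {v // Big (D'.leaf v)} → (ZMod M)ˣ → ℝ := fun v g =>
    (s₀ : ℝ) * (lkm D')⁻¹ v v * rho (D'.leaf v) (iv g)
  have hsum : ∀ (E : Data (Fin (n + 1))) (_ : ∀ v, Nd (E.leaf v))
      (_ : ∀ v, ∀ p ∈ E.leaf v, 2 * p ∣ M) (g : (ZMod M)ˣ),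
      (s₀ : ℝ) * ∑ v, (lkm E)⁻¹ v v * rho (E.leaf v) (iv g) =
        ∑ v : {v // Big (E.leaf v)}, (s₀ : ℝ) * (lkm E)⁻¹ v v * rho (E.leaf v) (iv g) +
        ∑ v : {v // ¬ Big (E.leaf v)}, (s₀ : ℝ) * (lkm E)⁻¹ v v * rho (E.leaf v) 1 := by
    intro E h1 h2 g
    rw [Finset.mul_sum, ← Fintype.sum_subtype_add_sum_subtype (fun v => Big (E.leaf v))]
    congr 1
    · exact Finset.sum_congr rfl fun v _ => by ring
    · refine Finset.sum_congr rfl fun v _ => ?_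
      rw [rho_small (h1 v) v.2 (copL_iv h12 (h2 v) g) (cop3_iv h12 g)]
      ring
  refine matching (A := fun v : {v // Big (D.leaf v)} => subA M (D.leaf v))
    (A' := fun v : {v // Big (D'.leaf v)} => subA M (D'.leaf v)) (ρ := ρ) (ρ' := ρ')
    (c := ∑ v : {v // ¬ Big (D'.leaf v)}, (s₀ : ℝ) * (lkm D')⁻¹ v v * rho (D'.leaf v) 1 -
      ∑ v : {v // ¬ Big (D.leaf v)}, (s₀ : ℝ) * (lkm D)⁻¹ v v * rho (D.leaf v) 1)
    (key _ hnd hs hm) (key _ hnd' hs' hm') (fun v => subA_ne_top (hnd v) (hm v) v.2)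
    (fun v => subA_ne_top (hnd' v) (hm' v) v.2) ?_ ?_ ?_ ?_ ?_ ?_ ?_
  · intro v g a ha
    show (s₀ : ℝ) * (lkm D)⁻¹ v v * rho (D.leaf v) (iv (g * a)) =
      (s₀ : ℝ) * (lkm D)⁻¹ v v * rho (D.leaf v) (iv g)
    rw [hinv _ (hm v) g a ha]
  · intro v g a ha
    show (s₀ : ℝ) * (lkm D')⁻¹ v v * rho (D'.leaf v) (iv (g * a)) =
      (s₀ : ℝ) * (lkm D')⁻¹ v v * rho (D'.leaf v) (iv g)
    rw [hinv _ (hm' v) g a ha]
  · intro v g
    exact mul_pos (inv_diag h hs₀ hd v) (rho_pos (hnd v) (copL_iv h12 (hm v) g))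
  · intro v g
    exact mul_pos (inv_diag h' hs₀ hd' v) (rho_pos (hnd' v) (copL_iv h12 (hm' v) g))
  · intro v
    obtain ⟨g₀, hg₀⟩ := peak_big (hnd v) v.2 (hM v)
    refine ⟨g₀, fun g hg => ?_⟩
    have h1 := mul_lt_mul_of_pos_left (hg₀ g hg) (inv_diag h hs₀ hd v)
    show 2 * ((s₀ : ℝ) * (lkm D)⁻¹ v v * rho (D.leaf v) (iv g)) <
      (s₀ : ℝ) * (lkm D)⁻¹ v v * rho (D.leaf v) (iv g₀)
    linarith
  · intro v
    obtain ⟨g₀, hg₀⟩ := peak_big (hnd' v) v.2 (hM' v)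
    refine ⟨g₀, fun g hg => ?_⟩
    have h1 := mul_lt_mul_of_pos_left (hg₀ g hg) (inv_diag h' hs₀ hd' v)
    show 2 * ((s₀ : ℝ) * (lkm D')⁻¹ v v * rho (D'.leaf v) (iv g)) <
      (s₀ : ℝ) * (lkm D')⁻¹ v v * rho (D'.leaf v) (iv g₀)
    linarith
  · intro g
    have h1 := hsum D hnd hm g
    have h2 := hsum D' hnd' hm' g
    rw [hR g, h2] at h1
    show ∑ v : {v // Big (D.leaf v)}, (s₀ : ℝ) * (lkm D)⁻¹ v v * rho (D.leaf v) (iv g) = _ +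
      ∑ v : {v // Big (D'.leaf v)}, (s₀ : ℝ) * (lkm D')⁻¹ v v * rho (D'.leaf v) (iv g)
    linarith

end Pool.Agent.GT
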