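import Pool.Agent.SLR.Defs
import Pool.Agent.H46.GT.Basic

/-!
# Galois twisting of the Ohtsuki series: analytic definitions
-/

set_option autoImplicit false

open PowerSeries Finset MeasureTheory

namespace Pool.Agent.GT

open Pool.Agent.OHG Pool.Agent.GPC Pool.Agent.SLR

/-- The twisted integrand at a node of valence three, as a function of `z = x ^ 2`. -/
noncomputable def tPhi (l : Finset ℕ) (s : ℤ) (z : ℂ) : ℂ :=
  (∏ p ∈ l, Sa (tw l s p / 2) z) * (Sa (1 / 2) z)⁻¹

/-- The Taylor series of `tPhi`. -/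
noncomputable def tphi (l : Finset ℕ) (s : ℤ) : ℝ⟦X⟧ :=
  (∏ p ∈ l, sa (tw l s p / 2)) * (sa (1 / 2))⁻¹

/-- The radial moments `∫ r ^ (2 k + 2) Φ(r ^ 2) dr` of a function `Φ`. -/
noncomputable def rad (Φ : ℂ → ℂ) (k : ℕ) : ℝ :=
  ∫ r in Set.Ioi (0 : ℝ), r ^ (2 * k + 2) * (Φ ((r ^ 2 : ℝ) : ℂ)).re

/-- The second moment `E |X| ^ 2` of the density `tPhi (|X| ^ 2)` on `ℝ³`. -/
noncomputable def rho (l : Finset ℕ) (s : ℤ) : ℝ := rad (tPhi l s) 1 / rad (tPhi l s) 0

variable {V : Type} [Fintype V] [DecidableEq V]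

/-- The formal Gaussian integral `E ∏ φ_v(ħ |X_v| ^ 2)`. -/
noncomputable def gpart (D : Data V) (φ : V → ℝ⟦X⟧) : ℝ⟦X⟧ :=
  PowerSeries.mk fun n => ∑ j ∈ (univ : Finset V).piAntidiag n,
    (∏ v, coeff (j v) (φ v)) * moment D j

/-- The twisted formal Gaussian integral. -/
noncomputable def tpart (D : Data V) (s : ℤ) : ℝ⟦X⟧ := gpart D fun v => tphi (D.leaf v) s

/-- The density `∏ Φ_v(|X_v| ^ 2)`. -/
noncomputable def den (Φ : V → ℂ → ℂ) (X : V × Fin 3 → ℝ) : ℝ :=
  ∏ v, (Φ v ((∑ i, X (v, i) ^ 2 : ℝ) : ℂ)).re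

/-- The law of the quadratic form of `L⁻¹` for the density `den Φ`. -/
noncomputable def law (D : Data V) (Φ : V → ℂ → ℂ) : Measure ℝ :=
  ((volume : Measure (V × Fin 3 → ℝ)).withDensity fun X => ENNReal.ofReal (den Φ X)).map
    (qf (lkm D)⁻¹)

/-- The law for the twisted integrands. -/
noncomputable def tlaw (D : Data V) (s : ℤ) : Measure ℝ := law D fun v => tPhi (D.leaf v) s

/-- All leaf weights are prime to `s`, and `s` is odd. -/
def Cop (D : Data V) (s : ℤ) : Prop := ∀ v, CopL (D.leaf v) s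

/-- All nodes have valence three. -/
def Tri (D : Data V) : Prop := ∀ v, D.val v = 3

/-- The weights of leaves at different nodes have a greatest common divisor at most `3`. -/
def Sparse (D : Data V) : Prop :=
  ∀ v w, v ≠ w → ∀ p ∈ D.leaf v, ∀ q ∈ D.leaf w, Nat.gcd p q ≤ 3

/-- Every node which has a leaf has a leaf of weight at least `4`. -/
def Large (D : Data V) : Prop := ∀ v, (D.leaf v).Nonempty → Big (D.leaf v)

end Pool.Agent.GT
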