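import Pool.Agent.OHT.A1
import Pool.Agent.OHT.A2
import Pool.Agent.OHT.A3

/-!
The additive metric of a splice diagram, `log (l_vv l_ww / l_vw²)`. `dl_add` from `lk_markov`; for an edge
`l_vv l_ww / l_vw² = wt v w · wt w v / l_vw > 1` by `lk_adj` and `edge_det`; `dl_pos` by `dl_add` along the path
(induction on the graph distance).
-/

set_option autoImplicit false

open Finset

namespace Pool.Agent.GT

open Pool.Agent.OHT

variable {V : Type} [Fintype V] [DecidableEq V]

/-- `log (l_vv l_ww / l_vw²)`. -/
noncomputable def dl (D : Data V) (v w : V) : ℝ :=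
  Real.log ((D.lk v v : ℝ) * D.lk w w / (D.lk v w : ℝ) ^ 2)

private theorem e1_pos {D : Data V} (h : D.IsSplice) (v w : V) : (0 : ℝ) < D.lk v w :=
  Nat.cast_pos.2 (lk_pos h v w)

theorem dl_self {D : Data V} (h : D.IsSplice) (v : V) : dl D v v = 0 := by
  have h1 := e1_pos h v v
  unfold dl
  rw [sq, div_self (by positivity), Real.log_one]

theorem dl_comm {D : Data V} (h : D.IsSplice) (v w : V) : dl D v w = dl D w v := by
  unfold dl
  rw [lk_comm h v w, mul_comm]

theorem dl_add {D : Data V} (h : D.IsSplice) {v w u : V} (hu : D.On v w u) :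
    dl D v w = dl D v u + dl D u w := by
  have h1 : (D.lk v w : ℝ) * D.lk u u = D.lk v u * D.lk u w := by
    exact_mod_cast lk_markov h hu
  have p1 := e1_pos h v v
  have p2 := e1_pos h w w
  have p3 := e1_pos h u u
  have p4 := e1_pos h v w
  have p5 := e1_pos h v u
  have p6 := e1_pos h u w
  unfold dl
  rw [← Real.log_mul (by positivity) (by positivity)]
  congr 1
  have h2 : (D.lk v w : ℝ) = D.lk v u * D.lk u w / D.lk u u := by
    field_simp
    linarith
  rw [h2]
  field_simp

/-- The neighbours in the graph. -/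
theorem adj_iff {D : Data V} (h : D.IsSplice) (v w : V) : D.graph.Adj v w ↔ w ∈ D.nbr v := by
  rw [Data.graph, SimpleGraph.fromRel_adj]
  simp only [Data.nbr, mem_filter, mem_univ, true_and]
  constructor
  · rintro ⟨_, h1 | h1⟩
    · exact h1
    · exact h.symm _ _ h1
  · intro h1
    refine ⟨?_, Or.inl h1⟩
    rintro rfl
    exact h1 (h.irrefl v)

private theorem e1_adj {D : Data V} (h : D.IsSplice) {v w : V} (hw : D.graph.Adj v w) :
    0 < dl D v w := by
  rw [adj_iff h] at hw
  have h1 : (D.lk v v : ℝ) * D.lk w w = D.lk v w * (D.wt v w * D.wt w v) := by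
    exact_mod_cast lk_adj h hw
  have h2 : (D.lk v w : ℝ) < D.wt v w * D.wt w v := by
    exact_mod_cast h.edge_det v w hw
  have p4 := e1_pos h v w
  unfold dl
  apply Real.log_pos
  rw [h1, lt_div_iff₀ (by positivity), one_mul, sq]
  exact mul_lt_mul_of_pos_left h2 p4

private theorem e1_toward {G : SimpleGraph V} (hc : G.Connected) {x t : V} (h : x ≠ t) :
    ∃ n, G.Adj x n ∧ G.dist x t = G.dist n t + 1 := by
  obtain ⟨p, hp⟩ := hc.exists_walk_length_eq_dist x t
  cases p with
  | nil => exact absurd rfl h
  | @cons _ n _ hx q =>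
    refine ⟨n, hx, ?_⟩
    have h1 := SimpleGraph.dist_le q
    rw [SimpleGraph.Walk.length_cons] at hp
    have h2 := hc.dist_triangle (u := x) (v := n) (w := t)
    have h3 : G.dist x n = 1 := SimpleGraph.dist_eq_one_iff_adj.mpr hx
    omega

theorem dl_pos {D : Data V} (h : D.IsSplice) {v w : V} (hvw : v ≠ w) : 0 < dl D v w := by
  obtain ⟨k, hk⟩ : ∃ k, D.graph.dist v w = k := ⟨_, rfl⟩
  induction k using Nat.strong_induction_on generalizing v with
  | _ k ih =>
    obtain ⟨n, hn, hd⟩ := e1_toward h.tree.connected hvw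
    have h1 : D.graph.dist v n = 1 := SimpleGraph.dist_eq_one_iff_adj.mpr hn
    have hon : D.On v w n := by
      unfold Data.On
      omega
    rw [dl_add h hon]
    have h2 := e1_adj h hn
    by_cases hnw : n = w
    · subst hnw
      rw [dl_self h, add_zero]
      exact h2
    · have h3 := ih (D.graph.dist n w) (by omega) hnw rfl
      linarith

end Pool.Agent.GT
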