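import Mathlib

/-!
Betweenness in a finite tree. (`Pool.Agent.OHT.A4.a4_cross`, `Pool.Agent.GPC.K6c` have similar facts.)
`on_extend`: take `t` with `On G w t v` and `dist w t` maximal; a neighbour of `t` which is not on the path to `w`
would be further away.
`on_or`: `m` lies on the path from `x` to `y`; the path from `t` to the path `[x, y]` enters it on one side of `m`.
`on_median`: the last common vertex of the paths from `x` to `y` and from `x` to `z`.
`on_branch`: the paths from `u` to `t₁`, `t₂` start with different edges, so their union is the path.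
-/

set_option autoImplicit false

namespace Pool.Agent.GT

/-- `u` lies on the path from `v` to `w`. -/
def On {V : Type} (G : SimpleGraph V) (v w u : V) : Prop := G.dist v u + G.dist u w = G.dist v w

variable {V : Type} [Fintype V] [DecidableEq V] {G : SimpleGraph V}

omit [Fintype V] in
/-- the vertices of a shortest walk from `r` to `y` -/
private theorem e2_geo (hG : G.Connected) {r y : V} (p : G.Walk r y)
    (hp : p.length = G.dist r y) {v : V} (hv : v ∈ p.support) :
    G.dist r v + G.dist v y = G.dist r y := by
  have h1 := SimpleGraph.dist_le (p.takeUntil v hv)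
  have h2 := SimpleGraph.dist_le (p.dropUntil v hv)
  have h3 : (p.takeUntil v hv).length + (p.dropUntil v hv).length = p.length := by
    rw [← SimpleGraph.Walk.length_append, SimpleGraph.Walk.take_spec]
  have h4 := hG.dist_triangle (u := r) (v := v) (w := y)
  omega

omit [Fintype V] in
/-- the distance over an edge of a tree -/
private theorem e2_cross (hG : G.IsTree) {r w x y : V} (hadj : G.Adj y x)
    (hr : G.dist r x = G.dist r y + 1) (hw : G.dist w y = G.dist w x + 1) :
    G.dist r w = G.dist r y + 1 + G.dist x w := by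
  have hc := hG.connected
  obtain ⟨p, hp, hpl⟩ := hc.exists_path_of_dist r y
  obtain ⟨q, hq, hql⟩ := hc.exists_path_of_dist x w
  obtain ⟨s, hs, hsl⟩ := hc.exists_path_of_dist r w
  have hdis : ∀ v, v ∈ p.support → v ∈ q.support → False := by
    intro v hv hv'
    have h1 := e2_geo hc p hpl hv
    have h2 := e2_geo hc q hql hv'
    have h3 := hc.dist_triangle (u := r) (v := v) (w := x)
    have h4 := hc.dist_triangle (u := y) (v := v) (w := w)
    have e1 := G.dist_comm (u := w) (v := y)
    have e2 := G.dist_comm (u := w) (v := x)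
    have e3 := G.dist_comm (u := y) (v := v)
    have e4 := G.dist_comm (u := x) (v := v)
    omega
  have hpath : (p.append (SimpleGraph.Walk.cons hadj q)).IsPath := by
    rw [SimpleGraph.Walk.isPath_def, SimpleGraph.Walk.support_append,
      SimpleGraph.Walk.support_cons, List.tail_cons, List.nodup_append]
    refine ⟨hp.support_nodup, hq.support_nodup, fun a ha b hb hab => ?_⟩
    subst hab
    exact hdis a ha hb
  have huniq := (hG.isAcyclic.subsingleton_path r w).elim ⟨s, hs⟩ ⟨_, hpath⟩
  have hlen : s.length = (p.append (SimpleGraph.Walk.cons hadj q)).length := by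
    have := congrArg (fun t : G.Path r w => (t : G.Walk r w).length) huniq
    exact this
  rw [SimpleGraph.Walk.length_append, SimpleGraph.Walk.length_cons] at hlen
  omega

omit [Fintype V] [DecidableEq V] in
/-- the neighbour towards a vertex -/
private theorem e2_toward (hc : G.Connected) {x t : V} (h : x ≠ t) :
    ∃ n, G.Adj x n ∧ G.dist x t = G.dist n t + 1 := by
  obtain ⟨p, hp⟩ := hc.exists_walk_length_eq_dist x t
  cases p with
  | nil => exact absurd rfl h
  | @cons _ n _ hx q =>
    refine ⟨n, hx, ?_⟩
    have h1 := SimpleGraph.dist_le q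
    rw [SimpleGraph.Walk.length_cons] at hp
    have h2 := hc.dist_triangle (u := x) (v := n) (w := t)
    have h3 : G.dist x n = 1 := SimpleGraph.dist_eq_one_iff_adj.mpr hx
    omega

omit [Fintype V] in
/-- it is unique -/
private theorem e2_uniq (hG : G.IsTree) {w t x x' : V} (hx : G.Adj t x) (hx' : G.Adj t x')
    (h : G.dist w t = G.dist w x + 1) (h' : G.dist w t = G.dist w x' + 1) : x = x' := by
  by_contra hne
  have hc := hG.connected
  have h1 : G.dist x t = 1 := SimpleGraph.dist_eq_one_iff_adj.mpr hx.symm
  have h3 : 0 < G.dist x x' := hc.pos_dist_of_ne hne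
  have h2 : G.dist x x' = G.dist x t + 1 := by
    rcases hG.dist_eq_dist_add_one_of_adj x hx' with h4 | h4 <;> omega
  have h5 := e2_cross hG hx'.symm h' h2
  have h6 := G.dist_comm (u := t) (v := x)
  omega

theorem on_extend (hG : G.IsTree) (w v : V) : ∃ t, On G w t v ∧ (G.neighborSet t).ncard ≤ 1 := by
  classical
  have hc := hG.connected
  obtain ⟨t, ht, hmax⟩ := Finset.exists_max_image (Finset.univ.filter fun t => On G w t v)
    (fun t => G.dist w t) ⟨v, by rw [Finset.mem_filter]; exact ⟨Finset.mem_univ _, by simp [On]⟩⟩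
  rw [Finset.mem_filter] at ht
  have ht2 := ht.2
  refine ⟨t, ht2, ?_⟩
  rw [Set.ncard_le_one (Set.toFinite _)]
  have key : ∀ x, G.Adj t x → G.dist w t = G.dist w x + 1 := by
    intro x hx
    rcases hG.dist_eq_dist_add_one_of_adj w hx with h4 | h4
    · exact h4
    · exfalso
      have h5 := hmax x (by
        rw [Finset.mem_filter]
        refine ⟨Finset.mem_univ _, ?_⟩
        unfold On at ht2 ⊢
        have h1 : G.dist t x = 1 := SimpleGraph.dist_eq_one_iff_adj.mpr hx
        have h6 := hc.dist_triangle (u := w) (v := v) (w := x)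
        have h7 := hc.dist_triangle (u := v) (v := t) (w := x)
        omega)
      omega
  intro a ha b hb
  exact e2_uniq hG ha hb (key a ha) (key b hb)

theorem on_or (hG : G.IsTree) {x y m : V} (h : On G x y m) (t : V) : On G t x m ∨ On G t y m := by
  have hc := hG.connected
  unfold On at *
  by_cases htm : t = m
  · subst htm
    left
    rw [G.dist_self, zero_add]
  · obtain ⟨n, hn, hd⟩ := e2_toward hc (Ne.symm htm)
    have c1 := G.dist_comm (u := m) (v := t)
    have c2 := G.dist_comm (u := n) (v := t)
    have ht : G.dist t m = G.dist t n + 1 := by omega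
    rcases hG.dist_eq_dist_add_one_of_adj x hn with h4 | h4
    · rcases hG.dist_eq_dist_add_one_of_adj y hn with h5 | h5
      · exfalso
        have h6 := hc.dist_triangle (u := x) (v := n) (w := y)
        have c3 := G.dist_comm (u := n) (v := y)
        have c4 := G.dist_comm (u := m) (v := y)
        omega
      · right
        have h6 := e2_cross hG hn.symm ht h5
        omega
    · left
      have h6 := e2_cross hG hn.symm ht h4
      omega

omit [Fintype V] in
private theorem e2_med (hG : G.IsTree) {x y z m : V} (h : On G x y m)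
    (hmin : ∀ n, On G x y n → G.dist z m ≤ G.dist z n) : On G z y m := by
  have hc := hG.connected
  unfold On at *
  by_cases hmy : m = y
  · subst hmy
    rw [G.dist_self, add_zero]
  · obtain ⟨n, hn, hd⟩ := e2_toward hc hmy
    have h1 : G.dist m n = 1 := SimpleGraph.dist_eq_one_iff_adj.mpr hn
    have h2 := hc.dist_triangle (u := x) (v := m) (w := n)
    have h3 := hc.dist_triangle (u := x) (v := n) (w := y)
    have h5 := hmin n (by omega)
    have h6 : G.dist z n = G.dist z m + 1 := by
      rcases hG.dist_eq_dist_add_one_of_adj z hn with h4 | h4 <;> omega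
    have c1 := G.dist_comm (u := m) (v := y)
    have c2 := G.dist_comm (u := n) (v := y)
    have h7 := e2_cross hG hn h6 (w := y) (by omega)
    omega

omit [Fintype V] [DecidableEq V] in
private theorem e2_comm {x y m : V} : On G x y m ↔ On G y x m := by
  unfold On
  rw [G.dist_comm (u := x) (v := m), G.dist_comm (u := m) (v := y), G.dist_comm (u := x) (v := y),
    add_comm]

theorem on_median (hG : G.IsTree) (x y z : V) : ∃ m, On G x y m ∧ On G y z m ∧ On G x z m := by
  classical
  obtain ⟨m, hm, hmin⟩ := Finset.exists_min_image (Finset.univ.filter fun m => On G x y m)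
    (fun m => G.dist z m) ⟨x, by rw [Finset.mem_filter]; exact ⟨Finset.mem_univ _, by simp [On]⟩⟩
  rw [Finset.mem_filter] at hm
  refine ⟨m, hm.2, ?_, ?_⟩
  · rw [e2_comm]
    exact e2_med hG hm.2 fun n hn => hmin n (by simpa using hn)
  · rw [e2_comm]
    refine e2_med hG (e2_comm.1 hm.2) fun n hn => hmin n ?_
    rw [Finset.mem_filter]
    exact ⟨Finset.mem_univ _, e2_comm.1 hn⟩

theorem on_branch (hG : G.IsTree) {u a₁ a₂ t₁ t₂ : V} (h₁ : G.Adj u a₁) (h₂ : G.Adj u a₂)
    (ha : a₁ ≠ a₂) (h₁' : On G u t₁ a₁) (h₂' : On G u t₂ a₂) : On G t₁ t₂ u := by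
  have hc := hG.connected
  unfold On at *
  have d1 : G.dist u a₁ = 1 := SimpleGraph.dist_eq_one_iff_adj.mpr h₁
  have d2 : G.dist u a₂ = 1 := SimpleGraph.dist_eq_one_iff_adj.mpr h₂
  have c1 := G.dist_comm (u := a₁) (v := t₁)
  have c2 := G.dist_comm (u := u) (v := t₁)
  have c3 := G.dist_comm (u := a₂) (v := t₂)
  have c4 := G.dist_comm (u := u) (v := t₂)
  have h3 : G.dist t₂ a₁ = G.dist t₂ u + 1 := by
    rcases hG.dist_eq_dist_add_one_of_adj t₂ h₁ with h4 | h4
    · exact absurd (e2_uniq hG h₁ h₂ h4 (by omega)) ha
    · exact h4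
  have h5 := e2_cross hG h₁.symm (r := t₁) (by omega) h3
  omega

/-- A leaf of the tree: everything else is beyond its neighbour. -/
theorem on_leaf (hG : G.IsTree) {x y t : V} (h : (G.neighborSet x).ncard ≤ 1) (hxy : G.Adj x y)
    (ht : t ≠ x) : On G x t y := by
  have hc := hG.connected
  obtain ⟨n, hn, hd⟩ := e2_toward hc (Ne.symm ht)
  rw [Set.ncard_le_one (Set.toFinite _)] at h
  have h1 : n = y := h n hn y hxy
  subst h1
  have h2 : G.dist x n = 1 := SimpleGraph.dist_eq_one_iff_adj.mpr hn
  unfold On
  omega

end Pool.Agent.GT
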