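import Pool.Agent.H46.GT.E3a

/-!
Reconstruction of a tree with an additive positive metric from the distances of the points of `T`, where `T`
contains all nodes of degree `≤ 2`. (`D` below is `G`, `D'` is `G'`.)
(1) `on_iff`. (2) Every `u : V` is on the three paths between some `x, y, z ∈ T` (`exists_triple`).
(3) `med_formula`.
(4) For `u : V` let `u'` be the median (`on_median`) of `e x, e y, e z`; by (3) in both trees
`δ' (u', e t) = δ (u, t)` for all `t ∈ T`. Choose such a `u' = f u` for every `u`.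
(5) `T` separates (`separates`): for `u ≠ w` there is `t ∈ T` with `δ w t = δ w u + δ u t`. So `f` is
injective, hence bijective (`hcard`). `f u = e u` for `u ∈ T` (`δ' (f u, e u) = 0`).
(6) The nodes of degree `≤ 1` of `G'` are in `T'`: let `x' = f u` be one which is not, `y' = f w` its neighbour
(if `G'` has one node then `V` has one node `u`, `u ∈ T`);
for all `t ∈ T`: `δ (u, t) = δ' (x', e t) = δ' (x', y') + δ' (y', e t) = c + δ (w, t)`, `c > 0`; with the `t` of (5) for
`(u, w)`: `δ (w, t) > δ (u, t)`: contradiction. So `T'` separates in `G'` too, and in both trees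
`δ (u, w) = max_t |δ (u, t) - δ (w, t)|`; so `δ' (f u, f w) = δ (u, w)`.
(7) Adjacency: `u ≠ w` and no third point between, by (1).
-/

set_option autoImplicit false

namespace Pool.Agent.GT

private theorem e3_map {V V' : Type} [Fintype V] [DecidableEq V] [Fintype V'] [DecidableEq V']
    {G : SimpleGraph V} {G' : SimpleGraph V'} (hG : G.IsTree) (hG' : G'.IsTree)
    {δ : V → V → ℝ} {δ' : V' → V' → ℝ}
    (h : Met G δ) (h' : Met G' δ') {T : V → Prop} {T' : V' → Prop}
    (hT : ∀ v, ¬ T v → 3 ≤ (G.neighborSet v).ncard) (e : {v // T v} ≃ {v // T' v})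
    (he : ∀ v w, δ' (e v) (e w) = δ v w) (u : V) :
    ∃ u' : V', ∀ t : {v // T v}, δ' (e t) u' = δ t u := by
  obtain ⟨x, y, z, hx, hy, hz, hxy, hyz, hxz⟩ := exists_triple hG hT u
  obtain ⟨m, h1, h2, h3⟩ := on_median hG' (e ⟨x, hx⟩ : V') (e ⟨y, hy⟩) (e ⟨z, hz⟩)
  refine ⟨m, fun t => ?_⟩
  rw [med_formula hG' h' h1 h2 h3 (e t), med_formula hG h hxy hyz hxz t]
  rw [he, he, he, he, he, he]

private theorem e3_deg {V V' : Type} [Fintype V] [DecidableEq V] [Fintype V'] [DecidableEq V']
    {G : SimpleGraph V} {G' : SimpleGraph V'} (hG : G.IsTree) (hG' : G'.IsTree)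
    {δ : V → V → ℝ} {δ' : V' → V' → ℝ}
    (h : Met G δ) (h' : Met G' δ') {T : V → Prop} {T' : V' → Prop}
    (hT : ∀ v, ¬ T v → 3 ≤ (G.neighborSet v).ncard) (e : {v // T v} ≃ {v // T' v})
    (f : V ≃ V') (hf : ∀ (u : V) (t : {v // T v}), δ' (e t) (f u) = δ t u)
    (hfe : ∀ t : {v // T v}, f t = e t)
    (x' : V') (hx' : (G'.neighborSet x').ncard ≤ 1) : T' x' := by
  by_contra hTx
  obtain ⟨u, hu⟩ := f.surjective x'
  rcases subsingleton_or_nontrivial V' with hs | hs
  · have hsV : Subsingleton V := f.subsingleton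
    by_cases hTu : T u
    · apply hTx
      rw [← hu, hfe ⟨u, hTu⟩]
      exact (e ⟨u, hTu⟩).2
    · have h3 := hT u hTu
      have h4 : G.neighborSet u = ∅ := by
        ext v
        simp only [SimpleGraph.mem_neighborSet, Set.mem_empty_iff_false, iff_false]
        intro hv
        exact hv.ne (Subsingleton.elim _ _)
      rw [h4, Set.ncard_empty] at h3
      omega
  · obtain ⟨y', hy'⟩ := hG'.1.preconnected.exists_adj_of_nontrivial x'
    obtain ⟨w, hw⟩ := f.surjective y'
    have huw : w ≠ u := by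
      intro hwu
      apply hy'.ne
      rw [← hu, ← hw, hwu]
    have key : ∀ t : {v // T v}, δ t u = δ' x' y' + δ t w := by
      intro t
      have hne : (e t : V') ≠ x' := by
        intro h0
        apply hTx
        rw [← h0]
        exact (e t).2
      have h5 := h'.add _ _ _ (on_leaf hG' hx' hy' hne)
      rw [← hf u t, ← hf w t, hu, hw, h'.comm (e t) x', h'.comm (e t) y']
      exact h5
    obtain ⟨t, ht, hon⟩ := separates hG (T := T) (fun v hv => le_trans (by norm_num) (hT v hv)) w u
    have h6 := h.add _ _ _ hon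
    have h7 := key ⟨t, ht⟩
    have h8 := h.pos w u huw
    have h9 := h'.pos x' y' hy'.ne
    have h10 := h.comm t u
    have h11 := h.comm t w
    simp only at h7
    linarith

theorem tree_iso {V V' : Type} [Fintype V] [DecidableEq V] [Fintype V'] [DecidableEq V']
    {G : SimpleGraph V} {G' : SimpleGraph V'} (hG : G.IsTree) (hG' : G'.IsTree)
    (hcard : Fintype.card V = Fintype.card V') {δ : V → V → ℝ} {δ' : V' → V' → ℝ}
    (h : Met G δ) (h' : Met G' δ') {T : V → Prop} {T' : V' → Prop}
    (hT : ∀ v, ¬ T v → 3 ≤ (G.neighborSet v).ncard) (e : {v // T v} ≃ {v // T' v})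
    (he : ∀ v w, δ' (e v) (e w) = δ v w) :
    ∃ f : V ≃ V', (∀ v w, G'.Adj (f v) (f w) ↔ G.Adj v w) ∧ ∀ v : {v // T v}, f v = e v := by
  choose f hf using e3_map hG hG' h h' hT e he
  have hT2 : ∀ v, ¬ T v → 2 ≤ (G.neighborSet v).ncard := fun v hv =>
    le_trans (by norm_num) (hT v hv)
  have hinj : Function.Injective f := by
    intro u w huw
    by_contra hne
    obtain ⟨t, ht, hon⟩ := separates hG hT2 w u
    have h1 := h.add _ _ _ hon
    have h2 := hf u ⟨t, ht⟩
    have h3 := hf w ⟨t, ht⟩
    rw [huw, h3] at h2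
    have h4 := h.pos w u (Ne.symm hne)
    have h5 := h.comm t u
    have h6 := h.comm t w
    simp only at h2
    linarith
  have hbij : Function.Bijective f := (Fintype.bijective_iff_injective_and_card f).mpr ⟨hinj, hcard⟩
  set F : V ≃ V' := Equiv.ofBijective f hbij with hF
  have hFf : ∀ u, F u = f u := fun u => rfl
  have hF' : ∀ (u : V) (t : {v // T v}), δ' (e t) (F u) = δ t u := hf
  have hFe : ∀ t : {v // T v}, F t = e t := by
    intro t
    by_contra hne
    have h1 := h'.pos _ _ (Ne.symm hne)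
    rw [hF', h.self] at h1
    exact lt_irrefl _ h1
  have hT' : ∀ v, ¬ T' v → 2 ≤ (G'.neighborSet v).ncard := by
    intro v hv
    by_contra hlt
    exact hv (e3_deg hG hG' h h' hT e F hF' hFe v (by omega))
  have hiso : ∀ u w, δ' (F w) (F u) = δ w u := by
    intro u w
    apply le_antisymm
    · obtain ⟨t', ht', hon⟩ := separates hG' hT' (F w) (F u)
      obtain ⟨t, ht⟩ := e.surjective ⟨t', ht'⟩
      have ht2 : (e t : V') = t' := by rw [ht]
      rw [← ht2] at hon
      have h1 := h'.add _ _ _ hon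
      rw [h'.comm (F w) (e t), h'.comm (F u) (e t), hF', hF'] at h1
      have h2 := met_tri hG h t w u
      have h3 := h.comm u w
      linarith
    · obtain ⟨t, ht, hon⟩ := separates hG hT2 w u
      have h1 := h.add _ _ _ hon
      have h2 := hF' w ⟨t, ht⟩
      have h3 := hF' u ⟨t, ht⟩
      have h4 := met_tri hG' h' (e ⟨t, ht⟩ : V') (F w) (F u)
      have h5 := h'.comm (F u) (F w)
      rw [h2, h3] at h4
      have h6 := h.comm t w
      have h7 := h.comm t u
      simp only at h4
      linarith
  refine ⟨F, fun v w => ?_, hFe⟩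
  have hon : ∀ u, On G' (F v) (F w) (F u) ↔ On G v w u := by
    intro u
    rw [on_iff hG' h', on_iff hG h, hiso, hiso, hiso]
  rw [adj_iff_on hG', adj_iff_on hG]
  constructor
  · rintro ⟨hne, hall⟩
    refine ⟨fun h0 => hne (by rw [h0]), fun u hu => ?_⟩
    rcases hall (F u) ((hon u).mpr hu) with h1 | h1
    · exact Or.inl (F.injective h1)
    · exact Or.inr (F.injective h1)
  · rintro ⟨hne, hall⟩
    refine ⟨fun h0 => hne (F.injective h0), fun u' hu' => ?_⟩
    obtain ⟨u, rfl⟩ := F.surjective u'
    rcases hall u ((hon u).mp hu') with h1 | h1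
    · exact Or.inl (by rw [h1])
    · exact Or.inr (by rw [h1])

end Pool.Agent.GT
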