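import Pool.Agent.H46.GT.E2

/-!
Facts on a tree with an additive positive metric `δ`.
`on_iff`: if `u` is not on the path let `m` be the median of `v, w, u` (`on_median`);
`δ v u + δ u w = δ v w + 2 δ m u`. `med_formula`: `≤` by the triangle inequality; by `on_or` (twice) `m` lies between
`t` and two of the three points `x, y, z`, and for these the number is `δ t m`.
`exists_triple`: `x = y = z = u` if `T u`; otherwise take three neighbours `a_i` of `u`, `on_extend` from `u` through
`a_i` gives `t_i` of degree `≤ 1`, so in `T`; `on_branch`.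
-/

set_option autoImplicit false

namespace Pool.Agent.GT

/-- An additive positive metric on a graph. -/
structure Met {V : Type} (G : SimpleGraph V) (δ : V → V → ℝ) : Prop where
  comm : ∀ v w, δ v w = δ w v
  self : ∀ v, δ v v = 0
  pos : ∀ v w, v ≠ w → 0 < δ v w
  add : ∀ v w u, On G v w u → δ v w = δ v u + δ u w

variable {V : Type} [Fintype V] [DecidableEq V] {G : SimpleGraph V} {δ : V → V → ℝ}

private theorem e3a_med (hG : G.IsTree) (h : Met G δ) (v w u : V) :
    ∃ m, On G v w m ∧ δ v u + δ u w = δ v w + 2 * δ m u := by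
  obtain ⟨m, h1, h2, h3⟩ := on_median hG v w u
  refine ⟨m, h1, ?_⟩
  have e1 := h.add _ _ _ h1
  have e2 := h.add _ _ _ h2
  have e3 := h.add _ _ _ h3
  have c1 := h.comm u w
  have c2 := h.comm w m
  linarith

theorem met_tri (hG : G.IsTree) (h : Met G δ) (v w u : V) : δ v w ≤ δ v u + δ u w := by
  obtain ⟨m, _, h2⟩ := e3a_med hG h v w u
  have h3 : 0 ≤ δ m u := by
    by_cases hm : m = u
    · rw [hm, h.self]
    · exact (h.pos m u hm).le
  linarith

theorem on_iff (hG : G.IsTree) (h : Met G δ) (v w u : V) : On G v w u ↔ δ v w = δ v u + δ u w := by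
  refine ⟨fun hu => h.add _ _ _ hu, fun hu => ?_⟩
  obtain ⟨m, h1, h2⟩ := e3a_med hG h v w u
  have h3 : δ m u = 0 := by linarith
  have h4 : m = u := by
    by_contra hm
    exact absurd h3 (h.pos m u hm).ne'
  exact h4 ▸ h1

theorem med_formula (hG : G.IsTree) (h : Met G δ) {x y z m : V} (hxy : On G x y m)
    (hyz : On G y z m) (hxz : On G x z m) (t : V) :
    δ t m = max (max ((δ t x + δ t y - δ x y) / 2) ((δ t y + δ t z - δ y z) / 2))
      ((δ t x + δ t z - δ x z) / 2) := by
  have e1 := h.add _ _ _ hxy
  have e2 := h.add _ _ _ hyz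
  have e3 := h.add _ _ _ hxz
  have cx := h.comm x m
  have cy := h.comm y m
  have cz := h.comm z m
  have tx := met_tri hG h t x m
  have ty := met_tri hG h t y m
  have tz := met_tri hG h t z m
  apply le_antisymm
  · rcases on_or hG hxy t with a1 | a1
    · have f1 := h.add _ _ _ a1
      rcases on_or hG hyz t with a2 | a2
      · have f2 := h.add _ _ _ a2
        refine le_trans ?_ (le_trans (le_max_left _ _) (le_max_left _ _))
        linarith
      · have f2 := h.add _ _ _ a2
        refine le_trans ?_ (le_max_right _ _)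
        linarith
    · have f1 := h.add _ _ _ a1
      rcases on_or hG hxz t with a2 | a2
      · have f2 := h.add _ _ _ a2
        refine le_trans ?_ (le_trans (le_max_left _ _) (le_max_left _ _))
        linarith
      · have f2 := h.add _ _ _ a2
        refine le_trans ?_ (le_trans (le_max_right _ _) (le_max_left _ _))
        linarith
  · refine max_le (max_le ?_ ?_) ?_ <;> linarith

private theorem e3a_self (u : V) : On G u u u := by
  unfold On
  rw [G.dist_self]

theorem exists_triple (hG : G.IsTree) {T : V → Prop} (hT : ∀ v, ¬ T v → 3 ≤ (G.neighborSet v).ncard)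
    (u : V) : ∃ x y z, T x ∧ T y ∧ T z ∧ On G x y u ∧ On G y z u ∧ On G x z u := by
  by_cases hu : T u
  · exact ⟨u, u, u, hu, hu, hu, e3a_self u, e3a_self u, e3a_self u⟩
  · have h1 : 2 < (G.neighborSet u).ncard := hT u hu
    rw [Set.two_lt_ncard_iff (Set.toFinite _)] at h1
    obtain ⟨a, b, c, ha, hb, hc, hab, hac, hbc⟩ := h1
    have key : ∀ a : V, ∃ t, T t ∧ On G u t a := by
      intro a
      obtain ⟨t, ht, ht'⟩ := on_extend hG u a
      refine ⟨t, ?_, ht⟩
      by_contra hn
      have := hT t hn
      omega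
    obtain ⟨x, hx, hx'⟩ := key a
    obtain ⟨y, hy, hy'⟩ := key b
    obtain ⟨z, hz, hz'⟩ := key c
    exact ⟨x, y, z, hx, hy, hz, on_branch hG ha hb hab hx' hy', on_branch hG hb hc hbc hy' hz',
      on_branch hG ha hc hac hx' hz'⟩

theorem separates (hG : G.IsTree) {T : V → Prop} (hT : ∀ v, ¬ T v → 2 ≤ (G.neighborSet v).ncard)
    (w u : V) : ∃ t, T t ∧ On G w t u := by
  obtain ⟨t, ht, ht'⟩ := on_extend hG w u
  refine ⟨t, ?_, ht⟩
  by_contra hn
  have := hT t hn
  omega

/-- Adjacency in terms of betweenness. -/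
theorem adj_iff_on (hG : G.IsTree) (v w : V) : G.Adj v w ↔
    v ≠ w ∧ ∀ u, On G v w u → u = v ∨ u = w := by
  have hc := hG.connected
  constructor
  · intro hvw
    refine ⟨hvw.ne, fun u hu => ?_⟩
    have h1 : G.dist v w = 1 := SimpleGraph.dist_eq_one_iff_adj.mpr hvw
    unfold On at hu
    rcases Nat.eq_zero_or_pos (G.dist v u) with h2 | h2
    · exact Or.inl (hc.dist_eq_zero_iff.1 h2).symm
    · exact Or.inr (hc.dist_eq_zero_iff.1 (by omega))
  · rintro ⟨hne, hall⟩
    obtain ⟨p, hp⟩ := hc.exists_walk_length_eq_dist v w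
    cases p with
    | nil => exact absurd rfl hne
    | @cons _ n _ hx q =>
      have h1 := SimpleGraph.dist_le q
      rw [SimpleGraph.Walk.length_cons] at hp
      have h2 := hc.dist_triangle (u := v) (v := n) (w := w)
      have h3 : G.dist v n = 1 := SimpleGraph.dist_eq_one_iff_adj.mpr hx
      rcases hall n (by unfold On; omega) with h4 | h4
      · exact absurd h4 hx.ne'
      · exact h4 ▸ hx

end Pool.Agent.GT
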