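import Pool.Agent.OHT.A1
import Pool.Agent.OHT.A2
import Pool.Agent.OHT.A3
import Pool.Agent.H46.GT.E2

/-!
The weights from the linking numbers of the nodes with leaves. For an edge `x y` let `B(x, y)` be the set of the
nodes `z` with `x` on the path from `z` to `y`. Claim `C(x, y)`: `wt z w` and `wt' z w` agree for all `z ∈ B(x, y)` and
all `w`. Induction on the size of `B(x, y)`; `x` has valence three.
Two leaves at `x`: `B = {x}`, `l_xx = (∏ leaf) wt x y`.
One leaf, other neighbour `c`: `C(c, x)` holds; take a node `t ∈ B(c, x)` with a leaf (an end node of the tree);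
`l_xt = leaf_x · wt x y · ∏` (weights at the nodes `≠ x` of the path from `x` to `t`, not on it; all of them in
`B(c, x)`), so `wt x y` agrees, then `wt x c` by `l_xx`.
No leaf, other neighbours `a, c`: take `t ∈ B(a, x)`, `u ∈ B(c, x)` with leaves; `l_tu = wt x y · ∏` (weights at nodes in
`B(a, x) ∪ B(c, x)`), so `wt x y` agrees. Take a node `r ∈ B(y, x)` with leaves; `l_rt = R · wt x c · ∏_t` and
`l_ru = R · wt x a · ∏_u` with the same `R` (weights at the nodes of the path from `r` to `y`), where `∏_t`, `∏_u` agree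
for both diagrams; so `wt x c : wt x a` agree, and both are coprime: they agree.
All nodes are in `B(x, y) ∪ B(y, x)`.
-/

set_option autoImplicit false

open Finset

namespace Pool.Agent.GT

open Pool.Agent.OHT

variable {V : Type} [Fintype V] [DecidableEq V]

/-- the factors of `l_xt` at the nodes other than `x` -/
private noncomputable def e4P (D : Data V) (x t : V) : ℕ :=
  ∏ u ∈ (univ.filter fun u => D.On x t u).erase x,
    ((∏ k ∈ D.leaf u, k) * ∏ z ∈ D.nbr u with ¬ D.On x t z, D.wt u z)

private theorem e4_adj {D : Data V} (h : D.IsSplice) (v w : V) :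
    D.graph.Adj v w ↔ w ∈ D.nbr v := by
  rw [Data.graph, SimpleGraph.fromRel_adj]
  simp only [Data.nbr, mem_filter, mem_univ, true_and]
  constructor
  · rintro ⟨_, h1 | h1⟩
    · exact h1
    · exact h.symm _ _ h1
  · intro h1
    refine ⟨?_, Or.inl h1⟩
    rintro rfl
    exact h1 (h.irrefl v)

private theorem e4_branch {D : Data V} (h : D.IsSplice) {u a₁ a₂ t₁ t₂ : V} (h₁ : D.graph.Adj u a₁)
    (h₂ : D.graph.Adj u a₂) (ha : a₁ ≠ a₂) (h₁' : D.On u t₁ a₁) (h₂' : D.On u t₂ a₂) :
    D.On t₁ t₂ u :=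
  on_branch h.tree h₁ h₂ ha h₁' h₂'

/-- the neighbour on the path is unique -/
private theorem e4_uniq {D : Data V} (h : D.IsSplice) {x c z t : V} (hc : D.graph.Adj x c)
    (hz : D.graph.Adj x z) (ht : D.On x t c) (ht' : D.On x t z) : z = c := by
  by_contra hne
  have h1 := e4_branch h hz hc hne ht' ht
  have h2 : D.graph.dist x z = 1 := SimpleGraph.dist_eq_one_iff_adj.mpr hz
  have h3 := D.graph.dist_comm (u := x) (v := t)
  unfold Data.On at h1 ht'
  rw [SimpleGraph.dist_self] at h1
  omega

private theorem e4_lk {D : Data V} (h : D.IsSplice) {x c t : V} (hc : c ∈ D.nbr x)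
    (ht : D.On x t c) :
    D.lk x t = ((∏ k ∈ D.leaf x, k) * ∏ z ∈ (D.nbr x).erase c, D.wt x z) * e4P D x t := by
  have hx : x ∈ univ.filter fun u => D.On x t u := by
    rw [mem_filter]
    refine ⟨mem_univ _, ?_⟩
    unfold Data.On
    rw [SimpleGraph.dist_self, zero_add]
  have hc' := (e4_adj h x c).2 hc
  have h1 : ((D.nbr x).filter fun z => ¬ D.On x t z) = (D.nbr x).erase c := by
    ext z
    rw [mem_filter, mem_erase]
    constructor
    · rintro ⟨h2, h3⟩
      refine ⟨?_, h2⟩
      rintro rfl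
      exact h3 ht
    · rintro ⟨h2, h3⟩
      exact ⟨h3, fun h4 => h2 (e4_uniq h hc' ((e4_adj h x z).2 h3) ht h4)⟩
  unfold Data.lk e4P
  rw [← Finset.mul_prod_erase _ _ hx, h1]

private theorem e4P_pos {D : Data V} (h : D.IsSplice) (x t : V) : 0 < e4P D x t := by
  unfold e4P
  refine Finset.prod_pos fun u _ => Nat.mul_pos ?_ ?_
  · exact Finset.prod_pos fun k hk => lt_of_lt_of_le (by norm_num) (h.two_le u k hk)
  · refine Finset.prod_pos fun x hx => Nat.pos_of_ne_zero ?_
    have hx' := (Finset.mem_filter.1 hx).1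
    exact (Finset.mem_filter.1 hx').2

private theorem e4_leaf_pos {D : Data V} (h : D.IsSplice) (x : V) : 0 < ∏ k ∈ D.leaf x, k :=
  Finset.prod_pos fun k hk => lt_of_lt_of_le (by norm_num) (h.two_le x k hk)

private theorem e4_wt_pos {D : Data V} {x z : V} (hz : z ∈ D.nbr x) : 0 < D.wt x z :=
  Nat.pos_of_ne_zero (Finset.mem_filter.1 hz).2

/-- the nodes of the path beyond `x` are on the side of `c` -/
private theorem e4_side {D : Data V} (h : D.IsSplice) {x c t u : V} (hc : D.graph.Adj x c)
    (ht : D.On x t c) (hu : D.On x t u) (hne : u ≠ x) : D.On u x c := by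
  have hcn := h.tree.connected
  have h1 : D.graph.dist x c = 1 := SimpleGraph.dist_eq_one_iff_adj.mpr hc
  have c1 := D.graph.dist_comm (u := x) (v := u)
  have c2 := D.graph.dist_comm (u := x) (v := c)
  have h2 : 0 < D.graph.dist u x := hcn.pos_dist_of_ne hne
  rcases on_or h.tree ht u with h3 | h3
  · exact h3
  · have h4 : D.graph.dist u c + D.graph.dist c t = D.graph.dist u t := h3
    unfold Data.On at *
    omega

private theorem e4P_eq {D D' : Data V} (h : D.IsSplice)
    (hon : ∀ v w u, D'.On v w u ↔ D.On v w u) (hn : ∀ v, D'.nbr v = D.nbr v)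
    (hl : ∀ v, D'.leaf v = D.leaf v) {x c t : V} (hc : c ∈ D.nbr x) (ht : D.On x t c)
    (hC : ∀ z, D.On z x c → ∀ w, D'.wt z w = D.wt z w) : e4P D' x t = e4P D x t := by
  have hc' := (e4_adj h x c).2 hc
  unfold e4P
  have e1 : (univ.filter fun u => D'.On x t u) = univ.filter fun u => D.On x t u :=
    Finset.filter_congr fun u _ => hon x t u
  rw [e1]
  refine Finset.prod_congr rfl fun u hu => ?_
  rw [mem_erase, mem_filter] at hu
  have hs := e4_side h hc' ht hu.2.2 hu.1
  rw [hl, hn]
  congr 1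
  have e2 : ((D.nbr u).filter fun z => ¬ D'.On x t z) = (D.nbr u).filter fun z => ¬ D.On x t z :=
    Finset.filter_congr fun z _ => not_congr (hon x t z)
  rw [e2]
  exact Finset.prod_congr rfl fun z _ => hC u hs z

/-- a node with leaves behind each neighbour -/
private theorem e4_leaf {D : Data V} (h : D.IsSplice) (ht : ∀ v, D.val v = 3) (x c : V) :
    ∃ t, D.On x t c ∧ (D.leaf t).Nonempty := by
  obtain ⟨t, h1, h2⟩ := on_extend h.tree x c
  refine ⟨t, h1, ?_⟩
  have h3 : D.graph.neighborSet t = ↑(D.nbr t) := by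
    ext z
    rw [SimpleGraph.mem_neighborSet, e4_adj h, Finset.mem_coe]
  rw [h3, Set.ncard_coe_finset] at h2
  have h4 := ht t
  unfold Data.val at h4
  rw [← Finset.card_pos]
  omega

private theorem e4_toward {D : Data V} (h : D.IsSplice) {x t : V} (hne : t ≠ x) :
    ∃ c, c ∈ D.nbr x ∧ D.On t x c := by
  have hc := h.tree.connected
  obtain ⟨p, hp⟩ := hc.exists_walk_length_eq_dist x t
  cases p with
  | nil => exact absurd rfl hne
  | @cons _ n _ hx q =>
    refine ⟨n, (e4_adj h x n).1 hx, ?_⟩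
    have h1 := SimpleGraph.dist_le q
    rw [SimpleGraph.Walk.length_cons] at hp
    have h2 := hc.dist_triangle (u := x) (v := n) (w := t)
    have h3 : D.graph.dist x n = 1 := SimpleGraph.dist_eq_one_iff_adj.mpr hx
    have c1 := D.graph.dist_comm (u := x) (v := t)
    have c2 := D.graph.dist_comm (u := n) (v := t)
    have c3 := D.graph.dist_comm (u := x) (v := n)
    unfold Data.On
    omega

private theorem e4_ratio {a c a' c' m n : ℕ} (hm : 0 < m) (hn : 0 < n) (h : m * a = n * c)
    (h' : m * a' = n * c') (hc : Nat.Coprime a c) (hc' : Nat.Coprime a' c') (ha : 0 < a)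
    (ha' : 0 < a') : a' = a ∧ c' = c := by
  have e1 : a * c' = a' * c := by
    have e2 : (m * n) * (a * c') = (m * n) * (a' * c) := by
      calc (m * n) * (a * c') = (m * a) * (n * c') := by ring
        _ = (n * c) * (m * a') := by rw [h, h']
        _ = (m * n) * (a' * c) := by ring
    exact Nat.eq_of_mul_eq_mul_left (Nat.mul_pos hm hn) e2
  have d1 : a ∣ a' := hc.dvd_of_dvd_mul_right ⟨c', e1.symm⟩
  have d2 : a' ∣ a := hc'.dvd_of_dvd_mul_right ⟨c, e1⟩
  have e3 : a' = a := Nat.dvd_antisymm d2 d1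
  subst e3
  exact ⟨rfl, Nat.eq_of_mul_eq_mul_left ha e1⟩

/-- the weights at `x` -/
private theorem e4_node {D D' : Data V} (h : D.IsSplice) (h' : D'.IsSplice)
    (ht : ∀ v, D.val v = 3) (hon : ∀ v w u, D'.On v w u ↔ D.On v w u)
    (hn : ∀ v, D'.nbr v = D.nbr v) (hl : ∀ v, D'.leaf v = D.leaf v)
    (hk : ∀ v w, (D.leaf v).Nonempty → (D.leaf w).Nonempty → D'.lk v w = D.lk v w) {x y : V}
    (hy : y ∈ D.nbr x)
    (hC : ∀ c ∈ D.nbr x, c ≠ y → ∀ z, D.On z x c → ∀ w, D'.wt z w = D.wt z w) :
    ∀ w ∈ D.nbr x, D'.wt x w = D.wt x w := by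
  have hA := e4_leaf_pos h x
  have hyp := e4_wt_pos hy
  have hself := lk_self h x
  have hself' := lk_self h' x
  rw [hl, hn] at hself'
  have hv := ht x
  unfold Data.val at hv
  -- the formula for the other neighbours
  have key : ∀ c ∈ D.nbr x, c ≠ y → ∃ t P, 0 < P ∧ D.On x t c ∧ (D.leaf t).Nonempty ∧
      D.lk x t = ((∏ k ∈ D.leaf x, k) * ∏ z ∈ (D.nbr x).erase c, D.wt x z) * P ∧
      D'.lk x t = ((∏ k ∈ D.leaf x, k) * ∏ z ∈ (D.nbr x).erase c, D'.wt x z) * P := by
    intro c hc hcy
    obtain ⟨t, h1, h2⟩ := e4_leaf h ht x c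
    refine ⟨t, e4P D x t, e4P_pos h x t, h1, h2, e4_lk h hc h1, ?_⟩
    have h3 := e4_lk h' (by rw [hn]; exact hc) ((hon x t c).2 h1)
    rw [e4P_eq h hon hn hl hc h1 (hC c hc hcy), hn, hl] at h3
    exact h3
  by_cases h1 : (D.nbr x).card = 1
  · obtain ⟨y', hy'⟩ := Finset.card_eq_one.1 h1
    have e1 : y' = y := by
      rw [hy', mem_singleton] at hy
      exact hy.symm
    subst e1
    have hne : (D.leaf x).Nonempty := by rw [← Finset.card_pos]; omega
    have h2 := hk x x hne hne
    rw [hself, hself', hy', prod_singleton, prod_singleton] at h2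
    intro w hw
    rw [hy', mem_singleton] at hw
    subst hw
    exact Nat.eq_of_mul_eq_mul_left hA h2
  by_cases h2 : (D.nbr x).card = 2
  · have h3 : ((D.nbr x).erase y).card = 1 := by rw [card_erase_of_mem hy, h2]
    obtain ⟨c, hc⟩ := Finset.card_eq_one.1 h3
    have hc1 : c ∈ (D.nbr x).erase y := by rw [hc]; exact mem_singleton_self c
    rw [mem_erase] at hc1
    have hnb : D.nbr x = {y, c} := by
      rw [← Finset.insert_erase hy, hc]
    have hec : (D.nbr x).erase c = {y} := by
      rw [hnb]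
      ext z
      simp only [mem_erase, mem_insert, mem_singleton]
      constructor
      · rintro ⟨a1, a2 | a2⟩
        · exact a2
        · exact absurd a2 a1
      · rintro rfl
        exact ⟨hc1.1.symm, Or.inl rfl⟩
    have hne : (D.leaf x).Nonempty := by rw [← Finset.card_pos]; omega
    obtain ⟨t, P, hP, _, htl, k1, k2⟩ := key c hc1.2 hc1.1
    rw [hec, prod_singleton] at k1 k2
    have k3 := hk x t hne htl
    rw [k1, k2] at k3
    have k4 : D'.wt x y = D.wt x y :=
      Nat.eq_of_mul_eq_mul_left hA (Nat.eq_of_mul_eq_mul_right hP k3)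
    have k5 := hk x x hne hne
    rw [hself, hself', hnb, prod_pair hc1.1.symm, prod_pair hc1.1.symm, k4] at k5
    have k6 : D'.wt x c = D.wt x c :=
      Nat.eq_of_mul_eq_mul_left hyp (Nat.eq_of_mul_eq_mul_left hA k5)
    intro w hw
    rw [hnb, mem_insert, mem_singleton] at hw
    rcases hw with rfl | rfl
    · exact k4
    · exact k6
  · have hcard : (D.nbr x).card = 3 := by
      have : 0 < (D.nbr x).card := Finset.card_pos.2 ⟨y, hy⟩
      omega
    have h3 : ((D.nbr x).erase y).card = 2 := by rw [card_erase_of_mem hy, hcard]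
    obtain ⟨a, c, hac, hac'⟩ := Finset.card_eq_two.1 h3
    have ha1 : a ∈ (D.nbr x).erase y := by rw [hac']; simp
    have hc1 : c ∈ (D.nbr x).erase y := by rw [hac']; simp
    rw [mem_erase] at ha1 hc1
    have hnb : D.nbr x = {y, a, c} := by
      rw [← Finset.insert_erase hy, hac']
    have hea : (D.nbr x).erase a = {y, c} := by
      rw [hnb]
      ext z
      simp only [mem_erase, mem_insert, mem_singleton]
      constructor
      · rintro ⟨a1, a2 | a2 | a2⟩
        · exact Or.inl a2
        · exact absurd a2 a1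
        · exact Or.inr a2
      · rintro (rfl | rfl)
        · exact ⟨ha1.1.symm, Or.inl rfl⟩
        · exact ⟨hac.symm, Or.inr (Or.inr rfl)⟩
    have hec : (D.nbr x).erase c = {y, a} := by
      rw [hnb]
      ext z
      simp only [mem_erase, mem_insert, mem_singleton]
      constructor
      · rintro ⟨a1, a2 | a2 | a2⟩
        · exact Or.inl a2
        · exact Or.inr a2
        · exact absurd a2 a1
      · rintro (rfl | rfl)
        · exact ⟨hc1.1.symm, Or.inl rfl⟩
        · exact ⟨hac, Or.inr (Or.inl rfl)⟩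
    obtain ⟨t, P, hP, ht1, htl, k1, k2⟩ := key a ha1.2 ha1.1
    obtain ⟨u, Q, hQ, hu1, hul, k3, k4⟩ := key c hc1.2 hc1.1
    obtain ⟨r, hr1, hrl⟩ := e4_leaf h ht x y
    rw [hea, prod_pair hc1.1.symm] at k1 k2
    rw [hec, prod_pair ha1.1.symm] at k3 k4
    have hapos := e4_wt_pos ha1.2
    have hcpos := e4_wt_pos hc1.2
    have hapos' : 0 < D'.wt x a := e4_wt_pos (by rw [hn]; exact ha1.2)
    have hcpos' : 0 < D'.wt x c := e4_wt_pos (by rw [hn]; exact hc1.2)
    have hypos' : 0 < D'.wt x y := e4_wt_pos (by rw [hn]; exact hy)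
    have hax := (e4_adj h x a).2 ha1.2
    have hcx := (e4_adj h x c).2 hc1.2
    have hyx := (e4_adj h x y).2 hy
    have o1 := e4_branch h hax hcx hac ht1 hu1
    have o2 := e4_branch h hyx hax ha1.1.symm hr1 ht1
    have o3 := e4_branch h hyx hcx hc1.1.symm hr1 hu1
    have hya : y ≠ a := ha1.1.symm
    have hyc : y ≠ c := hc1.1.symm
    have hself2 : D.lk x x = (∏ k ∈ D.leaf x, k) * (D.wt x y * (D.wt x a * D.wt x c)) := by
      rw [hself, hnb, prod_insert (by simp [hya, hyc]), prod_pair hac]
    have hself2' : D'.lk x x = (∏ k ∈ D.leaf x, k) * (D'.wt x y * (D'.wt x a * D'.wt x c)) := by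
      rw [hself', hnb, prod_insert (by simp [hya, hyc]), prod_pair hac]
    set A := ∏ k ∈ D.leaf x, k with hAdef
    -- the weight of the edge to `y`
    have m1 : D.lk t u = A * D.wt x y * (P * Q) := by
      have m2 := lk_markov h o1
      rw [lk_comm h t x, k1, k3, hself2] at m2
      have m3 : 0 < A * (D.wt x y * (D.wt x a * D.wt x c)) := by positivity
      refine Nat.eq_of_mul_eq_mul_right m3 ?_
      rw [m2]
      ring
    have m1' : D'.lk t u = A * D'.wt x y * (P * Q) := by
      have m2 := lk_markov h' ((hon _ _ _).2 o1)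
      rw [lk_comm h' t x, k2, k4, hself2'] at m2
      have m3 : 0 < A * (D'.wt x y * (D'.wt x a * D'.wt x c)) := by positivity
      refine Nat.eq_of_mul_eq_mul_right m3 ?_
      rw [m2]
      ring
    have wy : D'.wt x y = D.wt x y := by
      have m4 := hk t u htl hul
      rw [m1, m1'] at m4
      exact Nat.eq_of_mul_eq_mul_left hA (Nat.eq_of_mul_eq_mul_right (Nat.mul_pos hP hQ) m4)
    -- the ratio of the other two
    have n1 : (D.lk r t * Q) * D.wt x a = (D.lk r u * P) * D.wt x c := by
      have n2 := lk_markov h o2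
      have n3 := lk_markov h o3
      rw [k1] at n2
      rw [k3] at n3
      have n4 : 0 < D.lk x x := lk_pos h x x
      have n5 : 0 < D.lk r x := lk_pos h r x
      have n6 : 0 < A * D.wt x y := Nat.mul_pos hA hyp
      refine Nat.eq_of_mul_eq_mul_right (Nat.mul_pos n4 (Nat.mul_pos n5 n6)) ?_
      calc (D.lk r t * Q * D.wt x a) * (D.lk x x * (D.lk r x * (A * D.wt x y)))
          = (D.lk r t * D.lk x x) * (D.lk r x * (A * (D.wt x y * D.wt x a) * Q)) := by ring
        _ = (D.lk r x * (A * (D.wt x y * D.wt x c) * P)) * (D.lk r u * D.lk x x) := by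
            rw [n2, n3]
        _ = (D.lk r u * P * D.wt x c) * (D.lk x x * (D.lk r x * (A * D.wt x y))) := by ring
    have n1' : (D'.lk r t * Q) * D'.wt x a = (D'.lk r u * P) * D'.wt x c := by
      have n2 := lk_markov h' ((hon _ _ _).2 o2)
      have n3 := lk_markov h' ((hon _ _ _).2 o3)
      rw [k2] at n2
      rw [k4] at n3
      have n4 : 0 < D'.lk x x := lk_pos h' x x
      have n5 : 0 < D'.lk r x := lk_pos h' r x
      have n6 : 0 < A * D'.wt x y := Nat.mul_pos hA hypos'
      refine Nat.eq_of_mul_eq_mul_right (Nat.mul_pos n4 (Nat.mul_pos n5 n6)) ?_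
      calc (D'.lk r t * Q * D'.wt x a) * (D'.lk x x * (D'.lk r x * (A * D'.wt x y)))
          = (D'.lk r t * D'.lk x x) * (D'.lk r x * (A * (D'.wt x y * D'.wt x a) * Q)) := by ring
        _ = (D'.lk r x * (A * (D'.wt x y * D'.wt x c) * P)) * (D'.lk r u * D'.lk x x) := by
            rw [n2, n3]
        _ = (D'.lk r u * P * D'.wt x c) * (D'.lk x x * (D'.lk r x * (A * D'.wt x y))) := by ring
    rw [hk r t hrl htl, hk r u hrl hul] at n1'
    have hco := h.coprime_edge x a ha1.2 c hc1.2 hac
    have hco' := h'.coprime_edge x a (by rw [hn]; exact ha1.2) c (by rw [hn]; exact hc1.2) hac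
    obtain ⟨wa, wc⟩ := e4_ratio (Nat.mul_pos (lk_pos h r t) hQ) (Nat.mul_pos (lk_pos h r u) hP)
      n1 n1' hco hco' hapos hapos'
    intro w hw
    rw [hnb, mem_insert, mem_insert, mem_singleton] at hw
    rcases hw with rfl | rfl | rfl
    · exact wy
    · exact wa
    · exact wc

private theorem e4_main {D D' : Data V} (h : D.IsSplice) (h' : D'.IsSplice)
    (ht : ∀ v, D.val v = 3) (hon : ∀ v w u, D'.On v w u ↔ D.On v w u)
    (hn : ∀ v, D'.nbr v = D.nbr v) (hl : ∀ v, D'.leaf v = D.leaf v)
    (hk : ∀ v w, (D.leaf v).Nonempty → (D.leaf w).Nonempty → D'.lk v w = D.lk v w) (n : ℕ) :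
    ∀ x y, y ∈ D.nbr x → (univ.filter fun z => D.On z y x).card = n →
      ∀ z, D.On z y x → ∀ w, D'.wt z w = D.wt z w := by
  induction n using Nat.strong_induction_on with
  | _ n ih =>
    intro x y hy hcard
    have hyx := (e4_adj h x y).2 hy
    have hd : D.graph.dist x y = 1 := SimpleGraph.dist_eq_one_iff_adj.mpr hyx
    have hC : ∀ c ∈ D.nbr x, c ≠ y → ∀ z, D.On z x c → ∀ w, D'.wt z w = D.wt z w := by
      intro c hc hcy
      have hcx := (e4_adj h x c).2 hc
      have hdc : D.graph.dist x c = 1 := SimpleGraph.dist_eq_one_iff_adj.mpr hcx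
      have hxc : x ∈ D.nbr c := (e4_adj h c x).1 hcx.symm
      refine ih _ ?_ c x hxc rfl
      rw [← hcard]
      apply Finset.card_lt_card
      rw [Finset.ssubset_iff_of_subset]
      · refine ⟨x, ?_, ?_⟩
        · rw [mem_filter]
          refine ⟨mem_univ _, ?_⟩
          unfold Data.On
          rw [SimpleGraph.dist_self, zero_add]
        · rw [mem_filter]
          rintro ⟨_, h2⟩
          unfold Data.On at h2
          rw [SimpleGraph.dist_self] at h2
          omega
      · intro z hz
        rw [mem_filter] at hz ⊢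
        refine ⟨mem_univ _, ?_⟩
        refine e4_branch h hcx hyx hcy ((a1_on_comm D z x c).1 hz.2) ?_
        unfold Data.On
        rw [SimpleGraph.dist_self, add_zero]
    intro z hz w
    by_cases hzx : z = x
    · subst hzx
      by_cases hw : w ∈ D.nbr z
      · exact e4_node h h' ht hon hn hl hk hy hC w hw
      · have hw' : w ∉ D'.nbr z := by rw [hn]; exact hw
        simp only [Data.nbr, mem_filter, mem_univ, true_and, not_not] at hw hw'
        rw [hw, hw']
    · obtain ⟨c, hc, hzc⟩ := e4_toward h hzx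
      refine hC c hc ?_ z hzc w
      rintro rfl
      have c1 := D.graph.dist_comm (u := x) (v := c)
      unfold Data.On at hz hzc
      omega

theorem wt_eq {D D' : Data V} (h : D.IsSplice) (h' : D'.IsSplice) (hV : 2 ≤ Fintype.card V)
    (ht : ∀ v, D.val v = 3) (ht' : ∀ v, D'.val v = 3) (hg : D'.graph = D.graph)
    (hl : ∀ v, D'.leaf v = D.leaf v)
    (hk : ∀ v w, (D.leaf v).Nonempty → (D.leaf w).Nonempty → D'.lk v w = D.lk v w) (v w : V) :
    D'.wt v w = D.wt v w := by
  have hon : ∀ v w u, D'.On v w u ↔ D.On v w u := by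
    intro v w u
    unfold Data.On
    rw [hg]
  have hn : ∀ v, D'.nbr v = D.nbr v := by
    intro v
    ext z
    rw [← e4_adj h, ← e4_adj h', hg]
  obtain ⟨x, hx⟩ : ∃ x, x ≠ v := by
    have : Nontrivial V := Fintype.one_lt_card_iff_nontrivial.1 (by omega)
    exact exists_ne v
  obtain ⟨c, hc, _⟩ := e4_toward h hx
  have hcx : v ∈ D.nbr c := (e4_adj h c v).1 ((e4_adj h v c).2 hc).symm
  refine e4_main h h' ht hon hn hl hk _ v c hc rfl v ?_ w
  unfold Data.On
  rw [SimpleGraph.dist_self, zero_add]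

end Pool.Agent.GT
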