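import Pool.Agent.OHT.A1

/-!
Transport of a splice diagram along a bijection of the nodes.
-/

set_option autoImplicit false

open Finset

namespace Pool.Agent.GT

open Pool.Agent.OHT

variable {V V' : Type} [Fintype V] [DecidableEq V] [Fintype V'] [DecidableEq V']

/-- The diagram `D` with its nodes renamed. -/
def pull (f : V ≃ V') (D : Data V') : Data V where
  leaf v := D.leaf (f v)
  wt v w := D.wt (f v) (f w)

omit [Fintype V] [DecidableEq V] [Fintype V'] [DecidableEq V'] in
private theorem e5_adj (f : V ≃ V') (D : Data V') (v w : V) :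
    (pull f D).graph.Adj v w ↔ D.graph.Adj (f v) (f w) := by
  simp only [Data.graph, SimpleGraph.fromRel_adj, pull, ne_eq, f.injective.eq_iff]

/-- the isomorphism of the graphs -/
private def e5_iso (f : V ≃ V') (D : Data V') : (pull f D).graph ≃g D.graph where
  toEquiv := f
  map_rel_iff' := by
    intro a b
    exact (e5_adj f D a b).symm

omit [Fintype V] [DecidableEq V] [Fintype V'] [DecidableEq V'] in
private theorem e5_le {G : SimpleGraph V} {H : SimpleGraph V'} (e : G ≃g H) {v w : V}
    (h : G.Reachable v w) : H.dist (e v) (e w) ≤ G.dist v w := by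
  obtain ⟨p, hp⟩ := h.exists_walk_length_eq_dist
  have h1 := SimpleGraph.dist_le (p.map e.toHom)
  rw [SimpleGraph.Walk.length_map, hp] at h1
  exact h1

omit [Fintype V] [DecidableEq V] [Fintype V'] [DecidableEq V'] in
private theorem e5_dist {G : SimpleGraph V} {H : SimpleGraph V'} (e : G ≃g H) (v w : V) :
    H.dist (e v) (e w) = G.dist v w := by
  by_cases h : G.Reachable v w
  · refine le_antisymm (e5_le e h) ?_
    have h1 : H.Reachable (e v) (e w) := h.map e.toHom
    have h2 := e5_le e.symm h1
    simpa using h2
  · have h1 : ¬ H.Reachable (e v) (e w) := by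
      intro h2
      apply h
      have h3 := h2.map e.symm.toHom
      simpa using h3
    rw [SimpleGraph.dist_eq_zero_of_not_reachable h, SimpleGraph.dist_eq_zero_of_not_reachable h1]

omit [Fintype V] [DecidableEq V] [Fintype V'] [DecidableEq V'] in
private theorem e5_on (f : V ≃ V') (D : Data V') (v w u : V) :
    (pull f D).On v w u ↔ D.On (f v) (f w) (f u) := by
  unfold Data.On
  rw [← e5_dist (e5_iso f D) v u, ← e5_dist (e5_iso f D) u w, ← e5_dist (e5_iso f D) v w]
  rfl

omit [DecidableEq V] [DecidableEq V'] in
private theorem e5_nbr (f : V ≃ V') (D : Data V') (v w : V) :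
    w ∈ (pull f D).nbr v ↔ f w ∈ D.nbr (f v) := by
  unfold Data.nbr
  rw [mem_filter, mem_filter]
  exact and_congr_right' Iff.rfl |>.trans (by simp only [mem_univ, pull])

theorem pull_lk (f : V ≃ V') (D : Data V') (v w : V) : (pull f D).lk v w = D.lk (f v) (f w) := by
  unfold Data.lk
  refine Finset.prod_equiv f (fun u => ?_) (fun u _ => ?_)
  · simp only [mem_filter, mem_univ, true_and]
    exact e5_on f D v w u
  · congr 1
    refine Finset.prod_equiv f (fun x => ?_) (fun x _ => rfl)
    simp only [mem_filter]
    rw [e5_nbr, e5_on]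

theorem pull_val (f : V ≃ V') (D : Data V') (v : V) : (pull f D).val v = D.val (f v) := by
  unfold Data.val
  congr 1
  refine Finset.card_equiv f fun w => ?_
  exact e5_nbr f D v w

theorem pull_graph (f : V ≃ V') (D : Data V') (v w : V) :
    (pull f D).graph.Adj v w ↔ D.graph.Adj (f v) (f w) :=
  e5_adj f D v w

theorem pull_splice (f : V ≃ V') {D : Data V'} (h : D.IsSplice) : (pull f D).IsSplice where
  tree := (e5_iso f D).isTree_iff.2 h.tree
  symm v w := h.symm (f v) (f w)
  irrefl v := h.irrefl (f v)
  two_le v := h.two_le (f v)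
  coprime_leaf v := h.coprime_leaf (f v)
  coprime_mixed v k hk w hw := h.coprime_mixed (f v) k hk (f w) ((e5_nbr f D v w).1 hw)
  coprime_edge v w hw x hx hwx := h.coprime_edge (f v) (f w) ((e5_nbr f D v w).1 hw) (f x)
    ((e5_nbr f D v x).1 hx) (fun h0 => hwx (f.injective h0))
  three_le v := by
    rw [pull_val]
    exact h.three_le (f v)
  edge_det v w hw := by
    rw [pull_lk]
    exact h.edge_det (f v) (f w) ((e5_nbr f D v w).1 hw)

end Pool.Agent.GT
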