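import Pool.Agent.H46.GT.E1
import Pool.Agent.H46.GT.E3
import Pool.Agent.H46.GT.E4
import Pool.Agent.H46.GT.E5
import Pool.Agent.H46.GT.C7
import Pool.Agent.H46.GT.C8

/-!
The combinatorial part. `T`: the nodes with a leaf weight `≥ 4`.
(1) `dl D' (e v) (e w) = dl D v w` for `v, w ∈ T`: with units `g, k` for which the differences of `b` for `D` are not `0`
(`b_ne`) those for `D'` are not `0` either (`h1`, the `l_vv` are positive); divide `h2` by the product of `h1` for `v`, `w`.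
(2) `tree_iso` with `δ = dl D`, `δ' = dl D'`; nodes outside `T` have no leaf (`hL`), so degree `3`.
(3) The degrees of `v` and `f v` agree, so the numbers of leaves agree. If `v ∉ T` both have none. If `v ∈ T`: the
elements `≥ 4` of the leaf sets agree (`big_eq`); one leaf: equal; two leaves: equal, or `{2, P}` and `{3, P}` (in
some order), which `two_three` excludes (`l_vv` is the product of the leaf weights and of the weight of the only edge,
which is prime to them).
(4) So `b` agrees for `v` and `f v`, and `h1`, `h2` give `l_vw = l'_{f v, f w}` for `v, w ∈ T`. Apply `wt_eq` to `D` and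
`pull f D'`.
-/

set_option autoImplicit false

open Finset

namespace Pool.Agent.GT

open Pool.Agent.OHT

private theorem e6_nbr {n : ℕ} {D : Data (Fin (n + 1))} (h : D.IsSplice) (v : Fin (n + 1)) :
    (D.graph.neighborSet v).ncard = (D.nbr v).card := by
  have e : D.graph.neighborSet v = ↑(D.nbr v) := by
    ext w
    rw [SimpleGraph.mem_neighborSet, adj_iff h, Finset.mem_coe]
  rw [e, Set.ncard_coe_finset]

private theorem e6_nbr_pos {n : ℕ} (hn : 1 ≤ n) {D : Data (Fin (n + 1))} (h : D.IsSplice)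
    (v : Fin (n + 1)) : 1 ≤ (D.nbr v).card := by
  have : Nontrivial (Fin (n + 1)) := Fin.nontrivial_iff_two_le.2 (by omega)
  obtain ⟨w, hw⟩ := h.tree.connected.preconnected.exists_adj_of_nontrivial v
  exact Finset.card_pos.2 ⟨w, (adj_iff h v w).1 hw⟩

private theorem e6_nd {n : ℕ} (hn : 1 ≤ n) {D : Data (Fin (n + 1))} (h : D.IsSplice)
    (ht : ∀ v, D.val v = 3) (v : Fin (n + 1)) : Nd (D.leaf v) where
  card := by
    have h1 := e6_nbr_pos hn h v
    have h2 := ht v
    unfold Data.val at h2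
    omega
  two_le := h.two_le v
  cop := h.coprime_leaf v

private theorem e6_dvd {l : Finset ℕ} {M : ℕ} (hM : 12 * ∏ p ∈ l, p ∣ M) {p : ℕ} (hp : p ∈ l) :
    2 * p ∣ M :=
  dvd_trans (Nat.mul_dvd_mul (by norm_num) (Finset.dvd_prod_of_mem _ hp)) hM

private theorem e6_dvd2 {l : Finset ℕ} {M : ℕ} (hM : 12 * ∏ p ∈ l, p ∣ M) :
    2 * ∏ p ∈ l, p ∣ M :=
  dvd_trans (Nat.mul_dvd_mul (by norm_num) dvd_rfl) hM

private theorem e6_met {n : ℕ} {D : Data (Fin (n + 1))} (h : D.IsSplice) : Met D.graph (dl D) where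
  comm := dl_comm h
  self := dl_self h
  pos := fun _ _ hvw => dl_pos h hvw
  add := fun _ _ _ hu => dl_add h hu

private theorem e6_ratio {a b c a' b' c' x y x' y' : ℝ} (ha : 0 < a) (hb : 0 < b) (hc : 0 < c)
    (ha' : 0 < a') (hb' : 0 < b') (hc' : 0 < c') (hx : x ≠ 0) (hy : y ≠ 0)
    (h1 : a * x = a' * x') (h2 : b * y = b' * y') (h3 : c ^ 2 * x * y = c' ^ 2 * x' * y') :
    a' * b' / c' ^ 2 = a * b / c ^ 2 := by
  have hx' : x' = a * x / a' := by field_simp; linarith
  have hy' : y' = b * y / b' := by field_simp; linarith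
  rw [hx', hy'] at h3
  rw [div_eq_div_iff (by positivity) (by positivity)]
  have h4 : c ^ 2 * x * y * (a' * b') = c' ^ 2 * (a * x) * (b * y) := by
    rw [h3]; field_simp
  have h5 : x * y ≠ 0 := mul_ne_zero hx hy
  apply mul_right_cancel₀ h5
  linarith

/-- The only edge at a node with two leaves. -/
private theorem e6_edge {n : ℕ} {D : Data (Fin (n + 1))} (h : D.IsSplice)
    (ht : ∀ v, D.val v = 3) (v : Fin (n + 1)) {a P : ℕ} (haP : a ≠ P) (hl : D.leaf v = {a, P}) :
    ∃ d : ℕ, D.lk v v = a * P * d ∧ Nat.Coprime d a := by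
  have h2 := ht v
  unfold Data.val at h2
  rw [hl, Finset.card_pair haP] at h2
  have h3 : (D.nbr v).card = 1 := by omega
  obtain ⟨x, hx⟩ := Finset.card_eq_one.1 h3
  refine ⟨D.wt v x, ?_, ?_⟩
  · rw [lk_self h, hx, hl, Finset.prod_pair haP, Finset.prod_singleton]
  · exact (h.coprime_mixed v a (by rw [hl]; simp) x (by rw [hx]; simp)).symm

/-- The case of `{2, P}` and `{3, P}`. -/
private theorem e6_excl {n : ℕ} {D D' : Data (Fin (n + 1))} (h : D.IsSplice) (h' : D'.IsSplice)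
    (ht : ∀ v, D.val v = 3) (ht' : ∀ v, D'.val v = 3) {M : ℕ} [NeZero M] {v v' : Fin (n + 1)}
    (hM : 12 * ∏ p ∈ D.leaf v, p ∣ M) {P : ℕ} (hP : 4 ≤ P) (hl : D.leaf v = {2, P})
    (hl' : D'.leaf v' = {3, P})
    (h1 : ∀ g : (ZMod M)ˣ,
      (D.lk v v : ℝ) * (b (D.leaf v) (iv g) - b (D.leaf v) 1) =
        (D'.lk v' v' : ℝ) * (b (D'.leaf v') (iv g) - b (D'.leaf v') 1)) : False := by
  obtain ⟨d, hd, hd2⟩ := e6_edge h ht v (by omega) hl
  obtain ⟨d', hd', hd3⟩ := e6_edge h' ht' v' (by omega) hl'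
  have c2 : Nat.Coprime 2 P := h.coprime_leaf v 2 (by rw [hl]; simp) P (by rw [hl]; simp) (by omega)
  have c3 : Nat.Coprime 3 P :=
    h'.coprime_leaf v' 3 (by rw [hl']; simp) P (by rw [hl']; simp) (by omega)
  have hM2 : 12 * P ∣ M := by
    refine dvd_trans (Nat.mul_dvd_mul dvd_rfl ?_) hM
    exact Finset.dvd_prod_of_mem (fun p => p) (by rw [hl]; simp)
  refine two_three hP c2 c3 hM2 hd2 hd3 fun g => ?_
  have h3 := h1 g
  rw [hd, hd', hl, hl'] at h3
  exact h3

private theorem e6_small {l : Finset ℕ} (hl : ∀ p ∈ l, 2 ≤ p) {a : ℕ}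
    (ha : (l.filter fun p => ¬ 4 ≤ p) = {a}) : a = 2 ∨ a = 3 := by
  have h1 : a ∈ l.filter fun p => ¬ 4 ≤ p := by rw [ha]; simp
  rw [Finset.mem_filter] at h1
  have := hl a h1.1
  omega

private theorem e6_split {l : Finset ℕ} {a P : ℕ} (hP : (l.filter fun p => 4 ≤ p) = {P})
    (ha : (l.filter fun p => ¬ 4 ≤ p) = {a}) : l = {a, P} := by
  rw [← Finset.filter_union_filter_not_eq (fun p => 4 ≤ p) l, hP, ha, Finset.union_comm]
  rfl

theorem comb {n : ℕ} (hn : 1 ≤ n) {D D' : Data (Fin (n + 1))} (h : D.IsSplice) (h' : D'.IsSplice)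
    (ht : ∀ v, D.val v = 3) (ht' : ∀ v, D'.val v = 3)
    (hL : ∀ v, (D.leaf v).Nonempty → Big (D.leaf v)) {M : ℕ} [NeZero M] (h12 : 12 ∣ M)
    (hM : ∀ v, 12 * ∏ p ∈ D.leaf v, p ∣ M) (hM' : ∀ v, 12 * ∏ p ∈ D'.leaf v, p ∣ M)
    (e : {v // Big (D.leaf v)} ≃ {v // Big (D'.leaf v)})
    (hA : ∀ v, subA M (D'.leaf (e v)) = subA M (D.leaf v))
    (h1 : ∀ (v : {v // Big (D.leaf v)}) (g : (ZMod M)ˣ),
      (D.lk v v : ℝ) * (b (D.leaf v) (iv g) - b (D.leaf v) 1) =
        (D'.lk (e v) (e v) : ℝ) * (b (D'.leaf (e v)) (iv g) - b (D'.leaf (e v)) 1))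
    (h2 : ∀ (v w : {v // Big (D.leaf v)}), v ≠ w → ∀ g k : (ZMod M)ˣ,
      (D.lk v w : ℝ) ^ 2 * (b (D.leaf v) (iv g) - b (D.leaf v) 1) *
        (b (D.leaf w) (iv k) - b (D.leaf w) 1) =
      (D'.lk (e v) (e w) : ℝ) ^ 2 * (b (D'.leaf (e v)) (iv g) - b (D'.leaf (e v)) 1) *
        (b (D'.leaf (e w)) (iv k) - b (D'.leaf (e w)) 1)) :
    ∃ f : Fin (n + 1) ≃ Fin (n + 1), (∀ v, D'.leaf (f v) = D.leaf v) ∧
      ∀ v w, D'.wt (f v) (f w) = D.wt v w := by
  classical
  have nd := e6_nd hn h ht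
  have nd' := e6_nd hn h' ht'
  have pos : ∀ v w, (0 : ℝ) < D.lk v w := fun v w => by exact_mod_cast lk_pos h v w
  have pos' : ∀ v w, (0 : ℝ) < D'.lk v w := fun v w => by exact_mod_cast lk_pos h' v w
  -- (1)
  have he : ∀ v w : {v // Big (D.leaf v)}, dl D' (e v) (e w) = dl D v w := by
    intro v w
    by_cases hvw : v = w
    · subst hvw
      rw [dl_self h, dl_self h']
    · obtain ⟨g, hg⟩ := b_ne (nd v) v.2 (fun p hp => e6_dvd (hM v) hp)
      obtain ⟨k, hk⟩ := b_ne (nd w) w.2 (fun p hp => e6_dvd (hM w) hp)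
      unfold dl
      rw [e6_ratio (pos v v) (pos w w) (pos v w) (pos' (e v) (e v)) (pos' (e w) (e w))
        (pos' (e v) (e w)) (sub_ne_zero.2 hg) (sub_ne_zero.2 hk) (h1 v g) (h1 w k) (h2 v w hvw g k)]
  -- (2)
  have hT : ∀ v, ¬ Big (D.leaf v) → 3 ≤ (D.graph.neighborSet v).ncard := by
    intro v hv
    have h3 : D.leaf v = ∅ := by
      by_contra hc
      exact hv (hL v (Finset.nonempty_iff_ne_empty.2 hc))
    have h4 := ht v
    unfold Data.val at h4
    rw [e6_nbr h]
    rw [h3, Finset.card_empty] at h4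
    omega
  obtain ⟨f, hf, hfe⟩ := tree_iso h.tree h'.tree rfl (e6_met h) (e6_met h')
    (T := fun v => Big (D.leaf v)) (T' := fun v => Big (D'.leaf v)) hT e he
  -- (3)
  have hcard : ∀ v, (D'.leaf (f v)).card = (D.leaf v).card := by
    intro v
    have h3 : (D'.nbr (f v)).card = (D.nbr v).card := by
      symm
      refine Finset.card_bij (fun w _ => f w) ?_ ?_ ?_
      · intro w hw
        exact (adj_iff h' _ _).1 ((hf v w).2 ((adj_iff h v w).2 hw))
      · intro a _ c _ hac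
        exact f.injective hac
      · intro w hw
        obtain ⟨u, rfl⟩ := f.surjective w
        exact ⟨u, (adj_iff h v u).1 ((hf v u).1 ((adj_iff h' _ _).2 hw)), rfl⟩
    have h4 := ht v
    have h5 := ht' (f v)
    unfold Data.val at h4 h5
    omega
  have hleaf : ∀ v, D'.leaf (f v) = D.leaf v := by
    intro v
    by_cases hv : Big (D.leaf v)
    · have hfv : f v = e ⟨v, hv⟩ := hfe ⟨v, hv⟩
      have hbig : ((D.leaf v).filter fun p => 4 ≤ p) = (D'.leaf (f v)).filter fun p => 4 ≤ p := by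
        refine big_eq (nd v) (nd' (f v)) h12 (e6_dvd2 (hM v)) (e6_dvd2 (hM' (f v))) ?_
        rw [hfv]
        exact (hA ⟨v, hv⟩).symm
      have hc1 : ((D.leaf v).filter fun p => 4 ≤ p).card + ((D.leaf v).filter fun p => ¬ 4 ≤ p).card
          = (D.leaf v).card := Finset.card_filter_add_card_filter_not _
      have hc2 : ((D'.leaf (f v)).filter fun p => 4 ≤ p).card +
          ((D'.leaf (f v)).filter fun p => ¬ 4 ≤ p).card = (D'.leaf (f v)).card :=
        Finset.card_filter_add_card_filter_not _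
      have hc3 := hcard v
      have hc4 := (nd v).card
      have hc5 : 1 ≤ ((D.leaf v).filter fun p => 4 ≤ p).card := by
        obtain ⟨p, hp, hp4⟩ := hv
        exact Finset.card_pos.2 ⟨p, Finset.mem_filter.2 ⟨hp, hp4⟩⟩
      have hc6 : ((D'.leaf (f v)).filter fun p => 4 ≤ p).card =
          ((D.leaf v).filter fun p => 4 ≤ p).card := by rw [hbig]
      have hc7 : ((D'.leaf (f v)).filter fun p => ¬ 4 ≤ p).card =
          ((D.leaf v).filter fun p => ¬ 4 ≤ p).card := by omega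
      have hc8 : ((D.leaf v).filter fun p => ¬ 4 ≤ p).card ≤ 1 := by omega
      rcases Nat.lt_or_ge 0 ((D.leaf v).filter fun p => ¬ 4 ≤ p).card with hpos | hzero
      · have hs1 : ((D.leaf v).filter fun p => ¬ 4 ≤ p).card = 1 := by omega
        have hs2 : ((D'.leaf (f v)).filter fun p => ¬ 4 ≤ p).card = 1 := by omega
        have hs3 : ((D.leaf v).filter fun p => 4 ≤ p).card = 1 := by omega
        obtain ⟨a, ha⟩ := Finset.card_eq_one.1 hs1
        obtain ⟨a', ha'⟩ := Finset.card_eq_one.1 hs2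
        obtain ⟨P, hP⟩ := Finset.card_eq_one.1 hs3
        have hP' : ((D'.leaf (f v)).filter fun p => 4 ≤ p) = {P} := by rw [← hbig, hP]
        have hP4 : 4 ≤ P := by
          have h3 : P ∈ (D.leaf v).filter fun p => 4 ≤ p := by rw [hP]; simp
          exact (Finset.mem_filter.1 h3).2
        have hl1 := e6_split hP ha
        have hl2 := e6_split hP' ha'
        have h1' : ∀ g : (ZMod M)ˣ, (D.lk v v : ℝ) * (b (D.leaf v) (iv g) - b (D.leaf v) 1) =
            (D'.lk (f v) (f v) : ℝ) * (b (D'.leaf (f v)) (iv g) - b (D'.leaf (f v)) 1) := by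
          rw [hfv]
          exact h1 ⟨v, hv⟩
        rcases e6_small (h.two_le v) ha with rfl | rfl <;>
          rcases e6_small (h'.two_le (f v)) ha' with rfl | rfl
        · rw [hl1, hl2]
        · exact (e6_excl h h' ht ht' (hM v) hP4 hl1 hl2 h1').elim
        · exact (e6_excl h' h ht' ht (hM' (f v)) hP4 hl2 hl1 fun g => (h1' g).symm).elim
        · rw [hl1, hl2]
      · have hs1 : ((D.leaf v).filter fun p => ¬ 4 ≤ p) = ∅ := Finset.card_eq_zero.1 (by omega)
        have hs2 : ((D'.leaf (f v)).filter fun p => ¬ 4 ≤ p) = ∅ :=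
          Finset.card_eq_zero.1 (by omega)
        rw [← Finset.filter_union_filter_not_eq (fun p => 4 ≤ p) (D'.leaf (f v)),
          ← Finset.filter_union_filter_not_eq (fun p => 4 ≤ p) (D.leaf v), hs1, hs2, hbig]
    · have h3 : D.leaf v = ∅ := by
        by_contra hc
        exact hv (hL v (Finset.nonempty_iff_ne_empty.2 hc))
      have h4 := hcard v
      rw [h3, Finset.card_empty, Finset.card_eq_zero] at h4
      rw [h3, h4]
  refine ⟨f, hleaf, ?_⟩
  -- (4)
  have hself : ∀ v (hv : Big (D.leaf v)), D'.lk (f v) (f v) = D.lk v v := by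
    intro v hv
    have hfv : f v = e ⟨v, hv⟩ := hfe ⟨v, hv⟩
    obtain ⟨g, hg⟩ := b_ne (nd v) hv (fun p hp => e6_dvd (hM v) hp)
    have h3 := h1 ⟨v, hv⟩ g
    rw [← hfv, hleaf v] at h3
    have h4 := mul_right_cancel₀ (sub_ne_zero.2 hg) h3
    exact_mod_cast h4.symm
  have hne : ∀ v w (hv : Big (D.leaf v)) (hw : Big (D.leaf w)), v ≠ w →
      D'.lk (f v) (f w) = D.lk v w := by
    intro v w hv hw hvw
    have hfv : f v = e ⟨v, hv⟩ := hfe ⟨v, hv⟩
    have hfw : f w = e ⟨w, hw⟩ := hfe ⟨w, hw⟩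
    obtain ⟨g, hg⟩ := b_ne (nd v) hv (fun p hp => e6_dvd (hM v) hp)
    obtain ⟨k, hk⟩ := b_ne (nd w) hw (fun p hp => e6_dvd (hM w) hp)
    have h3 := h2 ⟨v, hv⟩ ⟨w, hw⟩ (fun hc => hvw (congrArg Subtype.val hc)) g k
    rw [← hfv, ← hfw, hleaf v, hleaf w] at h3
    have h4 := mul_right_cancel₀ (sub_ne_zero.2 hg) (mul_right_cancel₀ (sub_ne_zero.2 hk) h3)
    have h5 : D.lk v w ^ 2 = D'.lk (f v) (f w) ^ 2 := by exact_mod_cast h4
    exact (Nat.pow_left_injective two_ne_zero h5).symm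
  have hfin := wt_eq h (pull_splice f h') (by rw [Fintype.card_fin]; omega) ht
    (fun v => by rw [pull_val]; exact ht' _)
    (by
      ext v w
      rw [pull_graph]
      exact hf v w)
    (fun v => hleaf v)
    (fun v w hv hw => by
      rw [pull_lk]
      by_cases hvw : v = w
      · subst hvw
        exact hself v (hL v hv)
      · exact hne v w (hL v hv) (hL w hw) hvw)
  exact fun v w => hfin v w

end Pool.Agent.GT
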