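import Pool.Agent.SLR.L2

/-!
As `SLR.normal_form` (L2), with the weights: copy its proof (the diagram there is `wt v w = |wt v w|`).
-/

set_option autoImplicit false

open Finset

namespace Pool.Agent.GT

open Pool.Agent.OHG Pool.Agent.SLR

variable {V : Type} [Fintype V] [DecidableEq V]

/-- The data with the absolute values of the weights. -/
private def f1D (D : Data V) : OHT.Data V where
  leaf := D.leaf
  wt v w := (D.wt v w).natAbs

private theorem f1_adj {D : Data V} (h : D.IsGraph) (h0 : ∀ v, D.lk v v ≠ 0) (v w : V) :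
    D.graph.Adj v w ↔ D.wt v w ≠ 0 := by
  constructor
  · intro hvw hz
    have h1 := h0 v
    rw [lk_self h] at h1
    apply h1
    rw [Finset.prod_eq_zero (mem_nbr.2 hvw) hz, mul_zero]
  · intro hvw
    by_contra hn
    exact hvw (h.off v w fun hm => hn (mem_nbr.1 hm))

private theorem f1_graph {D : Data V} (h : D.IsGraph) (h0 : ∀ v, D.lk v v ≠ 0) :
    (f1D D).graph = D.graph := by
  ext v w
  simp only [OHT.Data.graph, f1D, SimpleGraph.fromRel_adj, ne_eq, Int.natAbs_eq_zero]
  constructor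
  · rintro ⟨-, h1 | h1⟩
    · exact (f1_adj h h0 v w).2 h1
    · exact ((f1_adj h h0 w v).2 h1).symm
  · intro h1
    exact ⟨h1.ne, Or.inl ((f1_adj h h0 v w).1 h1)⟩

private theorem f1_nbr {D : Data V} (h : D.IsGraph) (h0 : ∀ v, D.lk v v ≠ 0) (v : V) :
    (f1D D).nbr v = D.nbr v := by
  ext w
  rw [mem_nbr, f1_adj h h0]
  simp [OHT.Data.nbr, f1D]

private theorem f1_on {D : Data V} (h : D.IsGraph) (h0 : ∀ v, D.lk v v ≠ 0) (v w u : V) :
    (f1D D).On v w u ↔ D.On v w u := by
  unfold OHT.Data.On Data.On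
  rw [f1_graph h h0]

private theorem f1_lk {D : Data V} (h : D.IsGraph) (h0 : ∀ v, D.lk v v ≠ 0) (v w : V) :
    ((f1D D).lk v w : ℤ) = |D.lk v w| := by
  unfold OHT.Data.lk Data.lk
  rw [Finset.abs_prod]
  push_cast
  refine Finset.prod_congr ?_ fun u _ => ?_
  · ext u
    simp only [mem_filter, mem_univ, true_and]
    exact f1_on h h0 v w u
  · rw [abs_mul, abs_mul, Finset.abs_prod, Finset.abs_prod]
    have h1 : |D.sgn u| = 1 := by
      rcases h.sign u with h1 | h1 <;> rw [h1] <;> simp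
    rw [h1, one_mul]
    congr 1
    · refine Finset.prod_congr rfl fun k _ => ?_
      simp
    · refine Finset.prod_congr ?_ fun x _ => ?_
      · ext x
        simp only [mem_filter]
        rw [f1_nbr h h0, f1_on h h0]
      · simp [f1D]

private theorem f1_minor {s : ℤ} (hs : s = 1 ∨ s = -1) {P : Prime} (hP : Definite s P)
    {v w : Fin (P.n + 1)} (hvw : v ≠ w) :
    P.D.lk v w * P.D.lk v w < P.D.lk v v * P.D.lk w w := by
  have key : ∀ α β : ℝ, (α ≠ 0 ∨ β ≠ 0) →
      0 < (s : ℝ) * P.D.lk v v * α * α + 2 * ((s : ℝ) * P.D.lk v w * α * β) +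
        (s : ℝ) * P.D.lk w w * β * β := by
    intro α β hab
    have h1 := hP (fun u => (if u = v then α else 0) + (if u = w then β else 0)) (by
      intro h2
      rcases hab with h3 | h3
      · have := congrFun h2 v
        simp only [Pi.zero_apply, if_true, if_neg hvw, add_zero] at this
        exact h3 this
      · have := congrFun h2 w
        simp only [Pi.zero_apply, if_true, if_neg hvw.symm, zero_add] at this
        exact h3 this)
    refine h1.trans_le (le_of_eq ?_)
    have h4 : ∀ (c : Fin (P.n + 1) → Fin (P.n + 1) → ℝ),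
        ∑ a, ∑ b, c a b * ((if a = v then α else 0) + (if a = w then β else 0)) *
          ((if b = v then α else 0) + (if b = w then β else 0)) =
        c v v * α * α + c v w * α * β + c w v * β * α + c w w * β * β := by
      intro c
      simp only [mul_add, add_mul, mul_ite, ite_mul, mul_zero, zero_mul, Finset.sum_add_distrib,
        Finset.sum_ite_eq', Finset.mem_univ, if_true]
      ring
    rw [h4 (fun a b => (s : ℝ) * (P.D.lk a b : ℝ)), lk_comm P.D w v]
    ring
  have hs2 : (s : ℝ) * s = 1 := by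
    rcases hs with h | h <;> rw [h] <;> norm_num
  have hA := key 1 0 (Or.inl one_ne_zero)
  simp only [mul_one, mul_zero, add_zero] at hA
  have h2 := key (-((s : ℝ) * P.D.lk v w)) ((s : ℝ) * P.D.lk v v) (Or.inr hA.ne')
  have h3 : 0 < ((s : ℝ) * P.D.lk v v) * ((P.D.lk v v : ℝ) * P.D.lk w w -
      (P.D.lk v w : ℝ) * P.D.lk v w) := by
    refine h2.trans_le (le_of_eq ?_)
    have : (s : ℝ) * P.D.lk v v * (-((s : ℝ) * P.D.lk v w)) * (-((s : ℝ) * P.D.lk v w)) +
        2 * ((s : ℝ) * P.D.lk v w * (-((s : ℝ) * P.D.lk v w)) * ((s : ℝ) * P.D.lk v v)) +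
        (s : ℝ) * P.D.lk w w * ((s : ℝ) * P.D.lk v v) * ((s : ℝ) * P.D.lk v v) =
        ((s : ℝ) * s) * (((s : ℝ) * P.D.lk v v) * ((P.D.lk v v : ℝ) * P.D.lk w w -
      (P.D.lk v w : ℝ) * P.D.lk v w)) := by ring
    rw [this, hs2, one_mul]
  have h4 := (pos_iff_pos_of_mul_pos h3).1 hA
  have h5 : ((P.D.lk v w * P.D.lk v w : ℤ) : ℝ) < ((P.D.lk v v * P.D.lk w w : ℤ) : ℝ) := by
    push_cast
    linarith
  exact_mod_cast h5

theorem normal_form' {s : ℤ} (hs : s = 1 ∨ s = -1) {P : Prime} (hP : Definite s P) :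
    ∃ D' : OHT.Data (Fin (P.n + 1)), D'.IsSplice ∧ (∀ v, D'.leaf v = P.D.leaf v) ∧
      (∀ v, D'.val v = P.D.val v) ∧ (∀ v w, (D'.lk v w : ℤ) = |P.D.lk v w|) ∧
      ∀ v w, D'.wt v w = (P.D.wt v w).natAbs := by
  obtain ⟨ε, hε, hlk⟩ := lk_sign hs hP
  have h := P.isGraph
  have hne : ∀ v w, P.D.lk v w ≠ 0 := by
    intro v w h0
    have := hlk v w
    rw [h0, mul_zero] at this
    exact lt_irrefl _ this
  have h0 : ∀ v, P.D.lk v v ≠ 0 := fun v => hne v v
  refine ⟨f1D P.D, ?_, fun v => rfl, fun v => ?_, f1_lk h h0, fun v w => rfl⟩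
  swap
  · unfold OHT.Data.val Data.val
    rw [f1_nbr h h0]
    rfl
  have hnbr := f1_nbr h h0
  refine ⟨?_, ?_, ?_, h.two_le, h.coprime_leaf, ?_, ?_, ?_, ?_⟩
  · rw [f1_graph h h0]
    exact h.tree
  · intro v w hvw
    simp only [f1D, ne_eq, Int.natAbs_eq_zero] at hvw ⊢
    exact (f1_adj h h0 w v).1 ((f1_adj h h0 v w).2 hvw).symm
  · intro v
    by_contra hv
    have h1 : P.D.wt v v ≠ 0 := by simpa [f1D] using hv
    exact ((f1_adj h h0 v v).2 h1).ne rfl
  · intro v k hk w hw
    rw [hnbr] at hw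
    have := h.coprime_mixed v k hk w hw
    rw [Int.isCoprime_iff_gcd_eq_one] at this
    exact this
  · intro v w hw x hx hwx
    rw [hnbr] at hw hx
    have := h.coprime_edge v w hw x hx hwx
    rw [Int.isCoprime_iff_gcd_eq_one] at this
    exact this
  · intro v
    have h1 := h.three_le v
    unfold OHT.Data.val
    unfold Data.val at h1
    rw [hnbr]
    exact h1
  · intro v w hw
    rw [hnbr] at hw
    have hv : v ∈ P.D.nbr w := mem_nbr.2 (mem_nbr.1 hw).symm
    have h1 := f1_minor hs hP (mem_nbr.1 hw).ne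
    have h2 : P.D.lk v v = OHG.oth P.D v w * P.D.wt v w := by
      rw [lk_self h, OHG.oth, ← Finset.prod_erase_mul _ _ hw]
      ring
    have h3 : P.D.lk w w = OHG.oth P.D w v * P.D.wt w v := by
      rw [lk_self h, OHG.oth, ← Finset.prod_erase_mul _ _ hv]
      ring
    have h4 := lk_adj h hw
    have h5 : P.D.lk v w * P.D.lk v w < P.D.lk v w * (P.D.wt v w * P.D.wt w v) := by
      calc P.D.lk v w * P.D.lk v w < P.D.lk v v * P.D.lk w w := h1
        _ = P.D.lk v w * (P.D.wt v w * P.D.wt w v) := by rw [h2, h3, h4]; ring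
    have h6 : |P.D.lk v w| < |P.D.wt v w * P.D.wt w v| := by
      have h7 : |P.D.lk v w| * |P.D.lk v w| < |P.D.lk v w| * |P.D.wt v w * P.D.wt w v| := by
        rw [abs_mul_abs_self, ← abs_mul]
        exact h5.trans_le (le_abs_self _)
      exact lt_of_mul_lt_mul_left h7 (abs_nonneg _)
    have h8 : ((f1D P.D).lk v w : ℤ) < (((f1D P.D).wt v w * (f1D P.D).wt w v : ℕ) : ℤ) := by
      rw [f1_lk h h0]
      refine h6.trans_le (le_of_eq ?_)
      rw [abs_mul]
      simp [f1D]
    exact_mod_cast h8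

end Pool.Agent.GT
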