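import Pool.Agent.GPC.All
import Pool.Agent.SLR.All
import Pool.Agent.H46.GT.B5
import Pool.Agent.H46.GT.D2
import Pool.Agent.H46.GT.D3
import Pool.Agent.H46.GT.E6
import Pool.Agent.H46.GT.F1

/-!
The main theorem. By `GPC.determined` and `SLR.recognised`, `M' = {P'}`, `κ = κ'`, `P'.n = P.n`, `P'` is definite with the
same sign; `SLR.part_prod_eq` gives `part P.D = part P'.D`. If `P.n = 0` then `M' = {P}` (`determined`). Otherwise
`M = 12 ∏ ∏ p` over all leaf weights of both diagrams, `twisted` for all `s = iv g` (`iv_coprime`), `exists_equiv`,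
`extract`, `normal_form'` for both, `comb`.
-/

set_option autoImplicit false

open PowerSeries Finset

namespace Pool.Agent.GT

open Pool.Agent.OHG Pool.Agent.GPC Pool.Agent.SLR

/-- The same splice diagram, up to the signs. -/
def Same (P P' : Prime) : Prop :=
  ∃ f : Fin (P.n + 1) ≃ Fin (P'.n + 1), (∀ v, P'.D.leaf (f v) = P.D.leaf v) ∧
    ∀ v w, |P'.D.wt (f v) (f w)| = |P.D.wt v w|

private theorem f2_dvd {n : ℕ} (l : Fin (n + 1) → Finset ℕ) (K : ℕ) (v : Fin (n + 1)) :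
    12 * ∏ p ∈ l v, p ∣ 12 * (∏ w, ∏ p ∈ l w, p) * K := by
  have h1 : ∏ p ∈ l v, p ∣ ∏ w, ∏ p ∈ l w, p := Finset.dvd_prod_of_mem _ (mem_univ v)
  exact (mul_dvd_mul_left 12 h1).mul_right K

private theorem f2_two {M : ℕ} {l : Finset ℕ} (h : 12 * ∏ p ∈ l, p ∣ M) : 2 * ∏ p ∈ l, p ∣ M :=
  (mul_dvd_mul_right (by norm_num) _).trans h

private theorem f2_mem {M : ℕ} {l : Finset ℕ} (h : 12 * ∏ p ∈ l, p ∣ M) {p : ℕ} (hp : p ∈ l) :
    2 * p ∣ M :=
  (mul_dvd_mul_left 2 (Finset.dvd_prod_of_mem (fun p => p) hp)).trans (f2_two h)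

/-- The core: two diagrams with the same number `≥ 2` of nodes. -/
private theorem f2_core {s : ℤ} (hs : s = 1 ∨ s = -1) {n : ℕ} (hn : 1 ≤ n) {D D' : Data (Fin (n + 1))}
    (h : D.IsGraph) (h' : D'.IsGraph) (hd : Definite s ⟨n, D, h⟩) (hd' : Definite s ⟨n, D', h'⟩)
    (ht : Tri D) (ht' : Tri D') (hsp : Sparse D) (hsp' : Sparse D') (hl : Large D)
    (hp : part D = part D') : ∃ f : Fin (n + 1) ≃ Fin (n + 1), (∀ v, D'.leaf (f v) = D.leaf v) ∧
      ∀ v w, |D'.wt (f v) (f w)| = |D.wt v w| := by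
  classical
  set M : ℕ := 12 * (∏ w, ∏ p ∈ D.leaf w, p) * (∏ w, ∏ p ∈ D'.leaf w, p) with hM
  have hpos : ∀ (E : Data (Fin (n + 1))), E.IsGraph → 0 < ∏ w, ∏ p ∈ E.leaf w, p := fun E hE =>
    Finset.prod_pos fun w _ => Finset.prod_pos fun p hp => by
      have := hE.two_le w p hp
      omega
  have hM0 : M ≠ 0 := by
    have h1 := hpos D h
    have h2 := hpos D' h'
    positivity
  have : NeZero M := ⟨hM0⟩
  have h12 : 12 ∣ M := by
    rw [hM, mul_assoc]
    exact dvd_mul_right _ _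
  have hdv : ∀ v, 12 * ∏ p ∈ D.leaf v, p ∣ M := fun v => f2_dvd D.leaf _ v
  have hdv' : ∀ v, 12 * ∏ p ∈ D'.leaf v, p ∣ M := fun v => by
    have := f2_dvd D'.leaf (∏ w, ∏ p ∈ D.leaf w, p) v
    rw [hM]
    convert this using 1
    ring
  have hcop : ∀ (E : Data (Fin (n + 1))), E.IsGraph → (∀ v, 12 * ∏ p ∈ E.leaf v, p ∣ M) →
      ∀ g : (ZMod M)ˣ, Cop E (iv g) := by
    intro E _ hE g v
    have h1 := iv_coprime g
    refine ⟨?_, fun p hp => ?_⟩
    · have h2 : IsCoprime (iv g) 2 := h1.of_isCoprime_of_dvd_right (by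
        have : (2 : ℕ) ∣ M := dvd_trans (by norm_num) h12
        exact_mod_cast this)
      have h3 : ¬ (2 : ℤ) ∣ iv g := by
        intro h4
        have h5 := h2.isUnit_of_dvd' h4 dvd_rfl
        rw [Int.isUnit_iff] at h5
        omega
      rw [← Int.not_even_iff_odd]
      exact fun h4 => h3 h4.two_dvd
    · refine h1.of_isCoprime_of_dvd_right ?_
      have h2 : p ∣ M := (dvd_mul_left p 2).trans (f2_mem (hE v) hp)
      exact_mod_cast h2
  have htw := fun g : (ZMod M)ˣ => twisted hn h h' ht ht' hs hd hd' hp (hcop D h hdv g)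
    (hcop D' h' hdv' g)
  obtain ⟨e, he⟩ := exists_equiv hn h h' ht ht' hsp hsp' hs hd hd' h12 (fun v => f2_two (hdv v))
    (fun v => f2_two (hdv' v)) fun g => (htw g).2
  obtain ⟨h1, h2⟩ := extract hn h h' ht ht' hsp h12 (fun v p hp => f2_mem (hdv v) hp)
    (fun v p hp => f2_mem (hdv' v) hp) (fun g => (htw g).1) e he
  obtain ⟨⟨El, Ew⟩, hE, hEl, hEv, hEk, hEw⟩ := normal_form' hs hd
  obtain ⟨⟨El', Ew'⟩, hE', hEl', hEv', hEk', hEw'⟩ := normal_form' hs hd'
  have hEl1 : El = D.leaf := funext hEl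
  have hEl2 : El' = D'.leaf := funext hEl'
  subst hEl1
  subst hEl2
  set E : OHT.Data (Fin (n + 1)) := ⟨D.leaf, Ew⟩ with hEdef
  set E' : OHT.Data (Fin (n + 1)) := ⟨D'.leaf, Ew'⟩ with hEdef'
  -- the linking numbers up to sign
  have hsgn : ∀ (F : Data (Fin (n + 1))) (hF : F.IsGraph), Definite s ⟨n, F, hF⟩ → ∀ v,
      ((|F.lk v v| : ℤ) : ℝ) = (s : ℝ) * (F.lk v v : ℝ) := by
    intro F hF hdF v
    have h3 : 0 < (s : ℝ) * (F.lk v v : ℝ) := by
      have h4 := hdF (Pi.single v 1) (by simp)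
      have h5 : ∑ a, ∑ c, (s : ℝ) * (F.lk a c : ℝ) * (Pi.single v (1 : ℝ) : Fin (n + 1) → ℝ) a *
          (Pi.single v (1 : ℝ) : Fin (n + 1) → ℝ) c = (s : ℝ) * (F.lk v v : ℝ) := by
        rw [Finset.sum_eq_single v, Finset.sum_eq_single v]
        · simp
        · intro c _ hc
          simp [hc]
        · simp
        · intro a _ ha
          refine Finset.sum_eq_zero fun c _ => ?_
          simp [ha]
        · simp
      rwa [← h5]
    have h6 : (0 : ℝ) < ((s * F.lk v v : ℤ) : ℝ) := by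
      push_cast
      exact h3
    have h7 : 0 < s * F.lk v v := by exact_mod_cast h6
    have h8 : |F.lk v v| = s * F.lk v v := by
      rcases hs with rfl | rfl
      · rw [one_mul] at h7 ⊢
        exact abs_of_pos h7
      · rw [neg_one_mul] at h7 ⊢
        exact abs_of_neg (by linarith)
    rw [h8]
    push_cast
    ring
  have hkv : ∀ v, ((E.lk v v : ℕ) : ℝ) = (s : ℝ) * (D.lk v v : ℝ) := fun v => by
    rw [← hsgn D h hd v, ← hEk v v]
    push_cast
    rfl
  have hkv' : ∀ v, ((E'.lk v v : ℕ) : ℝ) = (s : ℝ) * (D'.lk v v : ℝ) := fun v => by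
    rw [← hsgn D' h' hd' v, ← hEk' v v]
    push_cast
    rfl
  have hsq : ∀ v w, ((E.lk v w : ℕ) : ℝ) ^ 2 = (D.lk v w : ℝ) ^ 2 := fun v w => by
    have h3 : ((E.lk v w : ℕ) : ℤ) ^ 2 = (D.lk v w) ^ 2 := by rw [hEk v w, sq_abs]
    exact_mod_cast h3
  have hsq' : ∀ v w, ((E'.lk v w : ℕ) : ℝ) ^ 2 = (D'.lk v w : ℝ) ^ 2 := fun v w => by
    have h3 : ((E'.lk v w : ℕ) : ℤ) ^ 2 = (D'.lk v w) ^ 2 := by rw [hEk' v w, sq_abs]
    exact_mod_cast h3
  obtain ⟨f, hf1, hf2⟩ := comb (D := E) (D' := E') hn hE hE' (fun v => (hEv v).trans (ht v))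
    (fun v => (hEv' v).trans (ht' v)) (fun v hv => hl v hv) h12 hdv hdv' e he
    (by
      intro v g
      have h3 := h1 v g
      rw [hkv, hkv', mul_assoc, mul_assoc]
      exact congrArg (fun x => (s : ℝ) * x) h3)
    (by
      intro v w hvw g k
      have h3 := h2 v w hvw g k
      rw [hsq, hsq']
      exact h3)
  refine ⟨f, hf1, fun v w => ?_⟩
  have h3 := hf2 v w
  rw [hEw, hEw'] at h3
  rw [← Int.natCast_natAbs, ← Int.natCast_natAbs]
  exact_mod_cast h3

theorem main {s : ℤ} (hs : s = 1 ∨ s = -1) {κ κ' : ℝ} {P : Prime} {M' : Multiset Prime}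
    (h : series κ {P} = series κ' M') (hd : Definite s P) (ht : Tri P.D) (hsp : Sparse P.D)
    (hl : Large P.D) (hM' : ∀ P' ∈ M', Tri P'.D ∧ Sparse P'.D) :
    κ = κ' ∧ ∃ P', M' = {P'} ∧ Definite s P' ∧ Same P P' := by
  obtain ⟨hc, hN, hκ, -, h0⟩ := determined κ κ' {P} M' h
  refine ⟨hκ, ?_⟩
  have hdef := (recognised hs h (by
    intro Q hQ
    rw [Multiset.mem_singleton] at hQ
    rw [hQ]
    exact hd)).1
  by_cases hn : P.n = 0
  · have h1 : ({P} : Multiset Prime) = M' := h0 (by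
      intro Q hQ
      rw [Multiset.mem_singleton] at hQ
      rw [hQ]
      exact hn)
    exact ⟨P, h1.symm, hd, Equiv.refl _, fun v => rfl, fun v w => rfl⟩
  · obtain ⟨P', rfl⟩ := Multiset.card_eq_one.1 (by
      rw [← hc, Multiset.card_singleton] : Multiset.card M' = 1)
    have hd' := hdef P' (Multiset.mem_singleton_self _)
    refine ⟨P', rfl, hd', ?_⟩
    have hp := part_prod_eq h
    rw [Multiset.map_singleton, Multiset.prod_singleton, Multiset.map_singleton,
      Multiset.prod_singleton] at hp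
    rw [Multiset.map_singleton, Multiset.sum_singleton, Multiset.map_singleton,
      Multiset.sum_singleton] at hN
    obtain ⟨ht', hsp'⟩ := hM' P' (Multiset.mem_singleton_self _)
    obtain ⟨n, D, hD⟩ := P
    obtain ⟨n', D', hD'⟩ := P'
    have hnn : n' = n := by
      simp only at hN
      omega
    subst hnn
    exact f2_core hs (Nat.one_le_iff_ne_zero.2 hn) hD hD' hd hd' ht ht' hsp hsp' hl hp

end Pool.Agent.GT
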